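import Mathlib

/-!
# Serre's question (FP) => (FF) as a decidability question: definitions

* `Rule`: affine rules `u + m z ↦ u' + a z` on `ℤ^5` (coordinatewise products);
* `Tog1`, `Tog2`: the two constructions on a group `G`, by their universal properties.
-/

set_option autoImplicit false

namespace Pool.Agent.SDec

/-- an affine rule on `ℤ^5` -/
structure Rule where
  u : Fin 5 → ℤ
  m : Fin 5 → ℤ
  u' : Fin 5 → ℤ
  a : Fin 5 → ℤ
  mpos : ∀ j, 0 < m j
  apos : ∀ j, 0 < a j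

/-- one application of a rule -/
def Rule.Rel (r : Rule) (v v' : Fin 5 → ℤ) : Prop :=
  ∃ z : Fin 5 → ℤ, v = r.u + r.m * z ∧ v' = r.u' + r.a * z

/-- one step of a rule system -/
def Step {R : ℕ} (ru : Fin R → Rule) (v v' : Fin 5 → ℤ) : Prop := ∃ i, (ru i).Rel v v'

/-- `Γ = ⟨D, G | [w, G] = 1⟩` -/
structure Tog1 {D G Γ : Type} [Group D] [Group G] [Group Γ] (w : D) (α : D →* Γ) (β : G →* Γ) :
    Prop where
  gen : α.range ⊔ β.range = ⊤
  comm : ∀ g, α w * β g = β g * α w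
  univ : ∀ (P : Type) [Group P] (f : D →* P) (h : G →* P), (∀ g, f w * h g = h g * f w) →
    ∃ F : Γ →* P, (∀ d, F (α d) = f d) ∧ ∀ g, F (β g) = h g

/-- `Γ = ⟨D, y, G | [w, G] = [y, G] = 1⟩` -/
structure Tog2 {D G Γ : Type} [Group D] [Group G] [Group Γ] (w : D) (α : D →* Γ) (y : Γ)
    (β : G →* Γ) : Prop where
  gen : α.range ⊔ β.range ⊔ Subgroup.zpowers y = ⊤
  comm : ∀ g, α w * β g = β g * α w
  commy : ∀ g, y * β g = β g * y
  univ : ∀ (P : Type) [Group P] (f : D →* P) (p : P) (h : G →* P),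
    (∀ g, f w * h g = h g * f w) → (∀ g, p * h g = h g * p) →
    ∃ F : Γ →* P, (∀ d, F (α d) = f d) ∧ F y = p ∧ ∀ g, F (β g) = h g

end Pool.Agent.SDec
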