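import Mathlib

/-!
# Extension of partial isomorphisms of free actions

`φ`, `ψ` are two free actions of `E` on a countable set `Ω`.  An equivariant bijection `σ` from a `φ`-invariant set `S` to a
`ψ`-invariant set `T` extends to an equivariant permutation of `Ω` if both complements contain infinitely many orbits.
-/

set_option autoImplicit false

namespace Pool.Agent.SDec

section
variable {E Ω : Type} [Group E]

/-- the action is free -/
def Free (φ : E →* Equiv.Perm Ω) : Prop := ∀ (e : E) (x : Ω), φ e x = x → e = 1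

/-- orbit equivalence -/
def orbS (φ : E →* Equiv.Perm Ω) : Setoid Ω where
  r x y := ∃ e, φ e x = y
  iseqv :=
    { refl := fun x => ⟨1, by simp⟩
      symm := by
        rintro x y ⟨e, rfl⟩
        exact ⟨e⁻¹, by simp⟩
      trans := by
        rintro x y z ⟨e, rfl⟩ ⟨f, rfl⟩
        exact ⟨f * e, by simp⟩ }

/-- representative of the orbit -/
noncomputable def orbRep (φ : E →* Equiv.Perm Ω) (x : Ω) : Ω :=
  (Quotient.mk (orbS φ) x).out

theorem orbRep_eq (φ : E →* Equiv.Perm Ω) (e : E) (x : Ω) : orbRep φ (φ e x) = orbRep φ x := by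
  have h : Quotient.mk (orbS φ) (φ e x) = Quotient.mk (orbS φ) x :=
    Quotient.sound ⟨e⁻¹, by simp⟩
  rw [orbRep, h, orbRep]

theorem orbRep_spec (φ : E →* Equiv.Perm Ω) (x : Ω) : ∃ e, φ e (orbRep φ x) = x :=
  Quotient.mk_out (s := orbS φ) x

theorem orbRep_idem (φ : E →* Equiv.Perm Ω) (x : Ω) : orbRep φ (orbRep φ x) = orbRep φ x := by
  obtain ⟨e, he⟩ := orbRep_spec φ x
  conv_rhs => rw [← he]
  rw [orbRep_eq]

/-- coordinate in the orbit -/
noncomputable def orbC (φ : E →* Equiv.Perm Ω) (x : Ω) : E := (orbRep_spec φ x).choose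

theorem orbC_spec (φ : E →* Equiv.Perm Ω) (x : Ω) : φ (orbC φ x) (orbRep φ x) = x :=
  (orbRep_spec φ x).choose_spec

theorem orbC_inv (φ : E →* Equiv.Perm Ω) (x : Ω) : φ (orbC φ x)⁻¹ x = orbRep φ x := by
  apply (φ (orbC φ x)).injective
  rw [orbC_spec, ← Equiv.Perm.mul_apply, ← map_mul, mul_inv_cancel, map_one, Equiv.Perm.one_apply]

theorem free_inj {φ : E →* Equiv.Perm Ω} (hφ : Free φ) {e f : E} {x : Ω} (h : φ e x = φ f x) :
    e = f := by
  have h1 : φ (f⁻¹ * e) x = x := by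
    rw [map_mul, Equiv.Perm.mul_apply, h, ← Equiv.Perm.mul_apply, ← map_mul]
    simp
  have h2 := hφ _ _ h1
  rwa [inv_mul_eq_one, eq_comm] at h2

theorem orbC_mul {φ : E →* Equiv.Perm Ω} (hφ : Free φ) (e : E) {x : Ω} (hx : orbRep φ x = x) :
    orbC φ (φ e x) = e := by
  have h1 := orbC_spec φ (φ e x)
  rw [orbRep_eq, hx] at h1
  exact free_inj hφ h1

theorem orbC_act {φ : E →* Equiv.Perm Ω} (hφ : Free φ) (e : E) (x : Ω) :
    orbC φ (φ e x) = e * orbC φ x := by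
  have h1 := orbC_spec φ (φ e x)
  rw [orbRep_eq] at h1
  apply free_inj hφ (x := orbRep φ x)
  rw [h1, map_mul, Equiv.Perm.mul_apply, orbC_spec]

theorem ext_iso [Countable Ω] (φ ψ : E →* Equiv.Perm Ω) (hφ : Free φ) (hψ : Free ψ)
    (S T : Set Ω) (hS : ∀ e, ∀ x ∈ S, φ e x ∈ S) (hT : ∀ e, ∀ x ∈ T, ψ e x ∈ T)
    (σ : Ω → Ω) (hσ : Set.BijOn σ S T) (hσe : ∀ e, ∀ x ∈ S, σ (φ e x) = ψ e (σ x))
    (s t : ℕ → Ω) (hs : ∀ i, s i ∉ S) (ht : ∀ i, t i ∉ T)
    (hs' : ∀ i j e, φ e (s i) = s j → i = j) (ht' : ∀ i j e, ψ e (t i) = t j → i = j) :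
    ∃ p : Equiv.Perm Ω, (∀ x ∈ S, p x = σ x) ∧ ∀ e x, p (φ e x) = ψ e (p x) := by
  classical
  have hS' : ∀ e x, φ e x ∈ S ↔ x ∈ S := by
    intro e x
    constructor
    · intro h
      have h1 := hS e⁻¹ _ h
      rwa [← Equiv.Perm.mul_apply, ← map_mul, inv_mul_cancel, map_one, Equiv.Perm.one_apply] at h1
    · exact hS e x
  have hT' : ∀ e x, ψ e x ∈ T ↔ x ∈ T := by
    intro e x
    constructor
    · intro h
      have h1 := hT e⁻¹ _ h
      rwa [← Equiv.Perm.mul_apply, ← map_mul, inv_mul_cancel, map_one, Equiv.Perm.one_apply] at h1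
    · exact hT e x
  have repS : ∀ x, orbRep φ x ∈ S ↔ x ∈ S := by
    intro x
    conv_rhs => rw [← orbC_spec φ x, hS']
  have repT : ∀ x, orbRep ψ x ∈ T ↔ x ∈ T := by
    intro x
    conv_rhs => rw [← orbC_spec ψ x, hT']
  let RS := {x : Ω // orbRep φ x = x ∧ x ∉ S}
  let RT := {x : Ω // orbRep ψ x = x ∧ x ∉ T}
  have iS : Infinite RS := by
    refine Infinite.of_injective (fun i : ℕ => (⟨orbRep φ (s i), orbRep_idem φ _, fun h =>
      hs i ((repS _).1 h)⟩ : RS)) ?_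
    intro i j h
    have h1 : orbRep φ (s i) = orbRep φ (s j) := congrArg Subtype.val h
    apply hs' i j (orbC φ (s j) * (orbC φ (s i))⁻¹)
    rw [map_mul, Equiv.Perm.mul_apply, orbC_inv, h1, orbC_spec]
  have iT : Infinite RT := by
    refine Infinite.of_injective (fun i : ℕ => (⟨orbRep ψ (t i), orbRep_idem ψ _, fun h =>
      ht i ((repT _).1 h)⟩ : RT)) ?_
    intro i j h
    have h1 : orbRep ψ (t i) = orbRep ψ (t j) := congrArg Subtype.val h
    apply ht' i j (orbC ψ (t j) * (orbC ψ (t i))⁻¹)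
    rw [map_mul, Equiv.Perm.mul_apply, orbC_inv, h1, orbC_spec]
  obtain ⟨b⟩ : Nonempty (RS ≃ RT) := nonempty_equiv_of_countable
  have hrs : ∀ x, x ∉ S → orbRep φ (orbRep φ x) = orbRep φ x ∧ orbRep φ x ∉ S := fun x hx =>
    ⟨orbRep_idem φ x, fun h => hx ((repS x).1 h)⟩
  let f : Ω → Ω := fun x => if hx : x ∈ S then σ x else
    ψ (orbC φ x) (b ⟨orbRep φ x, hrs x hx⟩).1
  have f1 : ∀ x ∈ S, f x = σ x := fun x hx => dif_pos hx
  have f2 : ∀ x (hx : x ∉ S), f x = ψ (orbC φ x) (b ⟨orbRep φ x, hrs x hx⟩).1 :=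
    fun x hx => dif_neg hx
  have f3 : ∀ x, x ∉ S → f x ∉ T := by
    intro x hx
    rw [f2 x hx, hT']
    exact (b _).2.2
  have finj : Function.Injective f := by
    intro x y hxy
    by_cases hx : x ∈ S
    · by_cases hy : y ∈ S
      · rw [f1 x hx, f1 y hy] at hxy
        exact hσ.injOn hx hy hxy
      · exfalso
        apply f3 y hy
        rw [← hxy, f1 x hx]
        exact hσ.mapsTo hx
    · by_cases hy : y ∈ S
      · exfalso
        apply f3 x hx
        rw [hxy, f1 y hy]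
        exact hσ.mapsTo hy
      · rw [f2 x hx, f2 y hy] at hxy
        have h1 : (b ⟨orbRep φ x, hrs x hx⟩).1 = (b ⟨orbRep φ y, hrs y hy⟩).1 := by
          have h2 := congrArg (orbRep ψ) hxy
          rwa [orbRep_eq, orbRep_eq, (b _).2.1, (b _).2.1] at h2
        have h3 : orbRep φ x = orbRep φ y := by
          have := b.injective (Subtype.ext h1)
          exact congrArg Subtype.val this
        rw [h1] at hxy
        have h4 := free_inj hψ hxy
        rw [← orbC_spec φ x, ← orbC_spec φ y, h3, h4]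
  have fsurj : Function.Surjective f := by
    intro y
    by_cases hy : y ∈ T
    · obtain ⟨x, hx, rfl⟩ := hσ.surjOn hy
      exact ⟨x, f1 x hx⟩
    · let r : RS := b.symm ⟨orbRep ψ y, orbRep_idem ψ y, fun h => hy ((repT y).1 h)⟩
      have hx : φ (orbC ψ y) r.1 ∉ S := by
        rw [hS']
        exact r.2.2
      refine ⟨φ (orbC ψ y) r.1, ?_⟩
      rw [f2 _ hx]
      have h1 : orbRep φ (φ (orbC ψ y) r.1) = r.1 := by rw [orbRep_eq, r.2.1]
      have h2 : (⟨orbRep φ (φ (orbC ψ y) r.1), hrs _ hx⟩ : RS) = r := Subtype.ext h1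
      rw [h2, orbC_mul hφ _ r.2.1, Equiv.apply_symm_apply]
      exact orbC_spec ψ y
  refine ⟨Equiv.ofBijective f ⟨finj, fsurj⟩, fun x hx => f1 x hx, ?_⟩
  intro e x
  change f (φ e x) = ψ e (f x)
  by_cases hx : x ∈ S
  · rw [f1 _ (hS e x hx), f1 x hx, hσe e x hx]
  · have hx' : φ e x ∉ S := by rwa [hS']
    rw [f2 _ hx', f2 x hx]
    have h2 : (⟨orbRep φ (φ e x), hrs _ hx'⟩ : RS) = ⟨orbRep φ x, hrs _ hx⟩ :=
      Subtype.ext (orbRep_eq φ e x)
    rw [h2, orbC_act hφ, map_mul, Equiv.Perm.mul_apply]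

/-- the same for images of injective maps from one `E`-set `Y` -/
theorem ext_iso2 {Y : Type} [Countable Ω] (φ ψ : E →* Equiv.Perm Ω) (hφ : Free φ) (hψ : Free ψ)
    (l : E → Y → Y) (jB jA : Y → Ω) (hB : Function.Injective jB) (hA : Function.Injective jA)
    (h1 : ∀ e y, φ e (jB y) = jB (l e y)) (h2 : ∀ e y, ψ e (jA y) = jA (l e y))
    (s t : ℕ → Ω) (hs : ∀ i, s i ∉ Set.range jB) (ht : ∀ i, t i ∉ Set.range jA)
    (hs' : ∀ i j e, φ e (s i) = s j → i = j) (ht' : ∀ i j e, ψ e (t i) = t j → i = j) :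
    ∃ p : Equiv.Perm Ω, (∀ y, p (jB y) = jA y) ∧ ∀ e x, p (φ e x) = ψ e (p x) := by
  obtain ⟨p, hp1, hp2⟩ := ext_iso φ ψ hφ hψ (Set.range jB) (Set.range jA)
    (by rintro e _ ⟨y, rfl⟩; exact ⟨_, (h1 e y).symm⟩)
    (by rintro e _ ⟨y, rfl⟩; exact ⟨_, (h2 e y).symm⟩)
    (Function.extend jB jA id)
    ⟨by rintro _ ⟨y, rfl⟩; rw [hB.extend_apply]; exact ⟨y, rfl⟩,
      by
        rintro _ ⟨y, rfl⟩ _ ⟨y', rfl⟩ h
        rw [hB.extend_apply, hB.extend_apply] at h
        rw [hA h],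
      by rintro _ ⟨y, rfl⟩; exact ⟨jB y, ⟨y, rfl⟩, hB.extend_apply _ _ _⟩⟩
    (by rintro e _ ⟨y, rfl⟩; rw [h1, hB.extend_apply, hB.extend_apply, h2])
    s t hs ht hs' ht'
  refine ⟨p, fun y => ?_, hp2⟩
  rw [hp1 _ ⟨y, rfl⟩, hB.extend_apply]

/-- two free actions with infinitely many orbits are conjugate -/
theorem conj_free [Countable Ω] (φ ψ : E →* Equiv.Perm Ω) (hφ : Free φ) (hψ : Free ψ)
    (s t : ℕ → Ω) (hs' : ∀ i j e, φ e (s i) = s j → i = j)
    (ht' : ∀ i j e, ψ e (t i) = t j → i = j) :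
    ∃ p : Equiv.Perm Ω, ∀ e, p * φ e = ψ e * p := by
  obtain ⟨p, -, hp⟩ := ext_iso φ ψ hφ hψ ∅ ∅ (by simp) (by simp) id
    (Set.bijOn_empty _) (by simp) s t (by simp) (by simp) hs' ht'
  exact ⟨p, fun e => Equiv.ext fun x => hp e x⟩

end

end Pool.Agent.SDec
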