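import Pool.Agent.SDec.Push
import Pool.Agent.SDec.FreeAct
import Pool.Agent.Hhelper49.Srf.Final

/-!
# HNN extensions

`hnn_step`: for injective `kA kB : E →* G` there is a group `G'` containing `G` and `r` with `r⁻¹ kA(e) r = kB(e)`, to which
homomorphisms extend; `G'` is finitely presented of type (FF) if `G`, `E` are.  (`G'` is the free product of the HNN
extension with an infinite cyclic group.)
-/

set_option autoImplicit false

namespace Pool.Agent.SDec

open Pool.Agent.Hhelper49.Srf Pool.Agent.Hhelper49.Srr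

/-- finitely presented of type (FF) -/
structure Nice (G : Type) [Group G] : Prop where
  ff : TypeFF G
  fp : Group.IsFinitelyPresented G

theorem fg_of_fpres (G : Type) [Group G] (h : Group.IsFinitelyPresented G) : Group.FG G := by
  obtain ⟨n, φ, hφ, -⟩ := h.out
  exact Group.fg_of_surjective hφ

theorem countable_of_fpres (G : Type) [Group G] (h : Group.IsFinitelyPresented G) :
    Countable G := by
  obtain ⟨n, φ, hφ, -⟩ := h.out
  exact hφ.countable

theorem nice_free (n : ℕ) : Nice (FreeGroup (Fin n)) := by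
  obtain ⟨f, g, hf, hg, hfg⟩ := free_exact n
  exact ⟨typeFF_of_ff _ (ff_coker f g hf hg hfg ⟨0, inferInstance, inferInstance⟩
    ⟨0, inferInstance, inferInstance⟩), inferInstance⟩

theorem nice_int : Nice (Multiplicative ℤ) := ⟨typeFF_int, inferInstance⟩

theorem ispush_hom_ext {A B C Γ : Type} [Group A] [Group B] [Group C] [Group Γ] {α : A →* Γ}
    {β : B →* Γ} {κ : C →* A} {ι : C →* B} (h : IsPush α β κ ι) {P : Type} [Group P]
    {F F' : Γ →* P} (h1 : ∀ a, F (α a) = F' (α a)) (h2 : ∀ b, F (β b) = F' (β b)) :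
    ∀ x, F x = F' x := by
  intro x
  have h3 : α.range ⊔ β.range ≤ MonoidHom.eqLocus F F' := by
    refine sup_le ?_ ?_
    · rintro _ ⟨a, rfl⟩
      exact h1 a
    · rintro _ ⟨b, rfl⟩
      exact h2 b
  rw [h.gen] at h3
  exact h3 (Subgroup.mem_top x)

/-- the trivial homomorphism -/
abbrev triv0 (A : Type) [Group A] : FreeGroup (Fin 0) →* A := 1

theorem triv0_inj (A : Type) [Group A] : Function.Injective (triv0 A) :=
  fun _ _ _ => Subsingleton.elim _ _

/-- free products -/
theorem coprod_nice (A B : Type) [Group A] [Group B] (hA : Nice A) (hB : Nice B) :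
    ∃ (Γ : Type) (_ : Group Γ) (α : A →* Γ) (β : B →* Γ), Nice Γ ∧ Function.Injective α ∧
      Function.Injective β ∧ IsPush α β (triv0 A) (triv0 B) := by
  obtain ⟨Γ, iΓ, α, β, S, h1, h2⟩ := push2 A B (FreeGroup (Fin 0)) (triv0 A) (triv0 B)
    (triv0_inj A) (triv0_inj B)
  exact ⟨Γ, iΓ, α, β, ⟨amal_ff h1 hA.ff hB.ff (nice_free 0).ff,
    fpres_push h2 hA.fp hB.fp (fg_of_fpres _ (nice_free 0).fp)⟩, h1.injA, h1.injB, h2⟩

/-- left multiplication on `X × ℕ` -/
def regN (X : Type) [Group X] : X →* Equiv.Perm (X × ℕ) where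
  toFun x :=
    { toFun := fun p => (x * p.1, p.2)
      invFun := fun p => (x⁻¹ * p.1, p.2)
      left_inv := fun p => by simp
      right_inv := fun p => by simp }
  map_one' := by
    ext p <;> simp
  map_mul' x y := by
    ext p <;> simp [mul_assoc]

theorem regN_apply (X : Type) [Group X] (x : X) (p : X × ℕ) : regN X x p = (x * p.1, p.2) := rfl

theorem regN_free {X E : Type} [Group X] [Group E] (b : E →* X) (hb : Function.Injective b) :
    Free ((regN X).comp b) := by
  intro e p h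
  have h1 : b e * p.1 = p.1 := congrArg Prod.fst h
  have h2 : b e = 1 := by simpa using h1
  exact hb (h2.trans (map_one b).symm)

theorem regN_conj {X E : Type} [Group X] [Group E] [Countable X] (b c : E →* X)
    (hb : Function.Injective b) (hc : Function.Injective c) :
    ∃ p : Equiv.Perm (X × ℕ), ∀ e, p * regN X (b e) = regN X (c e) * p :=
  conj_free ((regN X).comp b) ((regN X).comp c) (regN_free b hb) (regN_free c hc)
    (fun i => (1, i)) (fun i => (1, i)) (fun _ _ _ h => congrArg Prod.snd h)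
    (fun _ _ _ h => congrArg Prod.snd h)

theorem regN_inj (X : Type) [Group X] : Function.Injective (regN X) := by
  intro x y h
  have h1 : regN X x (1, 0) = regN X y (1, 0) := by rw [h]
  rw [regN_apply, regN_apply] at h1
  simpa using congrArg Prod.fst h1

theorem hnn_step {G E : Type} [Group G] [Group E] (hG : Nice G) (hE : Nice E) (kA kB : E →* G)
    (hA : Function.Injective kA) (hB : Function.Injective kB) :
    ∃ (G' : Type) (_ : Group G') (j : G →* G') (r : G'), Function.Injective j ∧ Nice G' ∧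
      (∀ e, r⁻¹ * j (kA e) * r = j (kB e)) ∧
      ∀ (P : Type) [Group P] (f : G →* P) (p : P), (∀ e, p⁻¹ * f (kA e) * p = f (kB e)) →
        ∃ F : G' →* P, (∀ g, F (j g) = f g) ∧ F r = p := by
  obtain ⟨X, iX, a, b, hX, ha, hb, hXp⟩ := coprod_nice G E hG hE
  obtain ⟨B, iB, c, d, hBn, hc, hd, hBp⟩ := coprod_nice G (Multiplicative ℤ) hG nice_int
  have _ : Countable X := countable_of_fpres X hX.fp
  let u : B := d (Multiplicative.ofAdd 1)
  have hu : ∀ (P : Type) [Group P] (f : G →* P) (p : P), ∃ F : B →* P, (∀ g, F (c g) = f g) ∧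
      F u = p := by
    intro P _ f p
    obtain ⟨F, h1, h2⟩ := hBp.univ P f (zpowersHom P p) (fun x => by simp)
    refine ⟨F, h1, ?_⟩
    have h3 := h2 (Multiplicative.ofAdd 1)
    rw [zpowersHom_apply, toAdd_ofAdd, zpow_one] at h3
    exact h3
  have key : ∀ k : E →* G, Function.Injective k → ∃ α : X →* B, Function.Injective α ∧
      (∀ g, α (a g) = c g) ∧ ∀ e, α (b e) = u⁻¹ * c (k e) * u := by
    intro k hk
    obtain ⟨α, h1, h2⟩ := hXp.univ B c ((MulAut.conj u⁻¹).toMonoidHom.comp (c.comp k))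
      (fun x => by simp)
    have h2' : ∀ e, α (b e) = u⁻¹ * c (k e) * u := by
      intro e
      rw [h2]
      change u⁻¹ * c (k e) * u⁻¹⁻¹ = u⁻¹ * c (k e) * u
      rw [inv_inv]
    refine ⟨α, ?_, h1, h2'⟩
    obtain ⟨p, hp⟩ := regN_conj b (a.comp k) hb (ha.comp hk)
    obtain ⟨F, h3, h4⟩ := hu (Equiv.Perm (X × ℕ)) ((regN X).comp a) p
    have h5 : ∀ x, (F.comp α) x = regN X x := by
      apply ispush_hom_ext hXp
      · intro g
        rw [MonoidHom.comp_apply, h1, h3]
        rfl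
      · intro e
        rw [MonoidHom.comp_apply, h2', map_mul, map_mul, map_inv, h3, h4]
        have h6 := hp e
        change p⁻¹ * regN X (a (k e)) * p = regN X (b e)
        rw [mul_assoc]
        have h7 : regN X (a (k e)) * p = p * regN X (b e) := h6.symm
        rw [h7, inv_mul_cancel_left]
    intro x y hxy
    apply regN_inj X
    rw [← h5, ← h5, MonoidHom.comp_apply, MonoidHom.comp_apply, hxy]
  obtain ⟨α, hα, hα1, hα2⟩ := key kA hA
  obtain ⟨β, hβ, hβ1, hβ2⟩ := key kB hB
  obtain ⟨Γ, iΓ, αΓ, βΓ, S, hAm, hP⟩ := push2 B B X α β hα hβ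
  have e1 : ∀ g, αΓ (c g) = βΓ (c g) := by
    intro g
    have := hP.comm (a g)
    rwa [hα1, hβ1] at this
  refine ⟨Γ, iΓ, αΓ.comp c, αΓ u * (βΓ u)⁻¹, hAm.injA.comp hc, ⟨amal_ff hAm hBn.ff hBn.ff hX.ff,
    fpres_push hP hBn.fp hBn.fp (fg_of_fpres _ hX.fp)⟩, ?_, ?_⟩
  · intro e
    have h1 := hP.comm (b e)
    rw [hα2, hβ2, map_mul, map_mul, map_inv, map_mul, map_mul, map_inv] at h1
    change (αΓ u * (βΓ u)⁻¹)⁻¹ * αΓ (c (kA e)) * (αΓ u * (βΓ u)⁻¹) = αΓ (c (kB e))
    rw [e1 (kB e)]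
    have h2 : (αΓ u * (βΓ u)⁻¹)⁻¹ * αΓ (c (kA e)) * (αΓ u * (βΓ u)⁻¹) =
        βΓ u * ((αΓ u)⁻¹ * αΓ (c (kA e)) * αΓ u) * (βΓ u)⁻¹ := by group
    rw [h2, h1]
    group
  · intro P _ f p hp
    obtain ⟨F1, h1, h2⟩ := hu P f p
    obtain ⟨F2, h3, h4⟩ := hu P f 1
    have h5 : ∀ x, (F1.comp α) x = (F2.comp β) x := by
      apply ispush_hom_ext hXp
      · intro g
        rw [MonoidHom.comp_apply, MonoidHom.comp_apply, hα1, hβ1, h1, h3]
      · intro e
        rw [MonoidHom.comp_apply, MonoidHom.comp_apply, hα2, hβ2, map_mul, map_mul, map_inv,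
          map_mul, map_mul, map_inv, h1, h2, h3, h4, hp e]
        simp
    obtain ⟨F, h6, h7⟩ := hP.univ P F1 F2 h5
    refine ⟨F, ?_, ?_⟩
    · intro g
      change F (αΓ (c g)) = f g
      rw [h6, h1]
    · rw [map_mul, map_inv, h6, h7, h2, h4, inv_one, mul_one]

/-- several HNN extensions -/
theorem hnn_multi {E : Type} [Group E] (hE : Nice E) (n : ℕ) : ∀ {G : Type} [Group G], Nice G →
    ∀ (kA kB : Fin n → (E →* G)), (∀ i, Function.Injective (kA i)) →
    (∀ i, Function.Injective (kB i)) →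
    ∃ (G' : Type) (_ : Group G') (j : G →* G') (r : Fin n → G'), Function.Injective j ∧ Nice G' ∧
      (∀ i e, (r i)⁻¹ * j (kA i e) * r i = j (kB i e)) ∧
      ∀ (P : Type) [Group P] (f : G →* P) (p : Fin n → P),
        (∀ i e, (p i)⁻¹ * f (kA i e) * p i = f (kB i e)) →
        ∃ F : G' →* P, (∀ g, F (j g) = f g) ∧ ∀ i, F (r i) = p i := by
  induction n with
  | zero =>
    intro G _ hG kA kB _ _
    exact ⟨G, inferInstance, MonoidHom.id G, Fin.elim0, Function.injective_id, hG,
      fun i => i.elim0, fun P _ f p _ => ⟨f, fun g => rfl, fun i => i.elim0⟩⟩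
  | succ n ih =>
    intro G _ hG kA kB hA hB
    obtain ⟨G1, i1, j1, r1, h1, h2, h3, h4⟩ := ih hG (fun i => kA i.castSucc)
      (fun i => kB i.castSucc) (fun i => hA _) (fun i => hB _)
    obtain ⟨G2, i2, j2, r2, k1, k2, k3, k4⟩ := hnn_step h2 hE (j1.comp (kA (Fin.last n)))
      (j1.comp (kB (Fin.last n))) (h1.comp (hA _)) (h1.comp (hB _))
    refine ⟨G2, i2, j2.comp j1, Fin.snoc (fun i => j2 (r1 i)) r2, k1.comp h1, k2, ?_, ?_⟩
    · intro i
      refine Fin.lastCases ?_ ?_ i
      · intro e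
        rw [Fin.snoc_last]
        exact k3 e
      · intro i e
        rw [Fin.snoc_castSucc]
        change (j2 (r1 i))⁻¹ * j2 (j1 (kA i.castSucc e)) * j2 (r1 i) = j2 (j1 (kB i.castSucc e))
        rw [← map_inv, ← map_mul, ← map_mul, h3 i e]
    · intro P _ f p hp
      obtain ⟨F1, l1, l2⟩ := h4 P f (fun i => p i.castSucc) (fun i e => hp _ e)
      obtain ⟨F2, l3, l4⟩ := k4 P F1 (p (Fin.last n)) (fun e => by
        change (p (Fin.last n))⁻¹ * F1 (j1 _) * p (Fin.last n) = F1 (j1 _)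
        rw [l1, l1]
        exact hp _ e)
      refine ⟨F2, fun g => ?_, fun i => ?_⟩
      · change F2 (j2 (j1 g)) = f g
        rw [l3, l1]
      · refine Fin.lastCases ?_ ?_ i
        · rw [Fin.snoc_last, l4]
        · intro i
          rw [Fin.snoc_castSucc, l3, l2]

end Pool.Agent.SDec
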