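import Pool.Agent.Hhelper49.Srf.AmalF
import Pool.Agent.Hhelper49.Srf.Final
import Pool.Agent.Hhelper49.Srd.ResF
import Pool.Agent.SFP.Fin2
import Pool.Agent.SDec.Defs
import Pool.Agent.SDec.Hnn

/-!
# Amalgams with retractions
-/

set_option autoImplicit false

namespace Pool.Agent.SDec

open Pool.Agent.Hhelper49.Srr Pool.Agent.Hhelper49.Srf Pool.Agent.SFP

section
variable {A B C Γ : Type} [Group A] [Group B] [Group C] [Group Γ]
  {α : A →* Γ} {β : B →* Γ} {κ : C →* A} {ι : C →* B} {S : Set Γ}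

/-- retraction to the vertex group `A` -/
theorem amal_retA (h : Amal α β κ ι S) (hA : TypeFP A) (hB : TypeFF B) (hC : TypeFF C)
    (r : Γ →* A) (hr : ∀ a, r (α a) = a) (m : ℕ) : FreeRes m Γ ↔ FreeRes m A := by
  obtain ⟨f, g, hf, hg, hfg⟩ := amal_exact h
  have hB' := ind_ff h.injB _ _ (ind_perm β) (ff_of_typeFF B hB)
  have hC' := ind_ff (amal_injC h) _ _ (ind_perm (α.comp κ)) (ff_of_typeFF C hC)
  have hBm : FF (MonoidAlgebra ℤ Γ) (Fin m → PermF Γ (Γ ⧸ β.range)) :=
    ff_pi (fun _ => PermF Γ (Γ ⧸ β.range)) fun _ => hB'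
  have hCm : FF (MonoidAlgebra ℤ Γ) (Fin m → PermF Γ (Γ ⧸ (α.comp κ).range)) :=
    ff_pi (fun _ => PermF Γ (Γ ⧸ (α.comp κ).range)) fun _ => hC'
  have hAi : Induced α (Fin m → Triv A) (Fin m → PermF Γ (Γ ⧸ α.range)) :=
    ind_pi _ _ m (ind_perm α)
  have hAp : FP (MonoidAlgebra ℤ A) (Fin m → Triv A) :=
    fp_pi (fun _ => Triv A) fun _ => fp_of_typeFP A hA
  rw [freeRes_iff, freeRes_iff]
  constructor
  · intro h1
    have h2 := ffm_ext m f g hf hg hfg hCm h1
    have h3 := ff_left (ff_iso (piProdEquiv (MonoidAlgebra ℤ Γ) m _ _) h2) hBm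
    exact ind_reduce h.injA _ _ (desc_ret α r hr) hAp hAi h3
  · intro h1
    have h2 := ind_ff h.injA _ _ hAi h1
    have h3 := ff_iso (piProdEquiv (MonoidAlgebra ℤ Γ) m _ _).symm (ff_prod h2 hBm)
    exact ffm_coker m f g hf hg hfg hCm h3

/-- retraction to the edge group `C` -/
theorem amal_retC (h : Amal α β κ ι S) (hA : TypeFF A) (hB : TypeFF B) (hC : TypeFP C)
    (r : Γ →* C) (hr : ∀ c, r (α (κ c)) = c) (m : ℕ) : FreeRes m Γ ↔ FreeRes m C := by
  obtain ⟨f, g, hf, hg, hfg⟩ := amal_exact h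
  have hA' := ind_ff h.injA _ _ (ind_perm α) (ff_of_typeFF A hA)
  have hB' := ind_ff h.injB _ _ (ind_perm β) (ff_of_typeFF B hB)
  have hABm : FF (MonoidAlgebra ℤ Γ)
      (Fin m → PermF Γ (Γ ⧸ α.range) × PermF Γ (Γ ⧸ β.range)) :=
    ff_pi (fun _ => PermF Γ (Γ ⧸ α.range) × PermF Γ (Γ ⧸ β.range)) fun _ => ff_prod hA' hB'
  have hCi : Induced (α.comp κ) (Fin m → Triv C)
      (Fin m → PermF Γ (Γ ⧸ (α.comp κ).range)) := ind_pi _ _ m (ind_perm (α.comp κ))
  have hCp : FP (MonoidAlgebra ℤ C) (Fin m → Triv C) :=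
    fp_pi (fun _ => Triv C) fun _ => fp_of_typeFP C hC
  rw [freeRes_iff, freeRes_iff]
  constructor
  · intro h1
    have h2 := ffm_ker m f g hf hg hfg hABm h1
    exact ind_reduce (amal_injC h) _ _ (desc_ret (α.comp κ) r hr) hCp hCi h2
  · intro h1
    have h2 := ind_ff (amal_injC h) _ _ hCi h1
    exact ffm_coker m f g hf hg hfg h2 hABm

end

/-- a group with the universal property of a pushout is an amalgam -/
theorem amal_of_univ {A B C Γ : Type} [Group A] [Group B] [Group C] [Group Γ]
    {α : A →* Γ} {β : B →* Γ} {κ : C →* A} {ι : C →* B} (hκ : Function.Injective κ)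
    (hι : Function.Injective ι) (hp : IsPush α β κ ι) :
    ∃ S : Set Γ, Amal α β κ ι S := by
  obtain ⟨Γ', iΓ', α', β', S', h, hu⟩ := push2 A B C κ ι hκ hι
  obtain ⟨F, hF1, hF2⟩ := hp.univ Γ' α' β' h.comm
  obtain ⟨F', hF1', hF2'⟩ := hu.univ Γ α β hp.comm
  have gen := hp.gen
  have h1 : ∀ x, F' (F x) = x := by
    have : (F'.comp F) = MonoidHom.id Γ := by
      apply MonoidHom.eq_of_eqOn_top
      rw [← gen]
      intro x hx
      have h2 : α.range ⊔ β.range ≤ (F'.comp F).eqLocus (MonoidHom.id Γ) := by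
        apply sup_le
        · rintro _ ⟨a, rfl⟩
          change F' (F (α a)) = α a
          rw [hF1, hF1']
        · rintro _ ⟨b, rfl⟩
          change F' (F (β b)) = β b
          rw [hF2, hF2']
      exact h2 hx
    intro x
    exact DFunLike.congr_fun this x
  have h1' : ∀ x, F (F' x) = x := by
    have : (F.comp F') = MonoidHom.id Γ' := by
      apply MonoidHom.eq_of_eqOn_top
      rw [← h.gen]
      intro x hx
      have h2 : α'.range ⊔ β'.range ≤ (F.comp F').eqLocus (MonoidHom.id Γ') := by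
        apply sup_le
        · rintro _ ⟨a, rfl⟩
          change F (F' (α' a)) = α' a
          rw [hF1', hF1]
        · rintro _ ⟨b, rfl⟩
          change F (F' (β' b)) = β' b
          rw [hF2', hF2]
      exact h2 hx
    intro x
    exact DFunLike.congr_fun this x
  have hinj : Function.Injective F := fun x y hxy => by rw [← h1 x, ← h1 y, hxy]
  refine ⟨F ⁻¹' S', ?_⟩
  exact
    { injA := fun x y hxy => h.injA (by rw [← hF1, ← hF1, hxy])
      injB := fun x y hxy => h.injB (by rw [← hF2, ← hF2, hxy])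
      injκ := hκ
      injι := hι
      comm := hp.comm
      gen := hp.gen
      notA := fun a ha => h.notA a (by rw [← hF1]; exact ha)
      smulC := fun c s hs => by
        change F (α (κ c) * s) ∈ S'
        rw [map_mul, hF1]
        exact h.smulC c _ hs
      mulA := fun s hs a => by
        change F (s * α a) ∈ S'
        rw [map_mul, hF1]
        exact h.mulA _ hs a
      mulB := fun s hs b => by
        rcases h.mulB (F s) hs b with h2 | ⟨c, hc⟩
        · left
          change F (s * β b) ∈ S'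
          rw [map_mul, hF2]
          exact h2
        · right
          refine ⟨c, hinj ?_⟩
          rw [map_mul, hF2, hF1, hc]
      ppA := fun a ha s hs hs' => by
        refine h.ppA a ha (F s) hs ?_
        have h2 : F (α a * s) ∈ S' := hs'
        rw [map_mul, hF1] at h2
        exact h2
      ppB := fun b hb g hg => by
        change F (β b * g) ∈ S'
        rw [map_mul, hF2]
        exact h.ppB b hb (F g) hg
      cover := fun g => by
        rcases h.cover (F g) with ⟨a, ha⟩ | ⟨a, s, hs, hg⟩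
        · left
          refine ⟨a, hinj ?_⟩
          rw [hF1, ha]
        · right
          refine ⟨a, F' s, ?_, hinj ?_⟩
          · change F (F' s) ∈ S'
            rw [h1']
            exact hs
          · rw [map_mul, hF1, h1', hg] }

end Pool.Agent.SDec
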