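import Pool.Agent.SDec.Cnf

/-!
# Base change along a retraction of a free product
-/

set_option autoImplicit false

namespace Pool.Agent.SDec

open Pool.Agent.Hhelper49.Srr Pool.Agent.Hhelper49.Srf Pool.Agent.SFP

section
variable {H Γ A : Type} [Group H] [Group Γ] [Group A] {κ : H →* Γ}
variable {M N D N' D' : Type} [AddCommGroup M] [Module (MonoidAlgebra ℤ H) M] [AddCommGroup N]
  [Module (MonoidAlgebra ℤ Γ) N] [AddCommGroup D] [Module (MonoidAlgebra ℤ A) D]
  [AddCommGroup N'] [Module (MonoidAlgebra ℤ Γ) N'] [AddCommGroup D'] [Module (MonoidAlgebra ℤ A) D']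
variable {i : M →+ N} {π : N →+ M}

/-- the map `act g (i m) ↦ act (r g) (u m)` -/
theorem ind_univ (h : IsInd κ i π) (r : Γ →* A) (u : M →+ D)
    (hu : ∀ b x, u (act b x) = act (r (κ b)) (u x)) :
    ∃ ρ : N →+ D, ∀ (g : Γ) (m : M), ρ (act g (i m)) = act (r g) (u m) := by
  classical
  have hsupp : ∀ x : N, (Function.support fun c : Γ ⧸ κ.range =>
      act (r (Quotient.out c)) (u (π (act (Quotient.out c)⁻¹ x)))).Finite := by
    intro x
    obtain ⟨T, hT, -⟩ := isInd_expand h x
    refine T.finite_toSet.subset fun c hc => ?_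
    by_contra hcon
    apply hc
    change act (r (Quotient.out c)) (u (π (act (Quotient.out c)⁻¹ x))) = 0
    rw [hT c hcon, map_zero, act, smul_zero]
  refine ⟨{ toFun := fun x => ∑ᶠ c : Γ ⧸ κ.range,
              act (r (Quotient.out c)) (u (π (act (Quotient.out c)⁻¹ x)))
            map_zero' := ?_
            map_add' := ?_ }, ?_⟩
  · have e : (fun c : Γ ⧸ κ.range =>
        act (r (Quotient.out c)) (u (π (act (Quotient.out c)⁻¹ (0 : N))))) = fun _ => 0 := by
      funext c
      rw [act, act, smul_zero, map_zero, map_zero, smul_zero]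
    rw [e]
    exact finsum_zero
  · intro x y
    rw [← finsum_add_distrib (hsupp x) (hsupp y)]
    congr 1
    funext c
    rw [act, act, smul_add, map_add, map_add, smul_add]
  · intro g m
    change ∑ᶠ c : Γ ⧸ κ.range,
      act (r (Quotient.out c)) (u (π (act (Quotient.out c)⁻¹ (act g (i m))))) = act (r g) (u m)
    obtain ⟨⟨_, ⟨k, rfl⟩⟩, hk⟩ := QuotientGroup.mk_out_eq_mul κ.range g
    have hk' : Quotient.out (g : Γ ⧸ κ.range) = g * κ k := hk
    rw [finsum_eq_single _ (g : Γ ⧸ κ.range)]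
    · rw [hk', ← act_mul]
      have e : (g * κ k)⁻¹ * g = κ k⁻¹ := by
        rw [mul_inv_rev, map_inv, mul_assoc, inv_mul_cancel, mul_one]
      rw [e, h.proj, hu, ← act_mul, ← map_mul, map_inv κ, mul_inv_cancel_right]
    · intro c hc
      rw [← act_mul, h.projz, map_zero, act, smul_zero]
      intro h2
      apply hc
      have h3 : ((Quotient.out c : Γ) : Γ ⧸ κ.range) = (g : Γ ⧸ κ.range) :=
        QuotientGroup.eq.2 h2
      rw [← h3]
      exact (QuotientGroup.out_eq' c).symm

/-- `D` is the base change of `N` along `r` -/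
structure IsBC (r : Γ →* A) (ρ : N →+ D) : Prop where
  equi : ∀ g n, ρ (act g n) = act (r g) (ρ n)
  surj : Function.Surjective ρ
  ker : ∀ n, ρ n = 0 → ∀ (X : Type) [AddCommGroup X] [Module (MonoidAlgebra ℤ A) X] (f : N →+ X),
    (∀ g n, f (act g n) = act (r g) (f n)) → f n = 0

theorem bc_iso {r : Γ →* A} (hr : Function.Surjective r) {ρ : N →+ D} {ρ' : N' →+ D'}
    (h : IsBC r ρ) (h' : IsBC r ρ') (E : N ≃ₗ[MonoidAlgebra ℤ Γ] N') :
    Nonempty (D ≃ₗ[MonoidAlgebra ℤ A] D') := by
  have k1 : ∀ n, ρ n = 0 → ρ' (E n) = 0 := by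
    intro n hn
    refine h.ker n hn D' (ρ'.comp E.toLinearMap.toAddMonoidHom) ?_
    intro g n
    change ρ' (E (act g n)) = act (r g) (ρ' (E n))
    have e1 : E (act g n) = act g (E n) := lin_act (E : N →ₗ[MonoidAlgebra ℤ Γ] N') g n
    rw [e1, h'.equi]
  have k2 : ∀ n, ρ' (E n) = 0 → ρ n = 0 := by
    intro n hn
    have h1 := h'.ker (E n) hn D (ρ.comp E.symm.toLinearMap.toAddMonoidHom) (by
      intro g n
      change ρ (E.symm (act g n)) = act (r g) (ρ (E.symm n))
      have e1 : E.symm (act g n) = act g (E.symm n) :=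
        lin_act (E.symm : N' →ₗ[MonoidAlgebra ℤ Γ] N) g n
      rw [e1, h.equi])
    have h2 : ρ (E.symm (E n)) = 0 := h1
    rwa [LinearEquiv.symm_apply_apply] at h2
  choose s hs using h.surj
  have hφ : ∀ n, ρ' (E (s (ρ n))) = ρ' (E n) := by
    intro n
    rw [← sub_eq_zero, ← map_sub, ← map_sub]
    apply k1
    rw [map_sub, hs, sub_self]
  let φ : D →+ D' :=
    { toFun := fun d => ρ' (E (s d))
      map_zero' := by
        change ρ' (E (s 0)) = 0
        apply k1
        rw [hs]
      map_add' := fun d d' => by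
        change ρ' (E (s (d + d'))) = ρ' (E (s d)) + ρ' (E (s d'))
        rw [← map_add, ← map_add, ← sub_eq_zero, ← map_sub, ← map_sub]
        apply k1
        rw [map_sub, map_add, hs, hs, hs, sub_self] }
  have hφ' : ∀ n, φ (ρ n) = ρ' (E n) := hφ
  have hb : Function.Bijective φ := by
    constructor
    · rw [injective_iff_map_eq_zero]
      intro d hd
      have h1 := k2 (s d) hd
      rwa [hs] at h1
    · intro d'
      obtain ⟨n', rfl⟩ := h'.surj d'
      refine ⟨ρ (E.symm n'), ?_⟩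
      rw [hφ', LinearEquiv.apply_symm_apply]
  refine ⟨mkEquiv (AddEquiv.ofBijective φ hb) ?_⟩
  intro a d
  change φ (act a d) = act a (φ d)
  obtain ⟨g, rfl⟩ := hr a
  obtain ⟨n, rfl⟩ := h.surj d
  rw [← h.equi, hφ', hφ']
  have e1 : E (act g n) = act g (E n) := lin_act (E : N →ₗ[MonoidAlgebra ℤ Γ] N') g n
  rw [e1, h'.equi]

theorem bc_prod {r : Γ →* A} {ρ : N →+ D} {ρ' : N' →+ D'} (h : IsBC r ρ) (h' : IsBC r ρ') :
    IsBC r (ρ.prodMap ρ') where
  equi := by
    rintro g ⟨n, n'⟩
    exact Prod.ext (h.equi g n) (h'.equi g n')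
  surj := by
    rintro ⟨d, d'⟩
    obtain ⟨n, rfl⟩ := h.surj d
    obtain ⟨n', rfl⟩ := h'.surj d'
    exact ⟨(n, n'), rfl⟩
  ker := by
    rintro ⟨n, n'⟩ hn X _ _ f hf
    have h1 : ρ n = 0 := congrArg Prod.fst hn
    have h2 : ρ' n' = 0 := congrArg Prod.snd hn
    have h3 := h.ker n h1 X (f.comp (AddMonoidHom.inl N N')) (by
      intro g n
      change f (act g n, 0) = act (r g) (f (n, 0))
      rw [← hf]
      congr 1
      refine Prod.ext rfl ?_
      change (0 : N') = act g 0
      rw [act_zero'])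
    have h4 := h'.ker n' h2 X (f.comp (AddMonoidHom.inr N N')) (by
      intro g n
      change f (0, act g n) = act (r g) (f (0, n))
      rw [← hf]
      congr 1
      refine Prod.ext ?_ rfl
      change (0 : N) = act g 0
      rw [act_zero'])
    have h5 : ((n, n') : N × N') = (n, 0) + (0, n') := by simp
    rw [h5, map_add]
    have h6 : f (n, 0) = 0 := h3
    have h7 : f (0, n') = 0 := h4
    rw [h6, h7, add_zero]

end

section
variable {A Γ : Type} [Group A] [Group Γ] {α : A →* Γ} {r : Γ →* A}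

/-- modules induced from the retract -/
theorem bc_ret {M N : Type} [AddCommGroup M] [Module (MonoidAlgebra ℤ A) M] [AddCommGroup N]
    [Module (MonoidAlgebra ℤ Γ) N] (h : Induced α M N) (hr : ∀ a, r (α a) = a) :
    ∃ ρ : N →+ M, IsBC r ρ := by
  obtain ⟨i, π, h⟩ := h
  obtain ⟨ρ, hρ⟩ := ret_exists h r hr
  refine ⟨ρ, ret_act h r hρ, fun m => ⟨i m, ret_i r hρ m⟩, ?_⟩
  intro n hn X _ _ f hf
  have key : ∀ n, f n = f (i (ρ n)) := by
    intro n
    refine isInd_hom_eq h f ((f.comp i).comp ρ) ?_ n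
    intro g m
    change f (act g (i m)) = f (i (ρ (act g (i m))))
    rw [hρ, h.equi, hf, hf, hr]
  rw [key, hn, map_zero, map_zero]

theorem inv_aug {B X : Type} [Group B] [AddCommGroup X] (f : MonoidAlgebra ℤ B →+ X)
    (hf : ∀ (b : B) (x : MonoidAlgebra ℤ B), f (act b x) = f x) (y : MonoidAlgebra ℤ B) : f y = (augA B y) • f 1 := by
  induction y using MonoidAlgebra.induction_linear with
  | zero => rw [map_zero, map_zero, zero_smul]
  | add x y hx hy => rw [map_add, map_add, add_smul, hx, hy]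
  | single b r =>
    rw [augA_single]
    have e1 : (MonoidAlgebra.single b r : MonoidAlgebra ℤ B) =
        act b (r • (1 : MonoidAlgebra ℤ B)) := by
      rw [MonoidAlgebra.one_def, act, smul_eq_mul, MonoidAlgebra.of_apply,
        MonoidAlgebra.smul_single, MonoidAlgebra.single_mul_single]
      simp
    rw [e1, hf, map_zsmul]

/-- the coinvariants of a finitely generated projective module -/
theorem coinv_exists {B : Type} [Group B] (Q : Type) [AddCommGroup Q]
    [Module (MonoidAlgebra ℤ B) Q] (h1 : Module.Finite (MonoidAlgebra ℤ B) Q)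
    (h2 : Module.Projective (MonoidAlgebra ℤ B) Q) :
    ∃ (c : ℕ) (q : Q →+ (Fin c → ℤ)), Function.Surjective q ∧
      (∀ (b : B) (x : Q), q (act b x) = q x) ∧
      ∀ x, q x = 0 → ∀ (X : Type) [AddCommGroup X] (f : Q →+ X),
        (∀ (b : B) (x : Q), f (act b x) = f x) → f x = 0 := by
  classical
  obtain ⟨k, p, hp⟩ := Module.Finite.exists_fin' (MonoidAlgebra ℤ B) Q
  obtain ⟨s, hs⟩ := Module.projective_lifting_property p LinearMap.id hp
  have hs' : ∀ m, p (s m) = m := fun m => LinearMap.congr_fun hs m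
  let q0 : Q →ₗ[ℤ] (Fin k → ℤ) :=
    (((augA B).compLeft (Fin k)).comp s.toAddMonoidHom).toIntLinearMap
  have hq0 : ∀ x j, q0 x j = augA B (s x j) := fun x j => rfl
  obtain ⟨c, b⟩ := Submodule.basisOfPid (Pi.basisFun ℤ (Fin k)) (LinearMap.range q0)
  let q : Q →+ (Fin c → ℤ) := (b.equivFun.toLinearMap.comp q0.rangeRestrict).toAddMonoidHom
  have hq : ∀ x, q x = b.equivFun (q0.rangeRestrict x) := fun x => rfl
  refine ⟨c, q, ?_, ?_, ?_⟩
  · intro z
    obtain ⟨y, hy⟩ := LinearMap.surjective_rangeRestrict q0 (b.equivFun.symm z)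
    refine ⟨y, ?_⟩
    rw [hq, hy, LinearEquiv.apply_symm_apply]
  · intro b' x
    rw [hq, hq]
    congr 1
    apply Subtype.ext
    change q0 (act b' x) = q0 x
    funext j
    rw [hq0, hq0]
    have e1 : s (act b' x) = act b' (s x) := lin_act s b' x
    rw [e1]
    exact augA_act b' (s x j)
  · intro x hx X _ f hf
    rw [hq] at hx
    have h3 : q0.rangeRestrict x = 0 := by
      rw [← LinearEquiv.map_eq_zero_iff b.equivFun]
      exact hx
    have h4 : ∀ j, augA B (s x j) = 0 := by
      intro j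
      rw [← hq0]
      have h5 : q0 x = 0 := congrArg Subtype.val h3
      rw [h5]
      rfl
    have h5 : f x = f (p (s x)) := by rw [hs']
    rw [h5, ← Finset.univ_sum_single (s x), map_sum, map_sum]
    refine Finset.sum_eq_zero fun j _ => ?_
    let fj : MonoidAlgebra ℤ B →+ X := (f.comp p.toAddMonoidHom).comp
      (AddMonoidHom.single (fun _ : Fin k => MonoidAlgebra ℤ B) j)
    have h6 := inv_aug fj (by
      intro b' y
      change f (p (Pi.single j (act b' y))) = f (p (Pi.single j y))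
      have e1 : (Pi.single j (act b' y) : Fin k → MonoidAlgebra ℤ B) =
          act b' (Pi.single j y) := by
        funext l
        change _ = act b' ((Pi.single j y : Fin k → MonoidAlgebra ℤ B) l)
        by_cases hl : l = j
        · subst hl
          rw [Pi.single_eq_same, Pi.single_eq_same]
        · rw [Pi.single_eq_of_ne hl, Pi.single_eq_of_ne hl, act_zero']
      rw [e1, lin_act, hf]) (s x j)
    have h7 : f (p (Pi.single j (s x j))) = fj (s x j) := rfl
    rw [h7, h6, h4, zero_smul]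

end

section
variable {A B Γ : Type} [Group A] [Group B] [Group Γ] {β : B →* Γ} {r : Γ →* A}

/-- modules induced from the kernel -/
theorem bc_ker {Q N : Type} [AddCommGroup Q] [Module (MonoidAlgebra ℤ B) Q] [AddCommGroup N]
    [Module (MonoidAlgebra ℤ Γ) N] (h : Induced β Q N) (hs : Function.Surjective r)
    (hr : ∀ b, r (β b) = 1) (h1 : Module.Finite (MonoidAlgebra ℤ B) Q)
    (h2 : Module.Projective (MonoidAlgebra ℤ B) Q) :
    ∃ (c : ℕ) (ρ : N →+ (Fin c → MonoidAlgebra ℤ A)), IsBC r ρ := by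
  classical
  obtain ⟨i, π, h⟩ := h
  obtain ⟨c, q, hq1, hq2, hq3⟩ := coinv_exists Q h1 h2
  let ι : (Fin c → ℤ) →+ (Fin c → MonoidAlgebra ℤ A) :=
    ((Int.castRingHom (MonoidAlgebra ℤ A)).toAddMonoidHom).compLeft (Fin c)
  have hι : ∀ z j, ι z j = ((z j : ℤ) : MonoidAlgebra ℤ A) := fun z j => rfl
  obtain ⟨ρ, hρ⟩ := ind_univ h r (ι.comp q) (by
    intro b x
    rw [hr, act_one, AddMonoidHom.comp_apply, AddMonoidHom.comp_apply, hq2])
  have hequi : ∀ g n, ρ (act g n) = act (r g) (ρ n) := by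
    intro g n
    refine isInd_hom_eq h (ρ.comp (actHom N g)) ((actHom _ (r g)).comp ρ) ?_ n
    intro g' m
    rw [AddMonoidHom.comp_apply, AddMonoidHom.comp_apply, actHom_apply, actHom_apply, ← act_mul,
      hρ, hρ, map_mul, act_mul]
  refine ⟨c, ρ, hequi, ?_, ?_⟩
  · -- surjective
    intro v
    have h3 : ∀ (a : A) (z : Fin c → ℤ), act a (ι z) ∈ ρ.range := by
      intro a z
      obtain ⟨g, rfl⟩ := hs a
      obtain ⟨m, rfl⟩ := hq1 z
      exact ⟨act g (i m), hρ g m⟩
    have h4 : v ∈ ρ.range := by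
      rw [← Finset.univ_sum_single v]
      refine AddSubgroup.sum_mem _ fun j _ => ?_
      generalize v j = y
      induction y using MonoidAlgebra.induction_linear with
      | zero =>
        rw [Pi.single_zero]
        exact AddSubgroup.zero_mem _
      | add x y hx hy =>
        rw [Pi.single_add]
        exact AddSubgroup.add_mem _ hx hy
      | single a t =>
        have e1 : (Pi.single j (MonoidAlgebra.single a t) : Fin c → MonoidAlgebra ℤ A) =
            act a (ι (Pi.single j t)) := by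
          funext l
          change _ = act a (ι (Pi.single j t) l)
          rw [hι]
          by_cases hl : l = j
          · subst hl
            rw [Pi.single_eq_same, Pi.single_eq_same, act, smul_eq_mul, MonoidAlgebra.of_apply]
            have e2 : ((t : ℤ) : MonoidAlgebra ℤ A) = MonoidAlgebra.single 1 t := by
              rw [← zsmul_one, MonoidAlgebra.one_def, MonoidAlgebra.smul_single]
              simp
            rw [e2, MonoidAlgebra.single_mul_single]
            simp
          · rw [Pi.single_eq_of_ne hl, Pi.single_eq_of_ne hl, Int.cast_zero, act_zero']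
        rw [e1]
        exact h3 a _
    exact h4
  · intro n hn X _ _ f hf
    choose m hm using fun j : Fin c => hq1 (Pi.single j 1)
    let F : (Fin c → MonoidAlgebra ℤ A) →ₗ[MonoidAlgebra ℤ A] X :=
      ∑ j, (LinearMap.toSpanSingleton (MonoidAlgebra ℤ A) X (f (i (m j)))).comp
        (LinearMap.proj j)
    have hF : ∀ z, F (ι z) = ∑ j, (z j) • f (i (m j)) := by
      intro z
      change (∑ j, (LinearMap.toSpanSingleton (MonoidAlgebra ℤ A) X (f (i (m j)))).comp
        (LinearMap.proj j)) (ι z) = _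
      rw [LinearMap.sum_apply]
      refine Finset.sum_congr rfl fun j _ => ?_
      rw [LinearMap.comp_apply, LinearMap.proj_apply, LinearMap.toSpanSingleton_apply, hι,
        Int.cast_smul_eq_zsmul]
    have hfi : ∀ x, f (i x) = F (ι (q x)) := by
      intro x
      rw [hF]
      have h5 : q (x - ∑ j, (q x j) • m j) = 0 := by
        rw [map_sub, map_sum]
        have h6 : ∑ j, q (q x j • m j) = q x := by
          have h7 : ∀ j, q (q x j • m j) = Pi.single j (q x j) := by
            intro j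
            rw [map_zsmul, hm, ← Pi.single_smul, smul_eq_mul, mul_one]
          rw [Finset.sum_congr rfl fun j _ => h7 j]
          exact Finset.univ_sum_single (q x)
        rw [h6, sub_self]
      have h6 := hq3 _ h5 X (f.comp i) (by
        intro b x
        change f (i (act b x)) = f (i x)
        rw [h.equi, hf, hr, act_one])
      have h7 : f (i (x - ∑ j, (q x j) • m j)) = 0 := h6
      rw [map_sub, map_sub, sub_eq_zero, map_sum, map_sum] at h7
      rw [h7]
      refine Finset.sum_congr rfl fun j _ => ?_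
      rw [map_zsmul, map_zsmul]
    have key : ∀ n, f n = F (ρ n) := by
      intro n
      refine isInd_hom_eq h f (F.toAddMonoidHom.comp ρ) ?_ n
      intro g x
      change f (act g (i x)) = F (ρ (act g (i x)))
      rw [hρ, hf, hfi]
      exact (lin_act F (r g) _).symm
    rw [key, hn, map_zero]

end

/-- descent along the retraction -/
theorem bc_reduce {A B Γ : Type} [Group A] [Group B] [Group Γ] {α : A →* Γ} {β : B →* Γ}
    (hα : Function.Injective α) (hβ : Function.Injective β) (r : Γ →* A)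
    (hrα : ∀ a, r (α a) = a) (hrβ : ∀ b, r (β b) = 1) (n : ℕ) :
    ∀ (M M' N N' : Type) [AddCommGroup M] [Module (MonoidAlgebra ℤ A) M] [AddCommGroup M']
      [Module (MonoidAlgebra ℤ B) M'] [AddCommGroup N] [Module (MonoidAlgebra ℤ Γ) N]
      [AddCommGroup N'] [Module (MonoidAlgebra ℤ Γ) N'],
      FPl (MonoidAlgebra ℤ A) n M → FPl (MonoidAlgebra ℤ B) n M' → Induced α M N →
      Induced β M' N' → FF (MonoidAlgebra ℤ Γ) (N × N') → FF (MonoidAlgebra ℤ A) M := by
  have hrs : Function.Surjective r := fun a => ⟨α a, hrα a⟩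
  induction n with
  | zero =>
    intro M M' N N' _ _ _ _ _ _ _ _ hM hM' hN hN' hff
    obtain ⟨h1, h2⟩ := hM
    obtain ⟨h1', h2'⟩ := hM'
    obtain ⟨-, hNp⟩ := ind_proj hα M N hN h1 h2
    obtain ⟨-, hNp'⟩ := ind_proj hβ M' N' hN' h1' h2'
    obtain ⟨a, b, ⟨E⟩⟩ := stablyFree_of_ff (N × N') inferInstance hff
    have hfree : ∀ k : ℕ, Induced α (Fin k → MonoidAlgebra ℤ A) (Fin k → MonoidAlgebra ℤ Γ) :=
      fun k => by
        obtain ⟨π, hπ⟩ := isInd_free (κ := α) hα k
        exact ⟨_, π, hπ⟩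
    obtain ⟨ρ1, e1⟩ := bc_ret hN hrα
    obtain ⟨c, ρ2, e2⟩ := bc_ker hN' hrs hrβ h1' h2'
    obtain ⟨ρ3, e3⟩ := bc_ret (hfree a) hrα
    obtain ⟨ρ4, e4⟩ := bc_ret (hfree b) hrα
    obtain ⟨e⟩ := bc_iso hrs (bc_prod (bc_prod e1 e2) e3) e4 E
    exact ff_left (ff_left (ff_iso e.symm (ff_pow b)) (ff_pow a)) (ff_pow c)
  | succ n ih =>
    intro M M' N N' _ _ _ _ _ _ _ _ hM hM' hN hN' hff
    obtain ⟨k, f, hf, hk⟩ := hM
    obtain ⟨k', f', hf', hk'⟩ := hM'
    obtain ⟨i, π, hN⟩ := hN
    obtain ⟨i', π', hN'⟩ := hN'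
    obtain ⟨F, hF1, -, hF3⟩ := indB_lift hα hN k f hf
    obtain ⟨F', hF1', -, hF3'⟩ := indB_lift hβ hN' k' f' hf'
    have h1 : FF (MonoidAlgebra ℤ Γ) (LinearMap.ker F × LinearMap.ker F') := by
      refine ff_ker ((LinearMap.ker F).subtype.prodMap (LinearMap.ker F').subtype)
        (F.prodMap F') ?_ ?_ ?_ (ff_prod (ff_pow k) (ff_pow k')) hff
      · exact (Submodule.subtype_injective _).prodMap (Submodule.subtype_injective _)
      · exact hF1.prodMap hF1'
      · rw [LinearMap.range_prodMap, LinearMap.ker_prodMap, Submodule.range_subtype,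
          Submodule.range_subtype]
    obtain ⟨m, hm⟩ := ih _ _ _ _ hk hk' hF3 hF3' h1
    exact ⟨m + 1, k, f, hf, hm⟩

theorem free_left {A B Γ : Type} [Group A] [Group B] [Group Γ] {α : A →* Γ} {β : B →* Γ}
    (hp : IsPush α β (triv0 A) (triv0 B)) (hA : TypeFP A) (hB : TypeFP B) (m : ℕ)
    (h : FreeRes m Γ) : FreeRes m A := by
  obtain ⟨S, hS⟩ := amal_of_univ (triv0_inj A) (triv0_inj B) hp
  obtain ⟨r, hr1, hr2⟩ := hp.univ A (MonoidHom.id A) 1 (by intro c; simp)
  obtain ⟨f, g, hf, hg, hfg⟩ := amal_exact hS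
  have hC' := ind_ff (amal_injC hS) _ _ (ind_perm (α.comp (triv0 A))) (ff_of_typeFF _ nice0)
  have hCm : FF (MonoidAlgebra ℤ Γ) (Fin m → PermF Γ (Γ ⧸ (α.comp (triv0 A)).range)) :=
    ff_pi (fun _ => PermF Γ (Γ ⧸ (α.comp (triv0 A)).range)) fun _ => hC'
  have hAi : Induced α (Fin m → Triv A) (Fin m → PermF Γ (Γ ⧸ α.range)) :=
    ind_pi _ _ m (ind_perm α)
  have hBi : Induced β (Fin m → Triv B) (Fin m → PermF Γ (Γ ⧸ β.range)) :=
    ind_pi _ _ m (ind_perm β)
  have hAp : FP (MonoidAlgebra ℤ A) (Fin m → Triv A) :=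
    fp_pi (fun _ => Triv A) fun _ => fp_of_typeFP A hA
  have hBp : FP (MonoidAlgebra ℤ B) (Fin m → Triv B) :=
    fp_pi (fun _ => Triv B) fun _ => fp_of_typeFP B hB
  rw [freeRes_iff] at h ⊢
  have h2 := ffm_ext m f g hf hg hfg hCm h
  have h3 := ff_iso (piProdEquiv (MonoidAlgebra ℤ Γ) m _ _) h2
  obtain ⟨n, hn⟩ := hAp
  obtain ⟨n', hn'⟩ := hBp
  have k1 : FPl (MonoidAlgebra ℤ A) (n + n') (Fin m → Triv A) := clsP_fpl_add n n' hn
  have k2 : FPl (MonoidAlgebra ℤ B) (n + n') (Fin m → Triv B) := by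
    rw [add_comm]
    exact clsP_fpl_add n' n hn'
  exact bc_reduce hS.injA hS.injB r hr1 hr2 (n + n') _ _ _ _ k1 k2 hAi hBi h3

theorem freeIff : FreeIff := by
  intro A B Γ _ _ _ α β hp hA hB m
  constructor
  · intro h
    refine ⟨free_left hp hA hB m h, ?_⟩
    have hp' : IsPush β α (triv0 B) (triv0 A) :=
      { gen := by rw [sup_comm]; exact hp.gen
        comm := fun c => by simp
        univ := fun P _ f g _ => by
          obtain ⟨F, h1, h2⟩ := hp.univ P g f (by intro c; simp)
          exact ⟨F, h2, h1⟩ }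
    exact free_left hp' hB hA m h
  · rintro ⟨h1, h2⟩
    obtain ⟨S, hS⟩ := amal_of_univ (triv0_inj A) (triv0_inj B) hp
    obtain ⟨f, g, hf, hg, hfg⟩ := amal_exact hS
    have hC' := ind_ff (amal_injC hS) _ _ (ind_perm (α.comp (triv0 A))) (ff_of_typeFF _ nice0)
    have hCm : FF (MonoidAlgebra ℤ Γ) (Fin m → PermF Γ (Γ ⧸ (α.comp (triv0 A)).range)) :=
      ff_pi (fun _ => PermF Γ (Γ ⧸ (α.comp (triv0 A)).range)) fun _ => hC'
    have hAi : Induced α (Fin m → Triv A) (Fin m → PermF Γ (Γ ⧸ α.range)) :=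
      ind_pi _ _ m (ind_perm α)
    have hBi : Induced β (Fin m → Triv B) (Fin m → PermF Γ (Γ ⧸ β.range)) :=
      ind_pi _ _ m (ind_perm β)
    rw [freeRes_iff] at h1 h2 ⊢
    have h3 := ind_ff hS.injA _ _ hAi h1
    have h4 := ind_ff hS.injB _ _ hBi h2
    have h5 := ff_iso (piProdEquiv (MonoidAlgebra ℤ Γ) m _ _).symm (ff_prod h3 h4)
    exact ffm_coker m f g hf hg hfg hCm h5

end Pool.Agent.SDec
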