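import Pool.Agent.SDec.Enc

/-!
# Every recursively enumerable set is the halting set of a rule system
-/

set_option autoImplicit false

namespace Pool.Agent.SDec

open Turing Turing.TM2 Turing.TM2.Stmt Turing.PartrecToTM2 Function Relation

open Classical in
/-- the statements of the machine of a code -/
noncomputable def stm (c : ToPartrec.Code) : Finset St :=
  (codeSupp c Cont'.halt).biUnion fun l => stmts₁ (tr l)

theorem mem_stm (c : ToPartrec.Code) (q : St) :
    q ∈ stm c ↔ ∃ l ∈ codeSupp c Cont'.halt, q ∈ stmts₁ (tr l) := by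
  unfold stm
  simp

theorem supp_stm (c : ToPartrec.Code) (q : St) (h : q ∈ stm c) :
    SupportsStmt (codeSupp c Cont'.halt) q := by
  obtain ⟨l, hl, hq⟩ := (mem_stm c q).1 h
  exact stmts₁_supportsStmt_mono hq ((tr_supports c Cont'.halt).2 l hl)

theorem nx_closed (c : ToPartrec.Code) {x y : Cf} (h : Nx tr x y) (hx : x.q ∈ stm c) :
    y.q ∈ stm c := by
  classical
  have hs := supp_stm c x.q hx
  obtain ⟨l, hl, hq⟩ := (mem_stm c x.q).1 hx
  rcases x with ⟨q, s, S⟩
  rcases q with ⟨k, f, q⟩ | ⟨k, f, q⟩ | ⟨k, f, q⟩ | ⟨a, q⟩ | ⟨p, q₁, q₂⟩ | l' | _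
  · cases h
    exact (mem_stm c _).2 ⟨l, hl, stmts₁_trans hq (by
      simp only [stmts₁]; exact Finset.mem_insert_of_mem stmts₁_self)⟩
  · cases h
    exact (mem_stm c _).2 ⟨l, hl, stmts₁_trans hq (by
      simp only [stmts₁]; exact Finset.mem_insert_of_mem stmts₁_self)⟩
  · cases h
    exact (mem_stm c _).2 ⟨l, hl, stmts₁_trans hq (by
      simp only [stmts₁]; exact Finset.mem_insert_of_mem stmts₁_self)⟩
  · cases h
    exact (mem_stm c _).2 ⟨l, hl, stmts₁_trans hq (by
      simp only [stmts₁]; exact Finset.mem_insert_of_mem stmts₁_self)⟩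
  · cases h
    refine (mem_stm c _).2 ⟨l, hl, stmts₁_trans hq ?_⟩
    simp only [stmts₁]
    refine Finset.mem_insert_of_mem ?_
    cases p s
    · exact Finset.mem_union_right _ stmts₁_self
    · exact Finset.mem_union_left _ stmts₁_self
  · cases h
    exact (mem_stm c _).2 ⟨l' s, hs s, stmts₁_self⟩
  · cases h

/-- the initial configuration -/
def ini (c : ToPartrec.Code) (n : ℕ) : Cf :=
  ⟨tr (trNormal c Cont'.halt), none, K'.elim (trList [n]) [] [] []⟩

theorem ini_mem (c : ToPartrec.Code) (n : ℕ) : (ini c n).q ∈ stm c := by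
  refine (mem_stm c _).2 ⟨trNormal c Cont'.halt, ?_, stmts₁_self⟩
  exact (tr_supports c Cont'.halt).1

/-- the final configuration with output `[0]` -/
def fin0 : Cf := ⟨Stmt.halt, none, K'.elim (trList [0]) [] [] []⟩

theorem toS_init (c : ToPartrec.Code) (n : ℕ) : toS tr (PartrecToTM2.init c [n]) = ini c n := rfl

theorem toS_halt : toS tr (PartrecToTM2.halt [0]) = fin0 := rfl

theorem reach_of_dom (c : ToPartrec.Code) (n : ℕ)
    (hc : c.eval [n] ≠ Part.none → c.eval [n] = Part.some [0]) (hd : (c.eval [n]).Dom) :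
    ReflTransGen (Nx tr) (ini c n) fin0 := by
  have he := PartrecToTM2.tr_eval c [n]
  have h1 : c.eval [n] = Part.some [0] := by
    apply hc
    intro h0
    rw [h0] at hd
    exact hd
  rw [h1] at he
  have h2 : PartrecToTM2.halt [0] ∈
      StateTransition.eval (TM2.step tr) (PartrecToTM2.init c [n]) := by
    rw [he]
    exact (Part.mem_map_iff _).2 ⟨[0], Part.mem_some _, rfl⟩
  have h3 := reach_of_reaches tr (StateTransition.mem_eval.1 h2).1
  rw [toS_init, toS_halt] at h3
  exact h3

theorem dom_of_reach (c : ToPartrec.Code) (n : ℕ) (x : Cf) (hx : x.q = Stmt.halt)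
    (h : ReflTransGen (Nx tr) (ini c n) x) : (c.eval [n]).Dom := by
  have he := PartrecToTM2.tr_eval c [n]
  obtain ⟨N, hN⟩ := halts_of_reach tr h hx
  have h1 := dom_of_halts tr N _ _ _ hN
  have h2 : StateTransition.Reaches (TM2.step tr) (PartrecToTM2.init c [n])
      (stepAux (tr (trNormal c Cont'.halt)) none (K'.elim (trList [n]) [] [] [])) :=
    ReflTransGen.single rfl
  rw [← StateTransition.reaches_eval h2, he] at h1
  exact h1

theorem exists_code (K : ℕ → Prop) (hK : REPred K) :
    ∃ c : ToPartrec.Code, ∀ n, (K n ↔ (c.eval [n]).Dom) ∧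
      (c.eval [n] ≠ Part.none → c.eval [n] = Part.some [0]) := by
  classical
  have h1 : Partrec fun n : ℕ => (Part.assert (K n) fun _ => Part.some ()).map fun _ => 0 :=
    hK.map ((Computable.const 0).comp Computable.snd).to₂
  have h2 := Nat.Partrec'.part_iff₁.2 h1
  obtain ⟨c, hc⟩ := ToPartrec.Code.exists_code h2
  refine ⟨c, fun n => ?_⟩
  have h3 := hc (n ::ᵥ List.Vector.nil)
  have h4 : c.eval [n] = pure <$> (Part.assert (K n) fun _ => Part.some ()).map fun _ => 0 := h3
  rw [h4]
  by_cases hn : K n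
  · have h5 : (Part.assert (K n) fun _ => Part.some ()) = Part.some () := by
      rw [Part.assert_pos hn]
    rw [h5]
    simp [hn]
  · have h5 : (Part.assert (K n) fun _ => Part.some ()) = Part.none := by
      rw [Part.assert_neg hn]
    rw [h5]
    simp [hn]

theorem rules_exist (K : ℕ → Prop) (hK : REPred K) :
    ∃ (R : ℕ) (ru : Fin R → Rule) (c0 tgt : Fin 5 → ℤ) (e : ℕ → ℕ), Primrec e ∧
      (∀ i i' z z', (ru i).u + (ru i).m * z = (ru i').u + (ru i').m * z' → i = i') ∧
      (∀ i z, (ru i).u + (ru i).m * z ≠ tgt) ∧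
      ∀ n, K n ↔ ReflTransGen (Step ru) (c0 + Pi.single 1 (e n : ℤ)) tgt := by
  classical
  obtain ⟨c, hc⟩ := exists_code K hK
  let P : Finset (St × Option Γ') := stm c ×ˢ Finset.univ
  have hP : ∀ q s, q ∈ stm c → (q, s) ∈ P := fun q s hq =>
    Finset.mem_product.2 ⟨hq, Finset.mem_univ _⟩
  let I := {x : St × Option Γ' × Option Γ' // x.1 ∈ stm c ∧ x.1 ≠ Stmt.halt}
  have hfin : Finite I := by
    refine Set.Finite.to_subtype (Set.Finite.subset
      (Finset.finite_toSet (stm c ×ˢ (Finset.univ : Finset (Option Γ' × Option Γ')))) ?_)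
    rintro ⟨q, s, o⟩ hx
    exact Finset.mem_coe.2 (Finset.mem_product.2 ⟨hx.1, Finset.mem_univ _⟩)
  have : Fintype I := Fintype.ofFinite I
  let E : I ≃ Fin (Fintype.card I) := Fintype.equivFin I
  let ru : Fin (Fintype.card I) → Rule := fun i =>
    mkRule P (E.symm i).1.1 (E.symm i).1.2.1 (E.symm i).1.2.2
  have hdet : ∀ i i' z z', (ru i).u + (ru i).m * z = (ru i').u + (ru i').m * z' → i = i' := by
    intro i i' z z' h
    have h1 := rule_unique P (hP _ _ (E.symm i).2.1) h
    apply E.symm.injective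
    apply Subtype.ext
    exact Prod.ext h1.1 (Prod.ext h1.2.1 h1.2.2)
  have hstep : ∀ x y : Cf, x.q ∈ stm c → Nx tr x y → Step ru (vec P x) (vec P y) := by
    intro x y hx h
    have hh : x.q ≠ Stmt.halt := by
      rcases x with ⟨q, s, S⟩
      rintro rfl
      cases h
    refine ⟨E ⟨(x.q, x.s, (x.S (key x.q)).head?), hx, hh⟩, ?_⟩
    simp only [ru, Equiv.symm_apply_apply]
    exact rel_of_nx P h
  have hdet2 : ∀ v v' v'', Step ru v v' → Step ru v v'' → v' = v'' := by
    rintro v v' v'' ⟨i, z, h1, h2⟩ ⟨i', z', h3, h4⟩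
    have h5 : i = i' := hdet i i' z z' (h1.symm.trans h3)
    subst h5
    have h6 : z = z' := by
      funext j
      have h7 := congrFun (h1.symm.trans h3) j
      simp only [Pi.add_apply, Pi.mul_apply] at h7
      have h8 := (ru i).mpos j
      have h9 : (ru i).m j * z j = (ru i).m j * z' j := by linarith
      exact mul_left_cancel₀ h8.ne' h9
    rw [h2, h4, h6]
  refine ⟨Fintype.card I, ru, ![code P (tr (trNormal c Cont'.halt), none), 0, 0, 0, 0],
    vec P fin0, inp, inp_primrec, hdet, ?_, ?_⟩
  · intro i z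
    exact rule_not_tgt P (hP _ _ (E.symm i).2.1) (E.symm i).2.2 rfl
  · intro n
    have hv : (![code P (tr (trNormal c Cont'.halt), none), 0, 0, 0, 0] : Fin 5 → ℤ) +
        Pi.single 1 (inp n : ℤ) = vec P (ini c n) := by
      funext j
      fin_cases j <;> simp [vec, ini, inp, encN]
    rw [hv, (hc n).1]
    constructor
    · intro hd
      have h := reach_of_dom c n (hc n).2 hd
      have : ∀ x : Cf, ReflTransGen (Nx tr) x fin0 → x.q ∈ stm c →
          ReflTransGen (Step ru) (vec P x) (vec P fin0) := by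
        intro x hx
        induction hx using ReflTransGen.head_induction_on with
        | refl => intro _; exact ReflTransGen.refl
        | head h _ ih =>
          intro hq
          exact ReflTransGen.head (hstep _ _ hq h) (ih (nx_closed c h hq))
      exact this _ h (ini_mem c n)
    · intro h
      have key : ∀ v, ReflTransGen (Step ru) (vec P (ini c n)) v →
          ∃ x : Cf, x.q ∈ stm c ∧ ReflTransGen (Nx tr) (ini c n) x ∧ v = vec P x := by
        intro v hv
        induction hv with
        | refl => exact ⟨ini c n, ini_mem c n, ReflTransGen.refl, rfl⟩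
        | tail _ hs ih =>
          obtain ⟨x, hx, hr, rfl⟩ := ih
          rcases hn : nxt tr x with _ | y
          · exfalso
            have hxh : x.q = Stmt.halt := by
              rcases x with ⟨q, s, S⟩
              rcases q with ⟨k, f, q⟩ | ⟨k, f, q⟩ | ⟨k, f, q⟩ | ⟨a, q⟩ | ⟨p, q₁, q₂⟩ | l' | _ <;>
                first | rfl | (simp [nxt] at hn)
            obtain ⟨i, z, h1, _⟩ := hs
            exact rule_not_tgt P (hP _ _ (E.symm i).2.1) (E.symm i).2.2 hxh h1.symm
          · refine ⟨y, nx_closed c hn hx, hr.tail hn, ?_⟩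
            exact hdet2 _ _ _ hs (hstep x y hx hn)
      obtain ⟨x, hx, hr, hv'⟩ := key _ h
      refine dom_of_reach c n x ?_ hr
      have h0 := congrFun hv' 0
      have h1 : code P (x.q, x.s) = code P (Stmt.halt, none) := by
        have h2 : ((code P (Stmt.halt, none) : ℕ) : ℤ) = (code P (x.q, x.s) : ℕ) := h0
        exact_mod_cast h2.symm
      have h3 := code_inj P (hP _ _ hx) h1
      exact congrArg Prod.fst h3

end Pool.Agent.SDec
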