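import Pool.Agent.SDec.Mach
import Pool.Agent.SDec.Exist

/-!
# A finitely presented group of type (FF) with a given recursively enumerable word problem on a computable sequence
-/

set_option autoImplicit false

namespace Pool.Agent.SDec

/-- for every recursively enumerable set there are a finitely presented group `D` of type (FF), elements `X`, `Y`, `Z` and a
computable `e` with `n ∈ K` if and only if `[Z, X^(-e n) Y X^(e n)] = 1` -/
theorem grp_exists (K : ℕ → Prop) (hK : REPred K) :
    ∃ (D : Type) (_ : Group D) (X Y Z : D) (e : ℕ → ℕ), Nice D ∧ Primrec e ∧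
      ∀ n, wd X Y Z (e n) = 1 ↔ K n := by
  obtain ⟨R, ru, c0, tgt, e, he, h1, h2, h3⟩ := rules_exist K hK
  obtain ⟨D, iD, X, Y, Z, hD, h4⟩ := exists_D ru c0 tgt h1 h2
  exact ⟨D, iD, X, Y, Z, e, hD, he, fun n => by rw [h4, h3]⟩

end Pool.Agent.SDec
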