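import Pool.Agent.SDec.PresH
import Pool.Agent.SDec.GrpD

/-!
# Presentations indexed by Boolean formulas
-/

set_option autoImplicit false

namespace Pool.Agent.SDec

open Pool.Agent.Hhelper49.Srr Pool.Agent.Hhelper49.Srf Pool.Agent.SFP

/-- clauses: disjunctions of the literals `n ∈ K` (`(n, true)`) and `n ∉ K` (`(n, false)`) -/
abbrev Clause := List (ℕ × Bool)

/-- conjunctive normal forms -/
abbrev CNF := List Clause

/-- a clause is true for `K` -/
def satC (K : ℕ → Prop) (c : Clause) : Prop := ∃ l ∈ c, (K l.1 ↔ l.2 = true)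

/-- a formula is true for `K` -/
def sat (K : ℕ → Prop) (F : CNF) : Prop := ∀ c ∈ F, satC K c

/-- presentation for a literal over `p` -/
def litP (pD pH : Pres) (yw : Word) (W : ℕ → Word) (l : ℕ × Bool) (p : Pres) : Pres :=
  if l.2 = true then pr2 pD pH yw p (W l.1) else pr1 pD p (W l.1)

/-- presentation for a clause -/
def clP (pD pH : Pres) (yw : Word) (W : ℕ → Word) (pG : Pres) (c : Clause) : Pres :=
  c.foldr (litP pD pH yw W) pG

/-- presentation for a formula -/
def cnfP (pD pH : Pres) (yw : Word) (W : ℕ → Word) (pG pT : Pres) (F : CNF) : Pres :=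
  F.foldr (fun c p => joinP (clP pD pH yw W pG c) p) pT

theorem litP_primrec (pD pH : Pres) (yw : Word) (W : ℕ → Word) (hW : Primrec W) :
    Primrec₂ (litP pD pH yw W) := by
  unfold litP
  have hw : Primrec fun x : (ℕ × Bool) × Pres => W x.1.1 :=
    hW.comp (Primrec.fst.comp Primrec.fst)
  refine Primrec.ite ?_ ?_ ?_
  · exact Primrec.eq.comp (Primrec.snd.comp Primrec.fst) (Primrec.const true)
  · exact (pr2_primrec pD pH yw).comp Primrec.snd hw
  · exact (pr1_primrec pD).comp Primrec.snd hw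

theorem clP_primrec (pD pH : Pres) (yw : Word) (W : ℕ → Word) (hW : Primrec W) (pG : Pres) :
    Primrec (clP pD pH yw W pG) := by
  unfold clP
  refine Primrec.list_foldr (h := fun _ x => litP pD pH yw W x.1 x.2) Primrec.id
    (Primrec.const pG) ?_
  exact (litP_primrec pD pH yw W hW).comp (Primrec.fst.comp Primrec.snd)
    (Primrec.snd.comp Primrec.snd)

theorem cnfP_primrec (pD pH : Pres) (yw : Word) (W : ℕ → Word) (hW : Primrec W) (pG pT : Pres) :
    Primrec (cnfP pD pH yw W pG pT) := by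
  unfold cnfP
  refine Primrec.list_foldr (h := fun _ x => joinP (clP pD pH yw W pG x.1) x.2) Primrec.id
    (Primrec.const pT) ?_
  exact joinP_primrec.comp ((clP_primrec pD pH yw W hW pG).comp (Primrec.fst.comp Primrec.snd))
    (Primrec.snd.comp Primrec.snd)

/-- finiteness obstructions of free products -/
def FreeIff : Prop := ∀ (A B Γ : Type) [Group A] [Group B] [Group Γ] (α : A →* Γ) (β : B →* Γ),
  IsPush α β (triv0 A) (triv0 B) → TypeFP A → TypeFP B →
    ∀ m, (FreeRes m Γ ↔ FreeRes m A ∧ FreeRes m B)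

/-- clean presentations of groups of type (FP) without proper subgroups of finite index -/
structure Good (p : Pres) : Prop where
  cl : Clean p
  fp : TypeFP (Gp p)
  nf : NoFin (Gp p)

/-- presentation data: `D` with the words `W n`, `W n = 1` iff `n ∈ K`, and `H` with `y ≠ 1` -/
structure Kit (K : ℕ → Prop) (pD pH : Pres) (yw : Word) (W : ℕ → Word) : Prop where
  ex : ∃ (D H : Type) (_ : Group D) (_ : Group H) (gD : ℕ → D) (gH : ℕ → H), IsPres D pD gD ∧
    IsPres H pH gH ∧ TypeFF D ∧ TypeFF H ∧ NoFin D ∧ NoFin H ∧ ev gH yw ≠ 1 ∧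
    ∀ n, K n ↔ ev gD (W n) = 1
  cD : Clean pD
  cH : Clean pH
  cy : ∀ l ∈ yw, l.1 < pH.1
  cW : ∀ n, ∀ l ∈ W n, l.1 < pD.1

theorem freeRes_of_ff (G : Type) [Group G] (h : TypeFF G) (m : ℕ) : FreeRes m G := by
  rw [freeRes_iff]
  exact ff_pi (fun _ : Fin m => Triv G) fun _ => ff_of_typeFF G h

section
variable {K : ℕ → Prop} {pD pH : Pres} {yw : Word} {W : ℕ → Word}

theorem lit_spec (hk : Kit K pD pH yw W) (l : ℕ × Bool) {p : Pres} (hp : Good p) :
    Good (litP pD pH yw W l p) ∧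
    (∀ m, FreeRes m (Gp (litP pD pH yw W l p)) ↔ ((K l.1 ↔ l.2 = true) ∨ FreeRes m (Gp p))) ∧
    ∃ j : Gp p →* Gp (litP pD pH yw W l p), Function.Injective j := by
  obtain ⟨D, H, iD, iH, gD, gH, hD, hH, fD, fH, nD, nH, hy, hW⟩ := hk.ex
  rcases l with ⟨n, b⟩
  have hgp := isPres_gp p
  cases b
  · have e1 : litP pD pH yw W (n, false) p = pr1 pD p (W n) := by simp [litP]
    rw [e1]
    obtain ⟨α, β, h1⟩ := pr1_gp hD hgp hk.cD hp.cl (hk.cW n)
    obtain ⟨a1, a2, a3, a4⟩ := tog1_spec h1 fD hp.fp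
    refine ⟨⟨clean_pr1 hk.cD hp.cl (hk.cW n), a1, noFin_two nD hp.nf α β h1.gen⟩, fun m => ?_,
      β, a4⟩
    simp only [Bool.false_eq_true, iff_false]
    by_cases hKn : K n
    · rw [a3 ((hW n).1 hKn) m]
      simp [hKn]
    · have := freeRes_of_ff _ (a2 (fun h => hKn ((hW n).2 h))) m
      simp [hKn, this]
  · have e1 : litP pD pH yw W (n, true) p = pr2 pD pH yw p (W n) := by simp [litP]
    rw [e1]
    obtain ⟨α, η, β, h1⟩ := pr2_gp hD hH hgp hk.cD hk.cH hp.cl (hk.cW n) hk.cy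
    obtain ⟨a1, a2, a3, a4⟩ := togH_spec h1 fD fH hy hp.fp
    refine ⟨⟨clean_pr2 hk.cD hk.cH hp.cl hk.cy (hk.cW n), a1,
      noFin_three nD nH hp.nf α η β h1.gen⟩, fun m => ?_, β, a4⟩
    simp only [iff_true]
    by_cases hKn : K n
    · have := freeRes_of_ff _ (a2 ((hW n).1 hKn)) m
      simp [hKn, this]
    · rw [a3 (fun h => hKn ((hW n).2 h)) m]
      simp [hKn]

theorem cl_spec (hk : Kit K pD pH yw W) {pG : Pres} (hG : Good pG) (c : Clause) :
    Good (clP pD pH yw W pG c) ∧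
    (∀ m, FreeRes m (Gp (clP pD pH yw W pG c)) ↔ (satC K c ∨ FreeRes m (Gp pG))) := by
  induction c with
  | nil =>
    refine ⟨hG, fun m => ?_⟩
    have h1 : ¬ satC K [] := by
      rintro ⟨l, hl, _⟩
      simp at hl
    simp only [h1, false_or]
    exact Iff.rfl
  | cons l c ih =>
    obtain ⟨i1, i2⟩ := ih
    obtain ⟨s1, s2, -⟩ := lit_spec hk l i1
    refine ⟨s1, fun m => ?_⟩
    have h1 : satC K (l :: c) ↔ ((K l.1 ↔ l.2 = true) ∨ satC K c) := by
      unfold satC
      simp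
    rw [h1, or_assoc, ← i2 m]
    exact s2 m

theorem cnf_spec (hf : FreeIff) (hk : Kit K pD pH yw W) {pG pT : Pres} (hG : Good pG)
    (hT : Good pT) (hTF : TypeFF (Gp pT)) (F : CNF) :
    Good (cnfP pD pH yw W pG pT F) ∧
    (∀ m, FreeRes m (Gp (cnfP pD pH yw W pG pT F)) ↔ (sat K F ∨ FreeRes m (Gp pG))) ∧
    ∃ j : Gp pT →* Gp (cnfP pD pH yw W pG pT F), Function.Injective j := by
  induction F with
  | nil =>
    refine ⟨hT, fun m => ?_, MonoidHom.id _, Function.injective_id⟩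
    have h1 : sat K [] := by
      intro c hc
      simp at hc
    simp only [h1, true_or, iff_true]
    exact freeRes_of_ff _ hTF m
  | cons c F ih =>
    obtain ⟨i1, i2, j, hj⟩ := ih
    obtain ⟨c1, c2⟩ := cl_spec hk hG c
    have e1 : cnfP pD pH yw W pG pT (c :: F) =
        joinP (clP pD pH yw W pG c) (cnfP pD pH yw W pG pT F) := rfl
    rw [e1]
    obtain ⟨α, β, h1⟩ := join_gp (isPres_gp _) (isPres_gp _) c1.cl i1.cl
    obtain ⟨S, hS⟩ := amal_of_univ (triv0_inj _) (triv0_inj _) h1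
    refine ⟨⟨clean_join c1.cl i1.cl, amal_fp hS c1.fp i1.fp (typeFP_of_typeFF _ nice0),
      noFin_two c1.nf i1.nf α β h1.gen⟩, fun m => ?_, β.comp j, hS.injB.comp hj⟩
    rw [hf _ _ _ α β h1 c1.fp i1.fp m, c2 m, i2 m]
    have h2 : sat K (c :: F) ↔ (satC K c ∧ sat K F) := by
      unfold sat
      simp
    rw [h2]
    tauto

end

end Pool.Agent.SDec
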