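import Pool.Agent.SDec.TogPres

/-!
# Computability of the presentations
-/

set_option autoImplicit false

namespace Pool.Agent.SDec

theorem winv_primrec : Primrec winv := by
  unfold winv
  refine Primrec.list_reverse.comp (Primrec.list_map Primrec.id ?_)
  exact Primrec.pair (Primrec.fst.comp Primrec.snd)
    (Primrec.not.comp (Primrec.snd.comp Primrec.snd))

theorem cw_primrec : Primrec₂ cw := by
  unfold cw
  have h1 : Primrec (fun x : Word × ℕ => x.1) := Primrec.fst
  have h2 : Primrec (fun x : Word × ℕ => winv x.1) := winv_primrec.comp Primrec.fst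
  have h3 : Primrec (fun x : Word × ℕ => [((x.2, false) : ℕ × Bool)]) :=
    Primrec.list_cons.comp (Primrec.pair Primrec.snd (Primrec.const false)) (Primrec.const [])
  have h4 : Primrec (fun x : Word × ℕ => ((x.2, true) : ℕ × Bool)) :=
    Primrec.pair Primrec.snd (Primrec.const true)
  exact Primrec.list_append.comp h1
    (Primrec.list_cons.comp h4 (Primrec.list_append.comp h2 h3))

theorem rel1_primrec (pD pG : Pres) : Primrec (rel1 pD pG) := by
  unfold rel1
  refine Primrec.list_append.comp (Primrec.const _)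
    (Primrec.list_append.comp (Primrec.const _) (Primrec.list_map (Primrec.const _) ?_))
  exact cw_primrec.comp Primrec.fst (Primrec.nat_add.comp (Primrec.const _) Primrec.snd)

theorem pres1_primrec (pD pG : Pres) : Primrec (pres1 pD pG) := by
  unfold pres1
  exact Primrec.pair (Primrec.const _) (rel1_primrec pD pG)

theorem pres2_primrec (pD pG : Pres) : Primrec (pres2 pD pG) := by
  unfold pres2
  exact Primrec.pair (Primrec.const _)
    (Primrec.list_append.comp (rel1_primrec pD pG) (Primrec.const _))

/-- powers of a word -/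
def wpow (x : Word) (n : ℕ) : Word := n.rec [] fun _ L => x ++ L

theorem wpow_primrec (x : Word) : Primrec (wpow x) := by
  unfold wpow
  exact Primrec.nat_rec₁ [] (Primrec.list_append.comp (Primrec.const _)
    (Primrec.snd)).to₂

theorem ev_wpow {G : Type} [Group G] (f : ℕ → G) (x : Word) (n : ℕ) :
    ev f (wpow x n) = ev f x ^ n := by
  induction n with
  | zero => simp [wpow]
  | succ n ih =>
    have h1 : wpow x (n + 1) = x ++ wpow x n := rfl
    rw [h1, ev_append, ih, pow_succ']

/-- the word of the commutator `k T k⁻¹ T⁻¹`, `T = A⁻¹ t A`, `A = a x^n` -/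
def tword (k t a x : Word) (n : ℕ) : Word :=
  let A := a ++ wpow x n
  let T := winv A ++ (t ++ A)
  k ++ (T ++ (winv k ++ winv T))

theorem tword_primrec (k t a x : Word) : Primrec (tword k t a x) := by
  unfold tword
  have hA : Primrec fun n => a ++ wpow x n :=
    Primrec.list_append.comp (Primrec.const _) (wpow_primrec x)
  have hT : Primrec fun n => winv (a ++ wpow x n) ++ (t ++ (a ++ wpow x n)) :=
    Primrec.list_append.comp (winv_primrec.comp hA)
      (Primrec.list_append.comp (Primrec.const _) hA)
  exact Primrec.list_append.comp (Primrec.const _) (Primrec.list_append.comp hT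
    (Primrec.list_append.comp (Primrec.const _) (winv_primrec.comp hT)))

theorem ev_tword {G : Type} [Group G] (f : ℕ → G) (k t a x : Word) (n : ℕ) :
    ev f (tword k t a x n) = ev f k * ((ev f a * ev f x ^ n)⁻¹ * ev f t * (ev f a * ev f x ^ n)) *
      (ev f k)⁻¹ * ((ev f a * ev f x ^ n)⁻¹ * ev f t * (ev f a * ev f x ^ n))⁻¹ := by
  unfold tword
  simp only [ev_append, ev_inv, ev_wpow]
  simp only [mul_assoc]

theorem mem_winv {w : Word} {l : ℕ × Bool} (h : l ∈ winv w) : ∃ l' ∈ w, l'.1 = l.1 := by
  unfold winv at h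
  rw [List.mem_reverse] at h
  obtain ⟨l', hl', rfl⟩ := List.mem_map.1 h
  exact ⟨l', hl', rfl⟩

theorem wpow_clean {x : Word} {N : ℕ} (hx : ∀ l ∈ x, l.1 < N) (n : ℕ) :
    ∀ l ∈ wpow x n, l.1 < N := by
  induction n with
  | zero => intro l hl; simp [wpow] at hl
  | succ n ih =>
    intro l hl
    have h1 : wpow x (n + 1) = x ++ wpow x n := rfl
    rw [h1] at hl
    rcases List.mem_append.1 hl with hl | hl
    · exact hx l hl
    · exact ih l hl

theorem append_clean {x y : Word} {N : ℕ} (hx : ∀ l ∈ x, l.1 < N) (hy : ∀ l ∈ y, l.1 < N) :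
    ∀ l ∈ x ++ y, l.1 < N := by
  intro l hl
  rcases List.mem_append.1 hl with hl | hl
  · exact hx l hl
  · exact hy l hl

theorem winv_clean {x : Word} {N : ℕ} (hx : ∀ l ∈ x, l.1 < N) : ∀ l ∈ winv x, l.1 < N := by
  intro l hl
  obtain ⟨l', hl', h⟩ := mem_winv hl
  rw [← h]
  exact hx l' hl'

theorem tword_clean {k t a x : Word} {N : ℕ} (hk : ∀ l ∈ k, l.1 < N) (ht : ∀ l ∈ t, l.1 < N)
    (ha : ∀ l ∈ a, l.1 < N) (hx : ∀ l ∈ x, l.1 < N) (n : ℕ) :
    ∀ l ∈ tword k t a x n, l.1 < N := by
  have hA := append_clean ha (wpow_clean hx n)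
  have hT := append_clean (winv_clean hA) (append_clean ht hA)
  exact append_clean hk (append_clean hT (append_clean (winv_clean hk) (winv_clean hT)))

end Pool.Agent.SDec
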