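import Pool.Agent.SDec.Exist2

/-!
# Recursion theory for the families of accepted integers
-/

set_option autoImplicit false

namespace Pool.Agent.SDec

/-- injective computable images of recursively enumerable sets -/
theorem re_image (code : ℕ → ℕ) (hcode : Computable code) (hinj : Function.Injective code)
    (Q : ℕ → Prop) (hQ : REPred Q) : REPred fun n => ∃ p, code p = n ∧ Q p := by
  classical
  have h1 : Partrec₂ fun (n p : ℕ) => (Part.some (decide (code p = n)) : Part Bool) := by
    have h2 : Computable₂ fun (n p : ℕ) => decide (code p = n) := by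
      have h3 : Computable₂ fun (a b : ℕ) => decide (a = b) :=
        (Primrec.eq (α := ℕ)).decide.to_comp.of_eq fun p => by congr
      exact h3.comp (hcode.comp Computable.snd) Computable.fst
    exact h2.partrec
  have h2 : Partrec fun n : ℕ => (Nat.rfind fun p => Part.some (decide (code p = n))).bind
      fun p => Part.assert (Q p) fun _ => Part.some () :=
    (Partrec.rfind h1).bind (hQ.comp Computable.snd).to₂
  unfold REPred
  refine h2.of_eq ?_
  intro n
  apply Part.ext
  rintro ⟨⟩
  constructor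
  · intro h
    obtain ⟨p, hp1, hp2⟩ := Part.mem_bind_iff.1 h
    obtain ⟨h3, -⟩ := Part.mem_assert_iff.1 hp2
    have h4 := (Nat.mem_rfind.1 hp1).1
    have h5 : code p = n := by simpa using h4
    exact Part.mem_assert_iff.2 ⟨⟨p, h5, h3⟩, Part.mem_some _⟩
  · intro h
    obtain ⟨⟨p, h3, h4⟩, -⟩ := Part.mem_assert_iff.1 h
    refine Part.mem_bind_iff.2 ⟨p, ?_, Part.mem_assert_iff.2 ⟨h4, Part.mem_some _⟩⟩
    rw [Nat.mem_rfind]
    refine ⟨by simp [h3], ?_⟩
    intro m hm
    have h5 : code m ≠ n := by
      intro h6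
      have := hinj (h6.trans h3.symm)
      omega
    simp [h5]

/-- the prefix of `e` -/
def pre (e : ℕ) : List Bool := List.replicate e false ++ [true]

theorem enc3_append (δ ε : List Bool) : enc3 (δ ++ ε) = enc3 δ + 3 ^ δ.length * enc3 ε := by
  induction δ with
  | nil => simp [enc3]
  | cons b δ ih =>
    rw [List.cons_append, enc3, enc3, ih, List.length_cons, pow_succ]
    ring

theorem enc3_prefix (δ₁ : List Bool) : ∀ (δ : List Bool) (l : ℤ),
    (enc3 δ₁ : ℤ) + 3 ^ δ₁.length * l = enc3 δ → ∃ ε, δ = δ₁ ++ ε ∧ l = enc3 ε := by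
  induction δ₁ with
  | nil =>
    intro δ l h
    refine ⟨δ, rfl, ?_⟩
    simpa [enc3] using h
  | cons b δ₁ ih =>
    intro δ l h
    rw [enc3, List.length_cons, pow_succ] at h
    push_cast at h
    rcases δ with _ | ⟨b', δ⟩
    · exfalso
      rw [enc3] at h
      have h1 : (1 + (b.toNat : ℤ)) + 3 * ((enc3 δ₁ : ℤ) + 3 ^ δ₁.length * l) = 0 := by
        rw [← Nat.cast_zero, ← h]; ring
      cases b <;> simp at h1 <;> omega
    · rw [enc3] at h
      push_cast at h
      have h1 : (1 + (b.toNat : ℤ)) + 3 * ((enc3 δ₁ : ℤ) + 3 ^ δ₁.length * l) =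
          (1 + (b'.toNat : ℤ)) + 3 * (enc3 δ : ℤ) := by
        rw [← h]; ring
      have h2 : b = b' := by
        cases b <;> cases b' <;> simp at h1 ⊢ <;> omega
      subst h2
      have h3 : (enc3 δ₁ : ℤ) + 3 ^ δ₁.length * l = enc3 δ := by omega
      obtain ⟨ε, h4, h5⟩ := ih δ l h3
      exact ⟨ε, by rw [h4]; rfl, h5⟩

theorem enc3_inj : Function.Injective enc3 := by
  intro δ₁ δ h
  obtain ⟨ε, h1, h2⟩ := enc3_prefix δ₁ δ 0 (by rw [mul_zero, add_zero]; exact_mod_cast h)
  have h3 : ε = [] := by
    rcases ε with _ | ⟨b, ε⟩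
    · rfl
    · exfalso
      rw [enc3] at h2
      push_cast at h2
      cases b <;> simp at h2 <;> omega
  rw [h1, h3, List.append_nil]

theorem foldl_inj (δ : List Bool) : ∀ (δ' : List Bool) (m m' : ℕ), δ.length = δ'.length →
    δ.foldl (fun n b => 2 * n + b.toNat) m = δ'.foldl (fun n b => 2 * n + b.toNat) m' →
    m = m' ∧ δ = δ' := by
  induction δ with
  | nil =>
    intro δ' m m' hl h
    rcases δ' with _ | ⟨b', δ'⟩
    · exact ⟨h, rfl⟩
    · simp at hl
  | cons b δ ih =>
    intro δ' m m' hl h
    rcases δ' with _ | ⟨b', δ'⟩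
    · simp at hl
    · rw [List.foldl_cons, List.foldl_cons] at h
      obtain ⟨h1, h2⟩ := ih δ' _ _ (by simpa using hl) h
      cases b <;> cases b' <;> simp at h1 ⊢ <;> first | exact ⟨by omega, h2⟩ | (exfalso; omega)

theorem num_bounds (δ : List Bool) : ∀ m : ℕ,
    m * 2 ^ δ.length ≤ δ.foldl (fun n b => 2 * n + b.toNat) m ∧
    δ.foldl (fun n b => 2 * n + b.toNat) m < (m + 1) * 2 ^ δ.length := by
  induction δ with
  | nil => intro m; simp
  | cons b δ ih =>
    intro m
    rw [List.foldl_cons, List.length_cons, pow_succ]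
    obtain ⟨h1, h2⟩ := ih (2 * m + b.toNat)
    have h3 : b.toNat ≤ 1 := by cases b <;> simp
    constructor
    · refine le_trans ?_ h1
      have : 2 * m ≤ 2 * m + b.toNat := by omega
      calc m * (2 ^ δ.length * 2) = 2 * m * 2 ^ δ.length := by ring
        _ ≤ _ := Nat.mul_le_mul_right _ this
    · refine lt_of_lt_of_le h2 ?_
      have : 2 * m + b.toNat + 1 ≤ 2 * (m + 1) := by omega
      calc (2 * m + b.toNat + 1) * 2 ^ δ.length ≤ 2 * (m + 1) * 2 ^ δ.length :=
            Nat.mul_le_mul_right _ this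
        _ = _ := by ring

theorem num_inj : Function.Injective num := by
  intro δ δ' h
  have hl : δ.length = δ'.length := by
    obtain ⟨h1, h2⟩ := num_bounds δ 1
    obtain ⟨h3, h4⟩ := num_bounds δ' 1
    have h5 : num δ < 2 ^ (δ.length + 1) := by
      rw [pow_succ, mul_comm]; exact h2
    have h6 : num δ' < 2 ^ (δ'.length + 1) := by
      rw [pow_succ, mul_comm]; exact h4
    have h7 : 2 ^ δ.length ≤ num δ := by rw [← one_mul (2 ^ δ.length)]; exact h1
    have h8 : 2 ^ δ'.length ≤ num δ' := by rw [← one_mul (2 ^ δ'.length)]; exact h3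
    rw [h] at h5 h7
    have h9 : δ.length < δ'.length + 1 :=
      (Nat.pow_lt_pow_iff_right (by norm_num : 1 < 2)).1 (lt_of_le_of_lt h7 h6)
    have h10 : δ'.length < δ.length + 1 :=
      (Nat.pow_lt_pow_iff_right (by norm_num : 1 < 2)).1 (lt_of_le_of_lt h8 h5)
    omega
  exact (foldl_inj δ δ' 1 1 hl h).2

/-- the word of a pair -/
def wrd (e i : ℕ) : List Bool := pre e ++ List.replicate i false

theorem wrd_prefix (e e' i : ℕ) (ε : List Bool) (h : pre e ++ ε = wrd e' i) :
    e = e' ∧ ε = List.replicate i false := by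
  unfold wrd pre at h
  induction e generalizing e' with
  | zero =>
    rcases e' with _ | e'
    · simp at h
      exact ⟨rfl, h⟩
    · simp [List.replicate_succ] at h
  | succ e ih =>
    rcases e' with _ | e'
    · simp [List.replicate_succ] at h
    · rw [List.replicate_succ, List.replicate_succ] at h
      simp only [List.cons_append, List.cons.injEq, true_and] at h
      obtain ⟨h1, h2⟩ := ih e' h
      exact ⟨by rw [h1], h2⟩

/-- the number of a pair -/
def pcode (p : ℕ) : ℕ := num (wrd p.unpair.1 p.unpair.2)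

theorem pcode_inj : Function.Injective pcode := by
  intro p q h
  have h1 := num_inj h
  have h2 := wrd_prefix _ _ _ _ h1
  have h3 : p.unpair.2 = q.unpair.2 := by
    have := congrArg List.length h2.2
    simpa using this
  rw [← Nat.pair_unpair p, ← Nat.pair_unpair q, h2.1, h3]

theorem foldl_zeros (i : ℕ) : ∀ m : ℕ,
    (List.replicate i false).foldl (fun n b => 2 * n + b.toNat) m =
      Nat.rec m (fun _ n => 2 * n) i := by
  induction i with
  | zero => intro m; rfl
  | succ i ih =>
    intro m
    have h1 : List.replicate (i + 1) false = List.replicate i false ++ [false] := by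
      rw [← List.replicate_succ']
    rw [h1, List.foldl_append, ih]
    simp

theorem pcode_eq (p : ℕ) : pcode p = Nat.rec (2 * (Nat.rec 1 (fun _ n => 2 * n) p.unpair.1) + 1)
    (fun _ n => 2 * n) p.unpair.2 := by
  unfold pcode num wrd pre
  rw [List.foldl_append, List.foldl_append, foldl_zeros, foldl_zeros]
  simp

theorem pcode_computable : Computable pcode := by
  have h1 : Primrec fun p : ℕ => (Nat.rec 1 (fun _ n => 2 * n) p.unpair.1 : ℕ) := by
    have h2 : Primrec₂ fun (_ : ℕ) (x : ℕ × ℕ) => 2 * x.2 :=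
      (Primrec.nat_mul.comp (Primrec.const 2) (Primrec.snd.comp Primrec.snd))
    exact Primrec.nat_rec' (Primrec.fst.comp Primrec.unpair) (Primrec.const 1) h2
  have h3 : Primrec pcode := by
    have h2 : Primrec₂ fun (_ : ℕ) (x : ℕ × ℕ) => 2 * x.2 :=
      (Primrec.nat_mul.comp (Primrec.const 2) (Primrec.snd.comp Primrec.snd))
    have h4 : Primrec fun p : ℕ => 2 * (Nat.rec 1 (fun _ n => 2 * n) p.unpair.1 : ℕ) + 1 :=
      Primrec.nat_add.comp (Primrec.nat_mul.comp (Primrec.const 2) h1) (Primrec.const 1)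
    refine (Primrec.nat_rec' (Primrec.snd.comp Primrec.unpair) h4 h2).of_eq ?_
    intro p
    exact (pcode_eq p).symm
  exact h3.to_comp

/-- the offset and the step of the progression of `e` -/
def offs (e : ℕ) : ℕ := enc3 (pre e)

def stp (e : ℕ) : ℕ := 3 ^ (e + 1)

theorem offs_primrec : Primrec offs := by
  have h1 : ∀ e, offs e = Nat.rec 2 (fun _ n => 1 + 3 * n) e := by
    intro e
    induction e with
    | zero => simp [offs, pre, enc3]
    | succ e ih =>
      have h2 : offs (e + 1) = 1 + 3 * offs e := by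
        unfold offs pre
        rw [List.replicate_succ, List.cons_append, enc3]
        simp
      rw [h2, ih]
  have h2 : Primrec₂ fun (_ : ℕ) (x : ℕ × ℕ) => 1 + 3 * x.2 :=
    Primrec.nat_add.comp (Primrec.const 1)
      (Primrec.nat_mul.comp (Primrec.const 3) (Primrec.snd.comp Primrec.snd))
  refine (Primrec.nat_rec' Primrec.id (Primrec.const 2) h2).of_eq ?_
  intro e
  exact (h1 e).symm

theorem stp_primrec : Primrec stp := by
  have h1 : ∀ e, stp e = Nat.rec 3 (fun _ n => 3 * n) e := by
    intro e
    induction e with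
    | zero => simp [stp]
    | succ e ih =>
      have h2 : stp (e + 1) = 3 * stp e := by
        unfold stp
        rw [pow_succ]
        ring
      rw [h2, ih]
  have h2 : Primrec₂ fun (_ : ℕ) (x : ℕ × ℕ) => 3 * x.2 :=
    Primrec.nat_mul.comp (Primrec.const 3) (Primrec.snd.comp Primrec.snd)
  refine (Primrec.nat_rec' Primrec.id (Primrec.const 3) h2).of_eq ?_
  intro e
  exact (h1 e).symm

/-- the set which is enumerated by the machine -/
def KK (n : ℕ → ℕ) (k : ℕ) : Prop := ∃ p, pcode p = k ∧ p.unpair.2 < n p.unpair.1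

theorem kk_re (n : ℕ → ℕ) (h : REPred fun p : ℕ => p.unpair.2 < n p.unpair.1) : REPred (KK n) :=
  re_image pcode pcode_computable pcode_inj _ h

/-- the accepted members of the progression -/
theorem acc_prog (n : ℕ → ℕ) (e : ℕ) (l : ℤ) :
    (∃ δ : List Bool, (offs e : ℤ) + l * stp e = enc3 δ ∧ KK n (num δ)) ↔
      l ∈ Set.range fun i : Fin (n e) => (enc3 (List.replicate i false) : ℤ) := by
  have hlen : (pre e).length = e + 1 := by simp [pre]
  constructor
  · rintro ⟨δ, h1, p, h2, h3⟩
    have h4 : (enc3 (pre e) : ℤ) + 3 ^ (pre e).length * l = enc3 δ := by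
      rw [← h1, hlen]
      unfold offs stp
      push_cast
      ring
    obtain ⟨ε, h5, h6⟩ := enc3_prefix _ _ _ h4
    have h7 := num_inj h2
    rw [h5] at h7
    obtain ⟨h8, h9⟩ := wrd_prefix _ _ _ _ h7.symm
    refine ⟨⟨p.unpair.2, by rw [h8]; exact h3⟩, ?_⟩
    rw [h6, h9]
  · rintro ⟨i, rfl⟩
    refine ⟨wrd e i, ?_, Nat.pair e i, ?_, ?_⟩
    · unfold wrd
      rw [enc3_append, hlen]
      unfold offs stp
      push_cast
      ring
    · simp [pcode]
    · simp

theorem prog_inj (n : ℕ) :
    Function.Injective fun i : Fin n => (enc3 (List.replicate i false) : ℤ) := by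
  intro i j h
  have h0 : ((enc3 (List.replicate i false) : ℕ) : ℤ) = (enc3 (List.replicate j false) : ℕ) := h
  have h1 : enc3 (List.replicate i false) = enc3 (List.replicate j false) := by exact_mod_cast h0
  have h2 := congrArg List.length (enc3_inj h1)
  simp only [List.length_replicate] at h2
  exact Fin.ext h2

end Pool.Agent.SDec
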