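import Pool.Agent.SDec.Mind
import Pool.Agent.SDec.Fam

/-!
# One finitely presented group of type (FF) with subgroups of prescribed Euler characteristic
-/

set_option autoImplicit false

namespace Pool.Agent.SDec

open Pool.Agent.Hhelper49.Srf Pool.Agent.Hhelper49.Srr

/-- the properties of the Euler characteristic which are used -/
structure EulLike (Eul : ∀ (M : Type) [Group M], ℤ → Prop) : Prop where
  free : ∀ r : ℕ, Eul (FreeGroup (Fin r)) (1 - r)
  amal : ∀ {A B C Γ : Type} [Group A] [Group B] [Group C] [Group Γ] {α : A →* Γ} {β : B →* Γ}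
    {κ : C →* A} {ι : C →* B} {S : Set Γ} {a b c : ℤ}, Amal α β κ ι S → Eul A a → Eul B b →
    Eul C c → Eul Γ (a + b - c)
  prod : ∀ {M : Type} [Group M] {c : ℤ} (r : ℕ), Eul M c → Eul (M × FreeGroup (Fin r)) (c * (1 - r))

/-- the generators of the subgroups -/
def gens {D : Type} [Group D] (x y z x' y' z' f f' : D) (s c : ℕ) : Set D :=
  {z, x ^ s, (x ^ c)⁻¹ * y * x ^ c, z', x' ^ s, (x' ^ c)⁻¹ * y' * x' ^ c, f, f'}

theorem range_sup_map {A B Γ Γ' : Type} [Group A] [Group B] [Group Γ] [Group Γ'] {α : A →* Γ}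
    {β : B →* Γ} (h : α.range ⊔ β.range = ⊤) (μ : Γ →* Γ') :
    μ.range = (μ.comp α).range ⊔ (μ.comp β).range := by
  rw [MonoidHom.range_eq_map, ← h, Subgroup.map_sup, MonoidHom.range_comp, MonoidHom.range_comp]

theorem exists_dhat (Eul : ∀ (M : Type) [Group M], ℤ → Prop) (hE : EulLike Eul) (n₁ n₂ : ℕ → ℕ)
    (h₁ : REPred fun p : ℕ => p.unpair.2 < n₁ p.unpair.1)
    (h₂ : REPred fun p : ℕ => p.unpair.2 < n₂ p.unpair.1) :
    ∃ (D : Type) (_ : Group D) (x y z x' y' z' f f' : D), Nice D ∧ ∀ e : ℕ,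
      ∃ (M : Type) (_ : Group M) (μ : M →* D), Eul M ((n₁ e : ℤ) - n₂ e - 1) ∧
        Function.Injective μ ∧
        μ.range = Subgroup.closure (gens x y z x' y' z' f f' (stp e) (offs e)) ∧
        Group.IsFinitelyPresented M := by
  obtain ⟨D1, iD1, X1, Y1, Z1, hD1, H1⟩ := mind (KK n₁) (kk_re n₁ h₁)
  obtain ⟨D2, iD2, X2, Y2, Z2, hD2, H2⟩ := mind (KK n₂) (kk_re n₂ h₂)
  have hD2' : Nice (D2 × FreeGroup (Fin 2)) := by
    have := hD2.fp
    refine ⟨?_, Pool.Agent.SFP.prod_fpres D2 (FreeGroup (Fin 2))⟩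
    apply Pool.Agent.Hhelper49.Qiv.typeFF_of_freeRes
    have h1 := prod_freeRes D2 (typeFP_of_typeFF D2 hD2.ff) 1 1
    exact h1.2 (freeRes_of_typeFF D2 hD2.ff)
  obtain ⟨D, iD, α, β, S, hA, hP⟩ := push2 D1 (D2 × FreeGroup (Fin 2)) (FreeGroup (Fin 0))
    (triv0 D1) (triv0 _) (triv0_inj _) (triv0_inj _)
  have hDN : Nice D := ⟨amal_ff hA hD1.ff hD2'.ff (nice_free 0).ff,
    fpres_push hP hD1.fp hD2'.fp (fg_of_fpres _ (nice_free 0).fp)⟩
  refine ⟨D, iD, α X1, α Y1, α Z1, β (X2, 1), β (Y2, 1), β (Z2, 1), β (1, FreeGroup.of 0),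
    β (1, FreeGroup.of 1), hDN, ?_⟩
  intro e
  have hs : (0 : ℤ) < stp e := by
    unfold stp
    positivity
  have q1 : {l : ℤ | Acc (KK n₁) ((offs e : ℤ) + l * stp e)} =
      Set.range fun i : Fin (n₁ e) => (enc3 (List.replicate i false) : ℤ) := by
    ext l
    exact acc_prog n₁ e l
  have q2 : {l : ℤ | Acc (KK n₂) ((offs e : ℤ) + l * stp e)} =
      Set.range fun i : Fin (n₂ e) => (enc3 (List.replicate i false) : ℤ) := by
    ext l
    exact acc_prog n₂ e l
  obtain ⟨M1, iM1, a1, b1, k1, S1, μ1, A1, I1, R1, P1⟩ := H1 (stp e) (offs e) (n₁ e) _ hs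
    (prog_inj _) q1
  obtain ⟨M2, iM2, a2, b2, k2, S2, μ2, A2, I2, R2, P2⟩ := H2 (stp e) (offs e) (n₂ e) _ hs
    (prog_inj _) q2
  have E1 := hE.amal A1 (hE.free 2) (hE.prod 1 (hE.free (n₁ e))) (hE.free (n₁ e))
  have E2 := hE.amal A2 (hE.free 2) (hE.prod 1 (hE.free (n₂ e))) (hE.free (n₂ e))
  have E3 := hE.prod 2 E2
  obtain ⟨M, iM, a, b, T, hAM, hPM⟩ := push2 M1 (M2 × FreeGroup (Fin 2)) (FreeGroup (Fin 0))
    (triv0 M1) (triv0 _) (triv0_inj _) (triv0_inj _)
  have E4 := hE.amal hAM E1 E3 (hE.free 0)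
  let ψ : M2 × FreeGroup (Fin 2) →* D2 × FreeGroup (Fin 2) :=
    MonoidHom.prodMap μ2 (MonoidHom.id _)
  obtain ⟨μ, m1, m2⟩ := hPM.univ D (α.comp μ1) (β.comp ψ) (by
    intro c
    have hc : c = 1 := Subsingleton.elim _ _
    rw [hc]
    simp)
  have m2' : ∀ p, μ (b p) = β (μ2 p.1, p.2) := m2
  have m1' : ∀ w, μ (a w) = α (μ1 w) := m1
  have hfp : Group.IsFinitelyPresented M := fpres_push hPM P1
    (Pool.Agent.SFP.prod_fpres M2 (FreeGroup (Fin 2))) (fg_of_fpres _ (nice_free 0).fp)
  refine ⟨M, iM, μ, ?_, ?_, ?_, hfp⟩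
  · convert E4 using 1
    push_cast
    ring
  · refine sub_amal hA hPM.comm hPM.gen μ μ1 ψ m1 m2 I1 ?_ ?_
    · rintro w ⟨c, hc⟩
      have hc1 : c = 1 := Subsingleton.elim _ _
      rw [hc1, map_one] at hc
      have h1 : w = 1 := I1 (hc.symm.trans (map_one μ1).symm)
      rw [h1]
      exact Subgroup.one_mem _
    · rintro ⟨w1, w2⟩ ⟨c, hc⟩
      have hc1 : c = 1 := Subsingleton.elim _ _
      rw [hc1, map_one] at hc
      have h1 : μ2 w1 = 1 := (congrArg Prod.fst hc).symm
      have h2 : w2 = 1 := (congrArg Prod.snd hc).symm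
      have h3 : w1 = 1 := I2 (h1.trans (map_one μ2).symm)
      rw [h3, h2]
      exact Subgroup.one_mem _
  · have e1 : μ.comp a = α.comp μ1 := MonoidHom.ext m1
    have e2 : μ.comp b = β.comp ψ := MonoidHom.ext m2
    rw [range_sup_map hPM.gen μ, e1, e2, MonoidHom.range_comp, R1, MonoidHom.map_closure]
    have hp : ∀ k : ℕ, ((X2, (1 : FreeGroup (Fin 2))) : D2 × FreeGroup (Fin 2)) ^ k = (X2 ^ k, 1) := by
      intro k
      rw [Prod.pow_mk, one_pow]
    have g1 : β (X2, 1) ^ stp e = β (X2 ^ stp e, 1) := by rw [← map_pow, hp]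
    have g2 : (β (X2, 1) ^ offs e)⁻¹ * β (Y2, 1) * β (X2, 1) ^ offs e =
        β ((X2 ^ offs e)⁻¹ * Y2 * X2 ^ offs e, 1) := by
      rw [← map_pow, hp, ← map_inv, ← map_mul, ← map_mul]
      simp
    have g3 : α X1 ^ stp e = α (X1 ^ stp e) := (map_pow _ _ _).symm
    have g4 : (α X1 ^ offs e)⁻¹ * α Y1 * α X1 ^ offs e =
        α ((X1 ^ offs e)⁻¹ * Y1 * X1 ^ offs e) := by
      rw [map_mul, map_mul, map_inv, map_pow]
    unfold gens
    rw [g1, g2, g3, g4]
    apply le_antisymm
    · refine sup_le ?_ ?_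
      · rw [Subgroup.closure_le]
        rintro _ ⟨w, hw, rfl⟩
        apply Subgroup.subset_closure
        rcases hw with rfl | rfl | rfl
        · exact Or.inl rfl
        · right; left
          rw [zpow_natCast]
        · right; right; left
          rw [zpow_natCast]
      · rintro _ ⟨⟨w1, w2⟩, rfl⟩
        have h1 : ((w1, w2) : M2 × FreeGroup (Fin 2)) = (w1, 1) * (1, w2) := by simp
        rw [h1, (β.comp ψ).map_mul]
        refine Subgroup.mul_mem _ ?_ ?_
        · have h2 : μ2 w1 ∈ μ2.range := ⟨w1, rfl⟩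
          rw [R2] at h2
          have h3 : (β.comp (MonoidHom.inl D2 (FreeGroup (Fin 2)))) (μ2 w1) ∈
              (Subgroup.closure {Z2, X2 ^ (stp e : ℤ), (X2 ^ (offs e : ℤ))⁻¹ * Y2 *
                X2 ^ (offs e : ℤ)}).map (β.comp (MonoidHom.inl D2 (FreeGroup (Fin 2)))) :=
            ⟨_, h2, rfl⟩
          rw [MonoidHom.map_closure] at h3
          have h4 : β (ψ (w1, 1)) = (β.comp (MonoidHom.inl D2 (FreeGroup (Fin 2)))) (μ2 w1) := rfl
          change β (ψ (w1, 1)) ∈ _
          rw [h4]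
          refine (Subgroup.closure_le _).2 ?_ h3
          rintro _ ⟨w, hw, rfl⟩
          apply Subgroup.subset_closure
          rcases hw with rfl | rfl | rfl
          · right; right; right; left
            rfl
          · right; right; right; right; left
            rw [zpow_natCast]
            rfl
          · right; right; right; right; right; left
            rw [zpow_natCast]
            rfl
        · change β (ψ (1, w2)) ∈ _
          refine free_mem (β.comp (ψ.comp (MonoidHom.inr _ _))) _ ?_ w2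
          intro i
          apply Subgroup.subset_closure
          fin_cases i
          · right; right; right; right; right; right; left
            change β (μ2 1, FreeGroup.of 0) = _
            rw [map_one]
          · right; right; right; right; right; right; right
            change β (μ2 1, FreeGroup.of 1) = _
            rw [map_one]
    · rw [Subgroup.closure_le]
      have hr2 : ∀ w ∈ μ2.range, β (w, 1) ∈ (β.comp ψ).range := by
        rintro _ ⟨w, rfl⟩
        exact ⟨(w, 1), rfl⟩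
      rintro v (rfl | rfl | rfl | rfl | rfl | rfl | rfl | rfl)
      · exact le_sup_left (α := Subgroup D) (Subgroup.subset_closure ⟨_, Or.inl rfl, rfl⟩)
      · refine le_sup_left (α := Subgroup D) (Subgroup.subset_closure ⟨X1 ^ (stp e : ℤ), Or.inr (Or.inl rfl), ?_⟩)
        rw [zpow_natCast]
      · refine le_sup_left (α := Subgroup D) (Subgroup.subset_closure ⟨(X1 ^ (offs e : ℤ))⁻¹ * Y1 *
          X1 ^ (offs e : ℤ), Or.inr (Or.inr rfl), ?_⟩)
        rw [zpow_natCast]
      · refine le_sup_right (α := Subgroup D) (hr2 _ ?_)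
        rw [R2]
        exact Subgroup.subset_closure (Or.inl rfl)
      · refine le_sup_right (α := Subgroup D) (hr2 _ ?_)
        rw [R2, ← zpow_natCast]
        exact Subgroup.subset_closure (Or.inr (Or.inl rfl))
      · refine le_sup_right (α := Subgroup D) (hr2 _ ?_)
        rw [R2, ← zpow_natCast]
        exact Subgroup.subset_closure (Or.inr (Or.inr rfl))
      · exact le_sup_right (α := Subgroup D) ⟨(1, FreeGroup.of 0), by
          change β (μ2 1, FreeGroup.of 0) = _
          rw [map_one]⟩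
      · exact le_sup_right (α := Subgroup D) ⟨(1, FreeGroup.of 1), by
          change β (μ2 1, FreeGroup.of 1) = _
          rw [map_one]⟩

end Pool.Agent.SDec
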