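import Pool.Agent.SDec.StDefs

/-!
# Limit computable functions and a diagonal function against bounded mind changes
-/

set_option autoImplicit false

namespace Pool.Agent.SDec

open Nat.Partrec (Code)
open Nat.Partrec.Code

/-- the number of changes of a sequence before `t` -/
def chg (u : ℕ → ℕ) (t : ℕ) : ℕ := ((Finset.range t).filter fun s => u s ≠ u (s + 1)).card

theorem chg_succ (u : ℕ → ℕ) (t : ℕ) :
    chg u (t + 1) = chg u t + if u t ≠ u (t + 1) then 1 else 0 := by
  unfold chg
  rw [Finset.range_add_one, Finset.filter_insert]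
  split_ifs with h
  · rw [Finset.card_insert_of_notMem (by simp)]
  · rfl

theorem re_exists (R : ℕ → ℕ → Bool) (hR : Computable₂ R) : REPred fun p => ∃ t, R p t = true := by
  have h1 : Partrec₂ fun (p t : ℕ) => (Part.some (R p t) : Part Bool) := hR.partrec
  have h2 : Partrec fun p : ℕ => (Nat.rfind fun t => Part.some (R p t)).map fun _ => () :=
    (Partrec.rfind h1).map (Computable.const ()).to₂
  unfold REPred
  refine h2.of_eq ?_
  intro p
  apply Part.ext
  rintro ⟨⟩
  constructor
  · intro h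
    obtain ⟨t, h3, -⟩ := (Part.mem_map_iff _).1 h
    have h4 := (Nat.mem_rfind.1 h3).1
    exact Part.mem_assert_iff.2 ⟨⟨t, by simpa using h4⟩, Part.mem_some _⟩
  · intro h
    obtain ⟨⟨t, h3⟩, -⟩ := Part.mem_assert_iff.1 h
    obtain ⟨n, hn, -⟩ := Nat.rfind_min' (p := R p) h3
    refine (Part.mem_map_iff _).2 ⟨n, ?_, rfl⟩
    exact hn

/-! ### differences of lower semicomputable functions -/

/-- sums of the upward jumps -/
def up (g : ℕ → ℕ → ℕ) (e t : ℕ) : ℕ :=
  Nat.rec (g e 0 + 1) (fun s a => a + (g e (s + 1) - g e s)) t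

/-- sums of the downward jumps -/
def dn (g : ℕ → ℕ → ℕ) (e t : ℕ) : ℕ :=
  Nat.rec 0 (fun s a => a + (g e s - g e (s + 1))) t

theorem up_succ (g : ℕ → ℕ → ℕ) (e t : ℕ) :
    up g e (t + 1) = up g e t + (g e (t + 1) - g e t) := rfl

theorem dn_succ (g : ℕ → ℕ → ℕ) (e t : ℕ) :
    dn g e (t + 1) = dn g e t + (g e t - g e (t + 1)) := rfl

theorem up_dn (g : ℕ → ℕ → ℕ) (e t : ℕ) : up g e t = dn g e t + g e t + 1 := by
  induction t with
  | zero => simp [up, dn]
  | succ t ih =>
    rw [up_succ, dn_succ, ih]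
    omega

theorem up_computable (g : ℕ → ℕ → ℕ) (hg : Computable₂ g) : Computable₂ (up g) := by
  unfold up
  have hs : Computable fun x : (ℕ × ℕ) × (ℕ × ℕ) => g x.1.1 (x.2.1 + 1) :=
    hg.comp (Computable.fst.comp Computable.fst)
      (Computable.succ.comp (Computable.fst.comp Computable.snd))
  have h0 : Computable fun x : (ℕ × ℕ) × (ℕ × ℕ) => g x.1.1 x.2.1 :=
    hg.comp (Computable.fst.comp Computable.fst) (Computable.fst.comp Computable.snd)
  have h1 : Computable₂ fun (x : ℕ × ℕ) (y : ℕ × ℕ) => y.2 + (g x.1 (y.1 + 1) - g x.1 y.1) :=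
    (Primrec.nat_add.to_comp.comp (Computable.snd.comp Computable.snd)
      (Primrec.nat_sub.to_comp.comp hs h0))
  have h2 : Computable fun x : ℕ × ℕ => g x.1 0 + 1 :=
    Computable.succ.comp (hg.comp Computable.fst (Computable.const 0))
  exact Computable.nat_rec Computable.snd h2 h1

theorem dn_computable (g : ℕ → ℕ → ℕ) (hg : Computable₂ g) : Computable₂ (dn g) := by
  unfold dn
  have hs : Computable fun x : (ℕ × ℕ) × (ℕ × ℕ) => g x.1.1 (x.2.1 + 1) :=
    hg.comp (Computable.fst.comp Computable.fst)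
      (Computable.succ.comp (Computable.fst.comp Computable.snd))
  have h0 : Computable fun x : (ℕ × ℕ) × (ℕ × ℕ) => g x.1.1 x.2.1 :=
    hg.comp (Computable.fst.comp Computable.fst) (Computable.fst.comp Computable.snd)
  have h1 : Computable₂ fun (x : ℕ × ℕ) (y : ℕ × ℕ) => y.2 + (g x.1 y.1 - g x.1 (y.1 + 1)) :=
    (Primrec.nat_add.to_comp.comp (Computable.snd.comp Computable.snd)
      (Primrec.nat_sub.to_comp.comp h0 hs))
  exact Computable.nat_rec Computable.snd (Computable.const 0) h1

theorem lt_re (F : ℕ → ℕ → ℕ) (hF : Computable₂ F) (n : ℕ → ℕ)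
    (hn : ∀ e i, i < n e ↔ ∃ t, i < F e t) : REPred fun p : ℕ => p.unpair.2 < n p.unpair.1 := by
  have h1 : Computable₂ fun (p t : ℕ) => decide (p.unpair.2 < F p.unpair.1 t) := by
    have h2 : Computable₂ fun (a b : ℕ) => decide (a < b) :=
      (Primrec.nat_lt.decide.to_comp).of_eq fun p => by congr
    exact h2.comp (Computable.snd.comp (Computable.unpair.comp Computable.fst))
      (hF.comp (Computable.fst.comp (Computable.unpair.comp Computable.fst)) Computable.snd)
  refine (re_exists _ h1).of_eq ?_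
  intro p
  rw [hn]
  simp

/-- a limit computable function is a difference of two lower semicomputable ones -/
theorem lim_diff (c : ℕ → ℕ) (hc : LimComp c) : ∃ n₁ n₂ : ℕ → ℕ,
    (REPred fun p : ℕ => p.unpair.2 < n₁ p.unpair.1) ∧
    (REPred fun p : ℕ => p.unpair.2 < n₂ p.unpair.1) ∧
    ∀ e, (n₁ e : ℤ) - n₂ e - 1 = c e := by
  obtain ⟨g, hg, hl⟩ := hc
  choose s₀ hs using hl
  have hu : ∀ e t, s₀ e ≤ t → up g e t = up g e (s₀ e) := by
    intro e t ht
    induction t, ht using Nat.le_induction with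
    | base => rfl
    | succ t ht ih =>
      rw [up_succ, ih, hs e (t + 1) (by omega), hs e t ht]
      simp
  have hd : ∀ e t, s₀ e ≤ t → dn g e t = dn g e (s₀ e) := by
    intro e t ht
    induction t, ht using Nat.le_induction with
    | base => rfl
    | succ t ht ih =>
      rw [dn_succ, ih, hs e (t + 1) (by omega), hs e t ht]
      simp
  have mu : ∀ e, Monotone (up g e) := fun e => monotone_nat_of_le_succ fun t => by
    rw [up_succ]; omega
  have md : ∀ e, Monotone (dn g e) := fun e => monotone_nat_of_le_succ fun t => by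
    rw [dn_succ]; omega
  have key : ∀ (F : ℕ → ℕ → ℕ), (∀ e, Monotone (F e)) →
      (∀ e t, s₀ e ≤ t → F e t = F e (s₀ e)) → ∀ e i, i < F e (s₀ e) ↔ ∃ t, i < F e t := by
    intro F mF hF e i
    constructor
    · intro h
      exact ⟨_, h⟩
    · rintro ⟨t, ht⟩
      rcases le_total t (s₀ e) with h | h
      · exact lt_of_lt_of_le ht (mF e h)
      · rwa [hF e t h] at ht
  refine ⟨fun e => up g e (s₀ e), fun e => dn g e (s₀ e),
    lt_re _ (up_computable g hg) _ (key _ mu hu), lt_re _ (dn_computable g hg) _ (key _ md hd), ?_⟩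
  intro e
  have h1 := up_dn g e (s₀ e)
  have h2 := hs e (s₀ e) le_rfl
  rw [h2] at h1
  simp only [h1]
  push_cast
  ring

/-! ### the diagonal function -/

/-- one stage: the state is the number of values read, the number of changes, the last value -/
def dstep (e s : ℕ) (σ : ℕ × ℕ × ℕ) : ℕ × ℕ × ℕ :=
  match evaln s (Denumerable.ofNat Code e.unpair.2) e with
  | none => σ
  | some B => match evaln s (Denumerable.ofNat Code e.unpair.1) (Nat.pair e σ.1) with
    | none => σ
    | some v => if σ.2.1 + (if v = σ.2.2 then 0 else 1) ≤ B + 1 then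
        (σ.1 + 1, σ.2.1 + (if v = σ.2.2 then 0 else 1), v) else σ

/-- the state at stage `s` -/
def dst (e s : ℕ) : ℕ × ℕ × ℕ := Nat.rec (0, 0, 0) (fun s σ => dstep e s σ) s

theorem dst_succ (e s : ℕ) : dst e (s + 1) = dstep e s (dst e s) := rfl

theorem dstep_primrec : Primrec fun x : (ℕ × ℕ) × (ℕ × ℕ × ℕ) => dstep x.1.1 x.1.2 x.2 := by
  unfold dstep
  have he : Primrec fun x : (ℕ × ℕ) × (ℕ × ℕ × ℕ) => x.1.1 := Primrec.fst.comp Primrec.fst
  have hs : Primrec fun x : (ℕ × ℕ) × (ℕ × ℕ × ℕ) => x.1.2 := Primrec.snd.comp Primrec.fst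
  have hσ : Primrec fun x : (ℕ × ℕ) × (ℕ × ℕ × ℕ) => x.2 := Primrec.snd
  have h1 : Primrec fun x : (ℕ × ℕ) × (ℕ × ℕ × ℕ) =>
      evaln x.1.2 (Denumerable.ofNat Code x.1.1.unpair.2) x.1.1 :=
    Nat.Partrec.Code.primrec_evaln.comp (Primrec.pair (Primrec.pair hs ((Primrec.ofNat Code).comp
      (Primrec.snd.comp (Primrec.unpair.comp he)))) he)
  have h2 : Primrec fun x : (ℕ × ℕ) × (ℕ × ℕ × ℕ) =>
      evaln x.1.2 (Denumerable.ofNat Code x.1.1.unpair.1) (Nat.pair x.1.1 x.2.1) :=
    Nat.Partrec.Code.primrec_evaln.comp (Primrec.pair (Primrec.pair hs ((Primrec.ofNat Code).comp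
      (Primrec.fst.comp (Primrec.unpair.comp he)))) (Primrec₂.natPair.comp he
        (Primrec.fst.comp hσ)))
  have hv : Primrec fun x : (((ℕ × ℕ) × (ℕ × ℕ × ℕ)) × ℕ) × ℕ =>
      x.1.1.2.2.1 + (if x.2 = x.1.1.2.2.2 then 0 else 1) := by
    refine Primrec.nat_add.comp (Primrec.fst.comp (Primrec.snd.comp (Primrec.snd.comp
      (Primrec.fst.comp Primrec.fst)))) (Primrec.ite (Primrec.eq.comp Primrec.snd ?_)
        (Primrec.const 0) (Primrec.const 1))
    exact Primrec.snd.comp (Primrec.snd.comp (Primrec.snd.comp (Primrec.fst.comp Primrec.fst)))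
  have h3 : Primrec fun x : (((ℕ × ℕ) × (ℕ × ℕ × ℕ)) × ℕ) × ℕ =>
      (if x.1.1.2.2.1 + (if x.2 = x.1.1.2.2.2 then 0 else 1) ≤ x.1.2 + 1 then
        (x.1.1.2.1 + 1, x.1.1.2.2.1 + (if x.2 = x.1.1.2.2.2 then 0 else 1), x.2)
        else x.1.1.2 : ℕ × ℕ × ℕ) := by
    refine Primrec.ite (Primrec.nat_le.comp hv (Primrec.succ.comp
      (Primrec.snd.comp Primrec.fst))) ?_ (Primrec.snd.comp (Primrec.fst.comp Primrec.fst))
    refine Primrec.pair (Primrec.succ.comp ?_) (Primrec.pair hv Primrec.snd)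
    exact Primrec.fst.comp (Primrec.snd.comp (Primrec.fst.comp Primrec.fst))
  have h4 : Primrec fun x : ((ℕ × ℕ) × (ℕ × ℕ × ℕ)) × ℕ =>
      (Option.casesOn (evaln x.1.1.2 (Denumerable.ofNat Code x.1.1.1.unpair.1)
        (Nat.pair x.1.1.1 x.1.2.1)) x.1.2
        (fun v => if x.1.2.2.1 + (if v = x.1.2.2.2 then 0 else 1) ≤ x.2 + 1 then
        (x.1.2.1 + 1, x.1.2.2.1 + (if v = x.1.2.2.2 then 0 else 1), v) else x.1.2) :
        ℕ × ℕ × ℕ) :=
    Primrec.option_casesOn (h2.comp Primrec.fst) (Primrec.snd.comp Primrec.fst) h3.to₂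
  have h5 : Primrec fun x : (ℕ × ℕ) × (ℕ × ℕ × ℕ) =>
      (Option.casesOn (evaln x.1.2 (Denumerable.ofNat Code x.1.1.unpair.2) x.1.1) x.2
        (fun B => Option.casesOn (evaln x.1.2 (Denumerable.ofNat Code x.1.1.unpair.1)
        (Nat.pair x.1.1 x.2.1)) x.2
        (fun v => if x.2.2.1 + (if v = x.2.2.2 then 0 else 1) ≤ B + 1 then
        (x.2.1 + 1, x.2.2.1 + (if v = x.2.2.2 then 0 else 1), v) else x.2)) : ℕ × ℕ × ℕ) :=
    Primrec.option_casesOn h1 Primrec.snd h4.to₂
  refine h5.of_eq ?_
  rintro ⟨⟨e, s⟩, σ⟩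
  rcases h6 : evaln s (Denumerable.ofNat Code e.unpair.2) e with _ | B
  · simp only
  · rcases h7 : evaln s (Denumerable.ofNat Code e.unpair.1) (Nat.pair e σ.1) with _ | v
    · simp only
    · simp only

theorem dst_primrec : Primrec₂ dst := by
  unfold dst
  have h1 : Primrec₂ fun (x : ℕ × ℕ) (y : ℕ × (ℕ × ℕ × ℕ)) => dstep x.1 y.1 y.2 :=
    dstep_primrec.comp (Primrec.pair (Primrec.pair (Primrec.fst.comp Primrec.fst)
      (Primrec.fst.comp Primrec.snd)) (Primrec.snd.comp Primrec.snd))
  exact Primrec.nat_rec' Primrec.snd (Primrec.const _) h1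

theorem dstep_cases (e s : ℕ) (σ : ℕ × ℕ × ℕ) : dstep e s σ = σ ∨
    ∃ B v, evaln s (Denumerable.ofNat Code e.unpair.2) e = some B ∧
      evaln s (Denumerable.ofNat Code e.unpair.1) (Nat.pair e σ.1) = some v ∧
      σ.2.1 + (if v = σ.2.2 then 0 else 1) ≤ B + 1 ∧
      dstep e s σ = (σ.1 + 1, σ.2.1 + (if v = σ.2.2 then 0 else 1), v) := by
  unfold dstep
  rcases h6 : evaln s (Denumerable.ofNat Code e.unpair.2) e with _ | B
  · exact Or.inl rfl
  · rcases h7 : evaln s (Denumerable.ofNat Code e.unpair.1) (Nat.pair e σ.1) with _ | v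
    · exact Or.inl rfl
    · by_cases h8 : σ.2.1 + (if v = σ.2.2 then 0 else 1) ≤ B + 1
      · right
        exact ⟨B, v, rfl, rfl, h8, if_pos h8⟩
      · left
        exact if_neg h8

theorem evaln_det {s s' : ℕ} {c : Code} {n x y : ℕ} (h : evaln s c n = some x)
    (h' : evaln s' c n = some y) : x = y := by
  have h1 := evaln_sound h
  have h2 := evaln_sound h'
  exact Part.mem_unique h1 h2

/-- the last value is eventually constant -/
theorem dst_lim (e : ℕ) : ∃ s₀, ∀ s, s₀ ≤ s → (dst e s).2.2 = (dst e s₀).2.2 := by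
  have mono : Monotone fun s => (dst e s).2.1 := monotone_nat_of_le_succ fun s => by
    rw [dst_succ]
    rcases dstep_cases e s (dst e s) with h | ⟨B, v, -, -, -, h⟩
    · rw [h]
    · rw [h]
      exact Nat.le_add_right _ _
  have bdd : ∃ M, ∀ s, (dst e s).2.1 ≤ M := by
    by_cases hB : ∃ s B, evaln s (Denumerable.ofNat Code e.unpair.2) e = some B
    · obtain ⟨s1, B, hB⟩ := hB
      refine ⟨B + 1, ?_⟩
      intro s
      induction s with
      | zero => exact Nat.zero_le _
      | succ s ih =>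
        rw [dst_succ]
        rcases dstep_cases e s (dst e s) with h | ⟨B', v, h1, -, h3, h⟩
        · rw [h]; exact ih
        · rw [h]
          rw [evaln_det h1 hB] at h3
          exact h3
    · refine ⟨0, ?_⟩
      intro s
      induction s with
      | zero => exact Nat.zero_le _
      | succ s ih =>
        rw [dst_succ]
        rcases dstep_cases e s (dst e s) with h | ⟨B', v, h1, -, -, h⟩
        · rw [h]; exact ih
        · exact absurd ⟨s, B', h1⟩ hB
  obtain ⟨M, hM⟩ := bdd
  have hex : ∃ s₀, ∀ s, s₀ ≤ s → (dst e s).2.1 = (dst e s₀).2.1 := by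
    by_contra hcon
    push Not at hcon
    have hgrow : ∀ k, ∃ s, k ≤ (dst e s).2.1 := by
      intro k
      induction k with
      | zero => exact ⟨0, Nat.zero_le _⟩
      | succ k ih =>
        obtain ⟨s, hs⟩ := ih
        obtain ⟨s', h1, h2⟩ := hcon s
        have h3 := mono h1
        simp only at h3
        exact ⟨s', by omega⟩
    obtain ⟨s, hs⟩ := hgrow (M + 1)
    have := hM s
    omega
  obtain ⟨s₀, hs₀⟩ := hex
  refine ⟨s₀, ?_⟩
  intro s hs
  induction s, hs using Nat.le_induction with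
  | base => rfl
  | succ s hs ih =>
    rw [← ih]
    have h1 := hs₀ (s + 1) (by omega)
    have h2 := hs₀ s hs
    rw [dst_succ] at h1 ⊢
    rcases dstep_cases e s (dst e s) with h | ⟨B, v, -, -, -, h⟩
    · rw [h]
    · rw [h] at h1 ⊢
      simp only at h1 ⊢
      by_contra hne
      have h3 : ¬ v = (dst e s).2.2 := hne
      rw [if_neg h3] at h1
      omega

open Classical in
/-- the diagonal function -/
noncomputable def diagc (e : ℕ) : ℕ := (dst e (dst_lim e).choose).2.2

theorem diagc_spec (e : ℕ) : ∃ s₀, ∀ s, s₀ ≤ s → (dst e s).2.2 = diagc e :=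
  ⟨_, (dst_lim e).choose_spec⟩

theorem diagc_lim : LimComp diagc :=
  ⟨fun e s => (dst e s).2.2, (Primrec.snd.comp (Primrec.snd.comp dst_primrec)).to_comp,
    diagc_spec⟩

theorem ev_const (u : ℕ → ℕ) (b : ℕ) (hb : ∀ t, chg u t ≤ b) :
    ∃ t₀, ∀ t, t₀ ≤ t → u t = u t₀ := by
  have mono : Monotone (chg u) := monotone_nat_of_le_succ fun t => by
    rw [chg_succ]; exact Nat.le_add_right _ _
  have hex : ∃ t₀, ∀ t, t₀ ≤ t → chg u t = chg u t₀ := by
    by_contra hcon
    push Not at hcon
    have hgrow : ∀ k, ∃ s, k ≤ chg u s := by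
      intro k
      induction k with
      | zero => exact ⟨0, Nat.zero_le _⟩
      | succ k ih =>
        obtain ⟨s, hs⟩ := ih
        obtain ⟨s', h1, h2⟩ := hcon s
        have h3 := mono h1
        exact ⟨s', by omega⟩
    obtain ⟨s, hs⟩ := hgrow (b + 1)
    have := hb s
    omega
  obtain ⟨t₀, h0⟩ := hex
  refine ⟨t₀, ?_⟩
  intro t ht
  induction t, ht using Nat.le_induction with
  | base => rfl
  | succ t ht ih =>
    rw [← ih]
    have h1 := h0 (t + 1) (by omega)
    have h2 := h0 t ht
    rw [chg_succ, h2] at h1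
    by_contra hne
    rw [if_pos (fun h => hne h.symm)] at h1
    omega

/-- the diagonal function agrees somewhere with the limit of every computable sequence with a computable bound for the
number of changes -/
theorem diagc_diag (g : ℕ → ℕ → ℕ) (b : ℕ → ℕ) (hg : Computable₂ g) (hb : Computable b) :
    ∃ e, (∀ t, chg (g e) t ≤ b e) → ∃ s₀, ∀ s, s₀ ≤ s → g e s = diagc e := by
  have h1 : Nat.Partrec fun n : ℕ => (Part.some (g n.unpair.1 n.unpair.2) : Part ℕ) := by
    have h : Computable fun n : ℕ => g n.unpair.1 n.unpair.2 :=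
      hg.comp (Computable.fst.comp Computable.unpair) (Computable.snd.comp Computable.unpair)
    exact Partrec.nat_iff.1 h.partrec
  have h2 : Nat.Partrec fun n : ℕ => (Part.some (b n) : Part ℕ) := Partrec.nat_iff.1 hb.partrec
  obtain ⟨ci, hci⟩ := Nat.Partrec.Code.exists_code.1 h1
  obtain ⟨cj, hcj⟩ := Nat.Partrec.Code.exists_code.1 h2
  refine ⟨Nat.pair (Encodable.encode ci) (Encodable.encode cj), ?_⟩
  set e := Nat.pair (Encodable.encode ci) (Encodable.encode cj) with he
  intro hch
  have e1 : Denumerable.ofNat Code e.unpair.1 = ci := by rw [he]; simp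
  have e2 : Denumerable.ofNat Code e.unpair.2 = cj := by rw [he]; simp
  have v1 : ∀ s T v, evaln s (Denumerable.ofNat Code e.unpair.1) (Nat.pair e T) = some v →
      v = g e T := by
    intro s T v h
    rw [e1] at h
    have h3 := evaln_sound h
    rw [hci] at h3
    simpa using h3
  have v2 : ∀ s B, evaln s (Denumerable.ofNat Code e.unpair.2) e = some B → B = b e := by
    intro s B h
    rw [e2] at h
    have h3 := evaln_sound h
    rw [hcj] at h3
    simpa using h3
  have w1 : ∀ T, ∃ k, ∀ s, k ≤ s →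
      evaln s (Denumerable.ofNat Code e.unpair.1) (Nat.pair e T) = some (g e T) := by
    intro T
    have h3 : g e T ∈ eval ci (Nat.pair e T) := by
      rw [hci]
      simp
    obtain ⟨k, hk⟩ := evaln_complete.1 h3
    refine ⟨k, fun s hs => ?_⟩
    rw [e1]
    exact evaln_mono hs hk
  have w2 : ∃ k, ∀ s, k ≤ s → evaln s (Denumerable.ofNat Code e.unpair.2) e = some (b e) := by
    have h3 : b e ∈ eval cj e := by
      rw [hcj]
      simp
    obtain ⟨k, hk⟩ := evaln_complete.1 h3
    refine ⟨k, fun s hs => ?_⟩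
    rw [e2]
    exact evaln_mono hs hk
  -- the invariant
  have inv : ∀ s, ((dst e s).1 = 0 ∧ (dst e s).2 = (0, 0)) ∨ ∃ T, (dst e s).1 = T + 1 ∧
      (dst e s).2.2 = g e T ∧ (dst e s).2.1 = chg (g e) T + if g e 0 = 0 then 0 else 1 := by
    intro s
    induction s with
    | zero => exact Or.inl ⟨rfl, rfl⟩
    | succ s ih =>
      rw [dst_succ]
      rcases dstep_cases e s (dst e s) with h | ⟨B, v, -, h4, -, h⟩
      · rw [h]; exact ih
      · rw [h]
        right
        rcases ih with ⟨i1, i2⟩ | ⟨T, i1, i2, i3⟩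
        · refine ⟨0, ?_, ?_, ?_⟩
          · simp only [i1]
          · simp only
            rw [i1] at h4
            exact v1 _ _ _ h4
          · simp only [i2]
            rw [i1] at h4
            rw [v1 _ _ _ h4]
            simp [chg]
        · refine ⟨T + 1, ?_, ?_, ?_⟩
          · simp only [i1]
          · simp only
            rw [i1] at h4
            exact v1 _ _ _ h4
          · simp only [i2, i3]
            rw [i1] at h4
            rw [v1 _ _ _ h4, chg_succ]
            by_cases h5 : g e (T + 1) = g e T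
            · have h6 : ¬ (g e T ≠ g e (T + 1)) := fun h7 => h7 h5.symm
              rw [if_pos h5, if_neg h6]
              omega
            · rw [if_neg h5, if_pos (fun h6 => h5 h6.symm)]
              omega
  -- progress
  have prog : ∀ s, ∃ s', s ≤ s' ∧ (dst e s').1 = (dst e s).1 + 1 := by
    intro s
    by_contra hcon
    push Not at hcon
    have hconst : ∀ s', s ≤ s' → dst e s' = dst e s := by
      intro s' hs'
      induction s', hs' using Nat.le_induction with
      | base => rfl
      | succ s' hs' ih =>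
        rw [dst_succ]
        rcases dstep_cases e s' (dst e s') with h | ⟨B, v, -, -, -, h⟩
        · rw [h, ih]
        · exfalso
          apply hcon (s' + 1) (by omega)
          rw [dst_succ, h, ih]
    obtain ⟨k1, hk1⟩ := w1 (dst e s).1
    obtain ⟨k2, hk2⟩ := w2
    let s' := max s (max k1 k2)
    have hs1 : s ≤ s' := le_max_left _ _
    have hs2 : k1 ≤ s' := (le_max_left _ _).trans (le_max_right _ _)
    have hs3 : k2 ≤ s' := (le_max_right _ _).trans (le_max_right _ _)
    have h3 := hconst s' hs1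
    have h4 := hconst (s' + 1) (by omega)
    rw [dst_succ, h3] at h4
    unfold dstep at h4
    rw [hk2 s' hs3, hk1 s' hs2] at h4
    simp only at h4
    have h5 : (dst e s).2.1 + (if g e (dst e s).1 = (dst e s).2.2 then 0 else 1) ≤ b e + 1 := by
      rcases inv s with ⟨i1, i2⟩ | ⟨T, i1, i2, i3⟩
      · rw [i2]
        split_ifs <;> omega
      · rw [i1, i2, i3]
        have h6 := hch (T + 1)
        rw [chg_succ] at h6
        by_cases h7 : g e (T + 1) = g e T
        · rw [if_pos h7]
          split_ifs at h6 ⊢ <;> omega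
        · rw [if_neg h7]
          rw [if_pos (fun h8 => h7 h8.symm)] at h6
          split_ifs <;> omega
    rw [if_pos h5] at h4
    have h6 := congrArg Prod.fst h4
    simp only at h6
    omega
  have unb : ∀ k, ∃ s, k ≤ (dst e s).1 := by
    intro k
    induction k with
    | zero => exact ⟨0, Nat.zero_le _⟩
    | succ k ih =>
      obtain ⟨s, hs⟩ := ih
      obtain ⟨s', -, h⟩ := prog s
      exact ⟨s', by omega⟩
  have mT : Monotone fun s => (dst e s).1 := monotone_nat_of_le_succ fun s => by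
    rw [dst_succ]
    rcases dstep_cases e s (dst e s) with h | ⟨B, v, -, -, -, h⟩
    · rw [h]
    · rw [h]
      exact Nat.le_succ _
  obtain ⟨t₀, ht₀⟩ := ev_const (g e) (b e) hch
  refine ⟨t₀, fun t ht => ?_⟩
  rw [ht₀ t ht]
  obtain ⟨s1, hs1⟩ := diagc_spec e
  obtain ⟨s2, hs2⟩ := unb (t₀ + 1)
  have h3 := hs1 (max s1 s2) (le_max_left _ _)
  have h4 : t₀ + 1 ≤ (dst e (max s1 s2)).1 := hs2.trans (mT (le_max_right s1 s2))
  rcases inv (max s1 s2) with ⟨i1, -⟩ | ⟨T, i1, i2, -⟩
  · omega
  · rw [← h3, i2]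
    exact (ht₀ T (by omega)).symm

end Pool.Agent.SDec
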