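import Pool.Agent.SDec.Rules

/-!
# The input of the machine is computable
-/

set_option autoImplicit false

namespace Pool.Agent.SDec

open Turing Turing.PartrecToTM2

theorem trNat_bit0 (m : ℕ) (hm : m ≠ 0) : trNat (2 * m) = Γ'.bit0 :: trNat m := by
  unfold trNat
  have h : ((2 * m : ℕ) : Num) = Num.bit0 (m : Num) := by
    have := Num.bit0_of_bit0 (m : Num)
    rw [← this]
    push_cast
    ring
  rw [h]
  rcases hn : (m : Num) with _ | p
  · exfalso
    apply hm
    have := congrArg (fun t : Num => (t : ℕ)) hn
    simpa using this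
  · rfl

theorem trNat_bit1 (m : ℕ) : trNat (2 * m + 1) = Γ'.bit1 :: trNat m := by
  unfold trNat
  have h : ((2 * m + 1 : ℕ) : Num) = Num.bit1 (m : Num) := by
    have := Num.bit1_of_bit1 (m : Num)
    rw [← this]
    push_cast
    ring
  rw [h]
  rcases hn : (m : Num) with _ | p
  · rfl
  · rfl

/-- the number of the input stack -/
def inp (n : ℕ) : ℕ := encN (trList [n])

theorem inp_zero : inp 0 = 2 := by
  simp [inp, trList, encN, dig]

theorem inp_bit0 (m : ℕ) (hm : m ≠ 0) : inp (2 * m) = 3 + 5 * inp m := by
  simp only [inp, trList, trNat_bit0 m hm, List.cons_append, encN, dig]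

theorem inp_bit1 (m : ℕ) : inp (2 * m + 1) = 4 + 5 * inp m := by
  simp only [inp, trList, trNat_bit1 m, List.cons_append, encN, dig]

theorem inp_rec (n : ℕ) (hn : n ≠ 0) : inp n = (3 + n % 2) + 5 * inp (n / 2) := by
  rcases Nat.even_or_odd' n with ⟨m, rfl | rfl⟩
  · rw [inp_bit0 m (by omega)]
    have h1 : 2 * m % 2 = 0 := by omega
    have h2 : 2 * m / 2 = m := by omega
    rw [h1, h2]
  · rw [inp_bit1 m]
    have h1 : (2 * m + 1) % 2 = 1 := by omega
    have h2 : (2 * m + 1) / 2 = m := by omega
    rw [h1, h2]

/-- course-of-values step -/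
def inpStep (L : List ℕ) : Option ℕ :=
  if L.length = 0 then some 2 else
    (L[L.length / 2]?).map fun t => (3 + L.length % 2) + 5 * t

theorem inpStep_ok (n : ℕ) : inpStep ((List.range n).map inp) = some (inp n) := by
  unfold inpStep
  simp only [List.length_map, List.length_range]
  rcases Nat.eq_zero_or_pos n with rfl | hn
  · simp [inp_zero]
  · rw [if_neg (by omega)]
    have h1 : n / 2 < n := Nat.div_lt_self hn (by norm_num)
    rw [List.getElem?_map, List.getElem?_range h1]
    simp only [Option.map_some]
    rw [inp_rec n (by omega)]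

theorem inpStep_primrec : Primrec inpStep := by
  unfold inpStep
  have hlen : Primrec (fun L : List ℕ => L.length) := Primrec.list_length
  refine Primrec.ite (Primrec.eq.comp hlen (Primrec.const 0)) (Primrec.const _) ?_
  refine Primrec.option_map
    (Primrec.list_getElem?.comp Primrec.id (Primrec.nat_div.comp hlen (Primrec.const 2))) ?_
  have h1 : Primrec (fun x : List ℕ × ℕ => x.1.length) := Primrec.list_length.comp Primrec.fst
  exact Primrec.nat_add.comp
    (Primrec.nat_add.comp (Primrec.const 3) (Primrec.nat_mod.comp h1 (Primrec.const 2)))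
    (Primrec.nat_mul.comp (Primrec.const 5) Primrec.snd)

theorem inp_primrec : Primrec inp := by
  have h := Primrec.nat_strong_rec (α := Unit) (fun _ n => inp n) (g := fun _ L => inpStep L)
    (inpStep_primrec.comp Primrec.snd) (fun _ n => inpStep_ok n)
  exact h.comp (Primrec.const ()) Primrec.id

theorem inp_computable : Computable inp := inp_primrec.to_comp

end Pool.Agent.SDec
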