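import Pool.Agent.SDec.Logic

/-!
# The main theorem from its inputs
-/

set_option autoImplicit false

namespace Pool.Agent.SDec

open Pool.Agent.Hhelper49.Srr Pool.Agent.Hhelper49.Srf Pool.Agent.SFP

theorem iso_gp {G : Type} [Group G] {p : Pres} {g : ℕ → G} (h : IsPres G p g) :
    Nonempty (G ≃* Gp p) := by
  have hp := isPres_gp p
  obtain ⟨F, hF⟩ := h.univ (Gp p) (fun i => PresentedGroup.of i) hp.big hp.rel
  obtain ⟨F', hF'⟩ := hp.univ G g h.big h.rel
  have h1 : F'.comp F = MonoidHom.id G := by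
    ext x
    refine pres_hom_ext h (F'.comp F) (MonoidHom.id G) ?_ x
    intro i _
    rw [MonoidHom.comp_apply, hF]
    exact hF' i
  have h2 : F.comp F' = MonoidHom.id (Gp p) := by
    refine MonoidHom.ext fun x => ?_
    refine pres_hom_ext hp (F.comp F') (MonoidHom.id (Gp p)) ?_ x
    intro i _
    have := hF' i
    rw [MonoidHom.comp_apply, this]
    exact hF i
  exact ⟨MonoidHom.toMulEquiv F F' h1 h2⟩

theorem typeFP_congr {G Γ : Type} [Group G] [Group Γ] (e : G ≃* Γ) (h : TypeFP G) : TypeFP Γ := by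
  have hp : IsPush (e : G →* Γ) (triv0 Γ) (triv0 G) (MonoidHom.id (FreeGroup (Fin 0))) := by
    refine ⟨?_, by intro c; simp, ?_⟩
    · rw [eq_top_iff]
      intro x _
      exact (le_sup_left : (e : G →* Γ).range ≤ _) ⟨e.symm x, e.apply_symm_apply x⟩
    · intro P _ f g _
      refine ⟨f.comp (e.symm : Γ →* G), ?_, ?_⟩
      · intro a
        change f (e.symm (e a)) = f a
        rw [e.symm_apply_apply]
      · intro b
        have hb : b = 1 := Subsingleton.elim _ _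
        rw [hb]
        simp
  obtain ⟨S, hS⟩ := amal_of_univ (triv0_inj G) Function.injective_id hp
  exact amal_fp hS h (typeFP_of_typeFF _ nice0) (typeFP_of_typeFF _ nice0)

theorem noFin_congr {G Γ : Type} [Group G] [Group Γ] (e : G ≃* Γ) (h : NoFin G) : NoFin Γ := by
  apply noFin_of_fr
  rw [eq_top_iff]
  intro x _
  exact range_le_fr h (e : G →* Γ) ⟨e.symm x, e.apply_symm_apply x⟩

/-- embedding into groups without proper subgroups of finite index -/
def EmbFp : Prop := ∀ (G : Type) [Group G], Group.IsFinitelyPresented G → TypeFP G →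
  ∃ (G' : Type) (_ : Group G') (j : G →* G'), Function.Injective j ∧
    Group.IsFinitelyPresented G' ∧ TypeFP G' ∧ (∀ m, FreeRes m G' ↔ FreeRes m G) ∧ NoFin G'

theorem main_hard (hf : FreeIff) (hE : EmbFp) (K : ℕ → Prop) (hK : REPred K) (G : Type) [Group G]
    (hG : Group.IsFinitelyPresented G) (hF : TypeFP G) :
    ∃ f : CNF → Pres, Primrec f ∧ ∀ F, TypeFP (Gp (f F)) ∧ NoFin (Gp (f F)) ∧
      (∀ m, FreeRes m (Gp (f F)) ↔ (sat K F ∨ FreeRes m G)) ∧
      ∃ j : G →* Gp (f F), Function.Injective j := by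
  obtain ⟨D0, iD0, X, Y, Z, e, hD0, he, hKn⟩ := grp_exists K hK
  obtain ⟨D, iD, jD, hjD, fD, pD', rD, nD⟩ := hE D0 hD0.fp (typeFP_of_typeFF _ hD0.ff)
  have hDF : TypeFF D := (typeFF_iff D).2 ((rD 1).2 ((typeFF_iff D0).1 hD0.ff))
  obtain ⟨H, iH, jH, hjH, fH, pH', rH, nH⟩ := hE (Multiplicative ℤ) nice_int.fp
    (typeFP_of_typeFF _ nice_int.ff)
  have hHF : TypeFF H := (typeFF_iff H).2 ((rH 1).2 ((typeFF_iff _).1 nice_int.ff))
  let y : H := jH (Multiplicative.ofAdd 1)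
  have hy : y ≠ 1 := by
    intro h
    have h1 : Multiplicative.ofAdd (1 : ℤ) = 1 := hjH (h.trans (map_one jH).symm)
    have h2 := congrArg Multiplicative.toAdd h1
    simp at h2
  obtain ⟨G', iG', jG, hjG, fG, pG', rG, nG⟩ := hE G hG hF
  obtain ⟨pD, gD, cD, hpD⟩ := exists_clean D fD
  obtain ⟨pH, gH, cH, hpH⟩ := exists_clean H fH
  obtain ⟨pG, gG, cG, hpG⟩ := exists_clean G' fG
  obtain ⟨wk, hwk, ek⟩ := exists_word hpD (jD Z)
  obtain ⟨wt, hwt, et⟩ := exists_word hpD (jD Y)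
  obtain ⟨wx, hwx, ex⟩ := exists_word hpD (jD X)
  obtain ⟨yw, hyw, ey⟩ := exists_word hpH y
  let W : ℕ → Word := fun n => tword wk wt [] wx (e n)
  have hW : Primrec W := (tword_primrec wk wt [] wx).comp he
  have hWc : ∀ n, ∀ l ∈ W n, l.1 < pD.1 := fun n =>
    tword_clean hwk hwt (by simp) hwx (e n)
  have hWK : ∀ n, K n ↔ ev gD (W n) = 1 := by
    intro n
    rw [← hKn n]
    change _ ↔ ev gD (tword wk wt [] wx (e n)) = 1
    rw [ev_tword, ek, et, ex, ev_nil]
    have h1 : jD Z * ((1 * jD X ^ e n)⁻¹ * jD Y * (1 * jD X ^ e n)) * (jD Z)⁻¹ *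
        ((1 * jD X ^ e n)⁻¹ * jD Y * (1 * jD X ^ e n))⁻¹ = jD (wd X Y Z (e n)) := by
      unfold wd
      simp only [map_mul, map_inv, map_pow, one_mul]
    rw [h1]
    constructor
    · intro h
      rw [h, map_one]
    · intro h
      exact hjD (h.trans (map_one jD).symm)
  have hkit : Kit K pD pH yw W :=
    { ex := ⟨D, H, iD, iH, gD, gH, hpD, hpH, hDF, hHF, nD, nH, by rw [ey]; exact hy, hWK⟩
      cD := cD
      cH := cH
      cy := hyw
      cW := hWc }
  obtain ⟨eG⟩ := iso_gp hpG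
  have gG' : Good pG := ⟨cG, typeFP_congr eG pG', noFin_congr eG nG⟩
  obtain ⟨α, β, hT⟩ := pr1_gp hpH (isPres_gp pG) cH cG hyw
  obtain ⟨t1, t2, -, t4⟩ := tog1_spec hT hHF gG'.fp
  have gT : Good (pr1 pH pG yw) := ⟨clean_pr1 cH cG hyw, t1, noFin_two nH gG'.nf α β hT.gen⟩
  have hTF : TypeFF (Gp (pr1 pH pG yw)) := t2 (by rw [ey]; exact hy)
  refine ⟨cnfP pD pH yw W pG (pr1 pH pG yw), cnfP_primrec pD pH yw W hW pG _, fun F => ?_⟩
  obtain ⟨a1, a2, j, hj⟩ := cnf_spec hf hkit gG' gT hTF F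
  refine ⟨a1.fp, a1.nf, fun m => ?_, ((j.comp β).comp (eG : G' →* Gp pG)).comp jG, ?_⟩
  · rw [a2 m]
    have h1 : FreeRes m (Gp pG) ↔ FreeRes m G := by
      rw [← rG m]
      exact ⟨freeRes_congr m _ _ eG.symm, freeRes_congr m _ _ eG⟩
    rw [h1]
  · exact ((hj.comp t4).comp eG.injective).comp hjG

theorem main_tfae (hf : FreeIff) (hE : EmbFp) :
    List.TFAE [∀ (G : Type) [Group G], Group.IsFinitelyPresented G → TypeFP G → TypeFF G,
      ∃ q : Pres → Prop, ComputablePred q ∧ ∀ p, TypeFP (Gp p) → (q p ↔ TypeFF (Gp p)),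
      ∃ (k : ℕ) (q : Fin k → Pres → Prop) (β : (Fin k → Prop) → Prop), (∀ i, REPred (q i)) ∧
        ∀ p, TypeFP (Gp p) → NoFin (Gp p) → (TypeFF (Gp p) ↔ β fun i => q i p)] := by
  tfae_have 1 → 2 := by
    intro h
    refine ⟨fun _ => True, ?_, fun p hp => ?_⟩
    · exact ComputablePred.computable_iff.2 ⟨fun _ => true, Computable.const true, by
        funext p
        simp⟩
    · simp only [true_iff]
      exact h (Gp p) (gp_fpres p) hp
  tfae_have 2 → 3 := by
    rintro ⟨q, hq, h⟩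
    exact ⟨1, fun _ => q, fun v => v 0, fun _ => hq.to_re, fun p hp _ => (h p hp).symm⟩
  tfae_have 3 → 1 := by
    rintro ⟨k, q, β, hq, h⟩ G _ hG hF
    by_contra hcon
    obtain ⟨f, hfp, hs⟩ := main_hard hf hE KU KU_re G hG hF
    obtain ⟨F, hF'⟩ := diagonal k q hq β f hfp.to_comp
    obtain ⟨h1, h2, h3, -⟩ := hs F
    have h4 : TypeFF (Gp (f F)) ↔ sat KU F := by
      rw [typeFF_iff, h3 1]
      constructor
      · rintro (h5 | h5)
        · exact h5
        · exact absurd ((typeFF_iff G).2 h5) hcon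
      · exact Or.inl
    have h5 := h _ h1 h2
    rw [h4, hF'] at h5
    by_cases hb : β fun i => q i (f F)
    · exact (h5.2 hb) hb
    · exact hb (h5.1 hb)
  tfae_finish

end Pool.Agent.SDec
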