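import Pool.Agent.SDec.KGr
import Pool.Agent.SDec.Main

/-!
# Euler characteristics in the reduced class group
-/

set_option autoImplicit false

namespace Pool.Agent.SDec

open Pool.Agent.Hhelper49.Srr Pool.Agent.Hhelper49.Srf Pool.Agent.SFP

section
variable {H Γ : Type} [Group H] [Group Γ] {κ : H →* Γ}

/-- induction of maps -/
theorem ind_fun {M M' N N' : Type} [AddCommGroup M] [Module (MonoidAlgebra ℤ H) M]
    [AddCommGroup N] [Module (MonoidAlgebra ℤ Γ) N] [AddCommGroup M']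
    [Module (MonoidAlgebra ℤ H) M'] [AddCommGroup N'] [Module (MonoidAlgebra ℤ Γ) N']
    {i : M →+ N} {π : N →+ M} {i' : M' →+ N'} {π' : N' →+ M'}
    (h : IsInd κ i π) (h' : IsInd κ i' π') (f : M →ₗ[MonoidAlgebra ℤ H] M') :
    ∃ F : N →ₗ[MonoidAlgebra ℤ Γ] N', ∀ m, F (i m) = i' (f m) := by
  obtain ⟨ρ, hρ⟩ := ind_univ h (MonoidHom.id Γ) (i'.comp f.toAddMonoidHom) (by
    intro b x
    change i' (f (act b x)) = act (κ b) (i' (f x))
    rw [lin_act, h'.equi])
  have hρ' : ∀ (g : Γ) (m : M), ρ (act g (i m)) = act g (i' (f m)) := hρ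
  have hl : ∀ (g : Γ) (n : N), ρ (act g n) = act g (ρ n) := by
    intro g n
    refine isInd_hom_eq h (ρ.comp (actHom N g)) ((actHom _ g).comp ρ) ?_ n
    intro g' m
    rw [AddMonoidHom.comp_apply, AddMonoidHom.comp_apply, actHom_apply, actHom_apply, ← act_mul,
      hρ', hρ', act_mul]
  refine ⟨mkLin ρ hl, fun m => ?_⟩
  rw [mkLin_apply]
  have h1 := hρ' 1 m
  rwa [act_one, act_one] at h1

/-- induction of exact sequences -/
theorem ind_exact {A B C IA IB IC : Type} [AddCommGroup A] [Module (MonoidAlgebra ℤ H) A]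
    [AddCommGroup B] [Module (MonoidAlgebra ℤ H) B] [AddCommGroup C]
    [Module (MonoidAlgebra ℤ H) C] [AddCommGroup IA] [Module (MonoidAlgebra ℤ Γ) IA]
    [AddCommGroup IB] [Module (MonoidAlgebra ℤ Γ) IB] [AddCommGroup IC]
    [Module (MonoidAlgebra ℤ Γ) IC] (hA : Induced κ A IA) (hB : Induced κ B IB)
    (hC : Induced κ C IC) (f : A →ₗ[MonoidAlgebra ℤ H] B) (g : B →ₗ[MonoidAlgebra ℤ H] C)
    (hf : Function.Injective f) (hg : Function.Surjective g)
    (hfg : LinearMap.range f = LinearMap.ker g) :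
    ∃ (F : IA →ₗ[MonoidAlgebra ℤ Γ] IB) (G : IB →ₗ[MonoidAlgebra ℤ Γ] IC),
      Function.Injective F ∧ Function.Surjective G ∧ LinearMap.range F = LinearMap.ker G := by
  obtain ⟨iA, πA, hA⟩ := hA
  obtain ⟨iB, πB, hB⟩ := hB
  obtain ⟨iC, πC, hC⟩ := hC
  obtain ⟨F, hF⟩ := ind_fun hA hB f
  obtain ⟨G, hG⟩ := ind_fun hB hC g
  refine ⟨F, G, isInd_inj hA hB f F hF hf, isInd_surj hB hC g G hG hg, le_antisymm ?_ ?_⟩
  · rintro _ ⟨x, rfl⟩
    rw [LinearMap.mem_ker]
    refine indB_ext hA (G ∘ₗ F) 0 ?_ x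
    intro m
    rw [LinearMap.comp_apply, hF, hG, LinearMap.zero_apply]
    have h1 : f m ∈ LinearMap.ker g := by
      rw [← hfg]
      exact ⟨m, rfl⟩
    rw [LinearMap.mem_ker.1 h1, map_zero]
  · intro x hx
    rw [LinearMap.mem_ker] at hx
    obtain ⟨T, -, hT⟩ := isInd_expand hB x
    rw [hT]
    refine Submodule.sum_mem _ fun c _ => ?_
    have h1 : πB (act (Quotient.out c)⁻¹ x) ∈ LinearMap.range f := by
      rw [hfg, LinearMap.mem_ker, ← isInd_map hB hC g G hG, lin_act, hx, act_zero', map_zero]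
    obtain ⟨a, ha⟩ := h1
    rw [← ha, ← hF, ← lin_act]
    exact ⟨_, rfl⟩

/-- uniqueness of induced modules -/
theorem ind_unique {M N N' : Type} [AddCommGroup M] [Module (MonoidAlgebra ℤ H) M]
    [AddCommGroup N] [Module (MonoidAlgebra ℤ Γ) N] [AddCommGroup N']
    [Module (MonoidAlgebra ℤ Γ) N'] (h : Induced κ M N) (h' : Induced κ M N') :
    Nonempty (N ≃ₗ[MonoidAlgebra ℤ Γ] N') := by
  obtain ⟨i, π, h⟩ := h
  obtain ⟨i', π', h'⟩ := h'
  obtain ⟨F, hF⟩ := ind_fun h h' (LinearMap.id : M →ₗ[MonoidAlgebra ℤ H] M)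
  exact ⟨LinearEquiv.ofBijective F ⟨isInd_inj h h' _ F hF fun _ _ e => e,
    isInd_surj h h' _ F hF fun x => ⟨x, rfl⟩⟩⟩

/-- the map on cosets -/
def cosMap {G : Type} [Group G] (κ : H →* Γ) (j : G →* H) :
    H ⧸ j.range → Γ ⧸ (κ.comp j).range :=
  Quotient.map' κ (by
    intro a b hab
    rw [QuotientGroup.leftRel_apply] at hab ⊢
    obtain ⟨x, hx⟩ := hab
    exact ⟨x, by rw [MonoidHom.comp_apply, hx, map_mul, map_inv]⟩)

theorem cosMap_mk {G : Type} [Group G] (κ : H →* Γ) (j : G →* H) (a : H) :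
    cosMap κ j (a : H ⧸ j.range) = ((κ a : Γ) : Γ ⧸ (κ.comp j).range) := rfl

theorem cosMap_inj {G : Type} [Group G] (hκ : Function.Injective κ) (j : G →* H) :
    Function.Injective (cosMap κ j) := by
  intro a b h
  obtain ⟨a, rfl⟩ := QuotientGroup.mk_surjective a
  obtain ⟨b, rfl⟩ := QuotientGroup.mk_surjective b
  rw [cosMap_mk, cosMap_mk, QuotientGroup.eq] at h
  obtain ⟨x, hx⟩ := h
  rw [QuotientGroup.eq]
  refine ⟨x, hκ ?_⟩
  rw [map_mul, map_inv]
  exact hx

theorem cosMap_smul {G : Type} [Group G] (κ : H →* Γ) (j : G →* H) (a : H) (c : H ⧸ j.range) :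
    cosMap κ j (a • c) = κ a • cosMap κ j c := by
  obtain ⟨b, rfl⟩ := QuotientGroup.mk_surjective c
  change cosMap κ j ((a * b : H) : H ⧸ j.range) = ((κ a * κ b : Γ) : Γ ⧸ (κ.comp j).range)
  rw [cosMap_mk, map_mul]

/-- permutation modules of subgroups -/
theorem ind_perm2 {G : Type} [Group G] (hκ : Function.Injective κ) (j : G →* H) :
    Induced κ (PermF H (H ⧸ j.range)) (PermF Γ (Γ ⧸ (κ.comp j).range)) := by
  classical
  let φ := cosMap κ j
  have hφ : Function.Injective φ := cosMap_inj hκ j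
  let i : PermF H (H ⧸ j.range) →+ PermF Γ (Γ ⧸ (κ.comp j).range) :=
    Finsupp.mapDomain.addMonoidHom (M := ℤ) φ
  have hi : ∀ c n, i (PermF.single H _ c n) = PermF.single Γ _ (φ c) n := fun c n =>
    Finsupp.mapDomain_single
  let π : PermF Γ (Γ ⧸ (κ.comp j).range) →+ PermF H (H ⧸ j.range) :=
    Finsupp.liftAddHom (fun y => if h : ∃ c, φ c = y then
      (Finsupp.singleAddHom h.choose : ℤ →+ (H ⧸ j.range) →₀ ℤ) else 0)
  have hπ : ∀ y n, π (PermF.single Γ _ y n) = (if h : ∃ c, φ c = y then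
      (Finsupp.singleAddHom h.choose : ℤ →+ (H ⧸ j.range) →₀ ℤ) else 0) n := fun y n =>
    Finsupp.liftAddHom_apply_single _ _ _
  have hπ1 : ∀ c n, π (PermF.single Γ _ (φ c) n) = PermF.single H _ c n := by
    intro c n
    have hex : ∃ c', φ c' = φ c := ⟨c, rfl⟩
    rw [hπ, dif_pos hex]
    have h1 : hex.choose = c := hφ hex.choose_spec
    change (Finsupp.single hex.choose n : (H ⧸ j.range) →₀ ℤ) = Finsupp.single c n
    rw [h1]
  have hπ0 : ∀ y n, (¬ ∃ c, φ c = y) → π (PermF.single Γ _ y n) = 0 := by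
    intro y n h
    rw [hπ, dif_neg h]
    rfl
  refine ⟨i, π, ?_, ?_, ?_, ?_⟩
  · intro h m
    induction m using PermF.induction with
    | h0 => rw [act_zero', map_zero, act_zero']
    | hadd a b ha hb =>
      rw [act, smul_add, map_add, map_add]
      change i (act h a) + i (act h b) = act (κ h) (i a + i b)
      rw [ha, hb]
      exact (smul_add _ _ _).symm
    | hs c n =>
      rw [PermF.act_single, hi, hi, PermF.act_single]
      congr 1
      exact cosMap_smul κ j h c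
  · intro x
    induction x using PermF.induction with
    | h0 => exact AddSubgroup.zero_mem _
    | hadd a b ha hb => exact AddSubgroup.add_mem _ ha hb
    | hs y n =>
      obtain ⟨g, rfl⟩ := QuotientGroup.mk_surjective y
      apply AddSubgroup.subset_closure
      refine ⟨g, PermF.single H _ ((1 : H) : H ⧸ j.range) n, ?_⟩
      rw [hi, PermF.act_single]
      congr 1
      change _ = g • cosMap κ j ((1 : H) : H ⧸ j.range)
      rw [cosMap_mk, map_one]
      change _ = ((g * 1 : Γ) : Γ ⧸ (κ.comp j).range)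
      rw [mul_one]
  · intro h m
    induction m using PermF.induction with
    | h0 => rw [map_zero, act_zero', map_zero, act_zero']
    | hadd a b ha hb =>
      rw [map_add, act, smul_add, map_add, act, smul_add]
      exact congrArg₂ _ ha hb
    | hs c n =>
      rw [PermF.act_single, hi, PermF.act_single]
      have h1 : κ h • φ c = φ (h • c) := (cosMap_smul κ j h c).symm
      rw [h1, hπ1]
  · intro g m hg
    induction m using PermF.induction with
    | h0 => rw [map_zero, act_zero', map_zero]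
    | hadd a b ha hb =>
      rw [map_add, act, smul_add, map_add]
      have h1 : π (act g (i a)) + π (act g (i b)) = 0 := by rw [ha, hb, add_zero]
      exact h1
    | hs c n =>
      rw [hi, PermF.act_single]
      apply hπ0
      rintro ⟨c', hc'⟩
      obtain ⟨a, rfl⟩ := QuotientGroup.mk_surjective c
      obtain ⟨b, rfl⟩ := QuotientGroup.mk_surjective c'
      have h1 : ((κ b : Γ) : Γ ⧸ (κ.comp j).range) =
          ((g * κ a : Γ) : Γ ⧸ (κ.comp j).range) := hc'
      rw [QuotientGroup.eq] at h1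
      obtain ⟨x, hx⟩ := h1
      apply hg
      refine ⟨b * j x * a⁻¹, ?_⟩
      rw [map_mul, map_mul, map_inv]
      have h2 : κ (j x) = (κ b)⁻¹ * (g * κ a) := hx
      rw [h2]
      group

end

section
variable {Γ : Type} [Group Γ]

theorem fp_perm {H : Type} [Group H] (hH : TypeFP H) {κ : H →* Γ} (hκ : Function.Injective κ) :
    FP (MonoidAlgebra ℤ Γ) (PermF Γ (Γ ⧸ κ.range)) :=
  ind_fp hκ _ _ (ind_perm κ) (fp_of_typeFP H hH)

theorem cls_congr {S S' : Subgroup Γ} (e : S = S')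
    (h : FP (MonoidAlgebra ℤ Γ) (PermF Γ (Γ ⧸ S)))
    (h' : FP (MonoidAlgebra ℤ Γ) (PermF Γ (Γ ⧸ S'))) :
    cls (PermF Γ (Γ ⧸ S)) h = cls (PermF Γ (Γ ⧸ S')) h' := by
  subst e
  rfl

end

/-- `M` is of type (FF) with Euler characteristic `c`: over every overgroup of `G × M`, `G` of type (FP),
`[ℤ[Γ/(G × M)]] = c [ℤ[Γ/G]]` -/
structure Eul (M : Type) [Group M] (c : ℤ) : Prop where
  ff : TypeFF M
  fp : ∀ (G : Type) [Group G], TypeFP G → TypeFP (G × M)
  eq : ∀ (G Γ : Type) [Group G] [Group Γ], TypeFP G → ∀ (mu : G × M →* Γ),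
    Function.Injective mu →
    ∀ (h1 : FP (MonoidAlgebra ℤ Γ) (PermF Γ (Γ ⧸ mu.range)))
      (h2 : FP (MonoidAlgebra ℤ Γ) (PermF Γ (Γ ⧸ (mu.comp (MonoidHom.inl G M)).range))),
      cls (PermF Γ (Γ ⧸ mu.range)) h1 =
        c • cls (PermF Γ (Γ ⧸ (mu.comp (MonoidHom.inl G M)).range)) h2

/-- free groups -/
theorem eul_free (r : ℕ) : Eul (FreeGroup (Fin r)) (1 - r) where
  ff := (nice_free r).ff
  fp G _ hG := prod_fp G hG r
  eq G Γ _ _ hG mu hmu h1 h2 := by
    obtain ⟨f, g, hf, hg, hfg⟩ := PN_exact G r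
    obtain ⟨e⟩ := ind_unique (ind_perm (MonoidHom.inl G (FreeGroup (Fin r))))
      (PN_ind G (FreeGroup (Fin r)))
    have hI : Induced mu (PN G (FreeGroup (Fin r)))
        (PermF Γ (Γ ⧸ (mu.comp (MonoidHom.inl G (FreeGroup (Fin r)))).range)) :=
      ind_iso _ _ _ _ (ind_perm2 hmu (MonoidHom.inl G (FreeGroup (Fin r)))) e
        (LinearEquiv.refl _ _)
    obtain ⟨F, K, k1, k2, k3⟩ := ind_exact (ind_pi _ _ r hI) hI (ind_perm mu) f g hf hg hfg
    have h3 := cls_exact F K k1 k2 k3 (fp_pow r h2) h2 h1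
    rw [cls_pow] at h3
    rw [sub_smul, one_smul, natCast_zsmul]
    exact (sub_eq_of_eq_add' h3).symm

theorem prodMap_inj {A B G : Type} [Group A] [Group B] [Group G] {κ : A →* B}
    (hκ : Function.Injective κ) : Function.Injective ((MonoidHom.id G).prodMap κ) := by
  rintro ⟨x, a⟩ ⟨y, b⟩ h
  have h1 : (x, κ a) = (y, κ b) := h
  have h2 : x = y := congrArg Prod.fst h1
  have h3 : κ a = κ b := congrArg Prod.snd h1
  rw [h2, hκ h3]

/-- products of amalgams with a group -/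
theorem amal_prod {A B C Γ : Type} [Group A] [Group B] [Group C] [Group Γ] {α : A →* Γ}
    {β : B →* Γ} {κ : C →* A} {ι : C →* B} {S : Set Γ} (h : Amal α β κ ι S) (G : Type)
    [Group G] : Amal ((MonoidHom.id G).prodMap α) ((MonoidHom.id G).prodMap β)
      ((MonoidHom.id G).prodMap κ) ((MonoidHom.id G).prodMap ι) {p : G × Γ | p.2 ∈ S} where
  injA := prodMap_inj h.injA
  injB := prodMap_inj h.injB
  injκ := prodMap_inj h.injκ
  injι := prodMap_inj h.injι
  comm := by
    rintro ⟨g, c⟩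
    exact Prod.ext rfl (h.comm c)
  gen := by
    rw [eq_top_iff]
    have hG : ∀ g : G, ((g, 1) : G × Γ) ∈
        ((MonoidHom.id G).prodMap α).range ⊔ ((MonoidHom.id G).prodMap β).range := by
      intro g
      exact (le_sup_left : ((MonoidHom.id G).prodMap α).range ≤ _) ⟨(g, 1), by simp⟩
    have hΓ : ∀ x : Γ, ((1, x) : G × Γ) ∈
        ((MonoidHom.id G).prodMap α).range ⊔ ((MonoidHom.id G).prodMap β).range := by
      intro x
      have h1 : α.range ⊔ β.range ≤ Subgroup.comap (MonoidHom.inr G Γ)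
          (((MonoidHom.id G).prodMap α).range ⊔ ((MonoidHom.id G).prodMap β).range) := by
        refine sup_le ?_ ?_
        · rintro _ ⟨a, rfl⟩
          exact (le_sup_left : ((MonoidHom.id G).prodMap α).range ≤ _) ⟨(1, a), by simp⟩
        · rintro _ ⟨b, rfl⟩
          exact (le_sup_right : ((MonoidHom.id G).prodMap β).range ≤ _) ⟨(1, b), by simp⟩
      rw [h.gen] at h1
      exact h1 (Subgroup.mem_top x)
    rintro ⟨g, x⟩ _
    have h2 := Subgroup.mul_mem _ (hG g) (hΓ x)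
    rwa [Prod.mk_mul_mk, mul_one, one_mul] at h2
  notA := by
    rintro ⟨g, a⟩ ha
    exact h.notA a ha
  smulC := by
    rintro ⟨g, c⟩ s hs
    exact h.smulC c s.2 hs
  mulA := by
    rintro s hs ⟨g, a⟩
    exact h.mulA s.2 hs a
  mulB := by
    rintro ⟨x, s⟩ hs ⟨g, b⟩
    rcases h.mulB s hs b with h1 | ⟨c, h1⟩
    · exact Or.inl h1
    · exact Or.inr ⟨(x * g, c), Prod.ext rfl h1⟩
  ppA := by
    rintro ⟨g, a⟩ ha s hs
    refine h.ppA a ?_ s.2 hs
    rintro ⟨c, rfl⟩
    exact ha ⟨(g, c), rfl⟩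
  ppB := by
    rintro ⟨g, b⟩ hb x hx
    refine h.ppB b ?_ x.2 hx
    rintro ⟨c, rfl⟩
    exact hb ⟨(g, c), rfl⟩
  cover := by
    rintro ⟨g, x⟩
    rcases h.cover x with ⟨a, h1⟩ | ⟨a, s, hs, h1⟩
    · exact Or.inl ⟨(g, a), Prod.ext rfl h1⟩
    · exact Or.inr ⟨(g, a), (1, s), hs, Prod.ext (mul_one g).symm h1⟩

/-- amalgams -/
theorem eul_amal {A B C M : Type} [Group A] [Group B] [Group C] [Group M] {α : A →* M}
    {β : B →* M} {κ : C →* A} {ι : C →* B} {S : Set M} (hS : Amal α β κ ι S)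
    {a b c : ℤ} (hA : Eul A a) (hB : Eul B b) (hC : Eul C c) :
    Eul M (a + b - c) := by
  refine ⟨amal_ff hS hA.ff hB.ff hC.ff, ?_, ?_⟩
  · intro G _ hG
    exact amal_fp (amal_prod hS G) (hA.fp G hG) (hB.fp G hG) (hC.fp G hG)
  · intro G Γ _ _ hG mu hmu h1 h2
    have hS' := amal_prod hS G
    obtain ⟨f, g, hf, hg, hfg⟩ := amal_exact hS'
    have iA := hmu.comp hS'.injA
    have iB := hmu.comp hS'.injB
    have iC := iA.comp hS'.injκ
    have pA : FP (MonoidAlgebra ℤ Γ)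
        (PermF Γ (Γ ⧸ (mu.comp ((MonoidHom.id G).prodMap α)).range)) := fp_perm (hA.fp G hG) iA
    have pB : FP (MonoidAlgebra ℤ Γ)
        (PermF Γ (Γ ⧸ (mu.comp ((MonoidHom.id G).prodMap β)).range)) := fp_perm (hB.fp G hG) iB
    have pC : FP (MonoidAlgebra ℤ Γ) (PermF Γ (Γ ⧸ (mu.comp (((MonoidHom.id G).prodMap α).comp
        ((MonoidHom.id G).prodMap κ))).range)) := fp_perm (hC.fp G hG) iC
    obtain ⟨F, K, k1, k2, k3⟩ := ind_exact (ind_perm2 hmu _)
      (ind_prod _ _ _ _ (ind_perm2 hmu _) (ind_perm2 hmu _)) (ind_perm mu) f g hf hg hfg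
    have h3 := cls_exact F K k1 k2 k3 pC (fp_prod pA pB) h1
    rw [cls_prod pA pB] at h3
    have eA : (((mu.comp ((MonoidHom.id G).prodMap α))).comp (MonoidHom.inl G A)).range =
        (mu.comp (MonoidHom.inl G M)).range := by
      congr 1
      ext x
      simp
    have eB : (((mu.comp ((MonoidHom.id G).prodMap β))).comp (MonoidHom.inl G B)).range =
        (mu.comp (MonoidHom.inl G M)).range := by
      congr 1
      ext x
      simp
    have eC : ((mu.comp (((MonoidHom.id G).prodMap α).comp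
        ((MonoidHom.id G).prodMap κ))).comp (MonoidHom.inl G C)).range =
        (mu.comp (MonoidHom.inl G M)).range := by
      congr 1
      ext x
      simp
    have q : FP (MonoidAlgebra ℤ Γ) (PermF Γ (Γ ⧸ (mu.comp (MonoidHom.inl G M)).range)) := h2
    have qA : FP (MonoidAlgebra ℤ Γ) (PermF Γ (Γ ⧸
        (((mu.comp ((MonoidHom.id G).prodMap α))).comp (MonoidHom.inl G A)).range)) := by
      rw [eA]
      exact q
    have qB : FP (MonoidAlgebra ℤ Γ) (PermF Γ (Γ ⧸
        (((mu.comp ((MonoidHom.id G).prodMap β))).comp (MonoidHom.inl G B)).range)) := by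
      rw [eB]
      exact q
    have qC : FP (MonoidAlgebra ℤ Γ) (PermF Γ (Γ ⧸ ((mu.comp (((MonoidHom.id G).prodMap α).comp
        ((MonoidHom.id G).prodMap κ))).comp (MonoidHom.inl G C)).range)) := by
      rw [eC]
      exact q
    have rA := hA.eq G Γ hG _ iA pA qA
    have rB := hB.eq G Γ hG _ iB pB qB
    have rC := hC.eq G Γ hG _ iC pC qC
    rw [cls_congr eA qA h2] at rA
    rw [cls_congr eB qB h2] at rB
    rw [cls_congr eC qC h2] at rC
    rw [rA, rB, rC] at h3
    rw [sub_smul, add_smul]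
    exact (sub_eq_of_eq_add' h3).symm

theorem prodF_ff (M : Type) [Group M] (hM : TypeFF M) (r : ℕ) :
    TypeFF (M × FreeGroup (Fin r)) := by
  obtain ⟨f, g, hf, hg, hfg⟩ := PN_exact M r
  have hinj : Function.Injective (MonoidHom.inl M (FreeGroup (Fin r))) := by
    intro x y h
    exact congrArg Prod.fst h
  have hN := ind_ff hinj _ _ (PN_ind M (FreeGroup (Fin r))) (ff_of_typeFF M hM)
  exact typeFF_of_ff _ (ff_coker f g hf hg hfg
    (ff_pi (fun _ : Fin r => PN M (FreeGroup (Fin r))) fun _ => hN) hN)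

/-- products with free groups -/
theorem eul_prodFree {M : Type} [Group M] {c : ℤ} (h : Eul M c) (r : ℕ) :
    Eul (M × FreeGroup (Fin r)) (c * (1 - r)) where
  ff := prodF_ff M h.ff r
  fp G _ hG := typeFP_congr MulEquiv.prodAssoc (prod_fp (G × M) (h.fp G hG) r)
  eq G Γ _ _ hG mu hmu h1 h2 := by
    let e : (G × M) × FreeGroup (Fin r) ≃* G × (M × FreeGroup (Fin r)) := MulEquiv.prodAssoc
    let mu' : (G × M) × FreeGroup (Fin r) →* Γ := mu.comp e.toMonoidHom
    have hmu' : Function.Injective mu' := hmu.comp e.injective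
    have hmi : Function.Injective (mu'.comp (MonoidHom.inl (G × M) (FreeGroup (Fin r)))) := by
      refine hmu'.comp ?_
      intro x y h
      exact congrArg Prod.fst h
    have e1 : mu'.range = mu.range := by
      ext x
      constructor
      · rintro ⟨y, rfl⟩
        exact ⟨e y, rfl⟩
      · rintro ⟨y, rfl⟩
        refine ⟨e.symm y, ?_⟩
        change mu (e (e.symm y)) = mu y
        rw [e.apply_symm_apply]
    have e2 : ((mu'.comp (MonoidHom.inl (G × M) (FreeGroup (Fin r)))).comp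
        (MonoidHom.inl G M)).range =
        (mu.comp (MonoidHom.inl G (M × FreeGroup (Fin r)))).range := rfl
    have p1 : FP (MonoidAlgebra ℤ Γ) (PermF Γ (Γ ⧸ mu'.range)) := by
      rw [e1]
      exact h1
    have p2 : FP (MonoidAlgebra ℤ Γ) (PermF Γ (Γ ⧸ ((mu'.comp (MonoidHom.inl (G × M)
        (FreeGroup (Fin r)))).range))) := fp_perm (h.fp G hG) hmi
    have q1 := (eul_free r).eq (G × M) Γ (h.fp G hG) mu' hmu' p1 p2
    have q2 := h.eq G Γ hG _ hmi p2 h2
    rw [cls_congr e1 p1 h1, q2, smul_smul, mul_comm (1 - (r : ℤ)) c] at q1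
    exact q1

/-- the obstruction of the pushout of `D` and `G × M` over `M` -/
theorem eul_final {D M G Γ : Type} [Group D] [Group M] [Group G] [Group Γ] {α : D →* Γ}
    {β : G × M →* Γ} {μ : M →* D} (hμ : Function.Injective μ)
    (h : IsPush α β μ (MonoidHom.inr G M)) (hD : TypeFF D) {c : ℤ} (hM : Eul M c)
    (hG : TypeFP G) : TypeFP Γ ∧ (∀ m, FreeRes m Γ ↔ FreeRes (m * c.natAbs) G) ∧
      Function.Injective (β.comp (MonoidHom.inl G M)) ∧ Function.Injective α := by
  have hι : Function.Injective (MonoidHom.inr G M) := by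
    intro x y hxy
    exact congrArg Prod.snd hxy
  have hinl : Function.Injective (MonoidHom.inl G M) := by
    intro x y hxy
    exact congrArg Prod.fst hxy
  obtain ⟨S, hS⟩ := amal_of_univ hμ hι h
  have hGM := hM.fp G hG
  have hj : Function.Injective (β.comp (MonoidHom.inl G M)) := hS.injB.comp hinl
  have hΓ : TypeFP Γ := amal_fp hS (typeFP_of_typeFF D hD) hGM (typeFP_of_typeFF M hM.ff)
  refine ⟨hΓ, ?_, hj, hS.injA⟩
  obtain ⟨r, hr1, hr2⟩ := h.univ G 1 (MonoidHom.fst G M) (fun c => rfl)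
  obtain ⟨f, g, hf, hg, hfg⟩ := amal_exact hS
  have fD := ind_ff hS.injA _ _ (ind_perm α) (ff_of_typeFF D hD)
  have fM := ind_ff (amal_injC hS) _ _ (ind_perm (α.comp μ)) (ff_of_typeFF M hM.ff)
  have pB : FP (MonoidAlgebra ℤ Γ) (PermF Γ (Γ ⧸ β.range)) := fp_perm hGM hS.injB
  have pJ : FP (MonoidAlgebra ℤ Γ) (PermF Γ (Γ ⧸ (β.comp (MonoidHom.inl G M)).range)) :=
    fp_perm hG hj
  have pT : FP (MonoidAlgebra ℤ Γ) (Triv Γ) := fp_of_typeFP Γ hΓ
  have h1 := cls_exact f g hf hg hfg (fp_of_ff fM) (fp_prod (fp_of_ff fD) pB) pT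
  rw [cls_prod (fp_of_ff fD) pB, (cls_eq_zero (fp_of_ff fD)).2 fD,
    (cls_eq_zero (fp_of_ff fM)).2 fM, zero_add, zero_add,
    hM.eq G Γ hG β hS.injB pB pJ] at h1
  intro m
  have hI : Induced (β.comp (MonoidHom.inl G M)) (Fin (m * c.natAbs) → Triv G)
      (Fin (m * c.natAbs) → PermF Γ (Γ ⧸ (β.comp (MonoidHom.inl G M)).range)) :=
    ind_pi _ _ _ (ind_perm _)
  have h2 : FF (MonoidAlgebra ℤ Γ)
      (Fin (m * c.natAbs) → PermF Γ (Γ ⧸ (β.comp (MonoidHom.inl G M)).range)) ↔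
      FreeRes (m * c.natAbs) G := by
    rw [freeRes_iff]
    constructor
    · intro h3
      refine ind_reduce hj _ _ (desc_ret _ r ?_) (fp_pow _ (fp_of_typeFP G hG)) hI h3
      intro x
      exact hr2 (x, 1)
    · intro h3
      exact ind_ff hj _ _ hI h3
  rw [← h2, freeRes_iff, ← cls_eq_zero (fp_pow m pT), ← cls_eq_zero (fp_pow _ pJ),
    cls_pow m pT, cls_pow _ pJ, ← h1, mul_smul]
  rcases Int.natAbs_eq c with hc | hc
  · have h4 : c • cls (PermF Γ (Γ ⧸ (β.comp (MonoidHom.inl G M)).range)) pJ =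
        c.natAbs • cls (PermF Γ (Γ ⧸ (β.comp (MonoidHom.inl G M)).range)) pJ := by
      rw [← natCast_zsmul, ← hc]
    rw [h4]
  · have h4 : c • cls (PermF Γ (Γ ⧸ (β.comp (MonoidHom.inl G M)).range)) pJ =
        -(c.natAbs • cls (PermF Γ (Γ ⧸ (β.comp (MonoidHom.inl G M)).range)) pJ) := by
      rw [← natCast_zsmul, ← neg_smul, ← hc]
    rw [h4, smul_neg, neg_eq_zero]

end Pool.Agent.SDec
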