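import Pool.Agent.SDec.Main2
import Pool.Agent.SFP.Fin1

/-!
# Every group of type (FF) has an Euler characteristic in the sense of `Eul`
-/

set_option autoImplicit false

namespace Pool.Agent.SDec

open Pool.Agent.Hhelper49.Srr Pool.Agent.Hhelper49.Srf Pool.Agent.SFP

section
variable {G D : Type} [Group G] [Group D]

/-- powers commute with restriction -/
noncomputable def pullPi (κ : G →* D) (T : Type) [AddCommGroup T] [Module (MonoidAlgebra ℤ D) T]
    (k : ℕ) : (Fin k → Pull κ T) ≃ₗ[MonoidAlgebra ℤ G] Pull κ (Fin k → T) :=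
  mkEquiv (A := Fin k → Pull κ T) (B := Pull κ (Fin k → T)) (AddEquiv.refl (Fin k → T)) (by
    intro h t
    have h1 : (act h (Pull.mk κ (fun j => (t j).un))).un = act (κ h) (fun j => (t j).un) :=
      Pull.act_apply h _
    have h2 : (act h t : Fin k → Pull κ T) = fun j => (Pull.mk κ (act (κ h) (t j).un)) := by
      funext j
      exact Pull.act_apply h (t j)
    rw [h2]
    exact h1.symm)

/-- restriction of isomorphisms -/
noncomputable def pullEq (κ : G →* D) {L M : Type} [AddCommGroup L] [Module (MonoidAlgebra ℤ D) L]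
    [AddCommGroup M] [Module (MonoidAlgebra ℤ D) M] (e : L ≃ₗ[MonoidAlgebra ℤ D] M) :
    Pull κ L ≃ₗ[MonoidAlgebra ℤ G] Pull κ M :=
  LinearEquiv.ofBijective (Pool.Agent.SFP.pullLin κ e.toLinearMap) e.bijective

/-- restriction of kernels -/
noncomputable def pullKer (κ : G →* D) {L M : Type} [AddCommGroup L] [Module (MonoidAlgebra ℤ D) L]
    [AddCommGroup M] [Module (MonoidAlgebra ℤ D) M] (f : L →ₗ[MonoidAlgebra ℤ D] M) :
    LinearMap.ker (Pool.Agent.SFP.pullLin κ f) ≃ₗ[MonoidAlgebra ℤ G]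
      Pull κ (LinearMap.ker f) :=
  mkEquiv (A := LinearMap.ker (Pool.Agent.SFP.pullLin κ f)) (B := Pull κ (LinearMap.ker f))
    { toFun := fun x => Pull.mk κ ⟨(x : Pull κ L).un, x.2⟩
      invFun := fun x => ⟨Pull.mk κ (x.un : L), x.un.2⟩
      left_inv := fun _ => rfl
      right_inv := fun _ => rfl
      map_add' := fun _ _ => rfl } (by
    intro h t
    have h1 := Pull.act_apply (κ := κ) h (t : Pull κ L)
    have h2 := Pull.act_apply (κ := κ) h (Pull.mk κ (⟨(t : Pull κ L).un, t.2⟩ : LinearMap.ker f))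
    change Pull.mk κ (⟨((act h t : LinearMap.ker (Pool.Agent.SFP.pullLin κ f)) : Pull κ L).un, _⟩ :
      LinearMap.ker f) = act h (Pull.mk κ (⟨(t : Pull κ L).un, t.2⟩ : LinearMap.ker f))
    apply Subtype.ext
    have h3 : ((act h (Pull.mk κ (⟨(t : Pull κ L).un, t.2⟩ : LinearMap.ker f))).un : L) =
        act (κ h) ((t : Pull κ L).un) := congrArg Subtype.val h2
    exact h1.trans h3.symm)

end

/-- modules over the same group -/
theorem ind_id {G : Type} [Group G] (M : Type) [AddCommGroup M] [Module (MonoidAlgebra ℤ G) M] :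
    Induced (MonoidHom.id G) M M := by
  refine ⟨AddMonoidHom.id M, AddMonoidHom.id M, fun _ _ => rfl, ?_, fun _ _ => rfl, ?_⟩
  · intro n
    exact AddSubgroup.subset_closure ⟨1, n, (act_one n).symm⟩
  · intro g m hg
    exact absurd ⟨g, rfl⟩ hg

/-- the class of the restriction of a module with a finite free resolution -/
theorem pull_fam (D : Type) [Group D] (n : ℕ) : ∀ (X : Type) [AddCommGroup X]
    [Module (MonoidAlgebra ℤ D) X], FFl (MonoidAlgebra ℤ D) n X → ∃ c : ℤ,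
    ∀ (G Γ : Type) [Group G] [Group Γ], TypeFP G → ∀ (mu : G × D →* Γ), Function.Injective mu →
    ∀ (N : Type) [AddCommGroup N] [Module (MonoidAlgebra ℤ Γ) N],
      Induced mu (Pull (MonoidHom.snd G D) X) N → ∃ h1 : FP (MonoidAlgebra ℤ Γ) N,
      ∀ h2 : FP (MonoidAlgebra ℤ Γ) (PermF Γ (Γ ⧸ (mu.comp (MonoidHom.inl G D)).range)),
        cls N h1 = c • cls (PermF Γ (Γ ⧸ (mu.comp (MonoidHom.inl G D)).range)) h2 := by
  have base : ∀ (k : ℕ) (G Γ : Type) [Group G] [Group Γ] (mu : G × D →* Γ),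
      Function.Injective mu → Induced mu (Pull (MonoidHom.snd G D) (Fin k → MonoidAlgebra ℤ D))
        (Fin k → PermF Γ (Γ ⧸ (mu.comp (MonoidHom.inl G D)).range)) := by
    intro k G Γ _ _ mu hmu
    obtain ⟨e⟩ := ind_unique (ind_perm (MonoidHom.inl G D)) (PN_ind G D)
    have hI : Induced mu (PN G D) (PermF Γ (Γ ⧸ (mu.comp (MonoidHom.inl G D)).range)) :=
      ind_iso _ _ _ _ (ind_perm2 hmu (MonoidHom.inl G D)) e (LinearEquiv.refl _ _)
    exact ind_iso _ _ _ _ (ind_pi _ _ k hI) (pullPi _ _ k) (LinearEquiv.refl _ _)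
  have hinl : ∀ (G : Type) [Group G], Function.Injective (MonoidHom.inl G D) := by
    intro G _ x y h
    exact congrArg Prod.fst h
  induction n with
  | zero =>
    intro X _ _ hX
    obtain ⟨h1, h2⟩ := hX
    obtain ⟨k, ⟨e⟩⟩ : ∃ k : ℕ, Nonempty ((Fin k → MonoidAlgebra ℤ D) ≃ₗ[MonoidAlgebra ℤ D] X) := by
      have b := Module.Free.chooseBasis (MonoidAlgebra ℤ D) X
      have : Finite (Module.Free.ChooseBasisIndex (MonoidAlgebra ℤ D) X) := by
        infer_instance
      let _ := Fintype.ofFinite (Module.Free.ChooseBasisIndex (MonoidAlgebra ℤ D) X)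
      exact ⟨_, ⟨((b.reindex (Fintype.equivFin _)).equivFun).symm⟩⟩
    refine ⟨k, ?_⟩
    intro G Γ _ _ hG mu hmu N _ _ hN
    have h0 : FP (MonoidAlgebra ℤ Γ) (PermF Γ (Γ ⧸ (mu.comp (MonoidHom.inl G D)).range)) :=
      fp_perm hG (hmu.comp (hinl G))
    have hb := ind_iso _ _ _ _ (base k G Γ mu hmu) (pullEq (MonoidHom.snd G D) e)
      (LinearEquiv.refl _ _)
    obtain ⟨e'⟩ := ind_unique hb hN
    refine ⟨fp_iso e' (fp_pow k h0), fun h2 => ?_⟩
    rw [← cls_iso (fp_pow k h2) _ e', cls_pow, natCast_zsmul]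
  | succ n ih =>
    intro X _ _ hX
    obtain ⟨k, f, hf, hK⟩ := hX
    obtain ⟨c, hc⟩ := ih _ hK
    refine ⟨k - c, ?_⟩
    intro G Γ _ _ hG mu hmu N _ _ hN
    have h0 : FP (MonoidAlgebra ℤ Γ) (PermF Γ (Γ ⧸ (mu.comp (MonoidHom.inl G D)).range)) :=
      fp_perm hG (hmu.comp (hinl G))
    obtain ⟨iA, πA, hA⟩ := base k G Γ mu hmu
    obtain ⟨iN, πN, hN⟩ := hN
    obtain ⟨F, hF⟩ := ind_fun hA hN (Pool.Agent.SFP.pullLin (MonoidHom.snd G D) f)
    have hF' : Function.Surjective F := isInd_surj hA hN _ F hF hf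
    have hk := ind_iso _ _ _ _ (isInd_ker hA hN _ F hF) (pullKer (MonoidHom.snd G D) f)
      (LinearEquiv.refl _ _)
    obtain ⟨q1, q2⟩ := hc G Γ hG mu hmu _ hk
    have hex : LinearMap.range (LinearMap.ker F).subtype = LinearMap.ker F :=
      Submodule.range_subtype _
    have p1 : FP (MonoidAlgebra ℤ Γ) N := fp_coker (LinearMap.ker F).subtype F
      (Submodule.injective_subtype _) hF' hex q1 (fp_pow k h0)
    refine ⟨p1, fun h2 => ?_⟩
    have h3 := cls_exact (LinearMap.ker F).subtype F (Submodule.injective_subtype _) hF' hex q1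
      (fp_pow k h2) p1
    rw [cls_pow, q2 h2] at h3
    rw [sub_smul, natCast_zsmul]
    exact (sub_eq_of_eq_add' h3).symm

/-- groups of type (FF) -/
theorem eul_of_ff (D : Type) [Group D] (hD : TypeFF D) : ∃ c : ℤ, Eul D c := by
  obtain ⟨n, hn⟩ := ff_of_typeFF D hD
  obtain ⟨c, hc⟩ := pull_fam D n _ hn
  have key : ∀ (G Γ : Type) [Group G] [Group Γ], TypeFP G → ∀ (mu : G × D →* Γ),
      Function.Injective mu → ∃ h1 : FP (MonoidAlgebra ℤ Γ) (PermF Γ (Γ ⧸ mu.range)),
      ∀ h2 : FP (MonoidAlgebra ℤ Γ) (PermF Γ (Γ ⧸ (mu.comp (MonoidHom.inl G D)).range)),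
        cls (PermF Γ (Γ ⧸ mu.range)) h1 =
          c • cls (PermF Γ (Γ ⧸ (mu.comp (MonoidHom.inl G D)).range)) h2 := by
    intro G Γ _ _ hG mu hmu
    exact hc G Γ hG mu hmu _ (ind_iso _ _ _ _ (ind_perm mu) (trivPull (MonoidHom.snd G D)).symm
      (LinearEquiv.refl _ _))
  refine ⟨c, hD, ?_, ?_⟩
  · intro G _ hG
    obtain ⟨h1, -⟩ := hc G (G × D) hG (MonoidHom.id _) Function.injective_id (Triv (G × D))
      (ind_iso _ _ _ _ (ind_id (Triv (G × D))) (trivPull (MonoidHom.snd G D)).symm (LinearEquiv.refl _ _))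
    exact typeFP_of_fp _ h1
  · intro G Γ _ _ hG mu hmu h1 h2
    obtain ⟨h3, h4⟩ := key G Γ hG mu hmu
    exact h4 h2

end Pool.Agent.SDec
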