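import Pool.Agent.SDec.Exist

/-!
# Rule systems which read an integer: exact acceptance

The reader state takes the ternary digits `1`, `2` of an integer `g`, pushes the corresponding bits and starts the machine at
the digit `0`; a nonzero rest of `g` is never removed, so the target is reached exactly from the codes of the accepted words.
-/

set_option autoImplicit false

namespace Pool.Agent.SDec

open Turing Turing.TM2 Turing.TM2.Stmt Turing.PartrecToTM2 Function Relation

/-- the integer of a word -/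
def enc3 : List Bool → ℕ
  | [] => 0
  | b :: δ => (1 + b.toNat) + 3 * enc3 δ

/-- the number with the binary digits `1 δ`, the most significant digits first -/
def num (δ : List Bool) : ℕ := δ.foldl (fun n b => 2 * n + b.toNat) 1

/-- the symbol of a bit -/
def bsym (b : Bool) : Γ' := bif b then Γ'.bit1 else Γ'.bit0

theorem trList_fold (δ : List Bool) : ∀ m : ℕ, m ≠ 0 →
    trList [δ.foldl (fun n b => 2 * n + b.toNat) m] = δ.foldl (fun y b => bsym b :: y) (trList [m]) := by
  induction δ with
  | nil => intro m _; rfl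
  | cons b δ ih =>
    intro m hm
    rw [List.foldl_cons, List.foldl_cons, ih _ (by omega)]
    congr 1
    cases b
    · simp [trList, trNat_bit0 m hm, bsym]
    · simp [trList, trNat_bit1 m, bsym]

theorem trList_num (δ : List Bool) :
    trList [num δ] = δ.foldl (fun y b => bsym b :: y) [Γ'.bit1, Γ'.cons] := by
  have h1 : trList [1] = [Γ'.bit1, Γ'.cons] := by
    have := trNat_bit1 0
    simp only [mul_zero, zero_add] at this
    simp [trList, this]
  rw [num, trList_fold δ 1 one_ne_zero, h1]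

/-- the statements of the machine, with the halting statement -/
noncomputable def stm2 (c : ToPartrec.Code) : Finset St := by
  classical
  exact insert Stmt.halt (stm c)

theorem halt_mem (c : ToPartrec.Code) : Stmt.halt ∈ stm2 c := by
  classical
  exact Finset.mem_insert_self _ _

theorem stm_sub (c : ToPartrec.Code) {q : St} (h : q ∈ stm c) : q ∈ stm2 c := by
  classical
  exact Finset.mem_insert_of_mem h

theorem nx_closed2 (c : ToPartrec.Code) {x y : Cf} (h : Nx tr x y) (hx : x.q ∈ stm2 c) :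
    y.q ∈ stm2 c := by
  classical
  rcases Finset.mem_insert.1 hx with h1 | h1
  · exfalso
    rcases x with ⟨q, s, S⟩
    change q = Stmt.halt at h1
    subst h1
    cases h
  · exact stm_sub c (nx_closed c h h1)

section
variable (P : Finset (St × Option Γ')) (st : ℕ)

/-- the rule of the reader for a digit -/
def rdRule (d : Fin 3) : Rule where
  u j := if j = 0 then (P.card : ℤ) + ((P.card + 1 : ℕ) : ℤ) * (d : ℕ) else 0
  m j := if j = 0 then 3 * ((P.card + 1 : ℕ) : ℤ) else 1
  u' j := if j = 0 then (if d = 0 then (st : ℤ) else (P.card : ℤ)) else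
    if j = 1 then (if d = 0 then 0 else 2 + (d : ℕ)) else 0
  a j := if j = 0 then (if d = 0 then 3 * ((P.card + 1 : ℕ) : ℤ) else ((P.card + 1 : ℕ) : ℤ)) else
    if j = 1 then (if d = 0 then 1 else 5) else 1
  mpos j := by split_ifs <;> positivity
  apos j := by split_ifs <;> positivity

/-- the vector of the reader: the rest `g` of the integer and the main stack -/
def rv (g : ℤ) (y : List Γ') : Fin 5 → ℤ :=
  ![(P.card : ℤ) + ((P.card + 1 : ℕ) : ℤ) * g, encN y, 0, 0, 0]

theorem rd_bit (b : Bool) (g : ℤ) (y : List Γ') :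
    (rdRule P st ⟨1 + b.toNat, by cases b <;> decide⟩).Rel
      (rv P (((1 + b.toNat : ℕ) : ℤ) + 3 * g) y) (rv P g (bsym b :: y)) := by
  refine ⟨![g, encN y, 0, 0, 0], ?_, ?_⟩
  · funext j
    cases b <;> fin_cases j <;> simp [rdRule, rv] <;> ring
  · funext j
    cases b <;> fin_cases j <;> simp [rdRule, rv, bsym, encN, dig] <;> ring

theorem rd_zero (g : ℤ) (y : List Γ') :
    (rdRule P st 0).Rel (rv P (3 * g) y)
      (![(st : ℤ), encN y, 0, 0, 0] + Pi.single 0 (((P.card + 1 : ℕ) : ℤ) * (3 * g))) := by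
  refine ⟨![g, encN y, 0, 0, 0], ?_, ?_⟩
  · funext j
    fin_cases j <;> simp [rdRule, rv] <;> ring
  · funext j
    fin_cases j <;> simp [rdRule] <;> ring

theorem code_mem {p : St × Option Γ'} (hp : p ∈ P) : code P p < P.card := by
  unfold code
  rw [dif_pos hp]
  exact Fin.is_lt _

/-- comparison of the control coordinate -/
theorem mod_card {a b : ℕ} {z w : ℤ} (ha : a < P.card + 1) (hb : b < P.card + 1)
    (h : (a : ℤ) + ((P.card + 1 : ℕ) : ℤ) * z = (b : ℤ) + ((P.card + 1 : ℕ) : ℤ) * w) :
    a = b ∧ z = w := by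
  have h2 := congrArg (fun t : ℤ => t % ((P.card + 1 : ℕ) : ℤ)) h
  simp only [Int.add_mul_emod_self_left] at h2
  rw [Int.emod_eq_of_lt (by positivity) (by exact_mod_cast ha),
    Int.emod_eq_of_lt (by positivity) (by exact_mod_cast hb)] at h2
  have h3 : a = b := by exact_mod_cast h2
  subst h3
  refine ⟨rfl, ?_⟩
  have h4 := add_left_cancel h
  exact mul_left_cancel₀ (by positivity) h4

end

theorem rules_exist2 (K : ℕ → Prop) (hK : REPred K) :
    ∃ (R : ℕ) (ru : Fin R → Rule) (c0 tgt : Fin 5 → ℤ) (N : ℕ), 0 < N ∧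
      (∀ i i' z z', (ru i).u + (ru i).m * z = (ru i').u + (ru i').m * z' → i = i') ∧
      (∀ i z, (ru i).u + (ru i).m * z ≠ tgt) ∧
      ∀ g : ℤ, ReflTransGen (Step ru) (c0 + Pi.single 0 ((N : ℤ) * g)) tgt ↔
        ∃ δ : List Bool, g = enc3 δ ∧ K (num δ) := by
  classical
  obtain ⟨c, hc⟩ := exists_code K hK
  let P : Finset (St × Option Γ') := stm2 c ×ˢ Finset.univ
  have hP : ∀ q s, q ∈ stm2 c → (q, s) ∈ P := fun q s hq =>
    Finset.mem_product.2 ⟨hq, Finset.mem_univ _⟩
  let I := {x : St × Option Γ' × Option Γ' // x.1 ∈ stm2 c ∧ x.1 ≠ Stmt.halt}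
  have hfin : Finite I := by
    refine Set.Finite.to_subtype (Set.Finite.subset
      (Finset.finite_toSet (stm2 c ×ˢ (Finset.univ : Finset (Option Γ' × Option Γ')))) ?_)
    rintro ⟨q, s, o⟩ hx
    exact Finset.mem_coe.2 (Finset.mem_product.2 ⟨hx.1, Finset.mem_univ _⟩)
  have : Fintype I := Fintype.ofFinite I
  let E : (I ⊕ Fin 3) ≃ Fin (Fintype.card (I ⊕ Fin 3)) := Fintype.equivFin _
  let st := code P (tr (trNormal c Cont'.halt), none)
  let rj : I ⊕ Fin 3 → Rule := fun x => match x with
    | Sum.inl y => mkRule P y.1.1 y.1.2.1 y.1.2.2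
    | Sum.inr d => rdRule P st d
  let ru : Fin (Fintype.card (I ⊕ Fin 3)) → Rule := fun i => rj (E.symm i)
  have hN : (0 : ℤ) < ((P.card + 1 : ℕ) : ℤ) := by positivity
  have hdj : ∀ x x' z z', (rj x).u + (rj x).m * z = (rj x').u + (rj x').m * z' → x = x' := by
    have mix : ∀ (y : I) (d : Fin 3) z z', (mkRule P y.1.1 y.1.2.1 y.1.2.2).u +
        (mkRule P y.1.1 y.1.2.1 y.1.2.2).m * z ≠ (rdRule P st d).u + (rdRule P st d).m * z' := by
      intro y d z z' h
      have h0 := congrFun h 0
      simp only [mkRule, rdRule, Pi.add_apply, Pi.mul_apply, if_true] at h0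
      have h1 : (code P (y.1.1, y.1.2.1) : ℤ) + ((P.card + 1 : ℕ) : ℤ) * z 0 =
          (P.card : ℤ) + ((P.card + 1 : ℕ) : ℤ) * ((d : ℕ) + 3 * z' 0) := by
        rw [h0]; ring
      have h2 := (mod_card P (code_lt P _) (Nat.lt_succ_self _) h1).1
      have h3 := code_mem P (hP y.1.1 y.1.2.1 y.2.1)
      omega
    rintro (y | d) (y' | d') z z' h
    · have h1 := rule_unique P (hP _ _ y.2.1) h
      exact congrArg Sum.inl (Subtype.ext (Prod.ext h1.1 (Prod.ext h1.2.1 h1.2.2)))
    · exact absurd h (mix y d' z z')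
    · exact absurd h.symm (mix y' d z' z)
    · have h0 := congrFun h 0
      simp only [rj, rdRule, Pi.add_apply, Pi.mul_apply, if_true] at h0
      have h1 : (P.card : ℤ) + ((P.card + 1 : ℕ) : ℤ) * ((d : ℕ) + 3 * z 0) =
          (P.card : ℤ) + ((P.card + 1 : ℕ) : ℤ) * ((d' : ℕ) + 3 * z' 0) := by
        rw [mul_add, mul_add, ← add_assoc, ← add_assoc]
        rw [show ((P.card + 1 : ℕ) : ℤ) * (3 * z 0) = 3 * ((P.card + 1 : ℕ) : ℤ) * z 0 by ring,
          show ((P.card + 1 : ℕ) : ℤ) * (3 * z' 0) = 3 * ((P.card + 1 : ℕ) : ℤ) * z' 0 by ring]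
        exact h0
      have h2 := (mod_card P (Nat.lt_succ_self _) (Nat.lt_succ_self _) h1).2
      have h3 := d.2
      have h4 := d'.2
      have h5 : (d : ℕ) = (d' : ℕ) := by omega
      exact congrArg Sum.inr (Fin.ext h5)
  have hdet : ∀ i i' z z', (ru i).u + (ru i).m * z = (ru i').u + (ru i').m * z' → i = i' := by
    intro i i' z z' h
    exact E.symm.injective (hdj _ _ _ _ h)
  have htj : ∀ x (z : Fin 5 → ℤ) (y : Cf), y.q = Stmt.halt → ∀ G : ℤ, (rj x).u + (rj x).m * z ≠
      vec P y + Pi.single 0 (((P.card + 1 : ℕ) : ℤ) * G) := by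
    intro x z y hy G h
    have hm : (y.q, y.s) ∈ P := by rw [hy]; exact hP _ _ (halt_mem c)
    have h0 := congrFun h 0
    rcases x with x | d
    · simp only [rj, mkRule, Pi.add_apply, Pi.mul_apply, if_true, Pi.single_eq_same] at h0
      have h1 : (code P (x.1.1, x.1.2.1) : ℤ) + ((P.card + 1 : ℕ) : ℤ) * z 0 =
          (code P (y.q, y.s) : ℤ) + ((P.card + 1 : ℕ) : ℤ) * G := h0
      have h2 := (mod_card P (code_lt P _) (code_lt P _) h1).1
      have h3 := code_inj P (hP _ _ x.2.1) h2
      exact x.2.2 ((congrArg Prod.fst h3).trans hy)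
    · simp only [rj, rdRule, Pi.add_apply, Pi.mul_apply, if_true, Pi.single_eq_same] at h0
      have h1 : (P.card : ℤ) + ((P.card + 1 : ℕ) : ℤ) * ((d : ℕ) + 3 * z 0) =
          (code P (y.q, y.s) : ℤ) + ((P.card + 1 : ℕ) : ℤ) * G := by
        have h4 : (P.card : ℤ) + ((P.card + 1 : ℕ) : ℤ) * (d : ℕ) +
          3 * ((P.card + 1 : ℕ) : ℤ) * z 0 =
          (code P (y.q, y.s) : ℤ) + ((P.card + 1 : ℕ) : ℤ) * G := h0
        rw [← h4]; ring
      have h2 := (mod_card P (Nat.lt_succ_self _) (code_lt P _) h1).1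
      have h3 := code_mem P hm
      omega
  have hdet2 : ∀ v v' v'', Step ru v v' → Step ru v v'' → v' = v'' := by
    rintro v v' v'' ⟨i, z, h1, h2⟩ ⟨i', z', h3, h4⟩
    have h5 : i = i' := hdet i i' z z' (h1.symm.trans h3)
    subst h5
    have h6 : z = z' := by
      funext j
      have h7 := congrFun (h1.symm.trans h3) j
      simp only [Pi.add_apply, Pi.mul_apply] at h7
      have h8 := (ru i).mpos j
      have h9 : (ru i).m j * z j = (ru i).m j * z' j := by linarith
      exact mul_left_cancel₀ h8.ne' h9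
    rw [h2, h4, h6]
  have hrj : ∀ x v v', (rj x).Rel v v' → Step ru v v' := by
    intro x v v' h
    refine ⟨E x, ?_⟩
    simp only [ru, Equiv.symm_apply_apply]
    exact h
  have hstep : ∀ x y : Cf, x.q ∈ stm2 c → Nx tr x y → ∀ G : ℤ,
      Step ru (vec P x + Pi.single 0 (((P.card + 1 : ℕ) : ℤ) * G))
        (vec P y + Pi.single 0 (((P.card + 1 : ℕ) : ℤ) * G)) := by
    intro x y hx h G
    have hh : x.q ≠ Stmt.halt := by
      rcases x with ⟨q, s, S⟩
      rintro rfl
      cases h
    apply hrj (Sum.inl ⟨(x.q, x.s, (x.S (key x.q)).head?), hx, hh⟩)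
    obtain ⟨z, h1, h2⟩ := rel_of_nx P h
    refine ⟨z + Pi.single 0 G, ?_, ?_⟩
    · rw [h1, mul_add, ← add_assoc]
      congr 1
      funext j
      by_cases hj : j = 0
      · subst hj
        simp [rj, mkRule]
      · simp [hj]
    · rw [h2, mul_add, ← add_assoc]
      congr 1
      funext j
      by_cases hj : j = 0
      · subst hj
        simp [rj, mkRule]
      · simp [hj]
  -- runs of the machine, with a rest
  have tm_run : ∀ (x : Cf), x.q ∈ stm2 c → ∀ (G : ℤ) v,
      ReflTransGen (Step ru) (vec P x + Pi.single 0 (((P.card + 1 : ℕ) : ℤ) * G)) v →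
      ∃ y : Cf, y.q ∈ stm2 c ∧ ReflTransGen (Nx tr) x y ∧
        v = vec P y + Pi.single 0 (((P.card + 1 : ℕ) : ℤ) * G) := by
    intro x hx G v hv
    induction hv with
    | refl => exact ⟨x, hx, ReflTransGen.refl, rfl⟩
    | tail _ hs ih =>
      obtain ⟨y, hy, hr, rfl⟩ := ih
      rcases hn : nxt tr y with _ | y'
      · exfalso
        have hxh : y.q = Stmt.halt := by
          rcases y with ⟨q, s, S⟩
          rcases q with ⟨k, f, q⟩ | ⟨k, f, q⟩ | ⟨k, f, q⟩ | ⟨a, q⟩ | ⟨p, q₁, q₂⟩ | l' | _ <;>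
            first | rfl | (simp [nxt] at hn)
        obtain ⟨i, z, h1, _⟩ := hs
        exact htj (E.symm i) z y hxh G h1.symm
      · exact ⟨y', nx_closed2 c hn hy, hr.tail hn, hdet2 _ _ _ hs (hstep y y' hy hn G)⟩
  let ini2 : List Γ' → Cf := fun y => ⟨tr (trNormal c Cont'.halt), none, K'.elim y [] [] []⟩
  have ini2_mem : ∀ y, (ini2 y).q ∈ stm2 c := fun y => stm_sub c (ini_mem c 0)
  have vec_ini : ∀ y, vec P (ini2 y) = ![(st : ℤ), encN y, 0, 0, 0] := by
    intro y
    funext j
    fin_cases j <;> simp [vec, ini2, encN, st]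
  have fin_mem : Stmt.halt ∈ stm2 c := halt_mem c
  have rd_run : ∀ v, ReflTransGen (Step ru) v (vec P fin0) → ∀ (g : ℤ) (y : List Γ'),
      v = rv P g y → ∃ δ : List Bool, g = enc3 δ ∧ ∃ x : Cf, x.q = Stmt.halt ∧
        ReflTransGen (Nx tr) (ini2 (δ.foldl (fun y b => bsym b :: y) y)) x := by
    intro v hv
    induction hv using ReflTransGen.head_induction_on with
    | refl =>
      intro g y h
      exfalso
      have h0 := congrFun h 0
      have h1 : (code P (Stmt.halt, none) : ℤ) + ((P.card + 1 : ℕ) : ℤ) * 0 =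
          (P.card : ℤ) + ((P.card + 1 : ℕ) : ℤ) * g := by
        rw [mul_zero, add_zero]
        exact h0
      have h2 := (mod_card P (code_lt P _) (Nat.lt_succ_self _) h1).1
      have h3 := code_mem P (hP _ none fin_mem)
      omega
    | head h hr ih =>
      rename_i v v'
      rintro g y rfl
      have key : (∃ b : Bool, ∃ g', g = ((1 + b.toNat : ℕ) : ℤ) + 3 * g') ∨ ∃ g', g = 3 * g' := by
        rcases Int.emod_two_eq_zero_or_one g with _ | _
        all_goals
          have h3 : g % 3 = 0 ∨ g % 3 = 1 ∨ g % 3 = 2 := by omega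
          rcases h3 with h3 | h3 | h3
          · exact Or.inr ⟨g / 3, by omega⟩
          · refine Or.inl ⟨false, g / 3, ?_⟩
            simp only [Bool.toNat_false]
            push_cast
            omega
          · refine Or.inl ⟨true, g / 3, ?_⟩
            simp only [Bool.toNat_true]
            push_cast
            omega
      rcases key with ⟨b, g', rfl⟩ | ⟨g', rfl⟩
      · have h1 := hdet2 _ _ _ h (hrj (Sum.inr _) _ _ (rd_bit P st b g' y))
        obtain ⟨δ, h2, x, h3, h4⟩ := ih g' (bsym b :: y) h1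
        refine ⟨b :: δ, ?_, x, h3, h4⟩
        rw [h2, enc3]
        push_cast
        ring
      · have h1 := hdet2 _ _ _ h (hrj (Sum.inr 0) _ _ (rd_zero P st g' y))
        rw [← vec_ini] at h1
        rw [h1] at hr
        obtain ⟨x, h2, h3, h4⟩ := tm_run _ (ini2_mem y) _ _ hr
        have h0 := congrFun h4 0
        have h5 : (code P (Stmt.halt, none) : ℤ) + ((P.card + 1 : ℕ) : ℤ) * 0 =
            (code P (x.q, x.s) : ℤ) + ((P.card + 1 : ℕ) : ℤ) * (3 * g') := by
          rw [mul_zero, add_zero]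
          rw [Pi.add_apply, Pi.single_eq_same] at h0
          exact h0
        obtain ⟨h6, h7⟩ := mod_card P (code_lt P _) (code_lt P _) h5
        have h8 := code_inj P (hP _ none fin_mem) h6
        have h9 : g' = 0 := by omega
        subst h9
        exact ⟨[], by simp [enc3], x, (congrArg Prod.fst h8).symm, h3⟩
  have rd_fwd : ∀ (δ : List Bool) (y : List Γ'), ReflTransGen (Step ru) (rv P (enc3 δ) y)
      (vec P (ini2 (δ.foldl (fun y b => bsym b :: y) y))) := by
    intro δ
    induction δ with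
    | nil =>
      intro y
      have h1 := hrj (Sum.inr 0) _ _ (rd_zero P st 0 y)
      rw [mul_zero, mul_zero, Pi.single_zero, add_zero, ← vec_ini] at h1
      exact ReflTransGen.single h1
    | cons b δ ih =>
      intro y
      have h1 := hrj (Sum.inr _) _ _ (rd_bit P st b (enc3 δ) y)
      have h2 : ((enc3 (b :: δ) : ℕ) : ℤ) = ((1 + b.toNat : ℕ) : ℤ) + 3 * (enc3 δ : ℕ) := by
        rw [enc3]; push_cast; ring
      rw [h2]
      exact ReflTransGen.head h1 (ih _)
  have hbase : ∀ g : ℤ, (![(P.card : ℤ), 14, 0, 0, 0] : Fin 5 → ℤ) +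
      Pi.single 0 (((P.card + 1 : ℕ) : ℤ) * g) = rv P g [Γ'.bit1, Γ'.cons] := by
    intro g
    funext j
    fin_cases j <;> simp [rv, encN, dig]
  refine ⟨Fintype.card (I ⊕ Fin 3), ru, ![(P.card : ℤ), 14, 0, 0, 0], vec P fin0, P.card + 1,
    Nat.succ_pos _, hdet, ?_, ?_⟩
  · intro i z h
    apply htj (E.symm i) z fin0 rfl 0
    rw [mul_zero, Pi.single_zero, add_zero]
    exact h
  · intro g
    rw [hbase]
    constructor
    · intro h
      obtain ⟨δ, h1, x, h2, h3⟩ := rd_run _ h g _ rfl
      refine ⟨δ, h1, ?_⟩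
      rw [← trList_num] at h3
      exact (hc (num δ)).1.2 (dom_of_reach c (num δ) x h2 h3)
    · rintro ⟨δ, rfl, hk⟩
      refine (rd_fwd δ _).trans ?_
      rw [← trList_num]
      have hd := (hc (num δ)).1.1 hk
      have h := reach_of_dom c (num δ) (hc (num δ)).2 hd
      have h1 : ∀ x : Cf, ReflTransGen (Nx tr) x fin0 → x.q ∈ stm2 c →
          ReflTransGen (Step ru) (vec P x) (vec P fin0) := by
        intro x hx
        induction hx using ReflTransGen.head_induction_on with
        | refl => intro _; exact ReflTransGen.refl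
        | head h _ ih =>
          intro hq
          have h2 := hstep _ _ hq h 0
          rw [mul_zero, Pi.single_zero, add_zero, add_zero] at h2
          exact ReflTransGen.head h2 (ih (nx_closed2 c h hq))
      exact h1 _ h (ini2_mem _)

end Pool.Agent.SDec
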