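import Pool.Agent.SDec.Ams

/-!
# The two toggles

`Γ1 = ⟨D, G | [w, G] = 1⟩`, `Γ2 = ⟨D, y, G | [w, G] = [y, G] = 1⟩`; `D` of type (FF), `G` of type (FP).
* `w = 1`: `Γ1 = D * G`, `Γ2 = D * (G × ℤ)`.
* `w ≠ 1`: `Γ1 = D *_ℤ (G × ℤ)`, `Γ2 = Γ1 *_G (G × ℤ)`.
-/

set_option autoImplicit false

namespace Pool.Agent.SDec

open Pool.Agent.Hhelper49.Srr Pool.Agent.Hhelper49.Srf Pool.Agent.SFP

/-- the generator of `FreeGroup (Fin 1)` -/
abbrev x1 : FreeGroup (Fin 1) := FreeGroup.of 0

/-- the homomorphism of `FreeGroup (Fin 1)` with a given value at the generator -/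
def toP {P : Type} [Group P] (p : P) : FreeGroup (Fin 1) →* P := FreeGroup.lift fun _ => p

@[simp] theorem toP_x1 {P : Type} [Group P] (p : P) : toP p x1 = p := by
  simp [toP]

theorem f1_ext {P : Type} [Group P] {f g : FreeGroup (Fin 1) →* P} (h : f x1 = g x1) : f = g := by
  apply FreeGroup.ext_hom
  intro i
  have hi : i = 0 := Subsingleton.elim _ _
  rw [hi]
  exact h

theorem toP_commute {P : Type} [Group P] (p q : P) (h : Commute q p) (z : FreeGroup (Fin 1)) :
    Commute q (toP p z) := by
  induction z using FreeGroup.induction_on with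
  | C1 => rw [map_one]; exact Commute.one_right q
  | of i => simpa [toP] using h
  | inv_of i _ => simpa [toP] using h
  | mul a b ha hb => rw [map_mul]; exact ha.mul_right hb

/-- homomorphisms from `G × FreeGroup (Fin 1)` -/
def prodTo {G P : Type} [Group G] [Group P] (f : G →* P) (p : P) (h : ∀ g, p * f g = f g * p) :
    G × FreeGroup (Fin 1) →* P :=
  MonoidHom.noncommCoprod f (toP p) fun g z => toP_commute p (f g) (h g).symm z

theorem prodTo_apply {G P : Type} [Group G] [Group P] (f : G →* P) (p : P)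
    (h : ∀ g, p * f g = f g * p) (g : G) (z : FreeGroup (Fin 1)) :
    prodTo f p h (g, z) = f g * toP p z := rfl

theorem prod_ff (G : Type) [Group G] (hG : TypeFP G) : TypeFF (G × FreeGroup (Fin 1)) := by
  rw [typeFF_iff]
  have h1 := (prod_freeRes G hG 0 1).2
  apply h1
  rw [mul_zero, freeRes_iff]
  exact ⟨0, inferInstance, inferInstance⟩

theorem nice0 : TypeFF (FreeGroup (Fin 0)) := (nice_free 0).ff

section
variable {D G Γ : Type} [Group D] [Group G] [Group Γ] {w : D} {α : D →* Γ} {β : G →* Γ}

/-- `w = 1`: the free product -/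
theorem tog1_push1 (h : Tog1 w α β) (hw : w = 1) : IsPush β α (triv0 G) (triv0 D) where
  gen := by rw [sup_comm]; exact h.gen
  comm c := by simp
  univ P _ f g _ := by
    obtain ⟨F, h1, h2⟩ := h.univ P g f (by intro x; rw [hw]; simp)
    exact ⟨F, h2, h1⟩

/-- `w ≠ 1`: the amalgam over `⟨w⟩` -/
theorem tog1_push2 (h : Tog1 w α β) : IsPush α (prodTo β (α w) h.comm) (toP w)
    ((MonoidHom.inr G (FreeGroup (Fin 1)))) where
  gen := by
    rw [eq_top_iff, ← h.gen]
    refine sup_le le_sup_left ?_
    refine le_trans ?_ le_sup_right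
    rintro _ ⟨g, rfl⟩
    exact ⟨(g, 1), by rw [prodTo_apply, map_one, mul_one]⟩
  comm c := by
    have h1 : α.comp (toP w) = (prodTo β (α w) h.comm).comp (MonoidHom.inr G _) := by
      apply f1_ext
      simp [prodTo_apply]
    exact DFunLike.congr_fun h1 c
  univ P _ f g hfg := by
    have hw : g (1, x1) = f w := by
      have := hfg x1
      rw [toP_x1] at this
      exact this.symm
    obtain ⟨F, h1, h2⟩ := h.univ P f (g.comp (MonoidHom.inl G _)) (by
      intro x
      rw [← hw]
      change g (1, x1) * g (x, 1) = g (x, 1) * g (1, x1)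
      rw [← map_mul, ← map_mul]
      simp)
    refine ⟨F, h1, ?_⟩
    rintro ⟨x, z⟩
    have h3 : (F.comp (toP (α w))) = g.comp (MonoidHom.inr G _) := by
      apply f1_ext
      change F (toP (α w) x1) = g (1, x1)
      rw [toP_x1, h1, hw]
    rw [prodTo_apply, map_mul, h2]
    have h4 : F (toP (α w) z) = g (1, z) := DFunLike.congr_fun h3 z
    rw [h4]
    change g (x, 1) * g (1, z) = g (x, z)
    rw [← map_mul]
    simp

theorem toP_inj {D : Type} [Group D] (hD : TypeFP D) (w : D) (hw : w ≠ 1) :
    Function.Injective (toP w) := by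
  let e : FreeGroup (Fin 1) →* Multiplicative ℤ := toP (Multiplicative.ofAdd 1)
  have h1 : (toP w) = (zpowersHom D w).comp e := by
    apply f1_ext
    simp [e, zpowersHom_apply]
  have he : Function.Injective e := by
    have h2 : ((zpowersHom _ x1).comp e) = MonoidHom.id _ := by
      apply f1_ext
      simp [e, zpowersHom_apply]
    intro x y hxy
    have hx := DFunLike.congr_fun h2 x
    have hy := DFunLike.congr_fun h2 y
    change (zpowersHom _ x1) (e x) = x at hx
    change (zpowersHom _ x1) (e y) = y at hy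
    rw [← hx, ← hy, hxy]
  rw [h1]
  exact (zpowersHom_inj (torFree_of_typeFP D hD) w hw).comp he

theorem inr_inj (G : Type) [Group G] :
    Function.Injective (MonoidHom.inr G (FreeGroup (Fin 1))) := by
  intro x y h
  exact congrArg Prod.snd h

theorem inl_inj (G : Type) [Group G] :
    Function.Injective (MonoidHom.inl G (FreeGroup (Fin 1))) := by
  intro x y h
  exact congrArg Prod.fst h

theorem tog1_spec (h : Tog1 w α β) (hD : TypeFF D) (hG : TypeFP G) :
    TypeFP Γ ∧ (w ≠ 1 → TypeFF Γ) ∧ (w = 1 → ∀ m, FreeRes m Γ ↔ FreeRes m G) ∧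
      Function.Injective β := by
  have hDp := typeFP_of_typeFF D hD
  have h0 := typeFP_of_typeFF _ nice0
  by_cases hw : w = 1
  · obtain ⟨S, hS⟩ := amal_of_univ (triv0_inj G) (triv0_inj D) (tog1_push1 h hw)
    obtain ⟨r, hr1, hr2⟩ := h.univ G 1 (MonoidHom.id G) (by intro g; simp)
    exact ⟨amal_fp hS hG hDp h0, fun h' => absurd hw h', fun _ m =>
      amal_retA hS hG hD nice0 r hr2 m, hS.injA⟩
  · obtain ⟨S, hS⟩ := amal_of_univ (toP_inj hDp w hw) (inr_inj G) (tog1_push2 h)
    have h1 := amal_ff hS hD (prod_ff G hG) (nice_free 1).ff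
    refine ⟨typeFP_of_typeFF _ h1, fun _ => h1, fun h' => absurd h' hw, ?_⟩
    intro x y hxy
    have h2 : prodTo β (α w) h.comm (x, 1) = prodTo β (α w) h.comm (y, 1) := by
      rw [prodTo_apply, prodTo_apply, map_one, mul_one, mul_one, hxy]
    exact congrArg Prod.fst (hS.injB h2)

end

/-- the first toggle exists -/
theorem tog1_exists (D G : Type) [Group D] [Group G] (w : D) (hD : TypeFF D) :
    ∃ (Γ : Type) (_ : Group Γ) (α : D →* Γ) (β : G →* Γ), Tog1 w α β := by
  have hDp := typeFP_of_typeFF D hD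
  by_cases hw : w = 1
  · obtain ⟨Γ, iΓ, α, β, S, -, h⟩ := push2 D G (FreeGroup (Fin 0)) (triv0 D) (triv0 G)
      (triv0_inj D) (triv0_inj G)
    refine ⟨Γ, iΓ, α, β, ⟨h.gen, by intro g; rw [hw]; simp, ?_⟩⟩
    intro P _ f g _
    exact h.univ P f g (by intro c; simp)
  · obtain ⟨Γ, iΓ, α, β, S, -, h⟩ := push2 D (G × FreeGroup (Fin 1)) (FreeGroup (Fin 1)) (toP w)
      (MonoidHom.inr G _) (toP_inj hDp w hw) (inr_inj G)
    have hw1 : α w = β (1, x1) := by
      have := h.comm x1
      rw [toP_x1] at this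
      exact this
    refine ⟨Γ, iΓ, α, β.comp (MonoidHom.inl G _), ⟨?_, ?_, ?_⟩⟩
    · rw [eq_top_iff, ← h.gen]
      refine sup_le le_sup_left ?_
      rintro _ ⟨⟨g, z⟩, rfl⟩
      have h1 : (β (g, z)) = β (g, 1) * β (1, z) := by
        rw [← map_mul]
        simp
      rw [h1]
      refine mul_mem ((le_sup_right : (β.comp (MonoidHom.inl G _)).range ≤ _) ⟨g, rfl⟩) ?_
      have h2 : β (1, z) = α (toP w z) := (h.comm z).symm
      rw [h2]
      exact (le_sup_left : α.range ≤ _) ⟨_, rfl⟩
    · intro g
      rw [hw1]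
      change β (1, x1) * β (g, 1) = β (g, 1) * β (1, x1)
      rw [← map_mul, ← map_mul]
      simp
    · intro P _ f g hfg
      obtain ⟨F, h1, h2⟩ := h.univ P f (prodTo g (f w) hfg) (by
        intro c
        have h3 : f.comp (toP w) = (prodTo g (f w) hfg).comp (MonoidHom.inr G _) := by
          apply f1_ext
          simp [prodTo_apply]
        exact DFunLike.congr_fun h3 c)
      refine ⟨F, h1, ?_⟩
      intro x
      change F (β (x, 1)) = g x
      rw [h2, prodTo_apply, map_one, mul_one]

section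
variable {D G Γ : Type} [Group D] [Group G] [Group Γ] {w : D} {α : D →* Γ} {y : Γ} {β : G →* Γ}

/-- `Γ2` is the amalgam of `D` and `G × ℤ` over the trivial group if `w = 1` -/
theorem tog2_push1 (h : Tog2 w α y β) (hw : w = 1) :
    IsPush α (prodTo β y h.commy) (triv0 D) (triv0 (G × FreeGroup (Fin 1))) where
  gen := by
    rw [eq_top_iff, ← h.gen]
    refine sup_le (sup_le le_sup_left ?_) ?_
    · refine le_trans ?_ le_sup_right
      rintro _ ⟨g, rfl⟩
      exact ⟨(g, 1), by rw [prodTo_apply, map_one, mul_one]⟩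
    · refine le_trans ?_ le_sup_right
      rw [Subgroup.zpowers_le]
      exact ⟨(1, x1), by rw [prodTo_apply, map_one, one_mul, toP_x1]⟩
  comm c := by simp
  univ P _ f g _ := by
    obtain ⟨F, h1, h2, h3⟩ := h.univ P f (g (1, x1)) (g.comp (MonoidHom.inl G _))
      (by intro x; rw [hw]; simp) (by
        intro x
        change g (1, x1) * g (x, 1) = g (x, 1) * g (1, x1)
        rw [← map_mul, ← map_mul]
        simp)
    refine ⟨F, h1, ?_⟩
    rintro ⟨x, z⟩
    have h4 : (F.comp (toP y)) = g.comp (MonoidHom.inr G _) := by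
      apply f1_ext
      change F (toP y x1) = g (1, x1)
      rw [toP_x1, h2]
    rw [prodTo_apply, map_mul, h3]
    have h5 : F (toP y z) = g (1, z) := DFunLike.congr_fun h4 z
    rw [h5]
    change g (x, 1) * g (1, z) = g (x, z)
    rw [← map_mul]
    simp

theorem tog2_spec (h : Tog2 w α y β) (hD : TypeFF D) (hG : TypeFP G) :
    TypeFP Γ ∧ (w = 1 → TypeFF Γ) ∧ (w ≠ 1 → ∀ m, FreeRes m Γ ↔ FreeRes m G) := by
  have hDp := typeFP_of_typeFF D hD
  by_cases hw : w = 1
  · obtain ⟨S, hS⟩ := amal_of_univ (triv0_inj D) (triv0_inj (G × FreeGroup (Fin 1)))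
      (tog2_push1 h hw)
    have h1 := amal_ff hS hD (prod_ff G hG) nice0
    exact ⟨typeFP_of_typeFF _ h1, fun _ => h1, fun h' => absurd hw h'⟩
  · obtain ⟨T, iT, α1, β1, hT⟩ := tog1_exists D G w hD
    obtain ⟨hTp, hTf, -, hTi⟩ := tog1_spec hT hD hG
    obtain ⟨F, hF1, hF2⟩ := hT.univ Γ α β h.comm
    have hpush : IsPush F (prodTo β y h.commy) β1 (MonoidHom.inl G (FreeGroup (Fin 1))) := by
      refine ⟨?_, ?_, ?_⟩
      · rw [eq_top_iff, ← h.gen]
        refine sup_le (sup_le ?_ ?_) ?_
        · refine le_trans ?_ le_sup_left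
          rintro _ ⟨d, rfl⟩
          exact ⟨α1 d, hF1 d⟩
        · refine le_trans ?_ le_sup_left
          rintro _ ⟨g, rfl⟩
          exact ⟨β1 g, hF2 g⟩
        · refine le_trans ?_ le_sup_right
          rw [Subgroup.zpowers_le]
          exact ⟨(1, x1), by rw [prodTo_apply, map_one, one_mul, toP_x1]⟩
      · intro c
        rw [hF2]
        change β c = prodTo β y h.commy (c, 1)
        rw [prodTo_apply, map_one, mul_one]
      · intro P _ f g hfg
        have hf : ∀ x, f (β1 x) = g (x, 1) := hfg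
        obtain ⟨F', h1, h2, h3⟩ := h.univ P (f.comp α1) (g (1, x1)) (g.comp (MonoidHom.inl G _))
          (by
            intro x
            change f (α1 w) * g (x, 1) = g (x, 1) * f (α1 w)
            rw [← hf, ← map_mul, ← map_mul, hT.comm])
          (by
            intro x
            change g (1, x1) * g (x, 1) = g (x, 1) * g (1, x1)
            rw [← map_mul, ← map_mul]
            simp)
        refine ⟨F', ?_, ?_⟩
        · have h4 : α1.range ⊔ β1.range ≤ (F'.comp F).eqLocus f := by
            refine sup_le ?_ ?_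
            · rintro _ ⟨d, rfl⟩
              change F' (F (α1 d)) = f (α1 d)
              rw [hF1, h1]
              rfl
            · rintro _ ⟨x, rfl⟩
              change F' (F (β1 x)) = f (β1 x)
              rw [hF2, h3, hf]
              rfl
          rw [hT.gen] at h4
          intro a
          exact h4 (Subgroup.mem_top a)
        · rintro ⟨x, z⟩
          have h4 : (F'.comp (toP y)) = g.comp (MonoidHom.inr G _) := by
            apply f1_ext
            change F' (toP y x1) = g (1, x1)
            rw [toP_x1, h2]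
          rw [prodTo_apply, map_mul, h3]
          have h5 : F' (toP y z) = g (1, z) := DFunLike.congr_fun h4 z
          rw [h5]
          change g (x, 1) * g (1, z) = g (x, z)
          rw [← map_mul]
          simp
    obtain ⟨S, hS⟩ := amal_of_univ hTi (inl_inj G) hpush
    obtain ⟨r, hr1, hr2, hr3⟩ := h.univ G 1 1 (MonoidHom.id G) (by intro g; simp)
      (by intro g; simp)
    refine ⟨?_, fun h' => absurd h' hw, fun _ m => ?_⟩
    · exact amal_fp hS hTp (typeFP_of_typeFF _ (prod_ff G hG)) hG
    · refine amal_retC hS (hTf hw) (prod_ff G hG) hG r ?_ m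
      intro c
      rw [hF2]
      exact hr3 c

end

end Pool.Agent.SDec
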