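import Pool.Agent.SDec.Comp
import Pool.Agent.SDec.Toggle

/-!
# Hardness from a group with hard words
-/

set_option autoImplicit false

namespace Pool.Agent.SDec

open Pool.Agent.Hhelper49.Srr Pool.Agent.Hhelper49.Srf Pool.Agent.SFP

/-- a finitely presented group of type (FF) and a computable sequence of words in which the set `K` is encoded -/
def HardWords (K : ℕ → Prop) : Prop :=
  ∃ (D : Type) (_ : Group D) (k t a x : D) (e : ℕ → ℕ), Nice D ∧ Computable e ∧
    ∀ n, K n ↔ k * ((a * x ^ e n)⁻¹ * t * (a * x ^ e n)) * k⁻¹ *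
      ((a * x ^ e n)⁻¹ * t * (a * x ^ e n))⁻¹ = 1

theorem hard_of_words (K : ℕ → Prop) (hK : HardWords K) (G : Type) [Group G]
    (hG : Group.IsFinitelyPresented G) (hF : TypeFP G) :
    ∃ f₁ f₂ : ℕ → Pres, Computable f₁ ∧ Computable f₂ ∧ ∀ n,
      TypeFP (Gp (f₁ n)) ∧ TypeFP (Gp (f₂ n)) ∧
      (¬ K n → TypeFF (Gp (f₁ n))) ∧ (K n → ∀ m, FreeRes m (Gp (f₁ n)) ↔ FreeRes m G) ∧
      (K n → TypeFF (Gp (f₂ n))) ∧ (¬ K n → ∀ m, FreeRes m (Gp (f₂ n)) ↔ FreeRes m G) := by
  obtain ⟨D, iD, k, t, a, x, e, hD, he, hKn⟩ := hK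
  obtain ⟨pD, gD, cD, hpD⟩ := exists_clean D hD.fp
  obtain ⟨pG, gG, cG, hpG⟩ := exists_clean G hG
  obtain ⟨wk, hwk, rfl⟩ := exists_word hpD k
  obtain ⟨wt, hwt, rfl⟩ := exists_word hpD t
  obtain ⟨wa, hwa, rfl⟩ := exists_word hpD a
  obtain ⟨wx, hwx, rfl⟩ := exists_word hpD x
  let W : ℕ → Word := fun n => tword wk wt wa wx (e n)
  have hW : Computable W := (tword_primrec wk wt wa wx).to_comp.comp he
  have hWc : ∀ n, ∀ l ∈ W n, l.1 < pD.1 := fun n => tword_clean hwk hwt hwa hwx (e n)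
  have hWK : ∀ n, K n ↔ ev gD (W n) = 1 := by
    intro n
    rw [hKn n, ← ev_tword]
  refine ⟨fun n => pres1 pD pG (W n), fun n => pres2 pD pG (W n),
    (pres1_primrec pD pG).to_comp.comp hW, (pres2_primrec pD pG).to_comp.comp hW, fun n => ?_⟩
  obtain ⟨α, β, h1⟩ := tog1_gp hpD hpG cD cG (hWc n)
  obtain ⟨α', y, β', h2⟩ := tog2_gp hpD hpG cD cG (hWc n)
  obtain ⟨a1, a2, a3, -⟩ := tog1_spec h1 hD.ff hF
  obtain ⟨b1, b2, b3⟩ := tog2_spec h2 hD.ff hF
  refine ⟨a1, b1, fun h => a2 ?_, fun h => a3 ((hWK n).1 h), fun h => b2 ((hWK n).1 h),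
    fun h => b3 ?_⟩
  · exact fun h' => h ((hWK n).2 h')
  · exact fun h' => h ((hWK n).2 h')

/-- the halting problem, as a predicate on natural numbers -/
def Halt (n : ℕ) : Prop := (Nat.Partrec.Code.eval (Denumerable.ofNat Nat.Partrec.Code n) 0).Dom

theorem halt_re : REPred Halt := by
  have h := ComputablePred.halting_problem_re 0
  unfold REPred at h ⊢
  exact h.comp (Computable.ofNat _)

theorem halt_not_re : ¬ REPred fun n => ¬ Halt n := by
  intro h
  apply ComputablePred.halting_problem_not_re 0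
  unfold REPred at h ⊢
  have h1 := h.comp (Computable.encode (α := Nat.Partrec.Code))
  refine h1.of_eq ?_
  intro c
  exact congrArg (fun c' : Nat.Partrec.Code =>
    Part.assert (¬ (Nat.Partrec.Code.eval c' 0).Dom) fun _ => Part.some ())
    (Denumerable.ofNat_encode c)

theorem tfae_of_words (hH : HardWords Halt) :
    List.TFAE [∀ (G : Type) [Group G], Group.IsFinitelyPresented G → TypeFP G → TypeFF G,
      ∃ q : Pres → Prop, ComputablePred q ∧ ∀ p, TypeFP (Gp p) → (q p ↔ TypeFF (Gp p)),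
      ∃ q : Pres → Prop, REPred q ∧ ∀ p, TypeFP (Gp p) → (q p ↔ TypeFF (Gp p)),
      ∃ q : Pres → Prop, REPred q ∧ ∀ p, TypeFP (Gp p) → (q p ↔ ¬ TypeFF (Gp p))] := by
  tfae_have 1 → 2 := by
    intro h
    refine ⟨fun _ => True, ?_, fun p hp => ?_⟩
    · exact ComputablePred.computable_iff.2 ⟨fun _ => true, Computable.const true, by
        funext p
        simp⟩
    · simp only [true_iff]
      exact h (Gp p) (gp_fpres p) hp
  tfae_have 2 → 3 := by
    rintro ⟨q, hq, h⟩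
    exact ⟨q, hq.to_re, h⟩
  tfae_have 2 → 4 := by
    rintro ⟨q, hq, h⟩
    exact ⟨fun p => ¬ q p, hq.not.to_re, fun p hp => not_congr (h p hp)⟩
  tfae_have 3 → 1 := by
    rintro ⟨q, hq, h⟩ G _ hG hF
    by_contra hcon
    obtain ⟨f, f', hf, hf', hs⟩ := hard_of_words Halt hH G hG hF
    apply halt_not_re
    refine REPred.of_eq (p := fun n => q (f n)) ?_ ?_
    · unfold REPred at hq ⊢
      exact hq.comp hf
    · intro n
      obtain ⟨h1, -, h3, h4, -⟩ := hs n
      rw [h _ h1]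
      constructor
      · intro h5 h6
        exact hcon ((typeFF_iff G).2 ((h4 h6 1).1 ((typeFF_iff _).1 h5)))
      · exact h3
  tfae_have 4 → 1 := by
    rintro ⟨q, hq, h⟩ G _ hG hF
    by_contra hcon
    obtain ⟨f', f, hf', hf, hs⟩ := hard_of_words Halt hH G hG hF
    apply halt_not_re
    refine REPred.of_eq (p := fun n => q (f n)) ?_ ?_
    · unfold REPred at hq ⊢
      exact hq.comp hf
    · intro n
      obtain ⟨-, h1, -, -, h3, h4⟩ := hs n
      rw [h _ h1]
      constructor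
      · intro h5 h6
        exact h5 (h3 h6)
      · intro h6 h5
        exact hcon ((typeFF_iff G).2 ((h4 h6 1).1 ((typeFF_iff _).1 h5)))
  tfae_finish

end Pool.Agent.SDec
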