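import Pool.Agent.SDec.GrpD
import Pool.Agent.SDec.Hard

/-!
# The decidability form of Serre's question: the main equivalence
-/

set_option autoImplicit false

namespace Pool.Agent.SDec

open Pool.Agent.Hhelper49.Srr Pool.Agent.Hhelper49.Srf Pool.Agent.SFP

/-- every recursively enumerable set has hard words -/
theorem hardWords (K : ℕ → Prop) (hK : REPred K) : HardWords K := by
  obtain ⟨D, iD, X, Y, Z, e, hD, he, h⟩ := grp_exists K hK
  refine ⟨D, iD, Z, Y, 1, X, e, hD, he.to_comp, fun n => ?_⟩
  rw [← h n, wd]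
  simp only [one_mul]

/-- Serre's question for finitely presented groups is equivalent to each of three decidability statements -/
theorem serre_tfae :
    List.TFAE [∀ (G : Type) [Group G], Group.IsFinitelyPresented G → TypeFP G → TypeFF G,
      ∃ q : Pres → Prop, ComputablePred q ∧ ∀ p, TypeFP (Gp p) → (q p ↔ TypeFF (Gp p)),
      ∃ q : Pres → Prop, REPred q ∧ ∀ p, TypeFP (Gp p) → (q p ↔ TypeFF (Gp p)),
      ∃ q : Pres → Prop, REPred q ∧ ∀ p, TypeFP (Gp p) → (q p ↔ ¬ TypeFF (Gp p))] :=
  tfae_of_words (hardWords Halt halt_re)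

end Pool.Agent.SDec
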