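import Pool.Agent.SDec.Hnn
import Pool.Agent.SDec.Defs
import Pool.Agent.SFP.FPres1
import Pool.Agent.Hhelper49.Qiv.Fin
import Pool.Agent.Hhelper49.Srd.ResF

/-!
# The group `ℤ^5 * ⟨t⟩` and its endomorphisms `x^w ↦ x^(m w)`, `t ↦ x^(-u) t x^u`
-/

set_option autoImplicit false

namespace Pool.Agent.SDec

open Pool.Agent.Hhelper49.Srf Pool.Agent.Hhelper49.Srr

theorem nice_congr {G H : Type} [Group G] [Group H] (e : G ≃* H) (h : Nice G) : Nice H := by
  have := h.fp
  refine ⟨?_, Group.IsFinitelyPresented.equiv e⟩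
  exact Pool.Agent.Hhelper49.Qiv.typeFF_of_freeRes _
    (freeRes_congr 1 G H e (freeRes_of_typeFF G h.ff))

theorem freeRes_zero (G : Type) [Group G] : FreeRes 0 G := by
  rw [freeRes_iff]
  exact ff_pi (fun _ : Fin 0 => Triv G) fun i => i.elim0

theorem nice_prod (G : Type) [Group G] (hG : Nice G) : Nice (G × FreeGroup (Fin 1)) := by
  have := hG.fp
  refine ⟨?_, Pool.Agent.SFP.prod_fpres G (FreeGroup (Fin 1))⟩
  apply Pool.Agent.Hhelper49.Qiv.typeFF_of_freeRes
  have h1 := prod_freeRes G (typeFP_of_typeFF G hG.ff) 0 1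
  exact h1.2 (freeRes_zero G)

/-- splitting off the first coordinate -/
def consEq (n : ℕ) : Multiplicative (Fin n → ℤ) × Multiplicative ℤ ≃*
    Multiplicative (Fin (n + 1) → ℤ) where
  toFun p := Multiplicative.ofAdd (Fin.cons (Multiplicative.toAdd p.2) (Multiplicative.toAdd p.1))
  invFun v := (Multiplicative.ofAdd (Fin.tail (Multiplicative.toAdd v)),
    Multiplicative.ofAdd (Multiplicative.toAdd v 0))
  left_inv p := rfl
  right_inv v := by
    change Multiplicative.ofAdd (Fin.cons (Multiplicative.toAdd v 0)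
      (Fin.tail (Multiplicative.toAdd v))) = v
    rw [Fin.cons_self_tail]
    rfl
  map_mul' p q := by
    apply Multiplicative.toAdd.injective
    funext i
    refine Fin.cases ?_ ?_ i
    · rfl
    · intro i
      rfl

theorem nice_zpow (n : ℕ) : Nice (Multiplicative (Fin n → ℤ)) := by
  induction n with
  | zero =>
    have e : FreeGroup (Fin 0) ≃* Multiplicative (Fin 0 → ℤ) :=
      { toFun := fun _ => 1
        invFun := fun _ => 1
        left_inv := fun _ => Subsingleton.elim _ _
        right_inv := fun _ => Subsingleton.elim _ _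
        map_mul' := fun _ _ => Subsingleton.elim _ _ }
    exact nice_congr e (nice_free 0)
  | succ n ih =>
    have e : Multiplicative (Fin n → ℤ) × FreeGroup (Fin 1) ≃*
        Multiplicative (Fin n → ℤ) × Multiplicative ℤ :=
      MulEquiv.prodCongr (MulEquiv.refl _) FreeGroup.mulEquivIntOfUnique
    exact nice_congr (e.trans (consEq n)) (nice_prod _ ih)

/-- the vectors -/
abbrev V5 : Type := Fin 5 → ℤ

/-- `K = ℤ^5 * ⟨t⟩` -/
structure KData (K : Type) [Group K] (x : Multiplicative V5 →* K) (t : K) : Prop where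
  nice : Nice K
  tne : t ≠ 1
  xinj : Function.Injective x
  gen : ∀ H : Subgroup K, (∀ w, x w ∈ H) → t ∈ H → ∀ k, k ∈ H
  univ : ∀ (P : Type) [Group P] (f : Multiplicative V5 →* P) (p : P),
    ∃ F : K →* P, (∀ w, F (x w) = f w) ∧ F t = p

theorem exists_K : ∃ (K : Type) (_ : Group K) (x : Multiplicative V5 →* K) (t : K),
    KData K x t := by
  obtain ⟨K, iK, x, d, h1, h2, h3, h4⟩ := coprod_nice (Multiplicative V5) (Multiplicative ℤ)
    (nice_zpow 5) nice_int
  refine ⟨K, iK, x, d (Multiplicative.ofAdd 1), h1, ?_, h2, ?_, ?_⟩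
  · intro h
    have h5 := h3 (h.trans (map_one d).symm)
    have h6 : (1 : ℤ) = 0 := congrArg Multiplicative.toAdd h5
    exact one_ne_zero h6
  · intro H hx ht k
    have h5 : x.range ⊔ d.range ≤ H := by
      refine sup_le ?_ ?_
      · rintro _ ⟨w, rfl⟩
        exact hx w
      · rintro _ ⟨z, rfl⟩
        have h6 : z = (Multiplicative.ofAdd (1 : ℤ)) ^ (Multiplicative.toAdd z : ℤ) := by
          apply Multiplicative.toAdd.injective
          rw [toAdd_zpow, toAdd_ofAdd, smul_eq_mul, mul_one]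
        rw [h6, map_zpow]
        exact H.zpow_mem ht _
    rw [h4.gen] at h5
    exact h5 (Subgroup.mem_top k)
  · intro P _ f p
    obtain ⟨F, h5, h6⟩ := h4.univ P f (zpowersHom P p) (fun x => by simp)
    refine ⟨F, h5, ?_⟩
    have h7 := h6 (Multiplicative.ofAdd 1)
    rw [zpowersHom_apply, toAdd_ofAdd, zpow_one] at h7
    exact h7

section
variable {K : Type} [Group K] {x : Multiplicative V5 →* K} {t : K}

/-- `x^v` -/
def xv (x : Multiplicative V5 →* K) (v : V5) : K := x (Multiplicative.ofAdd v)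

theorem xv_add (v w : V5) : xv x (v + w) = xv x v * xv x w := by
  rw [xv, ofAdd_add, map_mul]
  rfl

theorem xv_zero : xv x 0 = 1 := by
  rw [xv, ofAdd_zero, map_one]

theorem xv_comm (v w : V5) : xv x v * xv x w = xv x w * xv x v := by
  rw [← xv_add, ← xv_add, add_comm]

/-- `t(v) = x^(-v) t x^v` -/
def tv (x : Multiplicative V5 →* K) (t : K) (v : V5) : K := (xv x v)⁻¹ * t * xv x v

theorem tv_add (u v : V5) : tv x t (u + v) = (xv x v)⁻¹ * tv x t u * xv x v := by
  rw [tv, tv, xv_add]
  group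

theorem tv_zero : tv x t 0 = t := by
  rw [tv, xv_zero, inv_one, one_mul, mul_one]

/-- scaling -/
def scaleV (m : V5) : Multiplicative V5 →* Multiplicative V5 :=
  AddMonoidHom.toMultiplicative
    { toFun := fun w => m * w
      map_zero' := mul_zero m
      map_add' := mul_add m }

theorem scaleV_apply (m w : V5) :
    scaleV m (Multiplicative.ofAdd w) = Multiplicative.ofAdd (m * w) := rfl

theorem scaleV_inj {m : V5} (hm : ∀ j, 0 < m j) : Function.Injective (scaleV m) := by
  intro v w h
  apply Multiplicative.toAdd.injective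
  have h1 : m * Multiplicative.toAdd v = m * Multiplicative.toAdd w :=
    congrArg Multiplicative.toAdd h
  funext j
  have h2 := congrFun h1 j
  exact mul_left_cancel₀ (hm j).ne' h2

theorem xv_scale (m w : V5) : x (scaleV m (Multiplicative.ofAdd w)) = xv x (m * w) := rfl

/-- the endomorphism `x^w ↦ x^(m w)`, `t ↦ x^(-u) t x^u` is injective -/
theorem exists_kap (hK : KData K x t) (m u : V5) (hm : ∀ j, 0 < m j) :
    ∃ κ : K →* K, Function.Injective κ ∧ (∀ w, κ (xv x w) = xv x (m * w)) ∧ κ t = tv x t u := by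
  have _ : Countable K := countable_of_fpres K hK.nice.fp
  obtain ⟨κ0, h1, h2⟩ := hK.univ K (x.comp (scaleV m)) t
  have inj0 : Function.Injective κ0 := by
    obtain ⟨p, hp⟩ := regN_conj (x.comp (scaleV m)) x (hK.xinj.comp (scaleV_inj hm)) hK.xinj
    obtain ⟨ψ, h3, h4⟩ := hK.univ (Equiv.Perm (K × ℕ))
      ((MulAut.conj p).toMonoidHom.comp ((regN K).comp x)) (regN K t)
    have h5 : ∀ k, ψ (κ0 k) = regN K k := by
      intro k
      refine hK.gen (MonoidHom.eqLocus (ψ.comp κ0) (regN K)) ?_ ?_ k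
      · intro w
        change ψ (κ0 (x w)) = regN K (x w)
        rw [h1]
        change ψ (x (scaleV m w)) = regN K (x w)
        rw [h3]
        change p * regN K (x (scaleV m w)) * p⁻¹ = regN K (x w)
        have h6 := hp w
        change p * regN K (x (scaleV m w)) = regN K (x w) * p at h6
        rw [h6, mul_inv_cancel_right]
      · change ψ (κ0 t) = regN K t
        rw [h2, h4]
    intro a b hab
    apply regN_inj K
    rw [← h5, ← h5, hab]
  refine ⟨(MulAut.conj (xv x u)⁻¹).toMonoidHom.comp κ0, ?_, ?_, ?_⟩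
  · exact (MulAut.conj (xv x u)⁻¹).injective.comp inj0
  · intro w
    change (xv x u)⁻¹ * κ0 (x (Multiplicative.ofAdd w)) * (xv x u)⁻¹⁻¹ = _
    rw [h1]
    change (xv x u)⁻¹ * xv x (m * w) * (xv x u)⁻¹⁻¹ = _
    rw [inv_inv, mul_assoc, xv_comm, inv_mul_cancel_left]
  · change (xv x u)⁻¹ * κ0 t * (xv x u)⁻¹⁻¹ = _
    rw [h2, inv_inv]
    rfl

end

end Pool.Agent.SDec
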