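import Pool.Agent.SDec.Toggle

/-!
# The second toggle with a group `H` in place of a cyclic group; groups without finite quotients
-/

set_option autoImplicit false

namespace Pool.Agent.SDec

open Pool.Agent.Hhelper49.Srr Pool.Agent.Hhelper49.Srf Pool.Agent.SFP

/-- no proper subgroups of finite index -/
def NoFin (G : Type) [Group G] : Prop := ∀ H : Subgroup G, H.FiniteIndex → H = ⊤

theorem range_le_fr {A Γ : Type} [Group A] [Group Γ] (hA : NoFin A) (α : A →* Γ) :
    α.range ≤ fr Γ := by
  rintro _ ⟨a, rfl⟩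
  apply fr_map
  rw [mem_fr]
  intro H hH
  rw [hA H hH]
  exact Subgroup.mem_top a

theorem noFin_of_fr {Γ : Type} [Group Γ] (h : fr Γ = ⊤) : NoFin Γ := by
  intro H hH
  rw [eq_top_iff]
  intro x _
  have hx : x ∈ fr Γ := by rw [h]; exact Subgroup.mem_top x
  exact (mem_fr x).1 hx H hH

theorem noFin_two {A B Γ : Type} [Group A] [Group B] [Group Γ] (hA : NoFin A) (hB : NoFin B)
    (α : A →* Γ) (β : B →* Γ) (h : α.range ⊔ β.range = ⊤) : NoFin Γ := by
  apply noFin_of_fr
  rw [eq_top_iff, ← h]
  exact sup_le (range_le_fr hA α) (range_le_fr hB β)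

theorem noFin_three {A B C Γ : Type} [Group A] [Group B] [Group C] [Group Γ] (hA : NoFin A)
    (hB : NoFin B) (hC : NoFin C) (α : A →* Γ) (β : B →* Γ) (γ : C →* Γ)
    (h : α.range ⊔ β.range ⊔ γ.range = ⊤) : NoFin Γ := by
  apply noFin_of_fr
  rw [eq_top_iff, ← h]
  exact sup_le (sup_le (range_le_fr hA α) (range_le_fr hB β)) (range_le_fr hC γ)

/-- `Γ = ⟨D, H, G | [w, G] = [y, G] = 1⟩` -/
structure TogH {D H G Γ : Type} [Group D] [Group H] [Group G] [Group Γ] (w : D) (y : H)
    (α : D →* Γ) (η : H →* Γ) (β : G →* Γ) : Prop where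
  gen : α.range ⊔ η.range ⊔ β.range = ⊤
  comm : ∀ g, α w * β g = β g * α w
  commy : ∀ g, η y * β g = β g * η y
  univ : ∀ (P : Type) [Group P] (f : D →* P) (e : H →* P) (h : G →* P),
    (∀ g, f w * h g = h g * f w) → (∀ g, e y * h g = h g * e y) →
    ∃ F : Γ →* P, (∀ d, F (α d) = f d) ∧ (∀ x, F (η x) = e x) ∧ ∀ g, F (β g) = h g

theorem togH_spec {D H G Γ : Type} [Group D] [Group H] [Group G] [Group Γ] {w : D} {y : H}
    {α : D →* Γ} {η : H →* Γ} {β : G →* Γ} (h : TogH w y α η β) (hD : TypeFF D) (hH : TypeFF H)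
    (hy : y ≠ 1) (hG : TypeFP G) :
    TypeFP Γ ∧ (w = 1 → TypeFF Γ) ∧ (w ≠ 1 → ∀ m, FreeRes m Γ ↔ FreeRes m G) ∧
      Function.Injective β := by
  obtain ⟨T1, iT1, α1, β1, h1⟩ := tog1_exists D G w hD
  obtain ⟨T2, iT2, η2, β2, h2⟩ := tog1_exists H G y hH
  obtain ⟨p1, f1, g1, i1⟩ := tog1_spec h1 hD hG
  obtain ⟨p2, f2, -, i2⟩ := tog1_spec h2 hH hG
  have f2' := f2 hy
  obtain ⟨F1, a1, b1⟩ := h1.univ Γ α β h.comm
  obtain ⟨F2, a2, b2⟩ := h2.univ Γ η β h.commy
  obtain ⟨r, -, -, r3⟩ := h.univ G 1 1 (MonoidHom.id G) (by intro g; simp) (by intro g; simp)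
  have hinj : Function.Injective β := by
    intro x x' hx
    have := congrArg r hx
    rw [r3, r3] at this
    exact this
  by_cases hw : w = 1
  · have hpush : IsPush α F2 (triv0 D) (triv0 T2) := by
      refine ⟨?_, by intro c; simp, ?_⟩
      · rw [eq_top_iff, ← h.gen]
        refine sup_le (sup_le le_sup_left ?_) ?_
        · refine le_trans ?_ le_sup_right
          rintro _ ⟨x, rfl⟩
          exact ⟨η2 x, a2 x⟩
        · refine le_trans ?_ le_sup_right
          rintro _ ⟨x, rfl⟩
          exact ⟨β2 x, b2 x⟩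
      · intro P _ f g _
        obtain ⟨F, c1, c2, c3⟩ := h.univ P f (g.comp η2) (g.comp β2) (by intro x; rw [hw]; simp)
          (by
            intro x
            change g (η2 y) * g (β2 x) = g (β2 x) * g (η2 y)
            rw [← map_mul, ← map_mul, h2.comm])
        refine ⟨F, c1, ?_⟩
        have h4 : η2.range ⊔ β2.range ≤ (F.comp F2).eqLocus g := by
          refine sup_le ?_ ?_
          · rintro _ ⟨x, rfl⟩
            change F (F2 (η2 x)) = g (η2 x)
            rw [a2, c2]
            rfl
          · rintro _ ⟨x, rfl⟩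
            change F (F2 (β2 x)) = g (β2 x)
            rw [b2, c3]
            rfl
        rw [h2.gen] at h4
        intro b
        exact h4 (Subgroup.mem_top b)
    obtain ⟨S, hS⟩ := amal_of_univ (triv0_inj D) (triv0_inj T2) hpush
    have hff := amal_ff hS hD f2' nice0
    exact ⟨typeFP_of_typeFF _ hff, fun _ => hff, fun h' => absurd hw h', hinj⟩
  · have hpush : IsPush F1 F2 β1 β2 := by
      refine ⟨?_, by intro c; rw [b1, b2], ?_⟩
      · rw [eq_top_iff, ← h.gen]
        refine sup_le (sup_le ?_ ?_) ?_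
        · refine le_trans ?_ le_sup_left
          rintro _ ⟨x, rfl⟩
          exact ⟨α1 x, a1 x⟩
        · refine le_trans ?_ le_sup_right
          rintro _ ⟨x, rfl⟩
          exact ⟨η2 x, a2 x⟩
        · refine le_trans ?_ le_sup_right
          rintro _ ⟨x, rfl⟩
          exact ⟨β2 x, b2 x⟩
      · intro P _ f g hfg
        obtain ⟨F, c1, c2, c3⟩ := h.univ P (f.comp α1) (g.comp η2) (f.comp β1)
          (by
            intro x
            change f (α1 w) * f (β1 x) = f (β1 x) * f (α1 w)
            rw [← map_mul, ← map_mul, h1.comm])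
          (by
            intro x
            change g (η2 y) * f (β1 x) = f (β1 x) * g (η2 y)
            rw [hfg, ← map_mul, ← map_mul, h2.comm])
        refine ⟨F, ?_, ?_⟩
        · have h4 : α1.range ⊔ β1.range ≤ (F.comp F1).eqLocus f := by
            refine sup_le ?_ ?_
            · rintro _ ⟨x, rfl⟩
              change F (F1 (α1 x)) = f (α1 x)
              rw [a1, c1]
              rfl
            · rintro _ ⟨x, rfl⟩
              change F (F1 (β1 x)) = f (β1 x)
              rw [b1, c3]
              rfl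
          rw [h1.gen] at h4
          intro b
          exact h4 (Subgroup.mem_top b)
        · have h4 : η2.range ⊔ β2.range ≤ (F.comp F2).eqLocus g := by
            refine sup_le ?_ ?_
            · rintro _ ⟨x, rfl⟩
              change F (F2 (η2 x)) = g (η2 x)
              rw [a2, c2]
              rfl
            · rintro _ ⟨x, rfl⟩
              change F (F2 (β2 x)) = g (β2 x)
              rw [b2, c3]
              exact hfg x
          rw [h2.gen] at h4
          intro b
          exact h4 (Subgroup.mem_top b)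
    obtain ⟨S, hS⟩ := amal_of_univ i1 i2 hpush
    refine ⟨amal_fp hS p1 p2 hG, fun h' => absurd h' hw, fun _ m => ?_, hinj⟩
    refine amal_retC hS (f1 hw) f2' hG r ?_ m
    intro c
    rw [b1]
    exact r3 c

end Pool.Agent.SDec
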