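import Pool.Agent.SDec.Pres
import Pool.Agent.SDec.KGrp
import Pool.Agent.SDec.ToggleH

/-!
# A finitely presented Higman group and the finitely presented embedding theorem
-/

set_option autoImplicit false

namespace Pool.Agent.SDec

open Pool.Agent.Hhelper49.Srf Pool.Agent.Hhelper49.Srr

/-- the presentation `⟨a, b | a b a⁻¹ = b^2⟩` -/
def bsP : Pres := (2, [[(0, true), (1, true), (0, false), (1, false), (1, false)]])

theorem bs_rel {P : Type} [Group P] (f : ℕ → P) :
    ev f [(0, true), (1, true), (0, false), (1, false), (1, false)] = 1 ↔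
      f 0 * f 1 * (f 0)⁻¹ = f 1 ^ 2 := by
  simp only [ev_cons, ev_nil, cond_true, cond_false]
  constructor
  · intro h
    have h2 : f 0 * f 1 * (f 0)⁻¹ * (f 1 ^ 2)⁻¹ = 1 := by
      rw [← h]
      group
    exact mul_inv_eq_one.1 h2
  · intro h
    have h2 : f 0 * f 1 * (f 0)⁻¹ * (f 1 ^ 2)⁻¹ = 1 := mul_inv_eq_one.2 h
    refine Eq.trans ?_ h2
    group

/-- normal forms in `⟨a, b | a b a⁻¹ = b^2⟩` -/
theorem bs_normal {Q : Type} [Group Q] (a b : Q) (hab : a * b * a⁻¹ = b ^ 2)
    (hgen : Subgroup.closure {a, b} = ⊤) (x : Q) :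
    ∃ (i j : ℕ) (n : ℤ), x = (a ^ i)⁻¹ * b ^ n * a ^ j := by
  have hc : ∀ n : ℤ, a * b ^ n = b ^ (2 * n) * a := by
    intro n
    have h1 : a * b ^ n * a⁻¹ = b ^ (2 * n) := by
      rw [← conj_zpow, hab, ← zpow_natCast, ← zpow_mul]
      norm_num
    rw [← h1]
    group
  have hc2 : ∀ (i : ℕ) (m : ℤ), a ^ i * b ^ m = b ^ (2 ^ i * m) * a ^ i := by
    intro i
    induction i with
    | zero => intro m; simp
    | succ i ih =>
      intro m
      rw [pow_succ', mul_assoc, ih, ← mul_assoc, hc, mul_assoc]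
      congr 2
      ring
  have hx : x ∈ Subgroup.closure {a, b} := by rw [hgen]; exact Subgroup.mem_top x
  induction hx using Subgroup.closure_induction_left with
  | one => exact ⟨0, 0, 0, by simp⟩
  | mul_left y hy z _ ih =>
    obtain ⟨i, j, n, rfl⟩ := ih
    rcases hy with rfl | hy
    · cases i with
      | zero =>
        refine ⟨0, j + 1, 2 * n, ?_⟩
        simp only [pow_zero, inv_one, one_mul]
        rw [← mul_assoc, hc, pow_succ', mul_assoc]
      | succ i =>
        refine ⟨i, j, n, ?_⟩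
        rw [pow_succ]
        group
    · rw [Set.mem_singleton_iff] at hy
      subst hy
      refine ⟨i, j, 2 ^ i + n, ?_⟩
      have h1 : y * (a ^ i)⁻¹ = (a ^ i)⁻¹ * y ^ ((2 : ℤ) ^ i) := by
        have h2 := hc2 i 1
        rw [zpow_one, mul_one] at h2
        rw [eq_inv_mul_iff_mul_eq, ← mul_assoc, h2, mul_assoc, mul_inv_cancel, mul_one]
      rw [← mul_assoc, ← mul_assoc, h1, zpow_add, ← mul_assoc]
  | inv_mul_cancel y hy z _ ih =>
    obtain ⟨i, j, n, rfl⟩ := ih
    rcases hy with rfl | hy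
    · refine ⟨i + 1, j, n, ?_⟩
      rw [pow_succ]
      group
    · rw [Set.mem_singleton_iff] at hy
      subst hy
      refine ⟨i, j, -2 ^ i + n, ?_⟩
      have h1 : y⁻¹ * (a ^ i)⁻¹ = (a ^ i)⁻¹ * y ^ (-(2 : ℤ) ^ i) := by
        have h2 := hc2 i (-1)
        rw [zpow_neg_one, mul_neg_one] at h2
        rw [eq_inv_mul_iff_mul_eq, ← mul_assoc, h2, mul_assoc, mul_inv_cancel, mul_one]
      rw [← mul_assoc, ← mul_assoc, h1, zpow_add, ← mul_assoc]

/-- a Baumslag–Solitar group with its universal property -/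
theorem exists_bsN : ∃ (E : Type) (_ : Group E) (a b : E), Nice E ∧ a * b * a⁻¹ = b ^ 2 ∧
    Subgroup.closure {a, b} = ⊤ ∧ (∀ m n : ℤ, a ^ m = b ^ n → m = 0 ∧ n = 0) ∧
    ∀ (P : Type) [Group P] (p q : P), p * q * p⁻¹ = q ^ 2 → ∃ F : E →* P, F a = p ∧ F b = q := by
  obtain ⟨E, hE, a, b, hFF, hrel, hgen, hab⟩ := exists_bs
  have hp := isPres_gp bsP
  set g : ℕ → Gp bsP := fun i => PresentedGroup.of i with hg
  let f : ℕ → E := fun i => if i = 0 then a else if i = 1 then b else 1
  obtain ⟨F, hF⟩ := hp.univ E f (fun i hi => by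
      have h0 : i ≠ 0 := by simp only [bsP] at hi; omega
      have h1 : i ≠ 1 := by simp only [bsP] at hi; omega
      simp [f, h0, h1]) (fun w hw => by
      simp only [bsP, List.mem_singleton] at hw
      subst hw
      rw [bs_rel]
      simpa [f] using hrel)
  have hFa : F (g 0) = a := by rw [hF]; simp [f]
  have hFb : F (g 1) = b := by rw [hF]; simp [f]
  have hrel' : g 0 * g 1 * (g 0)⁻¹ = g 1 ^ 2 := by
    rw [← bs_rel]
    exact hp.rel _ (by simp [bsP])
  have hgen' : Subgroup.closure {g 0, g 1} = ⊤ := by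
    rw [eq_top_iff, ← hp.gen, Subgroup.closure_le]
    rintro _ ⟨i, rfl⟩
    rcases Nat.lt_or_ge i 2 with h | h
    · interval_cases i
      · exact Subgroup.subset_closure (Or.inl rfl)
      · exact Subgroup.subset_closure (Or.inr rfl)
    · rw [hp.big i h]
      exact Subgroup.one_mem _
  have hsurj : Function.Surjective F := by
    rw [← MonoidHom.range_eq_top, eq_top_iff, ← hgen, Subgroup.closure_le]
    rintro _ (rfl | h)
    · exact ⟨_, hFa⟩
    · rw [Set.mem_singleton_iff] at h
      subst h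
      exact ⟨_, hFb⟩
  have hinj : Function.Injective F := by
    rw [injective_iff_map_eq_one]
    intro x hx
    obtain ⟨i, j, n, rfl⟩ := bs_normal (g 0) (g 1) hrel' hgen' x
    rw [map_mul, map_mul, map_inv, map_pow, map_pow, map_zpow, hFa, hFb] at hx
    have h1 : a ^ ((i : ℤ) - j) = b ^ n := by
      have h2 : b ^ n = a ^ i * ((a ^ i)⁻¹ * b ^ n * a ^ j) * (a ^ j)⁻¹ := by group
      rw [h2, hx, mul_one, zpow_sub, zpow_natCast, zpow_natCast]
    obtain ⟨h3, h4⟩ := hab _ _ h1
    have h5 : i = j := by omega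
    rw [h4, h5]
    simp
  let e : Gp bsP ≃* E := MulEquiv.ofBijective F ⟨hinj, hsurj⟩
  have hQ : TypeFF (Gp bsP) := Pool.Agent.Hhelper49.Qiv.typeFF_of_freeRes _
    (freeRes_congr 1 E _ e.symm (freeRes_of_typeFF E hFF))
  refine ⟨Gp bsP, inferInstance, g 0, g 1, ⟨hQ, gp_fpres bsP⟩, hrel', hgen', ?_, ?_⟩
  · intro m n h
    apply hab
    rw [← hFa, ← hFb, ← map_zpow, ← map_zpow, h]
  · intro P _ p q hpq
    obtain ⟨F', hF'⟩ := hp.univ P (fun i => if i = 0 then p else if i = 1 then q else 1)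
      (fun i hi => by
        have h0 : i ≠ 0 := by simp only [bsP] at hi; omega
        have h1 : i ≠ 1 := by simp only [bsP] at hi; omega
        simp [h0, h1]) (fun w hw => by
        simp only [bsP, List.mem_singleton] at hw
        subst hw
        rw [bs_rel]
        simpa using hpq)
    exact ⟨F', by rw [hF']; simp, by rw [hF']; simp⟩

/-- half of Higman's group, finitely presented -/
theorem exists_koneN : ∃ (K : Type) (_ : Group K) (a b c : K), Nice K ∧ a * b * a⁻¹ = b ^ 2 ∧
    b * c * b⁻¹ = c ^ 2 ∧ Subgroup.closure {a, b, c} = ⊤ ∧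
    Function.Injective (FreeGroup.lift ![a, c] : FreeGroup (Fin 2) →* K) := by
  obtain ⟨E, iE, a, b, hN, hrel, hgen, hab, huniv⟩ := exists_bsN
  obtain ⟨K0, iK0, a0, b0, c0, -, r1, r2, -, inj⟩ := exists_kone
  have hκ : Function.Injective (zpowersHom E b) := by
    rw [injective_iff_map_eq_one]
    intro c hc
    rw [zpowersHom_apply] at hc
    have := (hab 0 c.toAdd (by rw [zpow_zero, hc])).2
    rw [← ofAdd_toAdd c, this]
    rfl
  have hι : Function.Injective (zpowersHom E a) := by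
    rw [injective_iff_map_eq_one]
    intro c hc
    rw [zpowersHom_apply] at hc
    have := (hab c.toAdd 0 (by rw [zpow_zero, hc])).1
    rw [← ofAdd_toAdd c, this]
    rfl
  obtain ⟨K, iK, α, β, S, h, hP⟩ := push2 E E (Multiplicative ℤ) _ _ hκ hι
  have hba : α b = β a := by
    have h1 := hP.comm (Multiplicative.ofAdd 1)
    rwa [zpowersHom_apply, zpowersHom_apply, toAdd_ofAdd, zpow_one, zpow_one] at h1
  have q1 : α a * α b * (α a)⁻¹ = α b ^ 2 := by
    rw [← map_inv, ← map_mul, ← map_mul, hrel, map_pow]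
  have q2 : α b * β b * (α b)⁻¹ = β b ^ 2 := by
    rw [hba, ← map_inv, ← map_mul, ← map_mul, hrel, map_pow]
  refine ⟨K, iK, α a, α b, β b, ⟨amal_ff h hN.ff hN.ff typeFF_int,
    fpres_push hP hN.fp hN.fp (fg_of_fpres _ nice_int.fp)⟩, q1, q2, ?_, ?_⟩
  · rw [eq_top_iff, ← h.gen]
    refine sup_le ?_ ?_
    · rw [MonoidHom.range_eq_map, ← hgen, MonoidHom.map_closure, Subgroup.closure_le]
      rintro _ ⟨x, hx, rfl⟩
      rcases hx with rfl | hx
      · exact Subgroup.subset_closure (by simp)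
      · rw [Set.mem_singleton_iff] at hx
        subst hx
        exact Subgroup.subset_closure (by simp)
    · rw [MonoidHom.range_eq_map, ← hgen, MonoidHom.map_closure, Subgroup.closure_le]
      rintro _ ⟨x, hx, rfl⟩
      rcases hx with rfl | hx
      · rw [← hba]
        exact Subgroup.subset_closure (by simp)
      · rw [Set.mem_singleton_iff] at hx
        subst hx
        exact Subgroup.subset_closure (by simp)
  · obtain ⟨F1, k1, k2⟩ := huniv K0 a0 b0 r1
    obtain ⟨F2, k3, k4⟩ := huniv K0 b0 c0 r2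
    obtain ⟨F, k5, k6⟩ := hP.univ K0 F1 F2 (fun c => by
      rw [zpowersHom_apply, zpowersHom_apply, map_zpow, map_zpow, k2, k3])
    have e : F.comp (FreeGroup.lift ![α a, β b]) = FreeGroup.lift ![a0, c0] := by
      ext i
      fin_cases i
      · simp [k5, k1]
      · simp [k6, k4]
    rw [← e, MonoidHom.coe_comp] at inj
    exact inj.of_comp

/-- a finitely presented group of type (FF) without proper subgroups of finite index -/
theorem exists_higmanN : ∃ (L : Type) (_ : Group L), Nice L ∧ Nontrivial L ∧ NoFin L := by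
  obtain ⟨K, iK, a, b, c, hK, r1, r2, gen, inj⟩ := exists_koneN
  have hι : Function.Injective (FreeGroup.lift ![c, a] : FreeGroup (Fin 2) →* K) := by
    have e : (FreeGroup.lift ![c, a] : FreeGroup (Fin 2) →* K) =
        (FreeGroup.lift ![a, c] : FreeGroup (Fin 2) →* K).comp
          (FreeGroup.freeGroupCongr (Equiv.swap (0 : Fin 2) 1)).toMonoidHom := by
      ext i
      fin_cases i <;> simp
    rw [e, MonoidHom.coe_comp]
    exact inj.comp (FreeGroup.freeGroupCongr (Equiv.swap (0 : Fin 2) 1)).injective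
  obtain ⟨L, iL, α, β, S, h, hP⟩ := push2 K K (FreeGroup (Fin 2)) _ _ inj hι
  have hac : α a = β c := by
    have := h.comm (FreeGroup.of 0)
    simpa using this
  have hca : α c = β a := by
    have := h.comm (FreeGroup.of 1)
    simpa using this
  refine ⟨L, iL, ⟨amal_ff h hK.ff hK.ff higman_free_ff,
    fpres_push hP hK.fp hK.fp (fg_of_fpres _ (nice_free 2).fp)⟩, ?_, ?_⟩
  · refine ⟨α a, 1, ?_⟩
    intro h1
    have h2 : a = 1 := h.injA (by rw [h1, map_one])
    have h3 : (FreeGroup.lift ![a, c] : FreeGroup (Fin 2) →* K) (FreeGroup.of 0) =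
        (FreeGroup.lift ![a, c] : FreeGroup (Fin 2) →* K) 1 := by
      rw [map_one, FreeGroup.lift_apply_of]
      exact h2
    exact FreeGroup.of_ne_one _ (inj h3)
  · intro H hH
    let N := H.normalCore
    let y : ZMod 4 → L ⧸ N := fun i => (QuotientGroup.mk' N) ((![α a, α b, α c, β b] : Fin 4 → L) i)
    have hy := higman_finite (L ⧸ N) y (by
      intro i
      have q : ∀ x z : L, x * z * x⁻¹ = z ^ 2 → (QuotientGroup.mk' N) x * (QuotientGroup.mk' N) z *
          ((QuotientGroup.mk' N) x)⁻¹ = (QuotientGroup.mk' N) z ^ 2 := by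
        intro x z hxz
        rw [← map_inv, ← map_mul, ← map_mul, hxz, map_pow]
      have k1 : α a * α b * (α a)⁻¹ = α b ^ 2 := by
        rw [← map_inv, ← map_mul, ← map_mul, r1, map_pow]
      have k2 : α b * α c * (α b)⁻¹ = α c ^ 2 := by
        rw [← map_inv, ← map_mul, ← map_mul, r2, map_pow]
      have k3 : α c * β b * (α c)⁻¹ = β b ^ 2 := by
        rw [hca, ← map_inv, ← map_mul, ← map_mul, r1, map_pow]
      have k4 : β b * α a * (β b)⁻¹ = α a ^ 2 := by
        rw [hac, ← map_inv, ← map_mul, ← map_mul, r2, map_pow]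
      fin_cases i
      · exact q _ _ k1
      · exact q _ _ k2
      · exact q _ _ k3
      · exact q _ _ k4)
    have hmem : ∀ x : L, (QuotientGroup.mk' N) x = 1 → x ∈ N := fun x hx =>
      (QuotientGroup.eq_one_iff x).1 hx
    have m0 : α a ∈ N := hmem _ (hy 0)
    have m1 : α b ∈ N := hmem _ (hy 1)
    have m2 : α c ∈ N := hmem _ (hy 2)
    have m3 : β b ∈ N := hmem _ (hy 3)
    have ra : α.range ≤ N := by
      rw [MonoidHom.range_eq_map, ← gen, MonoidHom.map_closure, Subgroup.closure_le]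
      rintro _ ⟨x, hx, rfl⟩
      rcases hx with rfl | rfl | rfl
      · exact m0
      · exact m1
      · exact m2
    have rb : β.range ≤ N := by
      rw [MonoidHom.range_eq_map, ← gen, MonoidHom.map_closure, Subgroup.closure_le]
      rintro _ ⟨x, hx, rfl⟩
      rcases hx with rfl | rfl | rfl
      · exact hca ▸ m2
      · exact m3
      · exact hac ▸ m0
    rw [eq_top_iff, ← h.gen]
    exact (sup_le ra rb).trans H.normalCore_le

/-- one amalgam -/
theorem step_fp (G : Type) [Group G] (hf : Group.IsFinitelyPresented G) (hG : TypeFP G) (g : G)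
    (hg : g ≠ 1) :
    ∃ (Γ : Type) (_ : Group Γ) (j : G →* Γ), Function.Injective j ∧
      Group.IsFinitelyPresented Γ ∧ TypeFP Γ ∧
      (∀ m, FreeRes m Γ ↔ FreeRes m G) ∧ j g ∈ fr Γ ∧ j.range ⊔ fr Γ = ⊤ := by
  obtain ⟨L, iL, hLN, hLn, hL⟩ := exists_higmanN
  have hLF := hLN.ff
  have hLP := typeFP_of_typeFF L hLF
  obtain ⟨l, hl⟩ := exists_ne (1 : L)
  have hκ := zpowersHom_inj (torFree_of_typeFP G hG) g hg
  have hι := zpowersHom_inj (torFree_of_typeFP L hLP) l hl
  obtain ⟨Γ, iΓ, α, β, S, h, hP⟩ := push2 G L (Multiplicative ℤ) (zpowersHom G g)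
    (zpowersHom L l) hκ hι
  have hint := typeFP_of_typeFF _ typeFF_int
  have hβ : ∀ x : L, β x ∈ fr Γ := fun x => range_le_fr hL β ⟨x, rfl⟩
  refine ⟨Γ, iΓ, α, h.injA, fpres_push hP hf hLN.fp (fg_of_fpres _ nice_int.fp),
    amal_fp h hG hLP hint, ?_, ?_, ?_⟩
  · exact amal_iff h hG hLF typeFF_int (projFF_of_cyclic _ (MulEquiv.refl _))
  · have h1 := h.comm (Multiplicative.ofAdd 1)
    rw [zpowersHom_apply, zpowersHom_apply, toAdd_ofAdd, zpow_one, zpow_one] at h1
    rw [h1]
    exact hβ l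
  · rw [eq_top_iff, ← h.gen]
    apply sup_le le_sup_left
    rintro _ ⟨x, rfl⟩
    exact (le_sup_right : fr Γ ≤ α.range ⊔ fr Γ) (hβ x)

theorem embed_list_fp (G : Type) [Group G] (hf : Group.IsFinitelyPresented G) (hG : TypeFP G)
    (s : List G) :
    ∃ (Γ : Type) (_ : Group Γ) (j : G →* Γ), Function.Injective j ∧
      Group.IsFinitelyPresented Γ ∧ TypeFP Γ ∧
      (∀ m, FreeRes m Γ ↔ FreeRes m G) ∧ (∀ g ∈ s, j g ∈ fr Γ) ∧ j.range ⊔ fr Γ = ⊤ := by
  induction s with
  | nil =>
    refine ⟨G, inferInstance, MonoidHom.id G, fun _ _ h => h, hf, hG, fun m => Iff.rfl, ?_, ?_⟩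
    · intro g hg
      simp at hg
    · rw [eq_top_iff]
      intro x _
      exact (le_sup_left : (MonoidHom.id G).range ≤ _) ⟨x, rfl⟩
  | cons g s ih =>
    obtain ⟨Γ, iΓ, j, h1, h0, h2, h3, h4, h5⟩ := ih
    by_cases hg : g = 1
    · refine ⟨Γ, iΓ, j, h1, h0, h2, h3, ?_, h5⟩
      intro x hx
      rw [List.mem_cons] at hx
      rcases hx with rfl | hx
      · rw [hg, map_one]
        exact Subgroup.one_mem _
      · exact h4 x hx
    · have hjg : j g ≠ 1 := by
        intro h
        apply hg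
        apply h1
        rw [h, map_one]
      obtain ⟨Γ', iΓ', j', k1, k0, k2, k3, k4, k5⟩ := step_fp Γ h0 h2 (j g) hjg
      refine ⟨Γ', iΓ', j'.comp j, k1.comp h1, k0, k2, fun m => (k3 m).trans (h3 m), ?_, ?_⟩
      · intro x hx
        rw [List.mem_cons] at hx
        rcases hx with rfl | hx
        · exact k4
        · exact fr_map j' _ (h4 x hx)
      · rw [eq_top_iff, ← k5]
        apply sup_le _ le_sup_right
        have h6 : j'.range = (j.range ⊔ fr Γ).map j' := by
          rw [h5, MonoidHom.range_eq_map]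
        rw [h6, Subgroup.map_sup]
        apply sup_le
        · refine le_trans ?_ le_sup_left
          rintro _ ⟨_, ⟨x, rfl⟩, rfl⟩
          exact ⟨x, rfl⟩
        · refine le_trans ?_ le_sup_right
          rintro _ ⟨x, hx, rfl⟩
          exact fr_map j' x hx

/-- the embedding theorem, finitely presented -/
theorem embed_fp (G : Type) [Group G] (hf : Group.IsFinitelyPresented G) (hG : TypeFP G) :
    ∃ (Γ : Type) (_ : Group Γ) (j : G →* Γ), Function.Injective j ∧
      Group.IsFinitelyPresented Γ ∧ TypeFP Γ ∧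
      (∀ m, FreeRes m Γ ↔ FreeRes m G) ∧ NoFin Γ := by
  obtain ⟨s, hs⟩ := (fg_of_typeFP G hG).1
  obtain ⟨Γ, iΓ, j, h1, h0, h2, h3, h4, h5⟩ := embed_list_fp G hf hG s.toList
  refine ⟨Γ, iΓ, j, h1, h0, h2, h3, ?_⟩
  have h6 : j.range ≤ fr Γ := by
    rw [MonoidHom.range_eq_map, ← hs, MonoidHom.map_closure, Subgroup.closure_le]
    rintro _ ⟨g, hg, rfl⟩
    exact h4 g (Finset.mem_toList.2 hg)
  apply noFin_of_fr
  rw [eq_top_iff, ← h5]
  exact sup_le h6 le_rfl

end Pool.Agent.SDec
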