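import Pool.Agent.SDec.Main
import Pool.Agent.SDec.BaseCh
import Pool.Agent.SDec.HigF

/-!
# Finiteness types of presentations and Boolean combinations of recursively enumerable conditions
-/

set_option autoImplicit false

namespace Pool.Agent.SDec

open Pool.Agent.Hhelper49.Srr Pool.Agent.Hhelper49.Srf Pool.Agent.SFP

theorem embFp : EmbFp := by
  intro G _ h1 h2
  exact embed_fp G h1 h2

end Pool.Agent.SDec
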