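import Pool.Agent.SDec.Univ

/-!
# Groups of type (FP) which need not be finitely presented
-/

set_option autoImplicit false

namespace Pool.Agent.SDec

open Pool.Agent.Hhelper49.Srr Pool.Agent.Hhelper49.Srf Pool.Agent.SFP

theorem finGen_exists (U : Type) [Group U] (h : Group.FG U) : ∃ u : ℕ → U, FinGen u := by
  obtain ⟨s, hs⟩ := h.1
  refine ⟨fun i => s.toList.getD i 1, ?_, s.toList.length, fun i hi => ?_⟩
  · rw [eq_top_iff, ← hs]
    apply Subgroup.closure_mono
    intro x hx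
    have hx' : x ∈ s.toList := by simpa using hx
    obtain ⟨i, hi, rfl⟩ := List.getElem_of_mem hx'
    exact ⟨i, by simp [List.getD, List.getElem?_eq_getElem hi]⟩
  · simp [List.getD, List.getElem?_eq_none hi]

theorem finGen_word {U : Type} [Group U] {u : ℕ → U} (h : FinGen u) (x : U) :
    ∃ w : Word, ev u w = x := by
  have hx : x ∈ Subgroup.closure (Set.range u) := by
    rw [h.1]
    exact Subgroup.mem_top x
  induction hx using Subgroup.closure_induction with
  | mem x hx =>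
    obtain ⟨i, rfl⟩ := hx
    exact ⟨[(i, true)], ev_single u i⟩
  | one => exact ⟨[], ev_nil u⟩
  | mul a b _ _ ha hb =>
    obtain ⟨w, rfl⟩ := ha
    obtain ⟨w', rfl⟩ := hb
    exact ⟨w ++ w', ev_append u w w'⟩
  | inv a _ ha =>
    obtain ⟨w, rfl⟩ := ha
    exact ⟨winv w, ev_inv u w⟩

theorem gen_hard (G : Type) [Group G] (hF : TypeFP G)
    (A₁ A₂ : ℕ → Prop) (h₁ : REPred A₁) (h₂ : REPred A₂) :
    ∃ (U : Type) (_ : Group U), TypeFF U ∧ (∃ j : G →* U, Function.Injective j) ∧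
      (Group.IsFinitelyPresented G → Group.IsFinitelyPresented U) ∧
      ∀ u : ℕ → U, FinGen u → ∃ W : ℕ → List Word, Primrec W ∧ ∀ e k₁ k₂ : ℕ,
        (∀ i, A₁ (Nat.pair e i) ↔ i < k₁) → (∀ i, A₂ (Nat.pair e i) ↔ i < k₂) →
        TypeFP (wsub u (W e)) ∧
        (Group.IsFinitelyPresented G → Group.IsFinitelyPresented (wsub u (W e))) ∧
        (∀ m, FreeRes m (wsub u (W e)) ↔ FreeRes (m * ((k₁ : ℤ) - k₂ - 1).natAbs) G) ∧
        ∃ j : G →* wsub u (W e), Function.Injective j := by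
  obtain ⟨D, iD, x, y, z, x', y', z', a, a', hD, hM⟩ := exists_dhat2 Eul eulLike A₁ A₂ h₁ h₂
  obtain ⟨c, hc⟩ := eul_of_ff D hD.ff
  have E := eul_prodFree hc 1
  obtain ⟨u1, u2⟩ := eul_prod E hF
  let U := G × (D × FreeGroup (Fin 1))
  have uF : TypeFF U := by
    rw [typeFF_iff]
    refine (u2 1).2 ?_
    have h0 : 1 * (c * (1 - ((1 : ℕ) : ℤ))).natAbs = 0 := by simp
    rw [h0]
    exact freeRes_zero G
  refine ⟨U, inferInstance, uF, ⟨MonoidHom.inl G _, fun s t h => congrArg Prod.fst h⟩, ?_, ?_⟩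
  · intro hG
    have hDp := hD.fp
    have h1 : Group.IsFinitelyPresented (D × FreeGroup (Fin 1)) :=
      Pool.Agent.SFP.prod_fpres D (FreeGroup (Fin 1))
    exact Pool.Agent.SFP.prod_fpres G (D × FreeGroup (Fin 1))
  intro g hp
  let ι : D →* U := (MonoidHom.inr G (D × FreeGroup (Fin 1))).comp (MonoidHom.inl D _)
  have hι : Function.Injective ι := by
    intro s t hst
    exact congrArg (fun q : U => q.2.1) hst
  obtain ⟨wx, ex⟩ := finGen_word hp (ι x)
  obtain ⟨wy, ey⟩ := finGen_word hp (ι y)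
  obtain ⟨wz, ez⟩ := finGen_word hp (ι z)
  obtain ⟨wx', ex'⟩ := finGen_word hp (ι x')
  obtain ⟨wy', ey'⟩ := finGen_word hp (ι y')
  obtain ⟨wz', ez'⟩ := finGen_word hp (ι z')
  obtain ⟨wa, ea⟩ := finGen_word hp (ι a)
  obtain ⟨wa', ea'⟩ := finGen_word hp (ι a')
  obtain ⟨gG, hgG, N, hN⟩ := finGen_exists G (fg_of_typeFP G hF)
  choose wG eG using fun i => finGen_word hp (MonoidHom.inl G (D × FreeGroup (Fin 1)) (gG i))
  let LG : List Word := (List.range N).map wG
  have hLG : Subgroup.closure (ev g '' {w | w ∈ LG}) =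
      (MonoidHom.inl G (D × FreeGroup (Fin 1))).range := by
    apply le_antisymm
    · rw [Subgroup.closure_le]
      rintro _ ⟨w, hw, rfl⟩
      obtain ⟨i, -, rfl⟩ := List.mem_map.1 hw
      exact ⟨gG i, (eG i).symm⟩
    · rw [MonoidHom.range_eq_map, ← hgG, MonoidHom.map_closure, Subgroup.closure_le]
      rintro _ ⟨_, ⟨i, rfl⟩, rfl⟩
      by_cases hi : i < N
      · rw [← eG i]
        exact Subgroup.subset_closure ⟨wG i, List.mem_map.2 ⟨i, List.mem_range.2 hi, rfl⟩, rfl⟩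
      · rw [hN i (not_lt.1 hi), map_one]
        exact Subgroup.one_mem _
  let V : ℕ → List Word := fun e => gword wx wy wz wx' wy' wz' wa wa' (stp e) (offs e)
  have hV : Primrec V := gword_primrec wx wy wz wx' wy' wz' wa wa' stp_primrec offs_primrec
  refine ⟨fun e => LG ++ V e,
    Primrec.list_append.comp (Primrec.const _) hV, fun e k₁ k₂ hk₁ hk₂ => ?_⟩
  obtain ⟨M, iM, μ, hE, hμ, hr, hMp⟩ := hM e k₁ k₂ hk₁ hk₂
  let ν : G × M →* U := MonoidHom.prodMap (MonoidHom.id G) ((MonoidHom.inl D _).comp μ)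
  have hν : Function.Injective ν := by
    rintro ⟨s1, s2⟩ ⟨t1, t2⟩ hst
    have e1 : s1 = t1 := congrArg Prod.fst hst
    have e2 : μ s2 = μ t2 := congrArg (fun q : U => q.2.1) hst
    rw [e1, hμ e2]
  have hset : ev g '' {w | w ∈ V e} = ι '' gens x y z x' y' z' a a' (stp e) (offs e) := by
    change ev g '' {w | w ∈ gword wx wy wz wx' wy' wz' wa wa' (stp e) (offs e)} = _
    rw [ev_gword, ex, ey, ez, ex', ey', ez', ea, ea']
    unfold gens
    simp only [Set.image_insert_eq, Set.image_singleton, map_mul, map_inv, map_pow]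
  have hrν : ν.range = Subgroup.closure (ev g '' {w | w ∈ LG ++ V e}) := by
    have h1 : {w | w ∈ LG ++ V e} = {w | w ∈ LG} ∪ {w | w ∈ V e} := by
      ext w
      simp
    rw [h1, Set.image_union, Subgroup.closure_union, hLG, hset, ← MonoidHom.map_closure, ← hr,
      ← MonoidHom.range_comp]
    apply le_antisymm
    · rintro _ ⟨⟨s, t⟩, rfl⟩
      have h2 : ((s, t) : G × M) = (s, 1) * (1, t) := by simp
      rw [h2, map_mul]
      refine Subgroup.mul_mem _ (Subgroup.mem_sup_left ⟨s, ?_⟩) (Subgroup.mem_sup_right ⟨t, ?_⟩)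
      · exact Prod.ext rfl (Prod.ext (map_one μ).symm rfl)
      · exact Prod.ext rfl rfl
    · refine sup_le ?_ ?_
      · rintro _ ⟨s, rfl⟩
        exact ⟨(s, 1), Prod.ext rfl (Prod.ext (map_one μ) rfl)⟩
      · rintro _ ⟨t, rfl⟩
        exact ⟨(1, t), rfl⟩
  have hmap : wsub g (LG ++ V e) = ν.range := by
    rw [hrν]
    unfold wsub
    congr 1
    ext v
    constructor
    · rintro ⟨w, hw, rfl⟩
      exact ⟨w, hw, rfl⟩
    · rintro ⟨w, hw, rfl⟩
      exact ⟨w, hw, rfl⟩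
  have ε : G × M ≃* wsub g (LG ++ V e) :=
    (MonoidHom.ofInjective hν).trans (MulEquiv.subgroupCongr hmap.symm)
  obtain ⟨v1, v2⟩ := eul_prod hE hF
  refine ⟨typeFP_congr ε v1, fun hG => ?_, fun m => ?_, ?_⟩
  · have vP : Group.IsFinitelyPresented (G × M) := Pool.Agent.SFP.prod_fpres G M
    exact fpres_congr ε vP
  · exact (freeRes_congr3 ε m).symm.trans (v2 m)
  · exact ⟨(ε : G × M →* _).comp (MonoidHom.inl G M),
      ε.injective.comp fun s t h => congrArg Prod.fst h⟩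

/-- one group of type (FF) for all limit computable functions -/
theorem gen_univ (G : Type) [Group G] (hF : TypeFP G) :
    ∃ (U : Type) (_ : Group U), TypeFF U ∧ (∃ j : G →* U, Function.Injective j) ∧
      (Group.IsFinitelyPresented G → Group.IsFinitelyPresented U) ∧
      ∀ u : ℕ → U, FinGen u → ∀ c : ℕ → ℕ, LimComp c → ∃ W : ℕ → List Word, Primrec W ∧ ∀ e,
        TypeFP (wsub u (W e)) ∧
        (Group.IsFinitelyPresented G → Group.IsFinitelyPresented (wsub u (W e))) ∧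
        (∀ m, FreeRes m (wsub u (W e)) ↔ FreeRes (m * c e) G) ∧
        ∃ j : G →* wsub u (W e), Function.Injective j := by
  obtain ⟨U, iU, hU, hj, hp, h⟩ := gen_hard G hF (UA true) (UA false) (ua_re true) (ua_re false)
  refine ⟨U, iU, hU, hj, hp, fun u hu c hc => ?_⟩
  obtain ⟨W, hW, h⟩ := h u hu
  obtain ⟨n₁, n₂, h₁, h₂, h₃⟩ := lim_diff c hc
  obtain ⟨a₁, ha₁⟩ := re_code _ h₁
  obtain ⟨a₂, ha₂⟩ := re_code _ h₂
  refine ⟨fun e => W (Nat.pair (Nat.pair a₁ a₂) e),
    hW.comp (Primrec₂.natPair.comp (Primrec.const _) Primrec.id), fun e => ?_⟩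
  obtain ⟨k1, k2, k3, k4⟩ := h (Nat.pair (Nat.pair a₁ a₂) e) (n₁ e) (n₂ e) (fun i => by
      unfold UA
      simp only [Nat.unpair_pair, cond_true]
      rw [ha₁]
      simp) (fun i => by
      unfold UA
      simp only [Nat.unpair_pair, cond_false]
      rw [ha₂]
      simp)
  refine ⟨k1, k2, fun m => ?_, k4⟩
  rw [k3 m, h₃, Int.natAbs_natCast]

end Pool.Agent.SDec
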