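import Pool.Agent.SDec.BaseCh

/-!
# The reduced class group

`KR R`: modules of type (FP) up to `Sim`, an abelian group; `cls N = 0` iff `N` is of type (FF).
-/

set_option autoImplicit false

namespace Pool.Agent.SDec

open Pool.Agent.Hhelper49.Srr Pool.Agent.Hhelper49.Srf Pool.Agent.SFP

/-- modules of type (FP) -/
structure FPMod (R : Type) [Ring R] : Type 1 where
  M : Type
  [grp : AddCommGroup M]
  [mod : Module R M]
  fp : FP R M

attribute [instance] FPMod.grp FPMod.mod

section
variable (R : Type) [Ring R]

/-- the relation -/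
instance fpSetoid : Setoid (FPMod R) where
  r A B := Sim R A.M B.M
  iseqv :=
    { refl := fun A => Sim_refl A.fp
      symm := fun h => Sim_symm h
      trans := fun {_ B _} h h' => Sim_trans B.fp h h' }

/-- the reduced class group -/
def KR : Type 1 := Quotient (fpSetoid R)

variable {R}

/-- the class of a module -/
def cls (N : Type) [AddCommGroup N] [Module R N] (h : FP R N) : KR R :=
  Quotient.mk (fpSetoid R) ⟨N, h⟩

section
variable {M N : Type} [AddCommGroup M] [Module R M] [AddCommGroup N] [Module R N]

theorem cls_eq_iff (h : FP R M) (h' : FP R N) : cls M h = cls N h' ↔ Sim R M N :=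
  ⟨fun e => Quotient.exact e, fun e => Quotient.sound e⟩

theorem sim_of_ff (h : FF R M) (h' : FF R N) : Sim R M N :=
  ⟨PUnit, inferInstance, inferInstance,
    fp_of_ff ⟨0, Module.Finite.of_finite, Module.Free.of_subsingleton R PUnit⟩,
    ff_prod h ⟨0, Module.Finite.of_finite, Module.Free.of_subsingleton R PUnit⟩,
    ff_prod h' ⟨0, Module.Finite.of_finite, Module.Free.of_subsingleton R PUnit⟩⟩

theorem ff_of_sim (h : Sim R M N) (h' : FF R N) : FF R M := by
  obtain ⟨C, _, _, h1, h2, h3⟩ := h
  exact ff_left h2 (ff_right h3 h')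

end

theorem fp_punit : FP R PUnit :=
  fp_of_ff ⟨0, Module.Finite.of_finite, Module.Free.of_subsingleton R PUnit⟩

theorem ff_punit : FF R PUnit :=
  ⟨0, Module.Finite.of_finite, Module.Free.of_subsingleton R PUnit⟩

/-- a complement -/
theorem exists_neg (A : FPMod R) : ∃ B : FPMod R, FF R (A.M × B.M) := by
  obtain ⟨C, i1, i2, h1, h2⟩ := exists_compl A.fp
  exact ⟨⟨C, h1⟩, h2⟩

/-- the chosen complement -/
noncomputable def negM (A : FPMod R) : FPMod R := (exists_neg A).choose

theorem negM_spec (A : FPMod R) : FF R (A.M × (negM A).M) := (exists_neg A).choose_spec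

theorem negM_sim (A B : FPMod R) (h : Sim R A.M B.M) : Sim R (negM A).M (negM B).M := by
  refine ⟨A.M, inferInstance, inferInstance, A.fp, ?_, ?_⟩
  · exact ff_iso (LinearEquiv.prodComm R A.M (negM A).M) (negM_spec A)
  · have h1 : Sim R (A.M × (negM B).M) (B.M × (negM B).M) := Sim_prod h (Sim_refl (negM B).fp)
    exact ff_iso (LinearEquiv.prodComm R A.M (negM B).M) (ff_of_sim h1 (negM_spec B))

/-- addition -/
def addM (A B : FPMod R) : FPMod R := ⟨A.M × B.M, fp_prod A.fp B.fp⟩

noncomputable instance : Add (KR R) :=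
  ⟨Quotient.map₂ addM fun _ _ h _ _ h' => Sim_prod h h'⟩

noncomputable instance : Zero (KR R) := ⟨Quotient.mk _ ⟨PUnit, fp_punit⟩⟩

noncomputable instance : Neg (KR R) := ⟨Quotient.map negM negM_sim⟩

noncomputable instance : AddCommGroup (KR R) where
  add_assoc a b c := by
    induction a using Quotient.inductionOn with | _ a => ?_
    induction b using Quotient.inductionOn with | _ b => ?_
    induction c using Quotient.inductionOn with | _ c => ?_
    exact Quotient.sound (Sim_iso (fp_prod (fp_prod a.fp b.fp) c.fp)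
      (LinearEquiv.prodAssoc R a.M b.M c.M))
  add_comm a b := by
    induction a using Quotient.inductionOn with | _ a => ?_
    induction b using Quotient.inductionOn with | _ b => ?_
    exact Quotient.sound (Sim_iso (fp_prod a.fp b.fp) (LinearEquiv.prodComm R a.M b.M))
  zero_add a := by
    induction a using Quotient.inductionOn with | _ a => ?_
    exact Quotient.sound (Sim_iso (fp_prod fp_punit a.fp)
      (LinearEquiv.uniqueProd (R := R) (M := a.M) (M₂ := PUnit)))
  add_zero a := by
    induction a using Quotient.inductionOn with | _ a => ?_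
    exact Quotient.sound (Sim_iso (fp_prod a.fp fp_punit)
      (LinearEquiv.prodUnique (R := R) (M := a.M) (M₂ := PUnit)))
  neg_add_cancel a := by
    induction a using Quotient.inductionOn with | _ a => ?_
    exact Quotient.sound (sim_of_ff
      (ff_iso (LinearEquiv.prodComm R a.M (negM a).M) (negM_spec a)) ff_punit)
  nsmul := nsmulRec
  zsmul := zsmulRec

section
variable {M N A B C : Type} [AddCommGroup M] [Module R M] [AddCommGroup N] [Module R N]
  [AddCommGroup A] [Module R A] [AddCommGroup B] [Module R B] [AddCommGroup C] [Module R C]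

theorem cls_eq_zero (h : FP R M) : cls M h = 0 ↔ FF R M := by
  have h0 : (0 : KR R) = cls PUnit fp_punit := rfl
  rw [h0, cls_eq_iff]
  exact ⟨fun e => ff_of_sim e ff_punit, fun e => sim_of_ff e ff_punit⟩

theorem cls_prod (h : FP R M) (h' : FP R N) : cls (M × N) (fp_prod h h') = cls M h + cls N h' :=
  rfl

theorem cls_iso (h : FP R M) (h' : FP R N) (e : M ≃ₗ[R] N) : cls M h = cls N h' :=
  (cls_eq_iff h h').2 (Sim_iso h e)

theorem cls_exact (f : A →ₗ[R] B) (g : B →ₗ[R] C) (hf : Function.Injective f)
    (hg : Function.Surjective g) (hfg : LinearMap.range f = LinearMap.ker g)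
    (hA : FP R A) (hB : FP R B) (hC : FP R C) : cls B hB = cls A hA + cls C hC := by
  rw [← cls_prod hA hC, cls_eq_iff]
  exact Sim_ext f g hf hg hfg hA hC

theorem fp_pow (m : ℕ) (h : FP R M) : FP R (Fin m → M) := fp_pi (fun _ : Fin m => M) fun _ => h

theorem cls_pow (m : ℕ) (h : FP R M) : cls (Fin m → M) (fp_pow m h) = m • cls M h := by
  induction m with
  | zero =>
    rw [zero_smul, cls_eq_zero]
    exact ff_pi (fun _ : Fin 0 => M) fun i => i.elim0
  | succ m ih =>
    rw [succ_nsmul', ← ih, ← cls_prod]
    exact cls_iso _ _ (Fin.consLinearEquiv R (fun _ : Fin (m + 1) => M)).symm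

end

end

end Pool.Agent.SDec
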