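import Pool.Agent.SDec.Cnf

/-!
# The diagonal argument
-/

set_option autoImplicit false

namespace Pool.Agent.SDec

open Nat.Partrec

/-- the universal recursively enumerable set -/
def KU (u : ℕ) : Prop := (Code.eval (Denumerable.ofNat Code u.unpair.1) u.unpair.2).Dom

theorem KU_re : REPred KU := by
  have h1 : Partrec fun u : ℕ => Code.eval (Denumerable.ofNat Code u.unpair.1) u.unpair.2 :=
    Code.eval_part.comp ((Computable.ofNat Code).comp (Computable.fst.comp Computable.unpair))
      (Computable.snd.comp Computable.unpair)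
  exact REPred.of_eq (Partrec.dom_re h1) fun _ => Iff.rfl

/-- number of a tuple -/
def en {k : ℕ} (t : Fin k → ℕ) : ℕ := @Encodable.encode (Fin k → ℕ) Primcodable.toEncodable t

theorem en_primrec {k : ℕ} : Primrec (en (k := k)) := Primrec.encode

section
variable {k : ℕ} (β : (Fin k → Prop) → Prop)

open Classical in
/-- the assignments for which `β` is true -/
noncomputable def asg : List (Fin k → Bool) :=
  (Finset.univ.filter fun a : Fin k → Bool => β fun i => a i = true).toList

theorem mem_asg (a : Fin k → Bool) : a ∈ asg β ↔ β fun i => a i = true := by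
  unfold asg
  simp

/-- the formula `¬ β (KU ⟨t 0, t⟩, …, KU ⟨t (k-1), t⟩)` -/
noncomputable def diagF (t : Fin k → ℕ) : CNF :=
  (asg β).map fun a => (List.finRange k).map fun i =>
    (Nat.pair (t i) (en t), !a i)

theorem diagF_primrec : Primrec (diagF β) := by
  unfold diagF
  refine Primrec.list_map (Primrec.const _) ?_
  refine Primrec.list_map (Primrec.const _) ?_
  have h1 : Primrec fun x : ((Fin k → ℕ) × (Fin k → Bool)) × Fin k => x.1.1 x.2 :=
    Primrec.fin_app.comp (Primrec.fst.comp Primrec.fst) Primrec.snd
  have h2 : Primrec fun x : ((Fin k → ℕ) × (Fin k → Bool)) × Fin k => x.1.2 x.2 :=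
    Primrec.fin_app.comp (Primrec.snd.comp Primrec.fst) Primrec.snd
  have h3 : Primrec fun x : ((Fin k → ℕ) × (Fin k → Bool)) × Fin k => en x.1.1 :=
    en_primrec.comp (Primrec.fst.comp Primrec.fst)
  exact Primrec.pair (Primrec₂.natPair.comp h1 h3) (Primrec.not.comp h2)

theorem sat_diagF (t : Fin k → ℕ) : sat KU (diagF β t) ↔
    ¬ β fun i => KU (Nat.pair (t i) (en t)) := by
  classical
  set v : Fin k → Prop := fun i => KU (Nat.pair (t i) (en t)) with hv
  have h1 : sat KU (diagF β t) ↔ ∀ a : Fin k → Bool, (β fun i => a i = true) →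
      ∃ i, ¬ (v i ↔ a i = true) := by
    unfold sat diagF satC
    constructor
    · intro h a ha
      obtain ⟨l, hl, hl2⟩ := h _ (List.mem_map.2 ⟨a, (mem_asg β a).2 ha, rfl⟩)
      obtain ⟨i, -, rfl⟩ := List.mem_map.1 hl
      refine ⟨i, fun h3 => ?_⟩
      change v i ↔ (!a i) = true at hl2
      rw [h3] at hl2
      cases a i <;> simp at hl2
    · intro h c hc
      obtain ⟨a, ha, rfl⟩ := List.mem_map.1 hc
      obtain ⟨i, hi⟩ := h a ((mem_asg β a).1 ha)
      refine ⟨_, List.mem_map.2 ⟨i, List.mem_finRange i, rfl⟩, ?_⟩
      change v i ↔ (!a i) = true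
      cases hai : a i
      · rw [hai] at hi
        simp at hi ⊢
        exact hi
      · rw [hai] at hi
        simp at hi ⊢
        exact hi
  rw [h1]
  constructor
  · intro h hb
    obtain ⟨i, hi⟩ := h (fun i => decide (v i)) (by
      have : (fun i => decide (v i) = true) = v := by
        funext i
        simp
      rw [this]
      exact hb)
    apply hi
    simp
  · intro h a ha
    by_contra hcon
    push Not at hcon
    apply h
    have : v = fun i => a i = true := by
      funext i
      exact propext (hcon i)
    rw [this]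
    exact ha

end

/-- no Boolean combination of recursively enumerable properties agrees with `sat KU` along a computable map -/
theorem diagonal (k : ℕ) (q : Fin k → Pres → Prop) (hq : ∀ i, REPred (q i))
    (β : (Fin k → Prop) → Prop) (f : CNF → Pres) (hf : Computable f) :
    ∃ F : CNF, sat KU F ↔ ¬ β fun i => q i (f F) := by
  have h1 : ∀ i, ∃ c : Code, ∀ t : Fin k → ℕ,
      (Code.eval c (en t)).Dom ↔ q i (f (diagF β t)) := by
    intro i
    have h2 : Partrec fun t : Fin k → ℕ => Part.assert (q i (f (diagF β t))) fun _ => Part.some () :=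
      (hq i).comp (hf.comp (diagF_primrec β).to_comp)
    obtain ⟨c, hc⟩ := Code.exists_code.1 h2
    refine ⟨c, fun t => ?_⟩
    rw [hc]
    have h3 : @Encodable.decode (Fin k → ℕ) Primcodable.toEncodable (en t) = some t :=
      @Encodable.encodek (Fin k → ℕ) Primcodable.toEncodable t
    have h4 : (((@Encodable.decode (Fin k → ℕ) Primcodable.toEncodable (en t) : Option (Fin k → ℕ)) :
        Part (Fin k → ℕ)).bind fun a =>
        Part.map Encodable.encode (Part.assert (q i (f (diagF β a))) fun _ => Part.some ())) =
        Part.map Encodable.encode (Part.assert (q i (f (diagF β t))) fun _ => Part.some ()) := by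
      rw [h3]
      exact Part.bind_some _ _
    change (((@Encodable.decode (Fin k → ℕ) Primcodable.toEncodable (en t) : Option (Fin k → ℕ)) :
        Part (Fin k → ℕ)).bind fun a =>
        Part.map Encodable.encode (Part.assert (q i (f (diagF β a))) fun _ => Part.some ())).Dom ↔ _
    rw [h4]
    constructor
    · rintro ⟨h, -⟩
      exact h
    · intro h
      exact ⟨h, trivial⟩
  choose c hc using h1
  let t : Fin k → ℕ := fun i => Encodable.encode (c i)
  refine ⟨diagF β t, ?_⟩
  rw [sat_diagF]
  have h3 : (fun i => KU (Nat.pair (t i) (en t))) = fun i => q i (f (diagF β t)) := by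
    funext i
    apply propext
    rw [← hc i t]
    unfold KU
    rw [Nat.unpair_pair]
    have h4 : Denumerable.ofNat Code (t i) = c i := Denumerable.ofNat_encode (c i)
    change (Code.eval (Denumerable.ofNat Code (t i)) (en t)).Dom ↔ _
    rw [h4]
  rw [h3]

end Pool.Agent.SDec
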