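import Pool.Agent.SDec.Model

/-!
# A finitely presented group of type (FF) from a rule system
-/

set_option autoImplicit false

namespace Pool.Agent.SDec

open Pool.Agent.Hhelper49.Srf Pool.Agent.Hhelper49.Srr

/-- the permutation of `X × Bool` which exchanges the two points over `x` -/
noncomputable def swapAt {X : Type} (x : X) : Equiv.Perm (X × Bool) := by
  classical
  exact Equiv.swap (x, false) (x, true)

theorem swapAt_self {X : Type} (x : X) : swapAt x (x, false) = (x, true) := by
  classical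
  exact Equiv.swap_apply_left _ _

theorem swapAt_self' {X : Type} (x : X) : swapAt x (x, true) = (x, false) := by
  classical
  exact Equiv.swap_apply_right _ _

theorem swapAt_ne {X : Type} (x y : X) (b : Bool) (h : y ≠ x) : swapAt x (y, b) = (y, b) := by
  classical
  exact Equiv.swap_apply_of_ne_of_ne (fun h1 => h (congrArg Prod.fst h1))
    (fun h1 => h (congrArg Prod.fst h1))

/-- the action on cosets times `Bool` -/
def cosB {U : Type} [Group U] (H : Subgroup U) : U →* Equiv.Perm ((U ⧸ H) × Bool) where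
  toFun y := Equiv.prodCongr (MulAction.toPerm y) (Equiv.refl Bool)
  map_one' := by
    apply Equiv.ext
    rintro ⟨c, b⟩
    change ((1 : U) • c, b) = (c, b)
    rw [one_smul]
  map_mul' y z := by
    apply Equiv.ext
    rintro ⟨c, b⟩
    change ((y * z) • c, b) = (y • z • c, b)
    rw [mul_smul]

theorem cosB_apply {U : Type} [Group U] (H : Subgroup U) (y : U) (c : U ⧸ H) (b : Bool) :
    cosB H y (c, b) = (y • c, b) := rfl

/-- adding a letter which commutes exactly with `L` -/
theorem add_comm_letter {U : Type} [Group U] (hU : Nice U) {n : ℕ} (lam : FreeGroup (Fin n) →* U)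
    (hl : Function.Injective lam) : ∃ (D : Type) (_ : Group D) (j : U →* D) (k : D), Nice D ∧
      Function.Injective j ∧ ∀ y, k * j y = j y * k ↔ y ∈ lam.range := by
  obtain ⟨D, iD, j, k, hj, hD, hrel, huniv⟩ := hnn_step hU (nice_free n) lam lam hl hl
  refine ⟨D, iD, j, k, hD, hj, ?_⟩
  intro y
  constructor
  · intro hy
    let H := lam.range
    let o : U ⧸ H := ((1 : U) : U ⧸ H)
    obtain ⟨F, F1, F2⟩ := huniv _ (cosB H) (swapAt o) (by
      intro e
      rw [mul_assoc, inv_mul_eq_iff_eq_mul]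
      have h1 : lam e • o = o := by
        change ((lam e * 1 : U) : U ⧸ H) = ((1 : U) : U ⧸ H)
        rw [mul_one, QuotientGroup.eq, mul_one]
        exact H.inv_mem ⟨e, rfl⟩
      apply Equiv.ext
      rintro ⟨c, b⟩
      rw [Equiv.Perm.mul_apply, Equiv.Perm.mul_apply]
      by_cases hc : c = o
      · subst hc
        cases b
        · rw [swapAt_self, cosB_apply, cosB_apply, h1, swapAt_self]
        · rw [swapAt_self', cosB_apply, cosB_apply, h1, swapAt_self']
      · have h2 : lam e • c ≠ o := by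
          intro h3
          apply hc
          rw [← h1] at h3
          exact smul_left_cancel _ h3
        rw [swapAt_ne _ _ _ hc, cosB_apply, swapAt_ne _ _ _ h2])
    have h1 : swapAt o * cosB H y = cosB H y * swapAt o := by
      rw [← F2, ← F1, ← map_mul, ← map_mul, hy]
    have h2 := DFunLike.congr_fun h1 (o, false)
    rw [Equiv.Perm.mul_apply, Equiv.Perm.mul_apply, swapAt_self, cosB_apply, cosB_apply] at h2
    by_cases h3 : y • o = o
    · have h4 : ((y * 1 : U) : U ⧸ H) = ((1 : U) : U ⧸ H) := h3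
      rw [mul_one, QuotientGroup.eq, mul_one] at h4
      have h5 := H.inv_mem h4
      rwa [inv_inv] at h5
    · rw [swapAt_ne _ _ _ h3] at h2
      exact absurd (congrArg Prod.snd h2) (by simp)
  · rintro ⟨e, rfl⟩
    have h1 := hrel e
    rw [mul_assoc, inv_mul_eq_iff_eq_mul] at h1
    exact h1.symm

/-- the words -/
def wd {D : Type} [Group D] (X Y Z : D) (e : ℕ) : D :=
  Z * ((X ^ e)⁻¹ * Y * X ^ e) * Z⁻¹ * ((X ^ e)⁻¹ * Y * X ^ e)⁻¹

theorem wd_eq_one {D : Type} [Group D] (X Y Z : D) (e : ℕ) :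
    wd X Y Z e = 1 ↔ Z * ((X ^ e)⁻¹ * Y * X ^ e) = ((X ^ e)⁻¹ * Y * X ^ e) * Z := by
  rw [wd, mul_inv_eq_one, mul_inv_eq_iff_eq_mul]

/-- a finitely presented group of type (FF) which simulates a rule system -/
theorem exists_D {R : ℕ} (ru : Fin R → Rule) (c0 tgt : V5)
    (hdis : ∀ i i' z z', (ru i).u + (ru i).m * z = (ru i').u + (ru i').m * z' → i = i')
    (htgt : ∀ i z, (ru i).u + (ru i).m * z ≠ tgt) :
    ∃ (D : Type) (_ : Group D) (X Y Z : D), Nice D ∧ ∀ e : ℕ, wd X Y Z e = 1 ↔
      Relation.ReflTransGen (Step ru) (c0 + Pi.single 1 (e : ℤ)) tgt := by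
  obtain ⟨K, iK, x, t, hK⟩ := exists_K
  obtain ⟨U, iU, j, lam, hU, hj, hl, hlr⟩ := model hK ru tgt hdis htgt
  obtain ⟨D, iD, j', k, hD, hj', hk⟩ := add_comm_letter hU lam hl
  refine ⟨D, iD, j' (j (xv x (Pi.single 1 1))), j' (j (tv x t c0)), k, hD, ?_⟩
  intro e
  have h1 : xv x (Pi.single 1 (e : ℤ)) = xv x (Pi.single 1 1) ^ e := by
    have h2 : (Pi.single 1 (e : ℤ) : V5) = e • (Pi.single 1 1 : V5) := by
      rw [← Pi.single_smul', nsmul_eq_mul, mul_one]
    rw [h2, xv, xv, ofAdd_nsmul, map_pow]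
  have h3 : (j' (j (xv x (Pi.single 1 1))) ^ e)⁻¹ * j' (j (tv x t c0)) *
      j' (j (xv x (Pi.single 1 1))) ^ e = j' (j (tv x t (c0 + Pi.single 1 (e : ℤ)))) := by
    rw [tv_add, h1]
    simp only [map_mul, map_inv, map_pow]
  rw [wd_eq_one, h3, hk, hlr]

end Pool.Agent.SDec
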