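import Pool.Agent.SDec.Comp
import Pool.Agent.SDec.Dhat

/-!
# Presentations of pushouts with a direct product
-/

set_option autoImplicit false

namespace Pool.Agent.SDec

open Pool.Agent.Hhelper49.Srf Pool.Agent.Hhelper49.Srr

/-- `Γ = ⟨D, G | [W, G] = 1⟩` -/
structure TogL {D G Γ : Type} [Group D] [Group G] [Group Γ] (W : Set D) (α : D →* Γ) (β : G →* Γ) :
    Prop where
  gen : α.range ⊔ β.range = ⊤
  comm : ∀ w ∈ W, ∀ g, α w * β g = β g * α w
  univ : ∀ (P : Type) [Group P] (f : D →* P) (h : G →* P),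
    (∀ w ∈ W, ∀ g, f w * h g = h g * f w) →
    ∃ F : Γ →* P, (∀ d, F (α d) = f d) ∧ ∀ g, F (β g) = h g

theorem togL_push {D G Γ M : Type} [Group D] [Group G] [Group Γ] [Group M] {W : Set D}
    {α : D →* Γ} {β : G →* Γ} (h : TogL W α β) (μ : M →* D) (hμ : μ.range = Subgroup.closure W) :
    ∃ δ : G × M →* Γ, (∀ g, δ (g, 1) = β g) ∧ IsPush α δ μ (MonoidHom.inr G M) := by
  have hc : ∀ (m : M) (g : G), Commute (α (μ m)) (β g) := by
    intro m g
    have h0 : ∀ d ∈ Subgroup.closure W, Commute (α d) (β g) := by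
      intro d hd
      induction hd using Subgroup.closure_induction with
      | mem w hw => exact h.comm w hw g
      | one => rw [map_one]; exact Commute.one_left _
      | mul a b _ _ ha hb => rw [map_mul]; exact ha.mul_left hb
      | inv a _ ha => rw [map_inv]; exact ha.inv_left
    exact h0 _ (by rw [← hμ]; exact ⟨m, rfl⟩)
  let δ : G × M →* Γ :=
    { toFun := fun p => β p.1 * α (μ p.2)
      map_one' := by simp
      map_mul' := by
        rintro ⟨g, m⟩ ⟨g', m'⟩
        change β (g * g') * α (μ (m * m')) = β g * α (μ m) * (β g' * α (μ m'))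
        rw [map_mul, map_mul, map_mul, mul_assoc, mul_assoc]
        congr 1
        rw [← mul_assoc, ← mul_assoc, (hc m g').eq] }
  have hδ : ∀ g m, δ (g, m) = β g * α (μ m) := fun g m => rfl
  refine ⟨δ, fun g => by rw [hδ]; simp, ?_, ?_, ?_⟩
  · rw [eq_top_iff, ← h.gen]
    refine sup_le le_sup_left ?_
    rintro _ ⟨g, rfl⟩
    exact (le_sup_right : δ.range ≤ _) ⟨(g, 1), by rw [hδ]; simp⟩
  · intro m
    change α (μ m) = δ (1, m)
    rw [hδ, map_one, one_mul]
  · intro P _ f k hfk
    have hk : ∀ g m, k (g, m) = k (g, 1) * f (μ m) := by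
      intro g m
      rw [hfk m]
      change k (g, m) = k (g, 1) * k (1, m)
      rw [← map_mul]
      simp
    obtain ⟨F, h1, h2⟩ := h.univ P f (k.comp (MonoidHom.inl G M)) (by
      intro w hw g
      have h1 : w ∈ μ.range := by rw [hμ]; exact Subgroup.subset_closure hw
      obtain ⟨m, rfl⟩ := h1
      rw [hfk m]
      change k (1, m) * k (g, 1) = k (g, 1) * k (1, m)
      rw [← map_mul, ← map_mul]
      simp)
    refine ⟨F, h1, ?_⟩
    rintro ⟨g, m⟩
    rw [hδ, map_mul, h2, h1, hk]
    rfl

/-- the relators -/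
def relL (pD pG : Pres) (ws : List Word) : List Word :=
  pD.2 ++ (pG.2.map (shift pD.1) ++ ws.flatMap fun w => (List.range pG.1).map fun j =>
    cw w (pD.1 + j))

/-- the presentation -/
def presL (pD pG : Pres) (ws : List Word) : Pres := (pD.1 + pG.1, relL pD pG ws)

theorem presL_primrec (pD pG : Pres) : Primrec (presL pD pG) := by
  unfold presL relL
  refine Primrec.pair (Primrec.const _) (Primrec.list_append.comp (Primrec.const _)
    (Primrec.list_append.comp (Primrec.const _) (Primrec.list_flatMap Primrec.id ?_)))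
  refine Primrec.list_map (Primrec.const _) ?_
  exact cw_primrec.comp (Primrec.snd.comp Primrec.fst)
    (Primrec.nat_add.comp (Primrec.const _) Primrec.snd)

theorem mem_relL {pD pG : Pres} {ws : List Word} {r : Word} : r ∈ relL pD pG ws ↔
    r ∈ pD.2 ∨ (∃ r' ∈ pG.2, shift pD.1 r' = r) ∨
      ∃ w ∈ ws, ∃ j, j < pG.1 ∧ cw w (pD.1 + j) = r := by
  unfold relL
  simp only [List.mem_append, List.mem_map, List.mem_flatMap, List.mem_range]

theorem togL_gp {D G : Type} [Group D] [Group G] {pD pG : Pres} {gD : ℕ → D} {gG : ℕ → G}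
    (hD : IsPres D pD gD) (hG : IsPres G pG gG) (cD : Clean pD) (cG : Clean pG) {ws : List Word}
    (hw : ∀ w ∈ ws, ∀ l ∈ w, l.1 < pD.1) :
    ∃ (α : D →* Gp (presL pD pG ws)) (β : G →* Gp (presL pD pG ws)),
      TogL (ev gD '' {w | w ∈ ws}) α β := by
  classical
  have hp := isPres_gp (presL pD pG ws)
  set o : ℕ → Gp (presL pD pG ws) := fun i => PresentedGroup.of i with ho
  obtain ⟨α, hα'⟩ := hD.univ _ (fun i => if i < pD.1 then o i else 1) (by
    intro i hi
    rw [if_neg (not_lt.2 hi)]) (by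
    intro r hr
    have h1 : ev o r = 1 := hp.rel r (mem_relL.2 (Or.inl hr))
    rw [← h1]
    apply ev_congr
    intro l hl
    rw [if_pos (cD r hr l hl)])
  obtain ⟨β, hβ'⟩ := hG.univ _ (fun i => if i < pG.1 then o (pD.1 + i) else 1) (by
    intro i hi
    rw [if_neg (not_lt.2 hi)]) (by
    intro r hr
    have h1 : ev o (shift pD.1 r) = 1 := hp.rel _ (mem_relL.2 (Or.inr (Or.inl ⟨r, hr, rfl⟩)))
    rw [ev_shift] at h1
    rw [← h1]
    apply ev_congr
    intro l hl
    rw [if_pos (cG r hr l hl)])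
  have hα : ∀ i, i < pD.1 → α (gD i) = o i := fun i hi => by rw [hα', if_pos hi]
  have hβ : ∀ i, i < pG.1 → β (gG i) = o (pD.1 + i) := fun i hi => by rw [hβ', if_pos hi]
  refine ⟨α, β, ?_, ?_, ?_⟩
  · rw [eq_top_iff, ← hp.gen, Subgroup.closure_le]
    rintro _ ⟨i, rfl⟩
    by_cases h1 : i < pD.1
    · have h2 := hα i h1
      exact (le_sup_left : α.range ≤ _) ⟨_, h2⟩
    · by_cases h2 : i < pD.1 + pG.1
      · have h3 := hβ (i - pD.1) (by omega)
        have h4 : pD.1 + (i - pD.1) = i := by omega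
        rw [h4] at h3
        exact (le_sup_right : β.range ≤ _) ⟨_, h3⟩
      · have h3 := hp.big i (not_lt.1 h2)
        have h4 : o i = 1 := h3
        change o i ∈ α.range ⊔ β.range
        rw [h4]
        exact one_mem _
  · rintro _ ⟨w, hws, rfl⟩
    refine pres_commute hG β _ ?_
    intro j hj
    rw [ev_parts α o hα (hw w hws), hβ j hj, ← ev_cw_one]
    exact hp.rel _ (mem_relL.2 (Or.inr (Or.inr ⟨w, hws, j, hj, rfl⟩)))
  · intro P _ f h hfh
    obtain ⟨F, hF⟩ := hp.univ P (comb pD.1 pG.1 (fun i => f (gD i)) (fun i => h (gG i)) 1) (by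
      intro i hi
      have hi' : pD.1 + pG.1 ≤ i := hi
      rcases eq_or_lt_of_le hi' with h1 | h1
      · rw [← h1, comb_c]
      · exact comb_d h1) (by
      intro r hr
      rcases mem_relL.1 hr with hr | ⟨r', hr', rfl⟩ | ⟨w, hws, j, hj, rfl⟩
      · have h1 := hD.rel r hr
        have h2 : f (ev gD r) = 1 := by rw [h1, map_one]
        rw [← h2, ev_map]
        apply ev_congr
        intro l hl
        rw [comb_a (cD r hr l hl)]
      · have h1 := hG.rel r' hr'
        have h2 : h (ev gG r') = 1 := by rw [h1, map_one]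
        rw [← h2, ev_map, ev_shift]
        apply ev_congr
        intro l hl
        rw [comb_b (cG r' hr' l hl)]
      · rw [ev_cw_one, comb_b hj]
        have h3 : ev (comb pD.1 pG.1 (fun i => f (gD i)) (fun i => h (gG i)) 1) w =
            f (ev gD w) := by
          rw [ev_map]
          apply ev_congr
          intro l hl
          rw [comb_a (hw w hws l hl)]
        rw [h3]
        exact hfh _ ⟨w, hws, rfl⟩ _)
    refine ⟨F, ?_, ?_⟩
    · intro d
      refine pres_hom_ext hD (F.comp α) f ?_ d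
      intro i hi
      rw [MonoidHom.comp_apply, hα i hi]
      have := hF i
      rw [comb_a hi] at this
      exact this
    · intro x
      refine pres_hom_ext hG (F.comp β) h ?_ x
      intro i hi
      rw [MonoidHom.comp_apply, hβ i hi]
      have := hF (pD.1 + i)
      rw [comb_b hi] at this
      exact this

/-- the words of the generators of the subgroups -/
def gword (x y z x' y' z' f f' : Word) (s c : ℕ) : List Word :=
  [z, wpow x s, winv (wpow x c) ++ (y ++ wpow x c), z', wpow x' s,
    winv (wpow x' c) ++ (y' ++ wpow x' c), f, f']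

theorem ev_gword {D : Type} [Group D] (g : ℕ → D) (x y z x' y' z' f f' : Word) (s c : ℕ) :
    ev g '' {w | w ∈ gword x y z x' y' z' f f' s c} =
      gens (ev g x) (ev g y) (ev g z) (ev g x') (ev g y') (ev g z') (ev g f) (ev g f') s c := by
  have h1 : ∀ a b : Word, ev g (winv (wpow a c) ++ (b ++ wpow a c)) =
      (ev g a ^ c)⁻¹ * ev g b * ev g a ^ c := by
    intro a b
    rw [ev_append, ev_append, ev_inv, ev_wpow, mul_assoc]
  unfold gword gens
  ext v
  simp only [Set.mem_image, Set.mem_ofPred_eq, List.mem_cons, List.not_mem_nil, or_false,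
    Set.mem_insert_iff, Set.mem_singleton_iff]
  constructor
  · rintro ⟨w, hw, rfl⟩
    rcases hw with rfl | rfl | rfl | rfl | rfl | rfl | rfl | rfl
    · exact Or.inl rfl
    · rw [ev_wpow]; simp
    · rw [h1]; simp
    · simp
    · rw [ev_wpow]; simp
    · rw [h1]; simp
    · simp
    · simp
  · rintro (rfl | rfl | rfl | rfl | rfl | rfl | rfl | rfl)
    · exact ⟨z, by simp, rfl⟩
    · exact ⟨wpow x s, by simp, ev_wpow g x s⟩
    · exact ⟨_, Or.inr (Or.inr (Or.inl rfl)), h1 x y⟩
    · exact ⟨z', by simp, rfl⟩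
    · exact ⟨wpow x' s, by simp, ev_wpow g x' s⟩
    · exact ⟨_, Or.inr (Or.inr (Or.inr (Or.inr (Or.inr (Or.inl rfl))))), h1 x' y'⟩
    · exact ⟨f, by simp, rfl⟩
    · exact ⟨f', by simp, rfl⟩

theorem gword_clean {x y z x' y' z' f f' : Word} {N : ℕ} (hx : ∀ l ∈ x, l.1 < N)
    (hy : ∀ l ∈ y, l.1 < N) (hz : ∀ l ∈ z, l.1 < N) (hx' : ∀ l ∈ x', l.1 < N)
    (hy' : ∀ l ∈ y', l.1 < N) (hz' : ∀ l ∈ z', l.1 < N) (hf : ∀ l ∈ f, l.1 < N)
    (hf' : ∀ l ∈ f', l.1 < N) (s c : ℕ) :
    ∀ w ∈ gword x y z x' y' z' f f' s c, ∀ l ∈ w, l.1 < N := by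
  intro w hw
  unfold gword at hw
  simp only [List.mem_cons, List.not_mem_nil, or_false] at hw
  rcases hw with rfl | rfl | rfl | rfl | rfl | rfl | rfl | rfl
  · exact hz
  · exact wpow_clean hx s
  · exact append_clean (winv_clean (wpow_clean hx c)) (append_clean hy (wpow_clean hx c))
  · exact hz'
  · exact wpow_clean hx' s
  · exact append_clean (winv_clean (wpow_clean hx' c)) (append_clean hy' (wpow_clean hx' c))
  · exact hf
  · exact hf'

theorem gword_primrec (x y z x' y' z' f f' : Word) {s c : ℕ → ℕ} (hs : Primrec s)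
    (hc : Primrec c) : Primrec fun e => gword x y z x' y' z' f f' (s e) (c e) := by
  unfold gword
  have h1 : ∀ a : Word, Primrec fun e => wpow a (s e) := fun a => (wpow_primrec a).comp hs
  have h2 : ∀ a : Word, Primrec fun e => wpow a (c e) := fun a => (wpow_primrec a).comp hc
  have h3 : ∀ a b : Word, Primrec fun e => winv (wpow a (c e)) ++ (b ++ wpow a (c e)) :=
    fun a b => Primrec.list_append.comp (winv_primrec.comp (h2 a))
      (Primrec.list_append.comp (Primrec.const _) (h2 a))
  exact Primrec.list_cons.comp (Primrec.const _) (Primrec.list_cons.comp (h1 x)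
    (Primrec.list_cons.comp (h3 x y) (Primrec.list_cons.comp (Primrec.const _)
    (Primrec.list_cons.comp (h1 x') (Primrec.list_cons.comp (h3 x' y')
    (Primrec.list_cons.comp (Primrec.const _) (Primrec.list_cons.comp (Primrec.const _)
    (Primrec.const _))))))))

end Pool.Agent.SDec
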