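import Pool.Agent.SDec.Eul
import Pool.Agent.SDec.PresL
import Pool.Agent.SDec.Fin2

/-!
# The main theorem for limit computable functions
-/

set_option autoImplicit false

namespace Pool.Agent.SDec

open Pool.Agent.Hhelper49.Srr Pool.Agent.Hhelper49.Srf Pool.Agent.SFP

theorem eulLike : EulLike Eul where
  free := eul_free
  amal := fun h hA hB hC => eul_amal h hA hB hC
  prod := fun r h => eul_prodFree h r

theorem limit_hard (G : Type) [Group G] (hG : Group.IsFinitelyPresented G) (hF : TypeFP G)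
    (n₁ n₂ : ℕ → ℕ) (h₁ : REPred fun p : ℕ => p.unpair.2 < n₁ p.unpair.1)
    (h₂ : REPred fun p : ℕ => p.unpair.2 < n₂ p.unpair.1) :
    ∃ f : ℕ → Pres, Primrec f ∧ ∀ e, TypeFP (Gp (f e)) ∧ NoFin (Gp (f e)) ∧
      (∀ m, FreeRes m (Gp (f e)) ↔ FreeRes (m * ((n₁ e : ℤ) - n₂ e - 1).natAbs) G) ∧
      ∃ j : G →* Gp (f e), Function.Injective j := by
  obtain ⟨D0, iD0, x, y, z, x', y', z', a, a', hD0, hM⟩ := exists_dhat Eul eulLike n₁ n₂ h₁ h₂
  obtain ⟨D, iD, jD, hjD, fD, pD', rD, nD⟩ := embFp D0 hD0.fp (typeFP_of_typeFF _ hD0.ff)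
  have hDF : TypeFF D := (typeFF_iff D).2 ((rD 1).2 ((typeFF_iff D0).1 hD0.ff))
  obtain ⟨G', iG', jG, hjG, fG, pG', rG, nG⟩ := embFp G hG hF
  obtain ⟨pD, gD, cD, hpD⟩ := exists_clean D fD
  obtain ⟨pG, gG, cG, hpG⟩ := exists_clean G' fG
  obtain ⟨wx, hwx, ex⟩ := exists_word hpD (jD x)
  obtain ⟨wy, hwy, ey⟩ := exists_word hpD (jD y)
  obtain ⟨wz, hwz, ez⟩ := exists_word hpD (jD z)
  obtain ⟨wx', hwx', ex'⟩ := exists_word hpD (jD x')
  obtain ⟨wy', hwy', ey'⟩ := exists_word hpD (jD y')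
  obtain ⟨wz', hwz', ez'⟩ := exists_word hpD (jD z')
  obtain ⟨wa, hwa, ea⟩ := exists_word hpD (jD a)
  obtain ⟨wa', hwa', ea'⟩ := exists_word hpD (jD a')
  let W : ℕ → List Word := fun e => gword wx wy wz wx' wy' wz' wa wa' (stp e) (offs e)
  have hW : Primrec W := gword_primrec wx wy wz wx' wy' wz' wa wa' stp_primrec offs_primrec
  refine ⟨fun e => presL pD pG (W e), (presL_primrec pD pG).comp hW, fun e => ?_⟩
  obtain ⟨M, iM, μ0, hE, hμ0, hr0, -⟩ := hM e
  have hcl : ∀ w ∈ W e, ∀ l ∈ w, l.1 < pD.1 :=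
    gword_clean hwx hwy hwz hwx' hwy' hwz' hwa hwa' (stp e) (offs e)
  obtain ⟨α, β, hT⟩ := togL_gp hpD hpG cD cG hcl
  have hset : ev gD '' {w | w ∈ W e} = jD '' gens x y z x' y' z' a a' (stp e) (offs e) := by
    change ev gD '' {w | w ∈ gword wx wy wz wx' wy' wz' wa wa' (stp e) (offs e)} = _
    rw [ev_gword, ex, ey, ez, ex', ey', ez', ea, ea']
    unfold gens
    simp only [Set.image_insert_eq, Set.image_singleton, map_mul, map_inv, map_pow]
  have hμr : (jD.comp μ0).range = Subgroup.closure (ev gD '' {w | w ∈ W e}) := by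
    rw [hset, MonoidHom.range_comp, hr0, MonoidHom.map_closure]
  obtain ⟨δ, hδ, hP⟩ := togL_push hT (jD.comp μ0) hμr
  have hμi : Function.Injective (jD.comp μ0) := by
    rw [MonoidHom.coe_comp]
    exact hjD.comp hμ0
  obtain ⟨a1, a2, a3, a4⟩ := eul_final hμi hP hDF hE pG'
  refine ⟨a1, noFin_two nD nG α β hT.gen, fun m => ?_, β.comp jG, ?_⟩
  · rw [a2 m, rG]
  · have h1 : Function.Injective β := by
      intro u v huv
      apply a3
      change δ (u, 1) = δ (v, 1)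
      rw [hδ, hδ, huv]
    exact h1.comp hjG

/-- the direct product -/
theorem eul_prod {M G : Type} [Group M] [Group G] {c : ℤ} (hM : Eul M c) (hG : TypeFP G) :
    TypeFP (G × M) ∧ ∀ m, FreeRes m (G × M) ↔ FreeRes (m * c.natAbs) G := by
  have hP : IsPush (MonoidHom.inr G M) (MonoidHom.id (G × M)) (MonoidHom.id M)
      (MonoidHom.inr G M) :=
    { gen := by
        rw [eq_top_iff]
        intro x _
        exact (le_sup_right : (MonoidHom.id (G × M)).range ≤ _) ⟨x, rfl⟩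
      comm := fun c => rfl
      univ := fun P _ f g h => ⟨g, fun c => (h c).symm, fun b => rfl⟩ }
  obtain ⟨a1, a2, -, -⟩ := eul_final (Function.injective_id : Function.Injective
    (MonoidHom.id M)) hP hM.ff hM hG
  exact ⟨a1, a2⟩

end Pool.Agent.SDec
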