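import Pool.Agent.SDec.EulG
import Pool.Agent.SDec.Diag

/-!
# The limit computable form: one fixed group, the diagonal argument, the equivalences
-/

set_option autoImplicit false

namespace Pool.Agent.SDec

open Pool.Agent.Hhelper49.Srr Pool.Agent.Hhelper49.Srf Pool.Agent.SFP

/-- the subgroup of `Gp p` generated by the values of the words of a list -/
def subW (p : Pres) (W : List Word) : Subgroup (Gp p) :=
  Subgroup.closure {x | ∃ w ∈ W, x = PresentedGroup.mk (relSet p) (FreeGroup.mk w)}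

theorem iso_gp2 {G : Type} [Group G] {p : Pres} {g : ℕ → G} (h : IsPres G p g) :
    ∃ e : Gp p ≃* G, ∀ w : Word, e (PresentedGroup.mk (relSet p) (FreeGroup.mk w)) = ev g w := by
  have hp := isPres_gp p
  obtain ⟨F, hF⟩ := h.univ (Gp p) (fun i => PresentedGroup.of i) hp.big hp.rel
  obtain ⟨F', hF'⟩ := hp.univ G g h.big h.rel
  have h1 : F'.comp F = MonoidHom.id G := by
    ext x
    refine pres_hom_ext h (F'.comp F) (MonoidHom.id G) ?_ x
    intro i _
    rw [MonoidHom.comp_apply, hF]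
    exact hF' i
  have h2 : F.comp F' = MonoidHom.id (Gp p) := by
    refine MonoidHom.ext fun x => ?_
    refine pres_hom_ext hp (F.comp F') (MonoidHom.id (Gp p)) ?_ x
    intro i _
    have := hF' i
    rw [MonoidHom.comp_apply, this]
    exact hF i
  refine ⟨MonoidHom.toMulEquiv F' F h2 h1, fun w => ?_⟩
  have h3 : F'.comp (PresentedGroup.mk (relSet p)) = FreeGroup.lift g := by
    apply FreeGroup.ext_hom
    intro i
    rw [FreeGroup.lift_apply_of]
    exact hF' i
  exact DFunLike.congr_fun h3 (FreeGroup.mk w)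

theorem fpres_congr {G H : Type} [Group G] [Group H] (e : G ≃* H)
    (h : Group.IsFinitelyPresented G) : Group.IsFinitelyPresented H :=
  Group.IsFinitelyPresented.equiv e

theorem sub_equiv {G H U : Type} [Group G] [Group H] [Group U] (e : H ≃* U) (ν : G →* U)
    (hν : Function.Injective ν) (S : Subgroup H) (h : S.map (e : H →* U) = ν.range) :
    Nonempty (G ≃* S) :=
  ⟨(MonoidHom.ofInjective hν).trans ((MulEquiv.subgroupCongr h.symm).trans
    (e.subgroupMap S).symm)⟩

theorem freeRes_congr3 {G H : Type} [Group G] [Group H] (e : G ≃* H) (m : ℕ) :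
    FreeRes m G ↔ FreeRes m H :=
  ⟨freeRes_congr m G H e,
    freeRes_congr m H G e.symm⟩

theorem typeFF_congr3 {G H : Type} [Group G] [Group H] (e : G ≃* H) (h : TypeFF G) : TypeFF H :=
  (typeFF_iff H).2 ((freeRes_congr3 e 1).1 ((typeFF_iff G).1 h))

theorem fixed_hard (G : Type) [Group G] (hG : Group.IsFinitelyPresented G) (hF : TypeFP G)
    (n₁ n₂ : ℕ → ℕ) (h₁ : REPred fun p : ℕ => p.unpair.2 < n₁ p.unpair.1)
    (h₂ : REPred fun p : ℕ => p.unpair.2 < n₂ p.unpair.1) :
    ∃ (p : Pres) (W : ℕ → List Word), TypeFF (Gp p) ∧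
      (∃ j : G →* Gp p, Function.Injective j) ∧ Primrec W ∧ ∀ e,
        Group.IsFinitelyPresented (subW p (W e)) ∧ TypeFP (subW p (W e)) ∧
        ∀ m, FreeRes m (subW p (W e)) ↔ FreeRes (m * ((n₁ e : ℤ) - n₂ e - 1).natAbs) G := by
  obtain ⟨D, iD, x, y, z, x', y', z', a, a', hD, hM⟩ := exists_dhat Eul eulLike n₁ n₂ h₁ h₂
  obtain ⟨c, hc⟩ := eul_of_ff D hD.ff
  have E := eul_prodFree hc 1
  obtain ⟨u1, u2⟩ := eul_prod E hF
  let U := G × (D × FreeGroup (Fin 1))
  have uF : TypeFF U := by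
    rw [typeFF_iff]
    refine (u2 1).2 ?_
    have h0 : 1 * (c * (1 - ((1 : ℕ) : ℤ))).natAbs = 0 := by simp
    rw [h0]
    exact freeRes_zero G
  have hDp := hD.fp
  have uP : Group.IsFinitelyPresented U := by
    have := hG
    have h1 : Group.IsFinitelyPresented (D × FreeGroup (Fin 1)) :=
      Pool.Agent.SFP.prod_fpres D (FreeGroup (Fin 1))
    exact Pool.Agent.SFP.prod_fpres G (D × FreeGroup (Fin 1))
  obtain ⟨p, g, cp, hp⟩ := exists_clean U uP
  obtain ⟨φ, hφ⟩ := iso_gp2 hp
  let ι : D →* U := (MonoidHom.inr G (D × FreeGroup (Fin 1))).comp (MonoidHom.inl D _)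
  have hι : Function.Injective ι := by
    intro s t hst
    exact congrArg (fun q : U => q.2.1) hst
  obtain ⟨wx, -, ex⟩ := exists_word hp (ι x)
  obtain ⟨wy, -, ey⟩ := exists_word hp (ι y)
  obtain ⟨wz, -, ez⟩ := exists_word hp (ι z)
  obtain ⟨wx', -, ex'⟩ := exists_word hp (ι x')
  obtain ⟨wy', -, ey'⟩ := exists_word hp (ι y')
  obtain ⟨wz', -, ez'⟩ := exists_word hp (ι z')
  obtain ⟨wa, -, ea⟩ := exists_word hp (ι a)
  obtain ⟨wa', -, ea'⟩ := exists_word hp (ι a')
  obtain ⟨pG, gG, cG, hpG⟩ := exists_clean G hG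
  choose wG hwG eG using fun i => exists_word hp (MonoidHom.inl G (D × FreeGroup (Fin 1)) (gG i))
  let LG : List Word := (List.range pG.1).map wG
  have hLG : Subgroup.closure (ev g '' {w | w ∈ LG}) =
      (MonoidHom.inl G (D × FreeGroup (Fin 1))).range := by
    apply le_antisymm
    · rw [Subgroup.closure_le]
      rintro _ ⟨w, hw, rfl⟩
      obtain ⟨i, -, rfl⟩ := List.mem_map.1 hw
      exact ⟨gG i, (eG i).symm⟩
    · rw [MonoidHom.range_eq_map, ← hpG.gen, MonoidHom.map_closure, Subgroup.closure_le]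
      rintro _ ⟨_, ⟨i, rfl⟩, rfl⟩
      by_cases hi : i < pG.1
      · rw [← eG i]
        exact Subgroup.subset_closure ⟨wG i, List.mem_map.2 ⟨i, List.mem_range.2 hi, rfl⟩, rfl⟩
      · rw [hpG.big i (not_lt.1 hi), map_one]
        exact Subgroup.one_mem _
  let V : ℕ → List Word := fun e => gword wx wy wz wx' wy' wz' wa wa' (stp e) (offs e)
  have hV : Primrec V := gword_primrec wx wy wz wx' wy' wz' wa wa' stp_primrec offs_primrec
  refine ⟨p, fun e => LG ++ V e, typeFF_congr3 φ.symm uF,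
    ⟨(φ.symm : U →* Gp p).comp (MonoidHom.inl G _), ?_⟩,
    Primrec.list_append.comp (Primrec.const _) hV, fun e => ?_⟩
  · exact φ.symm.injective.comp fun s t h => congrArg Prod.fst h
  obtain ⟨M, iM, μ, hE, hμ, hr, hMp⟩ := hM e
  let ν : G × M →* U := MonoidHom.prodMap (MonoidHom.id G) ((MonoidHom.inl D _).comp μ)
  have hν : Function.Injective ν := by
    rintro ⟨s1, s2⟩ ⟨t1, t2⟩ hst
    have e1 : s1 = t1 := congrArg Prod.fst hst
    have e2 : μ s2 = μ t2 := congrArg (fun q : U => q.2.1) hst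
    rw [e1, hμ e2]
  have hset : ev g '' {w | w ∈ V e} = ι '' gens x y z x' y' z' a a' (stp e) (offs e) := by
    change ev g '' {w | w ∈ gword wx wy wz wx' wy' wz' wa wa' (stp e) (offs e)} = _
    rw [ev_gword, ex, ey, ez, ex', ey', ez', ea, ea']
    unfold gens
    simp only [Set.image_insert_eq, Set.image_singleton, map_mul, map_inv, map_pow]
  have hrν : ν.range = Subgroup.closure (ev g '' {w | w ∈ LG ++ V e}) := by
    have h1 : {w | w ∈ LG ++ V e} = {w | w ∈ LG} ∪ {w | w ∈ V e} := by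
      ext w
      simp
    rw [h1, Set.image_union, Subgroup.closure_union, hLG, hset, ← MonoidHom.map_closure, ← hr,
      ← MonoidHom.range_comp]
    apply le_antisymm
    · rintro _ ⟨⟨s, t⟩, rfl⟩
      have h2 : ((s, t) : G × M) = (s, 1) * (1, t) := by simp
      rw [h2, map_mul]
      refine Subgroup.mul_mem _ (Subgroup.mem_sup_left ⟨s, ?_⟩) (Subgroup.mem_sup_right ⟨t, ?_⟩)
      · exact Prod.ext rfl (Prod.ext (map_one μ).symm rfl)
      · exact Prod.ext rfl rfl
    · refine sup_le ?_ ?_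
      · rintro _ ⟨s, rfl⟩
        exact ⟨(s, 1), Prod.ext rfl (Prod.ext (map_one μ) rfl)⟩
      · rintro _ ⟨t, rfl⟩
        exact ⟨(1, t), rfl⟩
  have hmap : (subW p (LG ++ V e)).map (φ : Gp p →* U) = ν.range := by
    rw [hrν]
    unfold subW
    rw [MonoidHom.map_closure]
    congr 1
    ext u
    constructor
    · rintro ⟨_, ⟨w, hw, rfl⟩, rfl⟩
      exact ⟨w, hw, (hφ w).symm⟩
    · rintro ⟨w, hw, rfl⟩
      exact ⟨_, ⟨w, hw, rfl⟩, hφ w⟩
  obtain ⟨ε⟩ := sub_equiv φ ν hν _ hmap
  obtain ⟨v1, v2⟩ := eul_prod hE hF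
  have vP : Group.IsFinitelyPresented (G × M) := by
    have := hG
    exact Pool.Agent.SFP.prod_fpres G M
  refine ⟨fpres_congr ε vP, typeFP_congr ε v1, fun m => ?_⟩
  exact (freeRes_congr3 ε m).symm.trans (v2 m)

/-- a family of presentations for every limit computable function -/
theorem lim_family (G : Type) [Group G] (hG : Group.IsFinitelyPresented G) (hF : TypeFP G)
    (c : ℕ → ℕ) (hc : LimComp c) :
    ∃ f : ℕ → Pres, Primrec f ∧ ∀ e, TypeFP (Gp (f e)) ∧ NoFin (Gp (f e)) ∧
      (∀ m, FreeRes m (Gp (f e)) ↔ FreeRes (m * c e) G) ∧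
      ∃ j : G →* Gp (f e), Function.Injective j := by
  obtain ⟨n₁, n₂, h₁, h₂, h₃⟩ := lim_diff c hc
  have h := limit_hard G hG hF n₁ n₂ h₁ h₂
  have h4 : ∀ e, ((n₁ e : ℤ) - n₂ e - 1).natAbs = c e := fun e => by
    rw [h₃]
    exact Int.natAbs_natCast _
  simp only [h4] at h
  exact h

/-- a family of subgroups of one group of type (FF) for every limit computable function -/
theorem lim_fixed (G : Type) [Group G] (hG : Group.IsFinitelyPresented G) (hF : TypeFP G)
    (c : ℕ → ℕ) (hc : LimComp c) :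
    ∃ (p : Pres) (W : ℕ → List Word), TypeFF (Gp p) ∧
      (∃ j : G →* Gp p, Function.Injective j) ∧ Primrec W ∧ ∀ e,
        Group.IsFinitelyPresented (subW p (W e)) ∧ TypeFP (subW p (W e)) ∧
        ∀ m, FreeRes m (subW p (W e)) ↔ FreeRes (m * c e) G := by
  obtain ⟨n₁, n₂, h₁, h₂, h₃⟩ := lim_diff c hc
  have h := fixed_hard G hG hF n₁ n₂ h₁ h₂
  have h4 : ∀ e, ((n₁ e : ℤ) - n₂ e - 1).natAbs = c e := fun e => by
    rw [h₃]
    exact Int.natAbs_natCast _
  simp only [h4] at h
  exact h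

theorem decides_const {A : Prop} {g : ℕ → Bool} {b : ℕ} (v : Bool) (h : ∀ s, g s = v)
    (hA : v = true ↔ A) : Decides g b A := by
  refine ⟨fun t => ?_, 0, fun s _ => by rw [h]; exact hA⟩
  have h1 : ((Finset.range t).filter fun s => g s ≠ g (s + 1)) = ∅ := by
    apply Finset.filter_false_of_mem
    intro s _
    rw [h, h]
    simp
  rw [h1]
  simp

/-- the diagonal argument -/
theorem no_decides (G : Type) [Group G] (hF : ¬ FreeRes 1 G) (F : ℕ → Prop)
    (hFe : ∀ e, F e ↔ FreeRes (1 * diagc e) G) (g : ℕ → ℕ → Bool) (b : ℕ → ℕ)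
    (hg : Computable₂ g) (hb : Computable b) (hd : ∀ e, Decides (g e) (b e) (F e)) : False := by
  have hg' : Computable₂ fun (e s : ℕ) => (g e s).toNat := by
    have h1 : Computable fun x : Bool => x.toNat := by
      have h2 : Primrec fun x : Bool => x.toNat := Primrec.dom_finite _
      exact h2.to_comp
    exact h1.comp hg
  obtain ⟨e, he⟩ := diagc_diag _ b hg' hb
  obtain ⟨h1, s₀, h2⟩ := hd e
  have hne : ∀ x y : Bool, x.toNat ≠ y.toNat ↔ x ≠ y := by
    intro x y
    cases x <;> cases y <;> simp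
  obtain ⟨s₁, h3⟩ := he (by
    intro t
    refine le_trans (le_of_eq ?_) (h1 t)
    unfold chg
    congr 1
    apply Finset.filter_congr
    intro s _
    exact hne _ _)
  have h4 := h2 (max s₀ s₁) (le_max_left _ _)
  have h5 : (g e (max s₀ s₁)).toNat = diagc e := h3 (max s₀ s₁) (le_max_right _ _)
  rcases h6 : g e (max s₀ s₁) with _ | _
  · rw [h6] at h4 h5
    have h7 : F e := by
      rw [hFe, ← h5]
      exact freeRes_zero G
    exact absurd (h4.2 h7) (by simp)
  · rw [h6] at h4 h5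
    have h7 := (hFe e).1 (h4.1 rfl)
    rw [← h5] at h7
    exact hF h7

open Classical in
theorem limSet_comp {S : Set ℕ} (hS : LimSet S) : LimComp fun e => if e ∈ S then 0 else 1 := by
  obtain ⟨g, hg, h⟩ := hS
  refine ⟨fun e s => (!g e s).toNat, ?_, fun e => ?_⟩
  · have h1 : Computable fun x : Bool => (!x).toNat := by
      have h2 : Primrec fun x : Bool => (!x).toNat := Primrec.dom_finite _
      exact h2.to_comp
    exact h1.comp hg
  · obtain ⟨s₀, h2⟩ := h e
    refine ⟨s₀, fun s hs => ?_⟩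
    have h3 := h2 s hs
    change (!g e s).toNat = if e ∈ S then 0 else 1
    by_cases he : e ∈ S
    · rw [if_pos he, h3.2 he]
      rfl
    · rw [if_neg he]
      have h4 : g e s = false := by
        by_contra h5
        exact he (h3.1 (by simpa using h5))
      simp [h4]

/-- Serre's question for finitely presented groups as a decidability question -/
theorem serre_lim :
    List.TFAE [∀ (G : Type) [Group G], Group.IsFinitelyPresented G → TypeFP G → TypeFF G,
      ∃ q : Pres → Prop, ComputablePred q ∧ ∀ p, TypeFP (Gp p) → (q p ↔ TypeFF (Gp p)),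
      ∃ (g : Pres → ℕ → Bool) (b : Pres → ℕ), Computable₂ g ∧ Computable b ∧
        ∀ p, TypeFP (Gp p) → NoFin (Gp p) → Decides (g p) (b p) (TypeFF (Gp p)),
      ∃ S : Set ℕ, LimSet S ∧ ¬ ∃ f : ℕ → Pres, Computable f ∧
        ∀ e, TypeFP (Gp (f e)) ∧ NoFin (Gp (f e)) ∧ (e ∈ S ↔ TypeFF (Gp (f e))),
      ∀ p : Pres, TypeFF (Gp p) → ∃ (g : List Word → ℕ → Bool) (b : List Word → ℕ),
        Computable₂ g ∧ Computable b ∧ ∀ W, Group.IsFinitelyPresented (subW p W) →
          TypeFP (subW p W) → Decides (g W) (b W) (TypeFF (subW p W))] := by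
  have key : ∀ (P : Prop), (∀ (G : Type) [Group G], Group.IsFinitelyPresented G → TypeFP G →
      ¬ FreeRes 1 G → ¬ P) → P → ∀ (G : Type) [Group G], Group.IsFinitelyPresented G →
      TypeFP G → TypeFF G := by
    intro P h hP G _ hG hF
    rw [typeFF_iff]
    by_contra h1
    exact h G hG hF h1 hP
  tfae_have 1 → 2 := by
    intro h
    refine ⟨fun _ => True, ⟨fun _ => isTrue trivial, ?_⟩, fun p hp => ?_⟩
    · exact (Computable.const true).of_eq fun _ => by simp
    · exact ⟨fun _ => h _ (gp_fpres p) hp, fun _ => trivial⟩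
  tfae_have 2 → 3 := by
    rintro ⟨q, ⟨dq, hq⟩, h⟩
    refine ⟨fun p _ => decide (q p), fun _ => 0, hq.comp Computable.fst, Computable.const 0, ?_⟩
    intro p hp _
    exact decides_const (decide (q p)) (fun _ => rfl) (by rw [decide_eq_true_iff]; exact h p hp)
  tfae_have 3 → 1 := by
    refine key _ fun G _ hG hF h1 => ?_
    rintro ⟨g, b, hg, hb, h⟩
    obtain ⟨f, hf, h2⟩ := lim_family G hG hF diagc diagc_lim
    refine no_decides G h1 (fun e => TypeFF (Gp (f e))) (fun e => ?_) (fun e s => g (f e) s)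
      (fun e => b (f e)) ?_ (hb.comp hf.to_comp) fun e => h (f e) (h2 e).1 (h2 e).2.1
    · rw [typeFF_iff]
      exact (h2 e).2.2.1 1
    · exact hg.comp (hf.to_comp.comp Computable.fst) Computable.snd
  tfae_have 1 → 4 := by
    intro h
    refine ⟨∅, ⟨fun _ _ => false, Computable.const false, fun e => ⟨0, fun s _ => by simp⟩⟩, ?_⟩
    rintro ⟨f, -, hf⟩
    obtain ⟨h1, -, h2⟩ := hf 0
    exact h2.2 (h _ (gp_fpres _) h1)
  tfae_have 4 → 1 := by
    refine key _ fun G _ hG hF h1 => ?_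
    rintro ⟨S, hS, h⟩
    obtain ⟨f, hf, h2⟩ := lim_family G hG hF _ (limSet_comp hS)
    refine h ⟨f, hf.to_comp, fun e => ⟨(h2 e).1, (h2 e).2.1, ?_⟩⟩
    rw [typeFF_iff, (h2 e).2.2.1 1]
    by_cases he : e ∈ S
    · rw [if_pos he]
      exact ⟨fun _ => freeRes_zero G, fun _ => he⟩
    · rw [if_neg he]
      exact ⟨fun h3 => absurd h3 he, fun h3 => absurd h3 h1⟩
  tfae_have 1 → 5 := by
    intro h p _
    refine ⟨fun _ _ => true, fun _ => 0, Computable.const true, Computable.const 0, ?_⟩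
    intro W h1 h2
    exact decides_const true (fun _ => rfl) ⟨fun _ => h _ h1 h2, fun _ => rfl⟩
  tfae_have 5 → 1 := by
    refine key _ fun G _ hG hF h1 => ?_
    intro h
    obtain ⟨p, W, hp, -, hW, h2⟩ := lim_fixed G hG hF diagc diagc_lim
    obtain ⟨g, b, hg, hb, h3⟩ := h p hp
    refine no_decides G h1 (fun e => TypeFF (subW p (W e))) (fun e => ?_) (fun e s => g (W e) s)
      (fun e => b (W e)) ?_ (hb.comp hW.to_comp) fun e => h3 (W e) (h2 e).1 (h2 e).2.1
    · rw [typeFF_iff]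
      exact (h2 e).2.2 1
    · exact hg.comp (hW.to_comp.comp Computable.fst) Computable.snd
  tfae_finish

end Pool.Agent.SDec
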