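import Pool.Agent.SDec.Model2

/-!
# Intersections of the subgroup of the accepted letters with two-generator free subgroups
-/

set_option autoImplicit false

namespace Pool.Agent.SDec

open Pool.Agent.Hhelper49.Srf Pool.Agent.Hhelper49.Srr

/-- the letters `a^(-i) b a^i` -/
def bI (i : ℤ) : FreeGroup (Fin 2) :=
  (FreeGroup.of 0 ^ i)⁻¹ * FreeGroup.of 1 * FreeGroup.of 0 ^ i

theorem bI_conj (i k : ℤ) :
    FreeGroup.of 0 ^ k * bI i * (FreeGroup.of 0 ^ k)⁻¹ = bI (i - k) := by
  unfold bI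
  rw [zpow_sub]
  group

/-- every element is a product of the letters and a power of `a` -/
theorem f2_form (w : FreeGroup (Fin 2)) :
    ∃ k : ℤ, ∃ n ∈ Subgroup.closure (Set.range bI), w = n * FreeGroup.of 0 ^ k := by
  have hconj : ∀ k : ℤ, ∀ n ∈ Subgroup.closure (Set.range bI),
      FreeGroup.of 0 ^ k * n * (FreeGroup.of 0 ^ k)⁻¹ ∈ Subgroup.closure (Set.range bI) := by
    intro k n hn
    induction hn using Subgroup.closure_induction with
    | mem y hy =>
      obtain ⟨i, rfl⟩ := hy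
      rw [bI_conj]
      exact Subgroup.subset_closure ⟨_, rfl⟩
    | one => simp
    | mul y z _ _ hy hz =>
      have h1 := Subgroup.mul_mem _ hy hz
      rwa [show FreeGroup.of 0 ^ k * y * (FreeGroup.of 0 ^ k)⁻¹ *
        (FreeGroup.of 0 ^ k * z * (FreeGroup.of 0 ^ k)⁻¹) =
        FreeGroup.of 0 ^ k * (y * z) * (FreeGroup.of 0 ^ k)⁻¹ by group] at h1
    | inv y _ hy =>
      have h1 := Subgroup.inv_mem _ hy
      rwa [show (FreeGroup.of 0 ^ k * y * (FreeGroup.of 0 ^ k)⁻¹)⁻¹ =
        FreeGroup.of 0 ^ k * y⁻¹ * (FreeGroup.of 0 ^ k)⁻¹ by group] at h1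
  have h0 : FreeGroup.of 1 ∈ Subgroup.closure (Set.range bI) :=
    Subgroup.subset_closure ⟨0, by simp [bI]⟩
  have hgen : ∀ i : Fin 2, ∃ k : ℤ, ∃ n ∈ Subgroup.closure (Set.range bI),
      FreeGroup.of i = n * FreeGroup.of 0 ^ k := by
    intro i
    fin_cases i
    · exact ⟨1, 1, Subgroup.one_mem _, by simp⟩
    · exact ⟨0, FreeGroup.of 1, h0, by simp⟩
  induction w using FreeGroup.induction_on with
  | C1 => exact ⟨0, 1, Subgroup.one_mem _, by simp⟩
  | of i => exact hgen i
  | inv_of i _ =>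
    obtain ⟨k, n, hn, h⟩ := hgen i
    refine ⟨-k, (FreeGroup.of 0 ^ (-k)) * n⁻¹ * (FreeGroup.of 0 ^ (-k))⁻¹,
      hconj _ _ (Subgroup.inv_mem _ hn), ?_⟩
    rw [h]
    group
  | mul a b ha hb =>
    obtain ⟨k, n, hn, rfl⟩ := ha
    obtain ⟨l, m, hm, rfl⟩ := hb
    refine ⟨k + l, n * (FreeGroup.of 0 ^ k * m * (FreeGroup.of 0 ^ k)⁻¹),
      Subgroup.mul_mem _ hn (hconj _ _ hm), ?_⟩
    rw [zpow_add]
    group

/-- the family of the letters is free -/
theorem kapA_inj {n : ℕ} (i : Fin n → ℤ) (hi : Function.Injective i) :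
    Function.Injective (FreeGroup.lift fun l => bI (i l) : FreeGroup (Fin n) →* FreeGroup (Fin 2)) := by
  classical
  let θ : ℤ → FreeGroup (Fin n) := fun p => if h : ∃ l, i l = p then FreeGroup.of h.choose else 1
  have hθ : ∀ l, θ (i l) = FreeGroup.of l := by
    intro l
    have h : ∃ l', i l' = i l := ⟨l, rfl⟩
    have h1 : θ (i l) = FreeGroup.of h.choose := dif_pos h
    rw [h1, hi h.choose_spec]
  let A : Equiv.Perm (ℤ × FreeGroup (Fin n)) :=
    { toFun := fun p => (p.1 + 1, p.2)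
      invFun := fun p => (p.1 - 1, p.2)
      left_inv := fun p => by simp
      right_inv := fun p => by simp }
  let B : Equiv.Perm (ℤ × FreeGroup (Fin n)) :=
    { toFun := fun p => (p.1, θ p.1 * p.2)
      invFun := fun p => (p.1, (θ p.1)⁻¹ * p.2)
      left_inv := fun p => by simp
      right_inv := fun p => by simp }
  let F : FreeGroup (Fin 2) →* Equiv.Perm (ℤ × FreeGroup (Fin n)) := FreeGroup.lift ![A, B]
  have hA : ∀ k : ℤ, ∀ p, (A ^ k) p = (p.1 + k, p.2) := by
    intro k
    induction k using Int.induction_on with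
    | zero => intro p; simp
    | succ k ih =>
      intro p
      rw [add_comm, zpow_add, zpow_one, Equiv.Perm.mul_apply, ih]
      change (p.1 + _ + 1, p.2) = _
      rw [add_assoc, add_comm (k : ℤ) 1]
    | pred k ih =>
      intro p
      rw [sub_eq_add_neg, add_comm, zpow_add, zpow_neg_one, Equiv.Perm.mul_apply, ih]
      change (p.1 + _ - 1, p.2) = _
      congr 1
      ring
  have hF : ∀ k : ℤ, ∀ g, F (bI k) (0, g) = (0, θ k * g) := by
    intro k g
    have h0 : F (FreeGroup.of 0) = A := by simp [F]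
    have h1 : F (FreeGroup.of 1) = B := by simp [F]
    rw [bI, map_mul, map_mul, map_inv, map_zpow, h0, h1, Equiv.Perm.mul_apply,
      Equiv.Perm.mul_apply, hA, Equiv.Perm.inv_eq_iff_eq, hA]
    change ((0 : ℤ) + k, θ (0 + k) * g) = _
    rw [zero_add]
  have key : ∀ w : FreeGroup (Fin n), ∀ g,
      F (FreeGroup.lift (fun l => bI (i l)) w) (0, g) = (0, w * g) := by
    intro w
    induction w using FreeGroup.induction_on with
    | C1 => intro g; simp
    | of l =>
      intro g
      rw [FreeGroup.lift_apply_of, hF, hθ]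
    | inv_of l _ =>
      intro g
      rw [map_inv, map_inv, Equiv.Perm.inv_eq_iff_eq, FreeGroup.lift_apply_of, hF, hθ]
      simp
    | mul a b ha hb =>
      intro g
      rw [map_mul, map_mul, Equiv.Perm.mul_apply, hb, ha, mul_assoc]
  rw [injective_iff_map_eq_one]
  intro w hw
  have h1 := key w 1
  rw [hw, map_one, Equiv.Perm.one_apply, mul_one] at h1
  exact (congrArg Prod.snd h1).symm

section
variable {K : Type} [Group K] {x : Multiplicative V5 →* K} {t : K}

/-- the homomorphism `a ↦ x^s`, `b ↦ t(c)` -/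
def alf (x : Multiplicative V5 →* K) (t : K) (s c : V5) : FreeGroup (Fin 2) →* K :=
  FreeGroup.lift ![xv x s, tv x t c]

theorem alf_zero (s c : V5) : alf x t s c (FreeGroup.of 0) = xv x s := by simp [alf]

theorem alf_one (s c : V5) : alf x t s c (FreeGroup.of 1) = tv x t c := by simp [alf]

theorem xv_zsmul (s : V5) (k : ℤ) : xv x (k • s) = xv x s ^ k := by
  rw [xv, xv, ofAdd_zsmul, map_zpow]

theorem alf_bI (s c : V5) (i : ℤ) : alf x t s c (bI i) = tv x t (c + i • s) := by
  rw [bI, map_mul, map_mul, map_inv, map_zpow, alf_zero, alf_one, tv_add, xv_zsmul]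

theorem alf_inj (hK : KData K x t) (m : ℤ) (hm : 0 < m) (c : V5) :
    Function.Injective (alf x t (Pi.single 0 m) c) := by
  obtain ⟨κ, h1, h2, h3⟩ := exists_kap hK (fun j => if j = 0 then m else 1) c (by
    intro j
    split_ifs
    · exact hm
    · exact one_pos)
  have e : alf x t (Pi.single 0 m) c = κ.comp (alf x t (Pi.single 0 1) 0) := by
    ext i
    fin_cases i
    · change alf x t (Pi.single 0 m) c (FreeGroup.of 0) =
        κ (alf x t (Pi.single 0 1) 0 (FreeGroup.of 0))
      rw [alf_zero, alf_zero, h2]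
      congr 1
      funext j
      by_cases hj : j = 0
      · subst hj
        simp
      · simp [hj]
    · change alf x t (Pi.single 0 m) c (FreeGroup.of 1) =
        κ (alf x t (Pi.single 0 1) 0 (FreeGroup.of 1))
      rw [alf_one, alf_one, tv_zero, h3]
  have h4 : Function.Injective (alf x t (Pi.single 0 1) 0) := by
    let f : Multiplicative V5 →* FreeGroup (Fin 2) :=
      (zpowersHom (FreeGroup (Fin 2)) (FreeGroup.of 0)).comp
        (AddMonoidHom.toMultiplicative (Pi.evalAddMonoidHom (fun _ : Fin 5 => ℤ) 0))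
    obtain ⟨ψ, h5, h6⟩ := hK.univ _ f (FreeGroup.of 1)
    have h7 : ψ.comp (alf x t (Pi.single 0 1) 0) = MonoidHom.id _ := by
      ext i
      fin_cases i
      · change ψ (alf x t (Pi.single 0 1) 0 (FreeGroup.of 0)) = FreeGroup.of 0
        rw [alf_zero, xv, h5]
        change FreeGroup.of 0 ^ ((Pi.single 0 1 : V5) 0) = FreeGroup.of 0
        rw [Pi.single_eq_same, zpow_one]
      · change ψ (alf x t (Pi.single 0 1) 0 (FreeGroup.of 1)) = FreeGroup.of 1
        rw [alf_one, tv_zero, h6]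
    intro a b hab
    have h8 := congrArg ψ hab
    have h9 : ∀ w, ψ (alf x t (Pi.single 0 1) 0 w) = w := fun w => DFunLike.congr_fun h7 w
    rwa [h9, h9] at h8
  rw [e, MonoidHom.coe_comp]
  exact h1.comp h4

/-- the intersection -/
theorem meet {R : ℕ} {ru : Fin R → Rule} {tgt : V5}
    (hdis : ∀ i i' z z', (ru i).u + (ru i).m * z = (ru i').u + (ru i').m * z' → i = i')
    (htgt : ∀ i z, (ru i).u + (ru i).m * z ≠ tgt)
    {U : Type} [Group U] {j : K →* U} {lam : Phi R →* U} (hj : Function.Injective j)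
    (thL : ∀ v g, Th ru tgt v g → j (tv x t v) = lam g)
    {f0 : K →* Equiv.Perm (V5 × Phi R)}
    {F : U →* Equiv.Perm (((V5 × Phi R) × (K × ℕ)) ⊕ (K × ℕ))}
    (f1 : ∀ w p, f0 (xv x w) p = (p.1 + w, p.2))
    (f2 : ∀ v p, f0 (tv x t v) p = (p.1, theta ru tgt (p.1 + v) * p.2))
    (F1 : ∀ k p q, F (j k) (Sum.inl (p, q)) = Sum.inl (f0 k p, regN K k q))
    (act : ∀ h : Phi R, ∀ g q, ∃ q', F (lam h) (Sum.inl (((0 : V5), g), q)) =
      Sum.inl (((0 : V5), h * g), q'))
    (s c : V5) (hs : s ≠ 0) (hinj : Function.Injective (alf x t s c)) (w : FreeGroup (Fin 2))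
    (hw : j (alf x t s c w) ∈ lam.range) :
    w ∈ Subgroup.closure (bI '' {i : ℤ | Relation.ReflTransGen (Step ru) (c + i • s) tgt}) := by
  obtain ⟨h, hh⟩ := hw
  have hn : ∀ n ∈ Subgroup.closure (Set.range bI), ∃ n' ∈ Subgroup.closure
      (bI '' {i : ℤ | Relation.ReflTransGen (Step ru) (c + i • s) tgt}), ∃ c' : Phi R,
      lam c' = j (alf x t s c n') ∧ ∀ g, f0 (alf x t s c n) (0, g) = (0, c' * g) := by
    intro n hn
    induction hn using Subgroup.closure_induction with
    | mem y hy =>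
      obtain ⟨i, rfl⟩ := hy
      by_cases hr : Relation.ReflTransGen (Step ru) (c + i • s) tgt
      · obtain ⟨g, hg⟩ := (th_reach _).2 hr
        refine ⟨bI i, Subgroup.subset_closure ⟨i, hr, rfl⟩, g, ?_, ?_⟩
        · rw [alf_bI, thL _ _ hg]
        · intro g'
          rw [alf_bI, f2, zero_add, theta_of hdis htgt hg]
      · refine ⟨1, Subgroup.one_mem _, 1, by simp, ?_⟩
        intro g'
        rw [alf_bI, f2, zero_add, theta_not (fun h1 => hr ((th_reach _).1 h1))]
    | one => exact ⟨1, Subgroup.one_mem _, 1, by simp, by simp⟩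
    | mul y z _ _ hy hz =>
      obtain ⟨y', hy1, cy, hy2, hy3⟩ := hy
      obtain ⟨z', hz1, cz, hz2, hz3⟩ := hz
      refine ⟨y' * z', Subgroup.mul_mem _ hy1 hz1, cy * cz, ?_, ?_⟩
      · rw [map_mul, hy2, hz2, ← map_mul, ← map_mul]
      · intro g
        rw [map_mul, map_mul, Equiv.Perm.mul_apply, hz3, hy3, mul_assoc]
    | inv y _ hy =>
      obtain ⟨y', hy1, cy, hy2, hy3⟩ := hy
      refine ⟨y'⁻¹, Subgroup.inv_mem _ hy1, cy⁻¹, ?_, ?_⟩
      · rw [map_inv, hy2, map_inv, map_inv]
      · intro g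
        rw [map_inv, map_inv, Equiv.Perm.inv_eq_iff_eq, hy3]
        simp
  obtain ⟨k, n, hn1, rfl⟩ := f2_form w
  obtain ⟨n', hn2, c', hn3, hn4⟩ := hn n hn1
  obtain ⟨q', hq⟩ := act h 1 (1, 0)
  rw [hh, F1] at hq
  have h1 := congrArg Prod.fst (Sum.inl_injective hq)
  have h2 : f0 (alf x t s c (n * FreeGroup.of 0 ^ k)) (0, 1) = (0, h * 1) := h1
  have h3 : f0 (alf x t s c (n * FreeGroup.of 0 ^ k)) (0, 1) =
      f0 (alf x t s c n) (k • s, 1) := by
    rw [map_mul, map_zpow, alf_zero, ← xv_zsmul, map_mul, Equiv.Perm.mul_apply, f1, zero_add]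
  have hfst : ∀ n ∈ Subgroup.closure (Set.range bI), ∀ p, (f0 (alf x t s c n) p).1 = p.1 := by
    intro n hn
    induction hn using Subgroup.closure_induction with
    | mem y hy =>
      obtain ⟨i, rfl⟩ := hy
      intro p
      rw [alf_bI, f2]
    | one => intro p; simp
    | mul y z _ _ hy hz =>
      intro p
      rw [map_mul, map_mul, Equiv.Perm.mul_apply, hy, hz]
    | inv y _ hy =>
      intro p
      have h5 := hy ((f0 (alf x t s c y))⁻¹ p)
      have h6 : f0 (alf x t s c y) ((f0 (alf x t s c y))⁻¹ p) = p := Equiv.apply_symm_apply _ p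
      rw [h6] at h5
      rw [map_inv, map_inv, ← h5]
  have h4 : k • s = 0 := by
    have h5 := hfst n hn1 (k • s, 1)
    rw [← h3, h2] at h5
    exact h5.symm
  have h5 : k = 0 := by
    rcases smul_eq_zero.1 h4 with h | h
    · exact h
    · exact absurd h hs
  subst h5
  rw [zpow_zero, mul_one] at h2 hh ⊢
  rw [hn4] at h2
  have h6 : c' = h := by
    have := congrArg Prod.snd h2
    simpa using this
  have h7 : alf x t s c n = alf x t s c n' := by
    apply hj
    rw [← hh, ← hn3, h6]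
  rw [hinj h7]
  exact hn2

end

end Pool.Agent.SDec
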