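import Pool.Agent.SDec.Hnn

/-!
# Homomorphisms of amalgams which are injective on the factors
-/

set_option autoImplicit false

namespace Pool.Agent.SDec

open Pool.Agent.Hhelper49.Srf Pool.Agent.Hhelper49.Srr

section
variable {A B C Γ : Type} [Group A] [Group B] [Group C] [Group Γ] {α : A →* Γ} {β : B →* Γ}
  {κ : C →* A} {ι : C →* B}

/-- products of letters which do not start in `B` -/
inductive VW (α : A →* Γ) (β : B →* Γ) (κ : C →* A) (ι : C →* B) : Γ → Prop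
  | base (a : A) : VW α β κ ι (α a)
  | step (a : A) (b : B) (g : Γ) (ha : a ∉ κ.range) (hb : b ∉ ι.range) (hg : VW α β κ ι g) :
      VW α β κ ι (α a * (β b * g))

/-- the two forms of an element -/
def GW (α : A →* Γ) (β : B →* Γ) (κ : C →* A) (ι : C →* B) (g : Γ) : Prop :=
  (∃ (a : A) (g' : Γ), VW α β κ ι g' ∧ g = α a * g' ∧ g' = 1) ∨
    (∃ b, b ∉ ι.range ∧ ∃ v, VW α β κ ι v ∧ g = β b * v) ∨
    ∃ a b v, a ∉ κ.range ∧ b ∉ ι.range ∧ VW α β κ ι v ∧ g = α a * (β b * v)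

theorem gw_of_vw {g : Γ} (h : VW α β κ ι g) : GW α β κ ι g := by
  cases h with
  | base a =>
    refine Or.inl ⟨a, 1, ?_, (mul_one _).symm, rfl⟩
    have := VW.base (α := α) (β := β) (κ := κ) (ι := ι) 1
    rwa [map_one] at this
  | step a b g ha hb hg => exact Or.inr (Or.inr ⟨a, b, g, ha, hb, hg, rfl⟩)

theorem vw_one : VW α β κ ι (1 : Γ) := by
  have := VW.base (α := α) (β := β) (κ := κ) (ι := ι) 1
  rwa [map_one] at this

theorem gw_alpha (hc : ∀ c, α (κ c) = β (ι c)) (a : A) {g : Γ} (h : GW α β κ ι g) :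
    GW α β κ ι (α a * g) := by
  rcases h with ⟨a', g', h1, rfl, rfl⟩ | ⟨b, hb, v, hv, rfl⟩ | ⟨a', b, v, ha, hb, hv, rfl⟩
  · refine Or.inl ⟨a * a', 1, h1, ?_, rfl⟩
    rw [map_mul, mul_assoc]
  · by_cases ha : a ∈ κ.range
    · obtain ⟨c, rfl⟩ := ha
      refine Or.inr (Or.inl ⟨ι c * b, ?_, v, hv, ?_⟩)
      · intro h
        exact hb ((Subgroup.mul_mem_cancel_left _ (MonoidHom.mem_range.2 ⟨c, rfl⟩)).1 h)
      · rw [hc, map_mul, mul_assoc]
    · exact Or.inr (Or.inr ⟨a, b, v, ha, hb, hv, rfl⟩)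
  · by_cases ha' : a * a' ∈ κ.range
    · obtain ⟨c, hc'⟩ := ha'
      refine Or.inr (Or.inl ⟨ι c * b, ?_, v, hv, ?_⟩)
      · intro h
        exact hb ((Subgroup.mul_mem_cancel_left _ (MonoidHom.mem_range.2 ⟨c, rfl⟩)).1 h)
      · rw [← mul_assoc, ← map_mul, ← hc', hc, map_mul, mul_assoc]
    · refine Or.inr (Or.inr ⟨a * a', b, v, ha', hb, hv, ?_⟩)
      rw [map_mul, mul_assoc]

theorem vw_of_gw {g : Γ} (h : GW α β κ ι g) :
    VW α β κ ι g ∨ ∃ b, b ∉ ι.range ∧ ∃ v, VW α β κ ι v ∧ g = β b * v := by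
  rcases h with ⟨a', g', h1, rfl, rfl⟩ | h | ⟨a', b, v, ha, hb, hv, rfl⟩
  · left
    rw [mul_one]
    exact VW.base a'
  · exact Or.inr h
  · exact Or.inl (VW.step a' b v ha hb hv)

theorem gw_beta (hc : ∀ c, α (κ c) = β (ι c)) (b : B) {g : Γ} (h : GW α β κ ι g) :
    GW α β κ ι (β b * g) := by
  by_cases hb : b ∈ ι.range
  · obtain ⟨c, rfl⟩ := hb
    rw [← hc]
    exact gw_alpha hc _ h
  · rcases vw_of_gw h with h1 | ⟨b', hb', v, hv, rfl⟩
    · exact Or.inr (Or.inl ⟨b, hb, g, h1, rfl⟩)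
    · by_cases hbb : b * b' ∈ ι.range
      · obtain ⟨c, hc'⟩ := hbb
        rw [← mul_assoc, ← map_mul, ← hc', ← hc]
        exact gw_alpha hc _ (gw_of_vw hv)
      · refine Or.inr (Or.inl ⟨b * b', hbb, v, hv, ?_⟩)
        rw [map_mul, mul_assoc]

theorem gw_all (hc : ∀ c, α (κ c) = β (ι c)) (hgen : α.range ⊔ β.range = ⊤) (g : Γ) :
    GW α β κ ι g := by
  let H : Subgroup Γ :=
    { carrier := {x | ∀ g, GW α β κ ι g → GW α β κ ι (x * g) ∧ GW α β κ ι (x⁻¹ * g)}
      one_mem' := by intro g hg; simp [hg]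
      mul_mem' := by
        intro a b ha hb g hg
        constructor
        · rw [mul_assoc]
          exact (ha _ (hb g hg).1).1
        · rw [mul_inv_rev, mul_assoc]
          exact (hb _ (ha g hg).2).2
      inv_mem' := by
        intro a ha g hg
        rw [inv_inv]
        exact (ha g hg).symm }
  have h1 : α.range ⊔ β.range ≤ H := by
    refine sup_le ?_ ?_
    · rintro _ ⟨a, rfl⟩ g hg
      refine ⟨gw_alpha hc a hg, ?_⟩
      rw [← map_inv]
      exact gw_alpha hc _ hg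
    · rintro _ ⟨b, rfl⟩ g hg
      refine ⟨gw_beta hc b hg, ?_⟩
      rw [← map_inv]
      exact gw_beta hc _ hg
  have h2 : g ∈ H := h1 (by rw [hgen]; exact Subgroup.mem_top g)
  have h3 := (h2 1 (gw_of_vw vw_one)).1
  rwa [mul_one] at h3

end

/-- a homomorphism of pushouts into an amalgam is injective if it is injective on the factors and the preimages of the
amalgamated subgroup are the amalgamated subgroups -/
theorem sub_amal {A B C Γ A' B' C' Γ' : Type} [Group A] [Group B] [Group C] [Group Γ] [Group A']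
    [Group B'] [Group C'] [Group Γ'] {α : A →* Γ} {β : B →* Γ} {κ : C →* A} {ι : C →* B}
    {S : Set Γ} (h : Amal α β κ ι S) {α' : A' →* Γ'} {β' : B' →* Γ'} {κ' : C' →* A'}
    {ι' : C' →* B'} (hc : ∀ c, α' (κ' c) = β' (ι' c)) (hgen : α'.range ⊔ β'.range = ⊤)
    (μ : Γ' →* Γ) (φ : A' →* A) (ψ : B' →* B) (hμα : ∀ a, μ (α' a) = α (φ a))
    (hμβ : ∀ b, μ (β' b) = β (ψ b)) (hφ : Function.Injective φ)
    (hA : ∀ a, φ a ∈ κ.range → a ∈ κ'.range) (hB : ∀ b, ψ b ∈ ι.range → b ∈ ι'.range) :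
    Function.Injective μ := by
  have hV : ∀ v, VW α' β' κ' ι' v → μ v ∉ S := by
    intro v hv
    induction hv with
    | base a =>
      rw [hμα]
      exact h.notA _
    | step a b g ha hb _ ih =>
      rw [map_mul, map_mul, hμα, hμβ]
      exact h.ppA _ (fun h1 => ha (hA _ h1)) _ (h.ppB _ (fun h1 => hb (hB _ h1)) _ ih)
  have hbs : ∀ b v, b ∉ ι'.range → VW α' β' κ' ι' v → μ (β' b * v) ∈ S := by
    intro b v hb hv
    rw [map_mul, hμβ]
    exact h.ppB _ (fun h1 => hb (hB _ h1)) _ (hV v hv)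
  have hone : (1 : Γ) ∉ S := by
    have := h.notA 1
    rwa [map_one] at this
  rw [injective_iff_map_eq_one]
  intro g hg
  rcases gw_all hc hgen g with ⟨a, g', -, rfl, rfl⟩ | ⟨b, hb, v, hv, rfl⟩ | ⟨a, b, v, ha, hb, hv, rfl⟩
  · rw [mul_one] at hg ⊢
    rw [hμα] at hg
    have h1 : φ a = 1 := h.injA (hg.trans (map_one α).symm)
    rw [hφ (h1.trans (map_one φ).symm), map_one]
  · exfalso
    apply hone
    rw [← hg]
    exact hbs b v hb hv
  · exfalso
    rw [map_mul, hμα] at hg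
    have h1 : μ (β' b * v) = α (φ a)⁻¹ := by
      rw [map_inv]
      exact eq_inv_of_mul_eq_one_right hg
    exact h.notA _ (h1 ▸ hbs b v hb hv)

end Pool.Agent.SDec
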