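import Pool.Agent.SDec.Exist2
import Pool.Agent.SDec.Meet
import Pool.Agent.SDec.SubAmal

/-!
# Three-generator subgroups with an unbounded number of coincidences
-/

set_option autoImplicit false

namespace Pool.Agent.SDec

open Pool.Agent.Hhelper49.Srf Pool.Agent.Hhelper49.Srr

/-- membership of the values of a homomorphism on a free group -/
theorem free_mem {n : ℕ} {P : Type} [Group P] (f : FreeGroup (Fin n) →* P) (H : Subgroup P)
    (h : ∀ i, f (FreeGroup.of i) ∈ H) (w : FreeGroup (Fin n)) : f w ∈ H := by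
  induction w using FreeGroup.induction_on with
  | C1 => rw [map_one]; exact H.one_mem
  | of i => exact h i
  | inv_of i _ => rw [map_inv]; exact H.inv_mem (h i)
  | mul a b ha hb => rw [map_mul]; exact H.mul_mem ha hb

/-- an integer is accepted -/
def Acc (K : ℕ → Prop) (g : ℤ) : Prop := ∃ δ : List Bool, g = enc3 δ ∧ K (num δ)

theorem mind (K : ℕ → Prop) (hK : REPred K) :
    ∃ (D : Type) (_ : Group D) (X Y Z : D), Nice D ∧
      ∀ (m c : ℤ) (n : ℕ) (i : Fin n → ℤ), 0 < m → Function.Injective i →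
        {l : ℤ | Acc K (c + l * m)} = Set.range i →
        ∃ (M : Type) (_ : Group M) (α : FreeGroup (Fin 2) →* M)
          (β : FreeGroup (Fin n) × FreeGroup (Fin 1) →* M)
          (κ : FreeGroup (Fin n) →* FreeGroup (Fin 2)) (S : Set M) (μ : M →* D),
          Amal α β κ (MonoidHom.inl _ _) S ∧ Function.Injective μ ∧
          μ.range = Subgroup.closure {Z, X ^ m, (X ^ c)⁻¹ * Y * X ^ c} ∧
          Group.IsFinitelyPresented M := by
  obtain ⟨R, ru, c0, tgt, N, hN, hdis, htgt, hacc⟩ := rules_exist2 K hK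
  obtain ⟨Kg, iK, x, t, hKd⟩ := exists_K
  obtain ⟨U, iU, j, lam, hU, hj, thL, f0, F, f1, f2, F1, act⟩ := model0 hKd ru tgt hdis htgt
  have hlam : Function.Injective lam := by
    rw [injective_iff_map_eq_one]
    intro h hh
    obtain ⟨q', hq⟩ := act h 1 (1, 0)
    rw [hh, map_one, Equiv.Perm.one_apply] at hq
    have h1 := congrArg (fun s => s.1.2) (Sum.inl_injective hq)
    change (1 : Phi R) = h * 1 at h1
    rw [mul_one] at h1
    exact h1.symm
  have hinl : ∀ (A B : Type) [Group A] [Group B], Function.Injective (MonoidHom.inl A B) :=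
    fun A B _ _ a b h => congrArg Prod.fst h
  have hPN : Nice (Phi R × FreeGroup (Fin 1)) := nice_prod _ (nice_free _)
  obtain ⟨D, iD, αD, βD, SD, hAD, hPD⟩ := push2 U (Phi R × FreeGroup (Fin 1)) (Phi R) lam
    (MonoidHom.inl _ _) hlam (hinl _ _)
  have hDN : Nice D := ⟨amal_ff hAD hU.ff hPN.ff (nice_free _).ff,
    fpres_push hPD hU.fp hPN.fp (fg_of_fpres _ (nice_free _).fp)⟩
  refine ⟨D, iD, αD (j (xv x (Pi.single 0 (N : ℤ)))), αD (j (tv x t c0)),
    βD (1, FreeGroup.of 0), hDN, ?_⟩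
  intro m c n i hm hi hset
  have hNm : (0 : ℤ) < N * m := by positivity
  let s : V5 := Pi.single 0 ((N : ℤ) * m)
  let c' : V5 := c0 + Pi.single 0 ((N : ℤ) * c)
  have hs : s ≠ 0 := by
    intro h
    have h1 := congrFun h 0
    simp only [s, Pi.single_eq_same, Pi.zero_apply] at h1
    omega
  have hcs : ∀ l : ℤ, c' + l • s = c0 + Pi.single 0 ((N : ℤ) * (c + l * m)) := by
    intro l
    simp only [c', s, add_assoc]
    congr 1
    rw [← Pi.single_smul, ← Pi.single_add]
    congr 1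
    rw [smul_eq_mul]
    ring
  have hreach : ∀ l : ℤ, Relation.ReflTransGen (Step ru) (c' + l • s) tgt ↔ l ∈ Set.range i := by
    intro l
    rw [hcs, hacc, ← hset]
    rfl
  have hal := alf_inj hKd ((N : ℤ) * m) hNm c'
  let κ : FreeGroup (Fin n) →* FreeGroup (Fin 2) := FreeGroup.lift fun l => bI (i l)
  have hκ : Function.Injective κ := kapA_inj i hi
  obtain ⟨M, iM, α, β, S, hAM, hPM⟩ := push2 (FreeGroup (Fin 2))
    (FreeGroup (Fin n) × FreeGroup (Fin 1)) (FreeGroup (Fin n)) κ (MonoidHom.inl _ _) hκ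
    (hinl _ _)
  have hτ : ∀ l : Fin n, ∃ g : Phi R, Th ru tgt (c' + i l • s) g := fun l =>
    (th_reach _).2 ((hreach _).2 ⟨l, rfl⟩)
  choose g hg using hτ
  let τ : FreeGroup (Fin n) →* Phi R := FreeGroup.lift g
  have hlt : ∀ h, lam (τ h) = j (alf x t s c' (κ h)) := by
    have e : lam.comp τ = (j.comp (alf x t s c')).comp κ := by
      ext l
      change lam (τ (FreeGroup.of l)) = j (alf x t s c' (κ (FreeGroup.of l)))
      have h1 : τ (FreeGroup.of l) = g l := FreeGroup.lift_apply_of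
      have h2 : κ (FreeGroup.of l) = bI (i l) := FreeGroup.lift_apply_of
      rw [h1, h2, alf_bI, thL _ _ (hg l)]
    exact fun h => DFunLike.congr_fun e h
  let φ : FreeGroup (Fin 2) →* U := j.comp (alf x t s c')
  let ψ : FreeGroup (Fin n) × FreeGroup (Fin 1) →* Phi R × FreeGroup (Fin 1) :=
    MonoidHom.prodMap τ (MonoidHom.id _)
  obtain ⟨μ, hμ1, hμ2⟩ := hPM.univ D (αD.comp φ) (βD.comp ψ) (by
    intro h
    change αD (j (alf x t s c' (κ h))) = βD (τ h, 1)
    rw [← hlt]
    exact hPD.comm (τ h))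
  have hμ1' : ∀ w, μ (α w) = αD (j (alf x t s c' w)) := hμ1
  have hμ2' : ∀ p, μ (β p) = βD (τ p.1, p.2) := hμ2
  have hinj : Function.Injective μ := by
    refine sub_amal hAD hPM.comm hPM.gen μ φ ψ hμ1 hμ2 (hj.comp hal) ?_ ?_
    · intro w hw
      have h1 := meet hdis htgt hj thL f1 f2 F1 act s c' hs hal w hw
      have h2 : Subgroup.closure (bI '' {l : ℤ | Relation.ReflTransGen (Step ru)
          (c' + l • s) tgt}) ≤ κ.range := by
        rw [Subgroup.closure_le]
        rintro _ ⟨l, hl, rfl⟩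
        obtain ⟨l', rfl⟩ := (hreach l).1 hl
        exact ⟨FreeGroup.of l', FreeGroup.lift_apply_of⟩
      exact h2 h1
    · rintro ⟨b1, b2⟩ ⟨q, hq⟩
      have h1 : (q, (1 : FreeGroup (Fin 1))) = (τ b1, b2) := hq
      have h2 : b2 = 1 := (congrArg Prod.snd h1).symm
      exact ⟨b1, by rw [h2]; rfl⟩
  have hX : ∀ k : ℤ, αD (j (xv x (Pi.single 0 (N : ℤ)))) ^ k =
      αD (j (xv x (Pi.single 0 ((N : ℤ) * k)))) := by
    intro k
    rw [← map_zpow, ← map_zpow, ← xv_zsmul, ← Pi.single_smul, smul_eq_mul, mul_comm]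
  have hgen1 : μ (α (FreeGroup.of 0)) = αD (j (xv x (Pi.single 0 (N : ℤ)))) ^ m := by
    rw [hμ1', alf_zero, hX]
  have hgen2 : μ (α (FreeGroup.of 1)) = (αD (j (xv x (Pi.single 0 (N : ℤ)))) ^ c)⁻¹ *
      αD (j (tv x t c0)) * αD (j (xv x (Pi.single 0 (N : ℤ)))) ^ c := by
    rw [hμ1', alf_one, hX, ← map_inv, ← map_inv, ← map_mul, ← map_mul, ← map_mul, ← map_mul,
      ← tv_add]
  have hgen3 : μ (β (1, FreeGroup.of 0)) = βD (1, FreeGroup.of 0) := by
    rw [hμ2']
    simp
  refine ⟨M, iM, α, β, κ, S, μ, hAM, hinj, ?_, fpres_push hPM (nice_free 2).fp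
    (nice_prod _ (nice_free _)).fp (fg_of_fpres _ (nice_free _).fp)⟩
  apply le_antisymm
  · rw [MonoidHom.range_eq_map, ← hPM.gen, Subgroup.map_sup]
    have ha : ∀ w, μ (α w) ∈ Subgroup.closure {βD (1, FreeGroup.of 0),
        αD (j (xv x (Pi.single 0 (N : ℤ)))) ^ m, (αD (j (xv x (Pi.single 0 (N : ℤ)))) ^ c)⁻¹ *
        αD (j (tv x t c0)) * αD (j (xv x (Pi.single 0 (N : ℤ)))) ^ c} := by
      refine free_mem (μ.comp α) _ ?_
      intro l
      fin_cases l
      · change μ (α (FreeGroup.of 0)) ∈ _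
        rw [hgen1]
        exact Subgroup.subset_closure (Or.inr (Or.inl rfl))
      · change μ (α (FreeGroup.of 1)) ∈ _
        rw [hgen2]
        exact Subgroup.subset_closure (Or.inr (Or.inr rfl))
    refine sup_le ?_ ?_
    · rintro _ ⟨_, ⟨w, rfl⟩, rfl⟩
      exact ha w
    · rintro _ ⟨_, ⟨⟨b1, b2⟩, rfl⟩, rfl⟩
      have h1 : ((b1, b2) : FreeGroup (Fin n) × FreeGroup (Fin 1)) = (b1, 1) * (1, b2) := by
        simp
      rw [h1, map_mul, map_mul]
      refine Subgroup.mul_mem _ ?_ ?_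
      · have h2 := hPM.comm b1
        change α (κ b1) = β (b1, 1) at h2
        rw [← h2]
        exact ha _
      · refine free_mem ((μ.comp β).comp (MonoidHom.inr _ _)) _ ?_ b2
        intro l
        rw [Subsingleton.elim l 0]
        change μ (β (1, FreeGroup.of 0)) ∈ _
        rw [hgen3]
        exact Subgroup.subset_closure (Or.inl rfl)
  · rw [Subgroup.closure_le]
    rintro y (rfl | rfl | rfl)
    · exact ⟨_, hgen3⟩
    · exact ⟨_, hgen1⟩
    · exact ⟨_, hgen2⟩

end Pool.Agent.SDec
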