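import Pool.Agent.SDec.KGrp

/-!
# The permutation model of the group of a rule system
-/

set_option autoImplicit false

namespace Pool.Agent.SDec

open Pool.Agent.Hhelper49.Srf Pool.Agent.Hhelper49.Srr

/-! ### labels -/

section
variable {R : ℕ}

/-- the free group on the target letter and the rules -/
abbrev Phi (R : ℕ) : Type := FreeGroup (Fin (R + 1))

/-- `Th v g`: the point `v` reaches the target, with label `g` -/
inductive Th (ru : Fin R → Rule) (tgt : V5) : V5 → Phi R → Prop
  | base : Th ru tgt tgt (FreeGroup.of 0)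
  | step (i : Fin R) (z : V5) (g : Phi R) : Th ru tgt ((ru i).u' + (ru i).a * z) g →
      Th ru tgt ((ru i).u + (ru i).m * z)
        (FreeGroup.of i.succ * g * (FreeGroup.of i.succ)⁻¹)

variable {ru : Fin R → Rule} {tgt : V5}

theorem th_inv {v : V5} {g : Phi R} (h : Th ru tgt v g) : (v = tgt ∧ g = FreeGroup.of 0) ∨
    ∃ (i : Fin R) (z : V5) (g' : Phi R), v = (ru i).u + (ru i).m * z ∧
      g = FreeGroup.of i.succ * g' * (FreeGroup.of i.succ)⁻¹ ∧
      Th ru tgt ((ru i).u' + (ru i).a * z) g' := by
  cases h with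
  | base => exact Or.inl ⟨rfl, rfl⟩
  | step i z g h => exact Or.inr ⟨i, z, g, rfl, rfl, h⟩

theorem mul_cancel {m z z' : V5} (hm : ∀ j, 0 < m j) (h : m * z = m * z') : z = z' := by
  funext j
  exact mul_left_cancel₀ (hm j).ne' (congrFun h j)

variable (hdis : ∀ i i' z z', (ru i).u + (ru i).m * z = (ru i').u + (ru i').m * z' → i = i')
  (htgt : ∀ i z, (ru i).u + (ru i).m * z ≠ tgt)

include hdis in
theorem ruleZ_unique {i i' : Fin R} {z z' : V5}
    (h : (ru i).u + (ru i).m * z = (ru i').u + (ru i').m * z') : i = i' ∧ z = z' := by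
  obtain rfl := hdis i i' z z' h
  exact ⟨rfl, mul_cancel (ru i).mpos (add_left_cancel h)⟩

include hdis htgt in
theorem th_unique {v : V5} {g : Phi R} (h : Th ru tgt v g) : ∀ {g' : Phi R}, Th ru tgt v g' →
    g = g' := by
  induction h with
  | base =>
    intro g' h'
    rcases th_inv h' with ⟨-, h1⟩ | ⟨i, z, g', h1, -⟩
    · exact h1.symm
    · exact absurd h1.symm (htgt i z)
  | step i z g h ih =>
    intro g' h'
    rcases th_inv h' with ⟨h1, -⟩ | ⟨i', z', g'', h1, h2, h3⟩
    · exact absurd h1 (htgt i z)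
    · obtain ⟨rfl, rfl⟩ := ruleZ_unique hdis h1
      rw [h2, ih h3]

theorem th_reach (v : V5) :
    (∃ g, Th ru tgt v g) ↔ Relation.ReflTransGen (Step ru) v tgt := by
  constructor
  · rintro ⟨g, h⟩
    induction h with
    | base => exact Relation.ReflTransGen.refl
    | step i z g h ih => exact Relation.ReflTransGen.head ⟨i, z, rfl, rfl⟩ ih
  · intro h
    induction h using Relation.ReflTransGen.head_induction_on with
    | refl => exact ⟨_, Th.base⟩
    | head h1 _ ih =>
      obtain ⟨i, z, rfl, rfl⟩ := h1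
      obtain ⟨g, hg⟩ := ih
      exact ⟨_, Th.step i z g hg⟩

open Classical in
/-- the label of a point, `1` if it does not reach the target -/
noncomputable def theta (ru : Fin R → Rule) (tgt : V5) (v : V5) : Phi R :=
  if h : ∃ g, Th ru tgt v g then h.choose else 1

include hdis htgt in
theorem theta_of {v : V5} {g : Phi R} (h : Th ru tgt v g) : theta ru tgt v = g := by
  have h1 : ∃ g, Th ru tgt v g := ⟨g, h⟩
  rw [theta, dif_pos h1]
  exact th_unique hdis htgt h1.choose_spec h

theorem theta_not {v : V5} (h : ¬ ∃ g, Th ru tgt v g) : theta ru tgt v = 1 := dif_neg h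

include hdis htgt in
theorem theta_rule (i : Fin R) (z : V5) : theta ru tgt ((ru i).u + (ru i).m * z) =
    FreeGroup.of i.succ * theta ru tgt ((ru i).u' + (ru i).a * z) * (FreeGroup.of i.succ)⁻¹ := by
  by_cases h : ∃ g, Th ru tgt ((ru i).u' + (ru i).a * z) g
  · obtain ⟨g, hg⟩ := h
    rw [theta_of hdis htgt hg, theta_of hdis htgt (Th.step i z g hg)]
  · rw [theta_not h, theta_not, mul_one, mul_inv_cancel]
    rintro ⟨g, hg⟩
    rcases th_inv hg with ⟨h1, -⟩ | ⟨i', z', g', h1, -, h3⟩
    · exact htgt i z h1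
    · obtain ⟨rfl, rfl⟩ := ruleZ_unique hdis h1
      exact h ⟨g', h3⟩

end

/-! ### actions -/

/-- translations of the first coordinate -/
def trV (Y : Type) : Multiplicative V5 →* Equiv.Perm (V5 × Y) where
  toFun w :=
    { toFun := fun p => (p.1 + Multiplicative.toAdd w, p.2)
      invFun := fun p => (p.1 - Multiplicative.toAdd w, p.2)
      left_inv := fun p => by simp
      right_inv := fun p => by simp }
  map_one' := by
    ext p <;> simp
  map_mul' v w := by
    ext p
    · change (p.1 + (Multiplicative.toAdd v + Multiplicative.toAdd w)) _ =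
        (p.1 + Multiplicative.toAdd w + Multiplicative.toAdd v) _
      rw [add_comm (Multiplicative.toAdd v), add_assoc]
    · rfl

theorem trV_apply (Y : Type) (w : V5) (p : V5 × Y) :
    trV Y (Multiplicative.ofAdd w) p = (p.1 + w, p.2) := rfl

/-- multiplication of the second coordinate by a label depending on the first one -/
def labP {Y : Type} [Group Y] (θ : V5 → Y) : Equiv.Perm (V5 × Y) where
  toFun p := (p.1, θ p.1 * p.2)
  invFun p := (p.1, (θ p.1)⁻¹ * p.2)
  left_inv p := by simp
  right_inv p := by simp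

theorem labP_apply {Y : Type} [Group Y] (θ : V5 → Y) (p : V5 × Y) :
    labP θ p = (p.1, θ p.1 * p.2) := rfl

/-- the diagonal action together with a free part -/
def act2 {K W : Type} [Group K] (f : K →* Equiv.Perm W) :
    K →* Equiv.Perm ((W × (K × ℕ)) ⊕ (K × ℕ)) where
  toFun k := Equiv.sumCongr (Equiv.prodCongr (f k) (regN K k)) (regN K k)
  map_one' := by
    apply Equiv.ext
    rintro (p | p)
    · simp
    · simp
  map_mul' k l := by
    apply Equiv.ext
    rintro (p | p)
    · rw [map_mul, map_mul]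
      rfl
    · rw [map_mul, map_mul]
      rfl

theorem act2_inl {K W : Type} [Group K] (f : K →* Equiv.Perm W) (k : K) (w : W) (q : K × ℕ) :
    act2 f k (Sum.inl (w, q)) = Sum.inl (f k w, regN K k q) := rfl

theorem act2_inr {K W : Type} [Group K] (f : K →* Equiv.Perm W) (k : K) (q : K × ℕ) :
    act2 f k (Sum.inr q) = Sum.inr (regN K k q) := rfl

theorem act2_free {K W E : Type} [Group K] [Group E] (f : K →* Equiv.Perm W) (κ : E →* K)
    (hκ : Function.Injective κ) : Free ((act2 f).comp κ) := by
  intro e p h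
  rcases p with ⟨w, q⟩ | q
  · rw [MonoidHom.comp_apply, act2_inl] at h
    have h1 := congrArg Prod.snd (Sum.inl_injective h)
    exact regN_free κ hκ e q h1
  · rw [MonoidHom.comp_apply, act2_inr] at h
    exact regN_free κ hκ e q (Sum.inr_injective h)

section
variable {K : Type} [Group K] {x : Multiplicative V5 →* K} {t : K}

theorem intertwine (hK : KData K x t) {X Y : Type} (f : K →* Equiv.Perm X)
    (l : K →* Equiv.Perm Y) (ι : Y → X) (hx : ∀ w y, f (xv x w) (ι y) = ι (l (xv x w) y))
    (ht : ∀ y, f t (ι y) = ι (l t y)) (k : K) : ∀ y, f k (ι y) = ι (l k y) := by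
  let H : Subgroup K :=
    { carrier := {k | ∀ y, f k (ι y) = ι (l k y)}
      one_mem' := by intro y; simp
      mul_mem' := by
        intro a b ha hb y
        rw [map_mul, map_mul, Equiv.Perm.mul_apply, Equiv.Perm.mul_apply, hb, ha]
      inv_mem' := by
        intro a ha y
        rw [map_inv, map_inv, Equiv.Perm.inv_eq_iff_eq, ha]
        simp }
  exact hK.gen H (fun w => hx (Multiplicative.toAdd w)) ht k

/-- the action on labelled vectors -/
theorem exists_f0 (hK : KData K x t) {Y : Type} [Group Y] (θ : V5 → Y) :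
    ∃ f : K →* Equiv.Perm (V5 × Y), (∀ w p, f (xv x w) p = (p.1 + w, p.2)) ∧
      ∀ v p, f (tv x t v) p = (p.1, θ (p.1 + v) * p.2) := by
  obtain ⟨f, h1, h2⟩ := hK.univ _ (trV Y) (labP θ)
  have h3 : ∀ w p, f (xv x w) p = (p.1 + w, p.2) := by
    intro w p
    rw [xv, h1]
    rfl
  refine ⟨f, h3, ?_⟩
  intro v p
  rw [tv, map_mul, map_mul, map_inv, Equiv.Perm.mul_apply, Equiv.Perm.mul_apply,
    Equiv.Perm.inv_eq_iff_eq, h3, h3, h2, labP_apply]

/-- the model: `U` is generated by `K` and the letters of the rules -/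
theorem model (hK : KData K x t) {R : ℕ} (ru : Fin R → Rule) (tgt : V5)
    (hdis : ∀ i i' z z', (ru i).u + (ru i).m * z = (ru i').u + (ru i').m * z' → i = i')
    (htgt : ∀ i z, (ru i).u + (ru i).m * z ≠ tgt) :
    ∃ (U : Type) (_ : Group U) (j : K →* U) (lam : Phi R →* U), Nice U ∧ Function.Injective j ∧
      Function.Injective lam ∧
      ∀ v, j (tv x t v) ∈ lam.range ↔ Relation.ReflTransGen (Step ru) v tgt := by
  have _ : Countable K := countable_of_fpres K hK.nice.fp
  have hA := fun i => exists_kap hK (ru i).m (ru i).u (ru i).mpos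
  have hB := fun i => exists_kap hK (ru i).a (ru i).u' (ru i).apos
  choose kA a1 a2 a3 using hA
  choose kB b1 b2 b3 using hB
  have kAv : ∀ i z, kA i (tv x t z) = tv x t ((ru i).u + (ru i).m * z) := by
    intro i z
    rw [tv_add, tv, map_mul, map_mul, map_inv, a2, a3]
  have kBv : ∀ i z, kB i (tv x t z) = tv x t ((ru i).u' + (ru i).a * z) := by
    intro i z
    rw [tv_add, tv, map_mul, map_mul, map_inv, b2, b3]
  obtain ⟨U, iU, j, r, hj, hU, hrel, huniv⟩ := hnn_multi hK.nice R hK.nice kA kB a1 b1
  let lam : Phi R →* U := FreeGroup.lift (Fin.cons (j (tv x t tgt)) r : Fin (R + 1) → U)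
  have lam0 : lam (FreeGroup.of 0) = j (tv x t tgt) := by
    simp [lam]
  have lams : ∀ i : Fin R, lam (FreeGroup.of i.succ) = r i := by
    intro i
    simp [lam]
  -- the model
  let θ : V5 → Phi R := theta ru tgt
  obtain ⟨f0, f1, f2⟩ := exists_f0 hK θ
  let ρ : K →* Equiv.Perm (((V5 × Phi R) × (K × ℕ)) ⊕ (K × ℕ)) := act2 f0
  have hmod : ∀ i : Fin R, ∃ (p : Equiv.Perm (((V5 × Phi R) × (K × ℕ)) ⊕ (K × ℕ)))
      (ρi : Equiv.Perm (K × ℕ)),
      (∀ z g q, p (Sum.inl (((ru i).a * z, g), q)) =
        Sum.inl (((ru i).m * z, FreeGroup.of i.succ * g), ρi q)) ∧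
      ∀ e, p⁻¹ * ρ (kA i e) * p = ρ (kB i e) := by
    intro i
    obtain ⟨ρi, hρi⟩ := regN_conj (kB i) (kA i) (b1 i) (a1 i)
    obtain ⟨l0, l1, l2⟩ := exists_f0 hK (fun z => θ ((ru i).u' + (ru i).a * z))
    let ιB : V5 × Phi R → V5 × Phi R := fun y => ((ru i).a * y.1, y.2)
    let ιA : V5 × Phi R → V5 × Phi R := fun y => ((ru i).m * y.1, FreeGroup.of i.succ * y.2)
    have iB : ∀ k y, f0 (kB i k) (ιB y) = ιB (l0 k y) := by
      apply intertwine hK (f0.comp (kB i))
      · intro w y
        change f0 (kB i (xv x w)) (ιB y) = ιB (l0 (xv x w) y)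
        rw [b2, f1, l1]
        change ((ru i).a * y.1 + (ru i).a * w, y.2) = ((ru i).a * (y.1 + w), y.2)
        rw [mul_add]
      · intro y
        change f0 (kB i t) (ιB y) = ιB (l0 t y)
        have h1 := l2 0 y
        rw [tv_zero, add_zero] at h1
        rw [b3, f2, h1]
        change ((ru i).a * y.1, θ ((ru i).a * y.1 + (ru i).u') * y.2) =
          ((ru i).a * y.1, θ ((ru i).u' + (ru i).a * y.1) * y.2)
        rw [add_comm ((ru i).a * y.1)]
    have iA : ∀ k y, f0 (kA i k) (ιA y) = ιA (l0 k y) := by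
      apply intertwine hK (f0.comp (kA i))
      · intro w y
        change f0 (kA i (xv x w)) (ιA y) = ιA (l0 (xv x w) y)
        rw [a2, f1, l1]
        change ((ru i).m * y.1 + (ru i).m * w, FreeGroup.of i.succ * y.2) =
          ((ru i).m * (y.1 + w), FreeGroup.of i.succ * y.2)
        rw [mul_add]
      · intro y
        change f0 (kA i t) (ιA y) = ιA (l0 t y)
        have h1 := l2 0 y
        rw [tv_zero, add_zero] at h1
        rw [a3, f2, h1]
        change ((ru i).m * y.1, θ ((ru i).m * y.1 + (ru i).u) * (FreeGroup.of i.succ * y.2)) =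
          ((ru i).m * y.1, FreeGroup.of i.succ * (θ ((ru i).u' + (ru i).a * y.1) * y.2))
        have h2 : θ ((ru i).m * y.1 + (ru i).u) = FreeGroup.of i.succ *
            θ ((ru i).u' + (ru i).a * y.1) * (FreeGroup.of i.succ)⁻¹ := by
          rw [add_comm ((ru i).m * y.1)]
          exact theta_rule hdis htgt i y.1
        rw [h2, ← mul_assoc, inv_mul_cancel_right, mul_assoc]
    obtain ⟨p, hp1, hp2⟩ := ext_iso2 (Y := (V5 × Phi R) × (K × ℕ)) (ρ.comp (kB i))
      (ρ.comp (kA i)) (act2_free f0 (kB i) (b1 i)) (act2_free f0 (kA i) (a1 i))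
      (fun e y => (l0 e y.1, regN K (kB i e) y.2))
      (fun y => Sum.inl (ιB y.1, y.2)) (fun y => Sum.inl (ιA y.1, ρi y.2))
      (by
        rintro ⟨⟨v, g⟩, q⟩ ⟨⟨v', g'⟩, q'⟩ h
        have h1 := Sum.inl_injective h
        have h2 := congrArg (fun s => s.1.1) h1
        have h3 := congrArg (fun s => s.1.2) h1
        have h4 := congrArg Prod.snd h1
        have h5 : v = v' := mul_cancel (ru i).apos h2
        have h6 : g = g' := h3
        have h7 : q = q' := h4
        rw [h5, h6, h7])
      (by
        rintro ⟨⟨v, g⟩, q⟩ ⟨⟨v', g'⟩, q'⟩ h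
        have h1 := Sum.inl_injective h
        have h2 := congrArg (fun s => s.1.1) h1
        have h3 := congrArg (fun s => s.1.2) h1
        have h4 := congrArg Prod.snd h1
        have h5 : v = v' := mul_cancel (ru i).mpos h2
        have h6 : g = g' := mul_left_cancel h3
        have h7 : q = q' := ρi.injective h4
        rw [h5, h6, h7])
      (by
        intro e y
        change ρ (kB i e) (Sum.inl (ιB y.1, y.2)) = _
        rw [act2_inl, iB])
      (by
        intro e y
        change ρ (kA i e) (Sum.inl (ιA y.1, ρi y.2)) = _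
        rw [act2_inl, iA]
        have h1 := DFunLike.congr_fun (hρi e) y.2
        rw [Equiv.Perm.mul_apply, Equiv.Perm.mul_apply] at h1
        rw [← h1])
      (fun n => Sum.inr (1, n)) (fun n => Sum.inr (1, n))
      (by rintro n ⟨y, h⟩; exact absurd h (by simp)) (by rintro n ⟨y, h⟩; exact absurd h (by simp))
      (fun n m e h => congrArg Prod.snd (Sum.inr_injective h))
      (fun n m e h => congrArg Prod.snd (Sum.inr_injective h))
    refine ⟨p, ρi, ?_, ?_⟩
    · intro z g q
      exact hp1 ((z, g), q)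
    · intro e
      apply Equiv.ext
      intro y
      rw [Equiv.Perm.mul_apply, Equiv.Perm.mul_apply, Equiv.Perm.inv_eq_iff_eq]
      exact (hp2 e y).symm
  choose p ρi p1 p2 using hmod
  obtain ⟨F, F1, F2⟩ := huniv _ ρ p p2
  -- the action of the free group on the base points
  have act : ∀ h : Phi R, ∀ g q, ∃ q', F (lam h) (Sum.inl (((0 : V5), g), q)) =
      Sum.inl (((0 : V5), h * g), q') := by
    have gen0 : ∀ g q, F (lam (FreeGroup.of 0)) (Sum.inl (((0 : V5), g), q)) =
        Sum.inl (((0 : V5), FreeGroup.of 0 * g), regN K (tv x t tgt) q) := by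
      intro g q
      rw [lam0, F1, act2_inl, f2]
      have h1 : θ (0 + tgt) = FreeGroup.of 0 := by
        rw [zero_add]
        exact theta_of hdis htgt Th.base
      rw [h1]
    have gens : ∀ i : Fin R, ∀ g q, F (lam (FreeGroup.of i.succ)) (Sum.inl (((0 : V5), g), q)) =
        Sum.inl (((0 : V5), FreeGroup.of i.succ * g), ρi i q) := by
      intro i g q
      rw [lams, F2]
      have h1 := p1 i 0 g q
      rwa [mul_zero, mul_zero] at h1
    have gen : ∀ i : Fin (R + 1), ∃ τ : Equiv.Perm (K × ℕ), ∀ g q,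
        F (lam (FreeGroup.of i)) (Sum.inl (((0 : V5), g), q)) =
        Sum.inl (((0 : V5), FreeGroup.of i * g), τ q) := by
      intro i
      refine Fin.cases ⟨_, gen0⟩ (fun i => ⟨_, gens i⟩) i
    intro h
    induction h using FreeGroup.induction_on with
    | C1 =>
      intro g q
      exact ⟨q, by simp⟩
    | of i =>
      intro g q
      obtain ⟨τ, hτ⟩ := gen i
      exact ⟨τ q, hτ g q⟩
    | inv_of i _ =>
      intro g q
      obtain ⟨τ, hτ⟩ := gen i
      refine ⟨τ⁻¹ q, ?_⟩
      rw [map_inv, map_inv, Equiv.Perm.inv_eq_iff_eq, hτ]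
      simp
    | mul a b ha hb =>
      intro g q
      obtain ⟨q1, h1⟩ := hb g q
      obtain ⟨q2, h2⟩ := ha (b * g) q1
      refine ⟨q2, ?_⟩
      rw [map_mul, map_mul, Equiv.Perm.mul_apply, h1, h2, mul_assoc]
  have thL : ∀ v g, Th ru tgt v g → j (tv x t v) = lam g := by
    intro v g h
    induction h with
    | base => exact lam0.symm
    | step i z g h ih =>
      have h1 := hrel i (tv x t z)
      rw [kAv, kBv] at h1
      rw [map_mul, map_mul, map_inv, lams, ← ih, ← h1]
      group
  refine ⟨U, iU, j, lam, hU, hj, ?_, ?_⟩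
  · rw [injective_iff_map_eq_one]
    intro h hh
    obtain ⟨q', hq⟩ := act h 1 (1, 0)
    rw [hh, map_one, Equiv.Perm.one_apply] at hq
    have h1 := congrArg (fun s => s.1.2) (Sum.inl_injective hq)
    change (1 : Phi R) = h * 1 at h1
    rw [mul_one] at h1
    exact h1.symm
  · intro v
    rw [← th_reach]
    constructor
    · rintro ⟨g, hg⟩
      by_contra hcon
      obtain ⟨q', hq⟩ := act g 1 (1, 0)
      rw [hg, F1, act2_inl, f2] at hq
      have h1 := congrArg (fun s => s.1.2) (Sum.inl_injective hq)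
      change θ (0 + v) * 1 = g * 1 at h1
      rw [zero_add, mul_one, mul_one] at h1
      have h2 : θ v = 1 := theta_not hcon
      rw [h2] at h1
      rw [← h1, map_one] at hg
      have h3 : tv x t v = 1 := hj (hg.symm.trans (map_one j).symm)
      apply hK.tne
      rw [tv, mul_assoc, inv_mul_eq_one] at h3
      have h4 : t * xv x v = 1 * xv x v := by rw [one_mul]; exact h3.symm
      exact mul_right_cancel h4
    · rintro ⟨g, hg⟩
      exact ⟨g, (thL v g hg).symm⟩

end

end Pool.Agent.SDec
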