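import Pool.Agent.SDec.Model

/-!
# The permutation model with its data; intersections with free subgroups
-/

set_option autoImplicit false

namespace Pool.Agent.SDec

open Pool.Agent.Hhelper49.Srf Pool.Agent.Hhelper49.Srr

section
variable {K : Type} [Group K] {x : Multiplicative V5 →* K} {t : K}

/-- the model with its data -/
theorem model0 (hK : KData K x t) {R : ℕ} (ru : Fin R → Rule) (tgt : V5)
    (hdis : ∀ i i' z z', (ru i).u + (ru i).m * z = (ru i').u + (ru i').m * z' → i = i')
    (htgt : ∀ i z, (ru i).u + (ru i).m * z ≠ tgt) :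
    ∃ (U : Type) (_ : Group U) (j : K →* U) (lam : Phi R →* U), Nice U ∧ Function.Injective j ∧
      (∀ v g, Th ru tgt v g → j (tv x t v) = lam g) ∧
      ∃ (f0 : K →* Equiv.Perm (V5 × Phi R))
        (F : U →* Equiv.Perm (((V5 × Phi R) × (K × ℕ)) ⊕ (K × ℕ))),
        (∀ w p, f0 (xv x w) p = (p.1 + w, p.2)) ∧
        (∀ v p, f0 (tv x t v) p = (p.1, theta ru tgt (p.1 + v) * p.2)) ∧
        (∀ k p q, F (j k) (Sum.inl (p, q)) = Sum.inl (f0 k p, regN K k q)) ∧
        ∀ h : Phi R, ∀ g q, ∃ q', F (lam h) (Sum.inl (((0 : V5), g), q)) =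
          Sum.inl (((0 : V5), h * g), q') := by
  have _ : Countable K := countable_of_fpres K hK.nice.fp
  have hA := fun i => exists_kap hK (ru i).m (ru i).u (ru i).mpos
  have hB := fun i => exists_kap hK (ru i).a (ru i).u' (ru i).apos
  choose kA a1 a2 a3 using hA
  choose kB b1 b2 b3 using hB
  have kAv : ∀ i z, kA i (tv x t z) = tv x t ((ru i).u + (ru i).m * z) := by
    intro i z
    rw [tv_add, tv, map_mul, map_mul, map_inv, a2, a3]
  have kBv : ∀ i z, kB i (tv x t z) = tv x t ((ru i).u' + (ru i).a * z) := by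
    intro i z
    rw [tv_add, tv, map_mul, map_mul, map_inv, b2, b3]
  obtain ⟨U, iU, j, r, hj, hU, hrel, huniv⟩ := hnn_multi hK.nice R hK.nice kA kB a1 b1
  let lam : Phi R →* U := FreeGroup.lift (Fin.cons (j (tv x t tgt)) r : Fin (R + 1) → U)
  have lam0 : lam (FreeGroup.of 0) = j (tv x t tgt) := by
    simp [lam]
  have lams : ∀ i : Fin R, lam (FreeGroup.of i.succ) = r i := by
    intro i
    simp [lam]
  -- the model
  let θ : V5 → Phi R := theta ru tgt
  obtain ⟨f0, f1, f2⟩ := exists_f0 hK θ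
  let ρ : K →* Equiv.Perm (((V5 × Phi R) × (K × ℕ)) ⊕ (K × ℕ)) := act2 f0
  have hmod : ∀ i : Fin R, ∃ (p : Equiv.Perm (((V5 × Phi R) × (K × ℕ)) ⊕ (K × ℕ)))
      (ρi : Equiv.Perm (K × ℕ)),
      (∀ z g q, p (Sum.inl (((ru i).a * z, g), q)) =
        Sum.inl (((ru i).m * z, FreeGroup.of i.succ * g), ρi q)) ∧
      ∀ e, p⁻¹ * ρ (kA i e) * p = ρ (kB i e) := by
    intro i
    obtain ⟨ρi, hρi⟩ := regN_conj (kB i) (kA i) (b1 i) (a1 i)
    obtain ⟨l0, l1, l2⟩ := exists_f0 hK (fun z => θ ((ru i).u' + (ru i).a * z))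
    let ιB : V5 × Phi R → V5 × Phi R := fun y => ((ru i).a * y.1, y.2)
    let ιA : V5 × Phi R → V5 × Phi R := fun y => ((ru i).m * y.1, FreeGroup.of i.succ * y.2)
    have iB : ∀ k y, f0 (kB i k) (ιB y) = ιB (l0 k y) := by
      apply intertwine hK (f0.comp (kB i))
      · intro w y
        change f0 (kB i (xv x w)) (ιB y) = ιB (l0 (xv x w) y)
        rw [b2, f1, l1]
        change ((ru i).a * y.1 + (ru i).a * w, y.2) = ((ru i).a * (y.1 + w), y.2)
        rw [mul_add]
      · intro y
        change f0 (kB i t) (ιB y) = ιB (l0 t y)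
        have h1 := l2 0 y
        rw [tv_zero, add_zero] at h1
        rw [b3, f2, h1]
        change ((ru i).a * y.1, θ ((ru i).a * y.1 + (ru i).u') * y.2) =
          ((ru i).a * y.1, θ ((ru i).u' + (ru i).a * y.1) * y.2)
        rw [add_comm ((ru i).a * y.1)]
    have iA : ∀ k y, f0 (kA i k) (ιA y) = ιA (l0 k y) := by
      apply intertwine hK (f0.comp (kA i))
      · intro w y
        change f0 (kA i (xv x w)) (ιA y) = ιA (l0 (xv x w) y)
        rw [a2, f1, l1]
        change ((ru i).m * y.1 + (ru i).m * w, FreeGroup.of i.succ * y.2) =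
          ((ru i).m * (y.1 + w), FreeGroup.of i.succ * y.2)
        rw [mul_add]
      · intro y
        change f0 (kA i t) (ιA y) = ιA (l0 t y)
        have h1 := l2 0 y
        rw [tv_zero, add_zero] at h1
        rw [a3, f2, h1]
        change ((ru i).m * y.1, θ ((ru i).m * y.1 + (ru i).u) * (FreeGroup.of i.succ * y.2)) =
          ((ru i).m * y.1, FreeGroup.of i.succ * (θ ((ru i).u' + (ru i).a * y.1) * y.2))
        have h2 : θ ((ru i).m * y.1 + (ru i).u) = FreeGroup.of i.succ *
            θ ((ru i).u' + (ru i).a * y.1) * (FreeGroup.of i.succ)⁻¹ := by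
          rw [add_comm ((ru i).m * y.1)]
          exact theta_rule hdis htgt i y.1
        rw [h2, ← mul_assoc, inv_mul_cancel_right, mul_assoc]
    obtain ⟨p, hp1, hp2⟩ := ext_iso2 (Y := (V5 × Phi R) × (K × ℕ)) (ρ.comp (kB i))
      (ρ.comp (kA i)) (act2_free f0 (kB i) (b1 i)) (act2_free f0 (kA i) (a1 i))
      (fun e y => (l0 e y.1, regN K (kB i e) y.2))
      (fun y => Sum.inl (ιB y.1, y.2)) (fun y => Sum.inl (ιA y.1, ρi y.2))
      (by
        rintro ⟨⟨v, g⟩, q⟩ ⟨⟨v', g'⟩, q'⟩ h
        have h1 := Sum.inl_injective h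
        have h2 := congrArg (fun s => s.1.1) h1
        have h3 := congrArg (fun s => s.1.2) h1
        have h4 := congrArg Prod.snd h1
        have h5 : v = v' := mul_cancel (ru i).apos h2
        have h6 : g = g' := h3
        have h7 : q = q' := h4
        rw [h5, h6, h7])
      (by
        rintro ⟨⟨v, g⟩, q⟩ ⟨⟨v', g'⟩, q'⟩ h
        have h1 := Sum.inl_injective h
        have h2 := congrArg (fun s => s.1.1) h1
        have h3 := congrArg (fun s => s.1.2) h1
        have h4 := congrArg Prod.snd h1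
        have h5 : v = v' := mul_cancel (ru i).mpos h2
        have h6 : g = g' := mul_left_cancel h3
        have h7 : q = q' := ρi.injective h4
        rw [h5, h6, h7])
      (by
        intro e y
        change ρ (kB i e) (Sum.inl (ιB y.1, y.2)) = _
        rw [act2_inl, iB])
      (by
        intro e y
        change ρ (kA i e) (Sum.inl (ιA y.1, ρi y.2)) = _
        rw [act2_inl, iA]
        have h1 := DFunLike.congr_fun (hρi e) y.2
        rw [Equiv.Perm.mul_apply, Equiv.Perm.mul_apply] at h1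
        rw [← h1])
      (fun n => Sum.inr (1, n)) (fun n => Sum.inr (1, n))
      (by rintro n ⟨y, h⟩; exact absurd h (by simp)) (by rintro n ⟨y, h⟩; exact absurd h (by simp))
      (fun n m e h => congrArg Prod.snd (Sum.inr_injective h))
      (fun n m e h => congrArg Prod.snd (Sum.inr_injective h))
    refine ⟨p, ρi, ?_, ?_⟩
    · intro z g q
      exact hp1 ((z, g), q)
    · intro e
      apply Equiv.ext
      intro y
      rw [Equiv.Perm.mul_apply, Equiv.Perm.mul_apply, Equiv.Perm.inv_eq_iff_eq]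
      exact (hp2 e y).symm
  choose p ρi p1 p2 using hmod
  obtain ⟨F, F1, F2⟩ := huniv _ ρ p p2
  -- the action of the free group on the base points
  have act : ∀ h : Phi R, ∀ g q, ∃ q', F (lam h) (Sum.inl (((0 : V5), g), q)) =
      Sum.inl (((0 : V5), h * g), q') := by
    have gen0 : ∀ g q, F (lam (FreeGroup.of 0)) (Sum.inl (((0 : V5), g), q)) =
        Sum.inl (((0 : V5), FreeGroup.of 0 * g), regN K (tv x t tgt) q) := by
      intro g q
      rw [lam0, F1, act2_inl, f2]
      have h1 : θ (0 + tgt) = FreeGroup.of 0 := by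
        rw [zero_add]
        exact theta_of hdis htgt Th.base
      rw [h1]
    have gens : ∀ i : Fin R, ∀ g q, F (lam (FreeGroup.of i.succ)) (Sum.inl (((0 : V5), g), q)) =
        Sum.inl (((0 : V5), FreeGroup.of i.succ * g), ρi i q) := by
      intro i g q
      rw [lams, F2]
      have h1 := p1 i 0 g q
      rwa [mul_zero, mul_zero] at h1
    have gen : ∀ i : Fin (R + 1), ∃ τ : Equiv.Perm (K × ℕ), ∀ g q,
        F (lam (FreeGroup.of i)) (Sum.inl (((0 : V5), g), q)) =
        Sum.inl (((0 : V5), FreeGroup.of i * g), τ q) := by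
      intro i
      refine Fin.cases ⟨_, gen0⟩ (fun i => ⟨_, gens i⟩) i
    intro h
    induction h using FreeGroup.induction_on with
    | C1 =>
      intro g q
      exact ⟨q, by simp⟩
    | of i =>
      intro g q
      obtain ⟨τ, hτ⟩ := gen i
      exact ⟨τ q, hτ g q⟩
    | inv_of i _ =>
      intro g q
      obtain ⟨τ, hτ⟩ := gen i
      refine ⟨τ⁻¹ q, ?_⟩
      rw [map_inv, map_inv, Equiv.Perm.inv_eq_iff_eq, hτ]
      simp
    | mul a b ha hb =>
      intro g q
      obtain ⟨q1, h1⟩ := hb g q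
      obtain ⟨q2, h2⟩ := ha (b * g) q1
      refine ⟨q2, ?_⟩
      rw [map_mul, map_mul, Equiv.Perm.mul_apply, h1, h2, mul_assoc]
  have thL : ∀ v g, Th ru tgt v g → j (tv x t v) = lam g := by
    intro v g h
    induction h with
    | base => exact lam0.symm
    | step i z g h ih =>
      have h1 := hrel i (tv x t z)
      rw [kAv, kBv] at h1
      rw [map_mul, map_mul, map_inv, lams, ← ih, ← h1]
      group
  refine ⟨U, iU, j, lam, hU, hj, thL, f0, F, f1, f2, ?_, act⟩
  intro k p q
  rw [F1, act2_inl]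

end

end Pool.Agent.SDec
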