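import Mathlib

/-!
# Words, finite presentations, subgroups generated by words, limit computability

The definitions used in the statements about the complexity of type (FF).
-/

set_option autoImplicit false

namespace Pool.Agent.SDec

/-- words: `(i, true)` is `x_i`, `(i, false)` is `x_i⁻¹` -/
abbrev Word := List (ℕ × Bool)

/-- finite presentations: the number of generators and the relators -/
abbrev Pres := ℕ × List Word

/-- the relators, in the free group on `x_0, x_1, …` -/
def relSet (p : Pres) : Set (FreeGroup ℕ) :=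
  {x | (∃ w ∈ p.2, x = FreeGroup.mk w) ∨ ∃ i, p.1 ≤ i ∧ x = FreeGroup.of i}

/-- the group of a finite presentation -/
abbrev Gp (p : Pres) : Type := PresentedGroup (relSet p)

/-- value of a word -/
def ev {G : Type} [Group G] (f : ℕ → G) (w : Word) : G := FreeGroup.lift f (FreeGroup.mk w)

/-- a finite generating sequence, continued by `1` -/
def FinGen {U : Type} [Group U] (u : ℕ → U) : Prop :=
  Subgroup.closure (Set.range u) = ⊤ ∧ ∃ N, ∀ i, N ≤ i → u i = 1

/-- the subgroup generated by the values of the words of a list -/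
def wsub {U : Type} [Group U] (u : ℕ → U) (W : List Word) : Subgroup U :=
  Subgroup.closure {x | ∃ w ∈ W, x = ev u w}

/-- limits of computable sequences -/
def LimComp (c : ℕ → ℕ) : Prop :=
  ∃ g : ℕ → ℕ → ℕ, Computable₂ g ∧ ∀ e, ∃ s₀, ∀ s, s₀ ≤ s → g e s = c e

/-- limit computable sets -/
def LimSet (S : Set ℕ) : Prop :=
  ∃ g : ℕ → ℕ → Bool, Computable₂ g ∧ ∀ e, ∃ s₀, ∀ s, s₀ ≤ s → (g e s = true ↔ e ∈ S)

/-- the sequence `g` has at most `b` changes and tends to the truth value of `A` -/
def Decides (g : ℕ → Bool) (b : ℕ) (A : Prop) : Prop :=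
  (∀ t, ((Finset.range t).filter fun s => g s ≠ g (s + 1)).card ≤ b) ∧
    ∃ s₀, ∀ s, s₀ ≤ s → (g s = true ↔ A)

end Pool.Agent.SDec
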