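import Pool.Agent.SDec.Hnn
import Pool.Agent.SDec.StDefs

/-!
# Finite presentations

A finite presentation is a number `N` and a list of words in the letters `x_0, x_1, …`; its group has the generators
`x_0, x_1, …`, with `x_i = 1` for `i ≥ N` and all words of the list equal to `1`.
-/

set_option autoImplicit false

namespace Pool.Agent.SDec

section
variable {G P : Type} [Group G] [Group P]

@[simp] theorem ev_nil (f : ℕ → G) : ev f [] = 1 := by
  simp [ev, FreeGroup.lift_mk]

theorem ev_append (f : ℕ → G) (w w' : Word) : ev f (w ++ w') = ev f w * ev f w' := by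
  unfold ev
  rw [← FreeGroup.mul_mk, map_mul]

theorem ev_cons (f : ℕ → G) (l : ℕ × Bool) (w : Word) :
    ev f (l :: w) = (bif l.2 then f l.1 else (f l.1)⁻¹) * ev f w := by
  simp [ev, FreeGroup.lift_mk]

/-- inverse word -/
def winv (w : Word) : Word := (w.map fun l => (l.1, !l.2)).reverse

theorem ev_inv (f : ℕ → G) (w : Word) : ev f (winv w) = (ev f w)⁻¹ := by
  unfold ev winv
  have h := FreeGroup.inv_mk (L := w)
  rw [← map_inv, h]
  rfl

theorem ev_map (F : G →* P) (f : ℕ → G) (w : Word) : F (ev f w) = ev (fun i => F (f i)) w := by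
  induction w with
  | nil => simp
  | cons l w ih =>
    rw [ev_cons, ev_cons, map_mul, ih]
    rcases l with ⟨i, b⟩
    cases b <;> simp

theorem ev_congr {f f' : ℕ → G} {w : Word} (h : ∀ l ∈ w, f l.1 = f' l.1) : ev f w = ev f' w := by
  induction w with
  | nil => simp
  | cons l w ih =>
    rw [ev_cons, ev_cons, ih (fun l' hl' => h l' (List.mem_cons_of_mem _ hl')),
      h l List.mem_cons_self]

/-- shifted word -/
def shift (N : ℕ) (w : Word) : Word := w.map fun l => (N + l.1, l.2)

theorem ev_shift (f : ℕ → G) (N : ℕ) (w : Word) : ev f (shift N w) = ev (fun i => f (N + i)) w := by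
  induction w with
  | nil => simp [shift]
  | cons l w ih =>
    have h1 : shift N (l :: w) = (N + l.1, l.2) :: shift N w := rfl
    rw [h1, ev_cons, ev_cons, ih]

theorem ev_single (f : ℕ → G) (i : ℕ) : ev f [(i, true)] = f i := by
  rw [ev_cons]; simp

/-- `G` has the presentation `p` with generators `g` -/
structure IsPres (G : Type) [Group G] (p : Pres) (g : ℕ → G) : Prop where
  gen : Subgroup.closure (Set.range g) = ⊤
  big : ∀ i, p.1 ≤ i → g i = 1
  rel : ∀ w ∈ p.2, ev g w = 1
  univ : ∀ (P : Type) [Group P] (f : ℕ → P), (∀ i, p.1 ≤ i → f i = 1) →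
    (∀ w ∈ p.2, ev f w = 1) → ∃ F : G →* P, ∀ i, F (g i) = f i

/-- all letters of the relators are generators -/
def Clean (p : Pres) : Prop := ∀ w ∈ p.2, ∀ l ∈ w, l.1 < p.1

theorem isPres_gp (p : Pres) : IsPres (Gp p) p (fun i => PresentedGroup.of i) where
  gen := PresentedGroup.closure_range_of _
  big i hi := by
    have h1 : (PresentedGroup.mk (relSet p)) (FreeGroup.of i) = 1 := by
      rw [PresentedGroup.mk_eq_one_iff]
      exact Subgroup.subset_normalClosure (Or.inr ⟨i, hi, rfl⟩)
    exact h1
  rel w hw := by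
    have h1 : (PresentedGroup.mk (relSet p)) (FreeGroup.mk w) = 1 := by
      rw [PresentedGroup.mk_eq_one_iff]
      exact Subgroup.subset_normalClosure (Or.inl ⟨w, hw, rfl⟩)
    have h2 : ev (fun i => PresentedGroup.of (rels := relSet p) i) w =
        (PresentedGroup.mk (relSet p)) (FreeGroup.mk w) := by
      unfold ev
      have h3 : FreeGroup.lift (fun i => PresentedGroup.of (rels := relSet p) i) =
          PresentedGroup.mk (relSet p) := by
        apply FreeGroup.ext_hom
        intro i
        rw [FreeGroup.lift_apply_of]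
        rfl
      rw [h3]
    rw [h2, h1]
  univ P _ f hf hw := by
    have h : ∀ r ∈ relSet p, FreeGroup.lift f r = 1 := by
      rintro r (⟨w, hw', rfl⟩ | ⟨i, hi, rfl⟩)
      · exact hw w hw'
      · rw [FreeGroup.lift_apply_of]
        exact hf i hi
    exact ⟨PresentedGroup.toGroup h, fun i => PresentedGroup.toGroup.of h⟩

theorem exists_clean (G : Type) [Group G] (hG : Group.IsFinitelyPresented G) :
    ∃ (p : Pres) (g : ℕ → G), Clean p ∧ IsPres G p g := by
  classical
  obtain ⟨n, φ, hφ, S, hS, hSφ⟩ := hG.out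
  let T : Finset (FreeGroup (Fin n)) := hS.toFinset
  let R : List Word := T.toList.map fun x => x.toWord.map fun l => ((l.1 : ℕ), l.2)
  let g : ℕ → G := fun i => if h : i < n then φ (FreeGroup.of ⟨i, h⟩) else 1
  have hcl : Clean (n, R) := by
    intro w hw l hl
    obtain ⟨x, _, rfl⟩ := List.mem_map.1 hw
    obtain ⟨l', _, rfl⟩ := List.mem_map.1 hl
    exact l'.1.is_lt
  have hword : ∀ (P : Type) [Group P] (f : ℕ → P) (x : FreeGroup (Fin n)),
      ev f (x.toWord.map fun l => ((l.1 : ℕ), l.2)) =
        FreeGroup.lift (fun i : Fin n => f i) x := by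
    intro P _ f x
    conv_rhs => rw [← FreeGroup.mk_toWord (x := x)]
    unfold ev
    rw [FreeGroup.lift_mk, FreeGroup.lift_mk, List.map_map]
    rfl
  have hg : FreeGroup.lift (fun i : Fin n => g i) = φ := by
    apply FreeGroup.ext_hom
    intro i
    rw [FreeGroup.lift_apply_of]
    simp [g]
  refine ⟨(n, R), g, hcl, ?_, ?_, ?_, ?_⟩
  · rw [eq_top_iff]
    intro x _
    obtain ⟨y, rfl⟩ := hφ x
    rw [← hg]
    have : ∀ y : FreeGroup (Fin n), FreeGroup.lift (fun i : Fin n => g i) y ∈
        Subgroup.closure (Set.range g) := by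
      intro y
      induction y using FreeGroup.induction_on with
      | C1 => rw [map_one]; exact one_mem _
      | of i => rw [FreeGroup.lift_apply_of]; exact Subgroup.subset_closure ⟨_, rfl⟩
      | inv_of i _ =>
        rw [map_inv, FreeGroup.lift_apply_of]
        exact inv_mem (Subgroup.subset_closure ⟨_, rfl⟩)
      | mul a b ha hb => rw [map_mul]; exact mul_mem ha hb
    exact this y
  · intro i hi
    have : ¬ i < n := not_lt.2 hi
    simp [g, this]
  · intro w hw
    obtain ⟨x, hx, rfl⟩ := List.mem_map.1 hw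
    rw [hword, hg]
    have hx' : x ∈ S := by simpa [T] using hx
    have : x ∈ φ.ker := by
      rw [← hSφ]
      exact Subgroup.subset_normalClosure hx'
    exact this
  · intro P _ f hf hw
    let ψ : FreeGroup (Fin n) →* P := FreeGroup.lift fun i : Fin n => f i
    have hker : φ.ker ≤ ψ.ker := by
      rw [← hSφ]
      apply Subgroup.normalClosure_le_normal
      intro x hx
      have h1 := hw (x.toWord.map fun l => ((l.1 : ℕ), l.2)) (List.mem_map.2 ⟨x, by
        simpa [T] using hx, rfl⟩)
      rw [hword] at h1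
      exact h1
    let F : G →* P := φ.liftOfSurjective hφ ⟨ψ, hker⟩
    refine ⟨F, fun i => ?_⟩
    by_cases hi : i < n
    · have h1 : g i = φ (FreeGroup.of ⟨i, hi⟩) := by simp [g, hi]
      rw [h1]
      have h2 : F (φ (FreeGroup.of ⟨i, hi⟩)) = ψ (FreeGroup.of ⟨i, hi⟩) :=
        MonoidHom.liftOfRightInverse_comp_apply _ _ _ _ _
      rw [h2]
      simp [ψ]
    · have h1 : g i = 1 := by simp [g, hi]
      rw [h1, map_one, hf i (not_lt.1 hi)]

theorem exists_word {p : Pres} {g : ℕ → G} (h : IsPres G p g) (x : G) :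
    ∃ w : Word, (∀ l ∈ w, l.1 < p.1) ∧ ev g w = x := by
  have hx : x ∈ Subgroup.closure (Set.range g) := by
    rw [h.gen]
    exact Subgroup.mem_top x
  induction hx using Subgroup.closure_induction with
  | mem x hx =>
    obtain ⟨i, rfl⟩ := hx
    by_cases hi : i < p.1
    · exact ⟨[(i, true)], by simpa using hi, ev_single g i⟩
    · refine ⟨[], by simp, ?_⟩
      rw [ev_nil, h.big i (not_lt.1 hi)]
  | one => exact ⟨[], by simp, ev_nil g⟩
  | mul a b _ _ ha hb =>
    obtain ⟨w, hw, rfl⟩ := ha
    obtain ⟨w', hw', rfl⟩ := hb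
    refine ⟨w ++ w', ?_, ev_append g w w'⟩
    intro l hl
    rcases List.mem_append.1 hl with hl | hl
    · exact hw l hl
    · exact hw' l hl
  | inv a _ ha =>
    obtain ⟨w, hw, rfl⟩ := ha
    refine ⟨winv w, ?_, ev_inv g w⟩
    intro l hl
    unfold winv at hl
    rw [List.mem_reverse] at hl
    obtain ⟨l', hl', rfl⟩ := List.mem_map.1 hl
    exact hw l' hl'

theorem gp_fpres (p : Pres) : Group.IsFinitelyPresented (Gp p) := by
  classical
  let n := p.1
  let o : ℕ → Gp p := fun i => PresentedGroup.of i
  have hp : IsPres (Gp p) p o := isPres_gp p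
  let φ : FreeGroup (Fin n) →* Gp p := FreeGroup.lift fun i => o i
  let d : ℕ → FreeGroup (Fin n) := fun i => if h : i < n then FreeGroup.of ⟨i, h⟩ else 1
  let T : Set (FreeGroup (Fin n)) := (fun w => ev d w) '' {w | w ∈ p.2}
  have hT : T.Finite := (List.finite_toSet p.2).image _
  have hφd : ∀ i, φ (d i) = o i := by
    intro i
    by_cases hi : i < n
    · simp [d, hi, φ]
    · have h1 : d i = 1 := by simp [d, hi]
      rw [h1, map_one, hp.big i (not_lt.1 hi)]
  refine ⟨n, φ, ?_, T, hT, ?_⟩
  · rw [← MonoidHom.range_eq_top, eq_top_iff, ← hp.gen, Subgroup.closure_le]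
    rintro _ ⟨i, rfl⟩
    exact ⟨d i, hφd i⟩
  · apply le_antisymm
    · apply Subgroup.normalClosure_le_normal
      rintro _ ⟨w, hw, rfl⟩
      change φ (ev d w) = 1
      rw [ev_map]
      simp only [hφd]
      exact hp.rel w hw
    · intro x hx
      let N := Subgroup.normalClosure T
      let q : FreeGroup (Fin n) →* FreeGroup (Fin n) ⧸ N := QuotientGroup.mk' N
      obtain ⟨F, hF⟩ := hp.univ (FreeGroup (Fin n) ⧸ N) (fun i => q (d i)) (by
        intro i hi
        have h1 : d i = 1 := by
          have : ¬ i < n := not_lt.2 hi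
          simp [d, this]
        rw [h1, map_one]) (by
        intro w hw
        rw [← ev_map]
        have h1 : ev d w ∈ N := Subgroup.subset_normalClosure ⟨w, hw, rfl⟩
        exact (QuotientGroup.eq_one_iff _).2 h1)
      have h1 : F.comp φ = q := by
        apply FreeGroup.ext_hom
        intro i
        have h2 : d i = FreeGroup.of i := by simp [d]
        have h3 : φ (FreeGroup.of i) = o i := by simp [φ]
        rw [MonoidHom.comp_apply, h3, hF, h2]
      have h4 : q x = 1 := by
        rw [← h1, MonoidHom.comp_apply, MonoidHom.mem_ker.1 hx, map_one]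
      exact (QuotientGroup.eq_one_iff _).1 h4

end

end Pool.Agent.SDec
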