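import Pool.Agent.SDec.ToggleH
import Pool.Agent.SDec.Comp

/-!
# Presentations of toggles and free products, in both arguments
-/

set_option autoImplicit false

namespace Pool.Agent.SDec

open Pool.Agent.Hhelper49.Srr Pool.Agent.Hhelper49.Srf Pool.Agent.SFP

/-- the shifted relators -/
def shR (n : ℕ) (R : List Word) : List Word := R.map (shift n)

/-- presentation of the free product -/
def joinP (p q : Pres) : Pres := (p.1 + q.1, p.2 ++ shR p.1 q.2)

/-- commutators of a word with the letters `n, …, n + m - 1` -/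
def cws (w : Word) (n m : ℕ) : List Word := (List.range m).map fun j => cw w (n + j)

/-- first toggle -/
def pr1 (pD p : Pres) (w : Word) : Pres :=
  (pD.1 + p.1, (joinP pD p).2 ++ cws w pD.1 p.1)

/-- second toggle -/
def pr2 (pD pH : Pres) (yw : Word) (p : Pres) (w : Word) : Pres :=
  (pD.1 + (pH.1 + p.1), (joinP pD (joinP pH p)).2 ++
    (cws w (pD.1 + pH.1) p.1 ++ cws (shift pD.1 yw) (pD.1 + pH.1) p.1))

section
variable {P : Type} [Group P]

/-- the combined assignment -/
def glue (n : ℕ) (a b : ℕ → P) : ℕ → P := fun i => if i < n then a i else b (i - n)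

theorem glue_lt {n : ℕ} {a b : ℕ → P} {i : ℕ} (h : i < n) : glue n a b i = a i := if_pos h

theorem glue_add {n : ℕ} {a b : ℕ → P} (i : ℕ) : glue n a b (n + i) = b i := by
  unfold glue
  rw [if_neg (by omega)]
  congr 1
  omega

theorem ev_glue_lt {n : ℕ} {a b : ℕ → P} {w : Word} (h : ∀ l ∈ w, l.1 < n) :
    ev (glue n a b) w = ev a w := ev_congr fun l hl => glue_lt (h l hl)

theorem ev_glue_shift {n : ℕ} {a b : ℕ → P} (w : Word) :
    ev (glue n a b) (shift n w) = ev b w := by
  rw [ev_shift]
  exact ev_congr fun l _ => glue_add l.1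

theorem shR_rel {n : ℕ} {o : ℕ → P} {R : List Word} (h : ∀ r ∈ shR n R, ev o r = 1) :
    ∀ r ∈ R, ev (fun i => o (n + i)) r = 1 := by
  intro r hr
  rw [← ev_shift]
  exact h _ (List.mem_map.2 ⟨r, hr, rfl⟩)

theorem rel_shR {n : ℕ} {a b : ℕ → P} {R : List Word} (h : ∀ r ∈ R, ev b r = 1) :
    ∀ r ∈ shR n R, ev (glue n a b) r = 1 := by
  intro r hr
  obtain ⟨r', hr', rfl⟩ := List.mem_map.1 hr
  rw [ev_glue_shift]
  exact h r' hr'

theorem hom_of {D : Type} [Group D] {pD : Pres} {gD : ℕ → D} (hD : IsPres D pD gD)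
    (cD : Clean pD) (o : ℕ → P) (ho : ∀ r ∈ pD.2, ev o r = 1) :
    ∃ α : D →* P, ∀ i, i < pD.1 → α (gD i) = o i := by
  classical
  obtain ⟨α, hα⟩ := hD.univ P (fun i => if i < pD.1 then o i else 1) (by
    intro i hi
    rw [if_neg (not_lt.2 hi)]) (by
    intro r hr
    have h1 := ho r hr
    rw [← h1]
    apply ev_congr
    intro l hl
    rw [if_pos (cD r hr l hl)])
  exact ⟨α, fun i hi => by rw [hα, if_pos hi]⟩

theorem pres_ev {D : Type} [Group D] {pD : Pres} {gD : ℕ → D} (hD : IsPres D pD gD)
    (f : D →* P) : ∀ r ∈ pD.2, ev (fun i => f (gD i)) r = 1 := by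
  intro r hr
  rw [← ev_map, hD.rel r hr, map_one]

theorem pres_big {D : Type} [Group D] {pD : Pres} {gD : ℕ → D} (hD : IsPres D pD gD)
    (f : D →* P) {i : ℕ} (hi : pD.1 ≤ i) : f (gD i) = 1 := by
  rw [hD.big i hi, map_one]

end

theorem clean_join {p q : Pres} (hp : Clean p) (hq : Clean q) : Clean (joinP p q) := by
  intro w hw l hl
  change l.1 < p.1 + q.1
  rcases List.mem_append.1 hw with hw | hw
  · have := hp w hw l hl
    omega
  · obtain ⟨w', hw', rfl⟩ := List.mem_map.1 hw
    obtain ⟨l', hl', rfl⟩ := List.mem_map.1 hl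
    have := hq w' hw' l' hl'
    change p.1 + l'.1 < p.1 + q.1
    omega

theorem cw_letters {w : Word} {j N : ℕ} (hw : ∀ l ∈ w, l.1 < N) (hj : j < N) :
    ∀ l ∈ cw w j, l.1 < N := by
  unfold cw
  apply append_clean hw
  intro l hl
  rcases List.mem_cons.1 hl with rfl | hl
  · exact hj
  · rcases List.mem_append.1 hl with hl | hl
    · exact winv_clean hw l hl
    · rw [List.mem_singleton] at hl
      rw [hl]
      exact hj

theorem cws_letters {w : Word} {n m N : ℕ} (hw : ∀ l ∈ w, l.1 < N) (hN : n + m ≤ N) :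
    ∀ r ∈ cws w n m, ∀ l ∈ r, l.1 < N := by
  intro r hr
  obtain ⟨j, hj, rfl⟩ := List.mem_map.1 hr
  have := List.mem_range.1 hj
  exact cw_letters hw (by omega)

theorem shift_letters {w : Word} {n N : ℕ} (hw : ∀ l ∈ w, l.1 < N) :
    ∀ l ∈ shift n w, l.1 < n + N := by
  intro l hl
  obtain ⟨l', hl', rfl⟩ := List.mem_map.1 hl
  have := hw l' hl'
  change n + l'.1 < n + N
  omega

theorem clean_pr1 {pD p : Pres} {w : Word} (hD : Clean pD) (hp : Clean p)
    (hw : ∀ l ∈ w, l.1 < pD.1) : Clean (pr1 pD p w) := by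
  intro r hr l hl
  change l.1 < pD.1 + p.1
  rcases List.mem_append.1 hr with hr | hr
  · exact clean_join hD hp r hr l hl
  · exact cws_letters (fun l hl => lt_of_lt_of_le (hw l hl) (Nat.le_add_right _ _)) le_rfl r hr l hl

theorem clean_pr2 {pD pH p : Pres} {yw w : Word} (hD : Clean pD) (hH : Clean pH) (hp : Clean p)
    (hy : ∀ l ∈ yw, l.1 < pH.1) (hw : ∀ l ∈ w, l.1 < pD.1) : Clean (pr2 pD pH yw p w) := by
  intro r hr l hl
  change l.1 < pD.1 + (pH.1 + p.1)
  rcases List.mem_append.1 hr with hr | hr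
  · exact clean_join hD (clean_join hH hp) r hr l hl
  · rcases List.mem_append.1 hr with hr | hr
    · exact cws_letters (N := pD.1 + (pH.1 + p.1))
        (fun l hl => by have := hw l hl; omega) (by omega) r hr l hl
    · refine cws_letters (N := pD.1 + (pH.1 + p.1)) ?_ (by omega) r hr l hl
      intro l hl
      have := shift_letters (n := pD.1) hy l hl
      omega

section
variable {D G : Type} [Group D] [Group G] {pD p : Pres} {gD : ℕ → D} {g : ℕ → G}

/-- free products -/
theorem join_gp (hD : IsPres D pD gD) (hG : IsPres G p g) (cD : Clean pD) (cG : Clean p) :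
    ∃ (α : D →* Gp (joinP pD p)) (β : G →* Gp (joinP pD p)),
      IsPush α β (triv0 D) (triv0 G) := by
  have hp := isPres_gp (joinP pD p)
  set o : ℕ → Gp (joinP pD p) := fun i => PresentedGroup.of i with ho
  obtain ⟨α, hα⟩ := hom_of hD cD o (fun r hr => hp.rel r (List.mem_append_left _ hr))
  obtain ⟨β, hβ⟩ := hom_of hG cG (fun i => o (pD.1 + i))
    (shR_rel fun r hr => hp.rel r (List.mem_append_right _ hr))
  refine ⟨α, β, ?_, by intro c; simp, ?_⟩
  · rw [eq_top_iff, ← hp.gen, Subgroup.closure_le]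
    rintro _ ⟨i, rfl⟩
    change o i ∈ α.range ⊔ β.range
    by_cases h1 : i < pD.1
    · exact (le_sup_left : α.range ≤ _) ⟨_, hα i h1⟩
    · by_cases h2 : i < pD.1 + p.1
      · have h3 := hβ (i - pD.1) (by omega)
        have h4 : pD.1 + (i - pD.1) = i := by omega
        rw [h4] at h3
        exact (le_sup_right : β.range ≤ _) ⟨_, h3⟩
      · have h4 : o i = 1 := hp.big i (not_lt.1 h2)
        rw [h4]
        exact one_mem _
  · intro P _ f h _
    obtain ⟨F, hF⟩ := hp.univ P (glue pD.1 (fun i => f (gD i)) (fun i => h (g i))) (by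
      intro i hi
      have hi' : pD.1 + p.1 ≤ i := hi
      obtain ⟨j, rfl⟩ : ∃ j, i = pD.1 + j := ⟨i - pD.1, by omega⟩
      rw [glue_add]
      exact pres_big hG h (by omega)) (by
      intro r hr
      rcases List.mem_append.1 hr with hr | hr
      · rw [ev_glue_lt (cD r hr)]
        exact pres_ev hD f r hr
      · exact rel_shR (pres_ev hG h) r hr)
    refine ⟨F, ?_, ?_⟩
    · intro d
      refine pres_hom_ext hD (F.comp α) f ?_ d
      intro i hi
      rw [MonoidHom.comp_apply, hα i hi]
      have := hF i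
      rw [glue_lt hi] at this
      exact this
    · intro x
      refine pres_hom_ext hG (F.comp β) h ?_ x
      intro i hi
      rw [MonoidHom.comp_apply, hβ i hi]
      have := hF (pD.1 + i)
      rw [glue_add] at this
      exact this

theorem pr1_gp (hD : IsPres D pD gD) (hG : IsPres G p g) (cD : Clean pD) (cG : Clean p) {w : Word}
    (hw : ∀ l ∈ w, l.1 < pD.1) :
    ∃ (α : D →* Gp (pr1 pD p w)) (β : G →* Gp (pr1 pD p w)), Tog1 (ev gD w) α β := by
  have hp := isPres_gp (pr1 pD p w)
  set o : ℕ → Gp (pr1 pD p w) := fun i => PresentedGroup.of i with ho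
  obtain ⟨α, hα⟩ := hom_of hD cD o (fun r hr => hp.rel r (List.mem_append_left _
    (List.mem_append_left _ hr)))
  obtain ⟨β, hβ⟩ := hom_of hG cG (fun i => o (pD.1 + i))
    (shR_rel fun r hr => hp.rel r (List.mem_append_left _ (List.mem_append_right _ hr)))
  refine ⟨α, β, ?_, ?_, ?_⟩
  · rw [eq_top_iff, ← hp.gen, Subgroup.closure_le]
    rintro _ ⟨i, rfl⟩
    change o i ∈ α.range ⊔ β.range
    by_cases h1 : i < pD.1
    · exact (le_sup_left : α.range ≤ _) ⟨_, hα i h1⟩
    · by_cases h2 : i < pD.1 + p.1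
      · have h3 := hβ (i - pD.1) (by omega)
        have h4 : pD.1 + (i - pD.1) = i := by omega
        rw [h4] at h3
        exact (le_sup_right : β.range ≤ _) ⟨_, h3⟩
      · have h4 : o i = 1 := hp.big i (not_lt.1 h2)
        rw [h4]
        exact one_mem _
  · refine pres_commute hG β _ ?_
    intro j hj
    rw [ev_parts α o hα hw, hβ j hj, ← ev_cw_one]
    exact hp.rel _ (List.mem_append_right _ (List.mem_map.2 ⟨j, List.mem_range.2 hj, rfl⟩))
  · intro P _ f h hfh
    obtain ⟨F, hF⟩ := hp.univ P (glue pD.1 (fun i => f (gD i)) (fun i => h (g i))) (by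
      intro i hi
      have hi' : pD.1 + p.1 ≤ i := hi
      obtain ⟨j, rfl⟩ : ∃ j, i = pD.1 + j := ⟨i - pD.1, by omega⟩
      rw [glue_add]
      exact pres_big hG h (by omega)) (by
      intro r hr
      rcases List.mem_append.1 hr with hr | hr
      · rcases List.mem_append.1 hr with hr | hr
        · rw [ev_glue_lt (cD r hr)]
          exact pres_ev hD f r hr
        · exact rel_shR (pres_ev hG h) r hr
      · obtain ⟨j, hj, rfl⟩ := List.mem_map.1 hr
        rw [ev_cw_one, glue_add, ev_glue_lt hw, ← ev_map]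
        exact hfh _)
    refine ⟨F, ?_, ?_⟩
    · intro d
      refine pres_hom_ext hD (F.comp α) f ?_ d
      intro i hi
      rw [MonoidHom.comp_apply, hα i hi]
      have := hF i
      rw [glue_lt hi] at this
      exact this
    · intro x
      refine pres_hom_ext hG (F.comp β) h ?_ x
      intro i hi
      rw [MonoidHom.comp_apply, hβ i hi]
      have := hF (pD.1 + i)
      rw [glue_add] at this
      exact this

theorem pr2_gp {H : Type} [Group H] {pH : Pres} {gH : ℕ → H} (hD : IsPres D pD gD)
    (hH : IsPres H pH gH) (hG : IsPres G p g) (cD : Clean pD) (cH : Clean pH) (cG : Clean p)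
    {w yw : Word} (hw : ∀ l ∈ w, l.1 < pD.1) (hyw : ∀ l ∈ yw, l.1 < pH.1) :
    ∃ (α : D →* Gp (pr2 pD pH yw p w)) (η : H →* Gp (pr2 pD pH yw p w))
      (β : G →* Gp (pr2 pD pH yw p w)), TogH (ev gD w) (ev gH yw) α η β := by
  have hp := isPres_gp (pr2 pD pH yw p w)
  set o : ℕ → Gp (pr2 pD pH yw p w) := fun i => PresentedGroup.of i with ho
  have hr0 : ∀ r ∈ (joinP pD (joinP pH p)).2, ev o r = 1 := fun r hr =>
    hp.rel r (List.mem_append_left _ hr)
  obtain ⟨α, hα⟩ := hom_of hD cD o (fun r hr => hr0 r (List.mem_append_left _ hr))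
  have hr1 : ∀ r ∈ (joinP pH p).2, ev (fun i => o (pD.1 + i)) r = 1 :=
    shR_rel fun r hr => hr0 r (List.mem_append_right _ hr)
  obtain ⟨η, hη⟩ := hom_of hH cH (fun i => o (pD.1 + i))
    (fun r hr => hr1 r (List.mem_append_left _ hr))
  obtain ⟨β, hβ⟩ := hom_of hG cG (fun i => o (pD.1 + (pH.1 + i)))
    (shR_rel (n := pH.1) (o := fun i => o (pD.1 + i))
      fun r hr => hr1 r (List.mem_append_right _ hr))
  have hyev : η (ev gH yw) = ev o (shift pD.1 yw) := by
    rw [ev_shift]
    exact ev_parts η (fun i => o (pD.1 + i)) hη hyw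
  refine ⟨α, η, β, ?_, ?_, ?_, ?_⟩
  · rw [eq_top_iff, ← hp.gen, Subgroup.closure_le]
    rintro _ ⟨i, rfl⟩
    change o i ∈ α.range ⊔ η.range ⊔ β.range
    by_cases h1 : i < pD.1
    · exact (le_sup_left : α.range ⊔ η.range ≤ _) ((le_sup_left : α.range ≤ _) ⟨_, hα i h1⟩)
    · by_cases h2 : i < pD.1 + pH.1
      · have h3 := hη (i - pD.1) (by omega)
        have h4 : pD.1 + (i - pD.1) = i := by omega
        rw [h4] at h3
        exact (le_sup_left : α.range ⊔ η.range ≤ _) ((le_sup_right : η.range ≤ _) ⟨_, h3⟩)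
      · by_cases h5 : i < pD.1 + (pH.1 + p.1)
        · have h3 := hβ (i - pD.1 - pH.1) (by omega)
          have h4 : pD.1 + (pH.1 + (i - pD.1 - pH.1)) = i := by omega
          rw [h4] at h3
          exact (le_sup_right : β.range ≤ _) ⟨_, h3⟩
        · have h4 : o i = 1 := hp.big i (not_lt.1 h5)
          rw [h4]
          exact one_mem _
  · refine pres_commute hG β _ ?_
    intro j hj
    rw [ev_parts α o hα hw, hβ j hj, ← ev_cw_one]
    have h1 : pD.1 + (pH.1 + j) = pD.1 + pH.1 + j := by omega
    rw [h1]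
    exact hp.rel _ (List.mem_append_right _ (List.mem_append_left _
      (List.mem_map.2 ⟨j, List.mem_range.2 hj, rfl⟩)))
  · refine pres_commute hG β _ ?_
    intro j hj
    rw [hyev, hβ j hj, ← ev_cw_one]
    have h1 : pD.1 + (pH.1 + j) = pD.1 + pH.1 + j := by omega
    rw [h1]
    exact hp.rel _ (List.mem_append_right _ (List.mem_append_right _
      (List.mem_map.2 ⟨j, List.mem_range.2 hj, rfl⟩)))
  · intro P _ f e h hfh heh
    obtain ⟨F, hF⟩ := hp.univ P (glue pD.1 (fun i => f (gD i))
      (glue pH.1 (fun i => e (gH i)) (fun i => h (g i)))) (by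
      intro i hi
      have hi' : pD.1 + (pH.1 + p.1) ≤ i := hi
      obtain ⟨j, rfl⟩ : ∃ j, i = pD.1 + (pH.1 + j) := ⟨i - pD.1 - pH.1, by omega⟩
      rw [glue_add, glue_add]
      exact pres_big hG h (by omega)) (by
      have hj1 : ∀ j, glue pD.1 (fun i => f (gD i))
          (glue pH.1 (fun i => e (gH i)) (fun i => h (g i))) (pD.1 + pH.1 + j) = h (g j) := by
        intro j
        have h1 : pD.1 + pH.1 + j = pD.1 + (pH.1 + j) := by omega
        rw [h1, glue_add, glue_add]
      intro r hr
      rcases List.mem_append.1 hr with hr | hr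
      · rcases List.mem_append.1 hr with hr | hr
        · rw [ev_glue_lt (cD r hr)]
          exact pres_ev hD f r hr
        · refine rel_shR (b := glue pH.1 (fun i => e (gH i)) (fun i => h (g i))) ?_ r hr
          intro r hr
          rcases List.mem_append.1 hr with hr | hr
          · rw [ev_glue_lt (cH r hr)]
            exact pres_ev hH e r hr
          · exact rel_shR (pres_ev hG h) r hr
      · rcases List.mem_append.1 hr with hr | hr
        · obtain ⟨j, hj, rfl⟩ := List.mem_map.1 hr
          rw [ev_cw_one, hj1, ev_glue_lt hw, ← ev_map]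
          exact hfh _
        · obtain ⟨j, hj, rfl⟩ := List.mem_map.1 hr
          rw [ev_cw_one, hj1, ev_glue_shift, ev_glue_lt hyw, ← ev_map]
          exact heh _)
    refine ⟨F, ?_, ?_, ?_⟩
    · intro d
      refine pres_hom_ext hD (F.comp α) f ?_ d
      intro i hi
      rw [MonoidHom.comp_apply, hα i hi]
      have := hF i
      rw [glue_lt hi] at this
      exact this
    · intro x
      refine pres_hom_ext hH (F.comp η) e ?_ x
      intro i hi
      rw [MonoidHom.comp_apply, hη i hi]
      have := hF (pD.1 + i)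
      rw [glue_add, glue_lt hi] at this
      exact this
    · intro x
      refine pres_hom_ext hG (F.comp β) h ?_ x
      intro i hi
      rw [MonoidHom.comp_apply, hβ i hi]
      have := hF (pD.1 + (pH.1 + i))
      rw [glue_add, glue_add] at this
      exact this

end

/-! ### primitive recursiveness -/

theorem shift_primrec : Primrec₂ shift := by
  unfold shift
  refine Primrec.list_map Primrec.snd ?_
  exact Primrec.pair
    (Primrec.nat_add.comp (Primrec.fst.comp Primrec.fst) (Primrec.fst.comp Primrec.snd))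
    (Primrec.snd.comp Primrec.snd)

theorem shR_primrec : Primrec₂ shR := by
  unfold shR
  exact Primrec.list_map Primrec.snd
    (shift_primrec.comp (Primrec.fst.comp Primrec.fst) Primrec.snd)

theorem joinP_primrec : Primrec₂ joinP := by
  unfold joinP
  refine Primrec.pair ?_ ?_
  · exact Primrec.nat_add.comp (Primrec.fst.comp Primrec.fst) (Primrec.fst.comp Primrec.snd)
  · exact Primrec.list_append.comp (Primrec.snd.comp Primrec.fst)
      (shR_primrec.comp (Primrec.fst.comp Primrec.fst) (Primrec.snd.comp Primrec.snd))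

theorem cws_primrec : Primrec fun x : Word × ℕ × ℕ => cws x.1 x.2.1 x.2.2 := by
  unfold cws
  refine Primrec.list_map (Primrec.list_range.comp (Primrec.snd.comp Primrec.snd)) ?_
  exact cw_primrec.comp (Primrec.fst.comp Primrec.fst)
    (Primrec.nat_add.comp (Primrec.fst.comp (Primrec.snd.comp Primrec.fst)) Primrec.snd)

theorem pr1_primrec (pD : Pres) : Primrec₂ (pr1 pD) := by
  unfold pr1
  refine Primrec.pair ?_ ?_
  · exact Primrec.nat_add.comp (Primrec.const _) (Primrec.fst.comp Primrec.fst)
  · refine Primrec.list_append.comp ?_ ?_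
    · exact Primrec.snd.comp (joinP_primrec.comp (Primrec.const _) Primrec.fst)
    · exact cws_primrec.comp (Primrec.pair Primrec.snd (Primrec.pair (Primrec.const _)
        (Primrec.fst.comp Primrec.fst)))

theorem pr2_primrec (pD pH : Pres) (yw : Word) : Primrec₂ (pr2 pD pH yw) := by
  unfold pr2
  refine Primrec.pair ?_ ?_
  · exact Primrec.nat_add.comp (Primrec.const _)
      (Primrec.nat_add.comp (Primrec.const _) (Primrec.fst.comp Primrec.fst))
  · refine Primrec.list_append.comp ?_ (Primrec.list_append.comp ?_ ?_)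
    · exact Primrec.snd.comp (joinP_primrec.comp (Primrec.const _)
        (joinP_primrec.comp (Primrec.const _) Primrec.fst))
    · exact cws_primrec.comp (Primrec.pair Primrec.snd (Primrec.pair (Primrec.const _)
        (Primrec.fst.comp Primrec.fst)))
    · exact cws_primrec.comp (Primrec.pair (Primrec.const _) (Primrec.pair (Primrec.const _)
        (Primrec.fst.comp Primrec.fst)))

end Pool.Agent.SDec
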