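import Pool.Agent.Hhelper49.Srf.AmalF
import Pool.Agent.Hhelper49.Srf.Push

/-!
# Pushouts of groups with their universal property

`push2` is `push_amal` together with the universal property of the pushout; `fpres_push`: a pushout of finitely presented
groups over a finitely generated group is finitely presented.
-/

set_option autoImplicit false

namespace Pool.Agent.SDec

open Pool.Agent.Hhelper49.Srf Pool.Agent.Hhelper49.Srr

/-- the universal property of a pushout -/
structure IsPush {A B C Γ : Type} [Group A] [Group B] [Group C] [Group Γ] (α : A →* Γ) (β : B →* Γ)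
    (κ : C →* A) (ι : C →* B) : Prop where
  gen : α.range ⊔ β.range = ⊤
  comm : ∀ c, α (κ c) = β (ι c)
  univ : ∀ (P : Type) [Group P] (f : A →* P) (g : B →* P), (∀ c, f (κ c) = g (ι c)) →
    ∃ F : Γ →* P, (∀ a, F (α a) = f a) ∧ ∀ b, F (β b) = g b

/-- a homomorphism on the family of the two groups -/
def famLift {A B P : Type} [Group A] [Group B] [Group P] (f : A →* P) (g : B →* P) :
    ∀ i, Fam A B i →* P
  | false => f
  | true => g

theorem push2 (A B C : Type) [Group A] [Group B] [Group C] (κ : C →* A) (ι : C →* B)
    (hκ : Function.Injective κ) (hι : Function.Injective ι) :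
    ∃ (Γ : Type) (_ : Group Γ) (α : A →* Γ) (β : B →* Γ) (S : Set Γ), Amal α β κ ι S ∧
      IsPush α β κ ι := by
  classical
  let φ : ∀ i, C →* Fam A B i := famHom κ ι
  have hφ : ∀ i, Function.Injective (φ i) := by
    intro i
    cases i
    · exact hκ
    · exact hι
  obtain ⟨d⟩ := Monoid.PushoutI.NormalWord.transversal_nonempty φ hφ
  let α : A →* Monoid.PushoutI φ := Monoid.PushoutI.of (φ := φ) false
  let β : B →* Monoid.PushoutI φ := Monoid.PushoutI.of (φ := φ) true
  have hα : ∀ c, α (κ c) = Monoid.PushoutI.base φ c := fun c =>
    Monoid.PushoutI.of_apply_eq_base φ false c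
  have hβ : ∀ c, β (ι c) = Monoid.PushoutI.base φ c := fun c =>
    Monoid.PushoutI.of_apply_eq_base φ true c
  have tyA : ∀ a, ty d (α a) = none ∨ ty d (α a) = some false := fun a => ty_of d false a
  refine ⟨Monoid.PushoutI φ, inferInstance, α, β, {g | ty d g = some true}, ?_, ?_⟩
  · exact
      { injA := Monoid.PushoutI.of_injective hφ false
        injB := Monoid.PushoutI.of_injective hφ true
        injκ := hκ
        injι := hι
        comm := fun c => by rw [hα, hβ]
        gen := by
          rw [eq_top_iff]
          intro g _
          induction g using Monoid.PushoutI.induction_on with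
          | of i x =>
            cases i
            · exact (le_sup_left : α.range ≤ _) ⟨x, rfl⟩
            · exact (le_sup_right : β.range ≤ _) ⟨x, rfl⟩
          | base h =>
            rw [← hα]
            exact (le_sup_left : α.range ≤ _) ⟨_, rfl⟩
          | mul x y hx hy => exact mul_mem (hx trivial) (hy trivial)
        notA := by
          intro a ha
          rw [Set.mem_ofPred_eq] at ha
          rcases tyA a with h | h
          · rw [h] at ha
            exact absurd ha (by simp)
          · rw [h] at ha
            exact absurd ha (by simp)
        smulC := by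
          intro c s hs
          rw [Set.mem_ofPred_eq] at hs ⊢
          rw [hα, ty_base_mul]
          exact hs
        mulA := by
          intro s hs a
          rw [Set.mem_ofPred_eq] at hs ⊢
          rcases ty_mul_of d s true hs false a with h | ⟨c, h⟩
          · exact h
          · exfalso
            have h1 : s = α (κ c * a⁻¹) := by
              rw [map_mul, map_inv, hα, ← h]
              exact (mul_inv_cancel_right s (α a)).symm
            rw [h1] at hs
            rcases tyA (κ c * a⁻¹) with h2 | h2
            · rw [h2] at hs
              exact absurd hs (by simp)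
            · rw [h2] at hs
              exact absurd hs (by simp)
        mulB := by
          intro s hs b
          rw [Set.mem_ofPred_eq] at hs
          rcases ty_mul_of d s true hs true b with h | ⟨c, h⟩
          · exact Or.inl h
          · right
            refine ⟨c, ?_⟩
            rw [hα]
            exact h
        ppA := by
          intro a ha s hs h
          rw [Set.mem_ofPred_eq] at hs h
          have h1 : ty d (α a * s) = some false := ty_of_mul d (i := false) a ha s (by
            rw [hs]
            simp)
          rw [h1] at h
          exact absurd h (by simp)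
        ppB := by
          intro b hb g hg
          exact ty_of_mul d (i := true) b hb g hg
        cover := by
          intro g
          rcases hT : ty d g with _ | i
          · left
            obtain ⟨c, rfl⟩ := ty_none d hT
            rw [← hα]
            exact ⟨_, rfl⟩
          · cases i
            · obtain ⟨x, g', h1, h2⟩ := ty_decomp d g false hT
              rcases hT' : ty d g' with _ | j
              · left
                obtain ⟨c, rfl⟩ := ty_none d hT'
                rw [h2, ← hα]
                let x' : A := x
                exact ⟨x' * κ c, map_mul α x' (κ c)⟩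
              · cases j
                · exact absurd hT' h1
                · right
                  exact ⟨x, g', hT', h2⟩
            · right
              refine ⟨1, g, hT, ?_⟩
              rw [map_one, one_mul] }
  · refine ⟨?_, fun c => by rw [hα, hβ], ?_⟩
    · rw [eq_top_iff]
      intro g _
      induction g using Monoid.PushoutI.induction_on with
      | of i x =>
        cases i
        · exact (le_sup_left : α.range ≤ _) ⟨x, rfl⟩
        · exact (le_sup_right : β.range ≤ _) ⟨x, rfl⟩
      | base h =>
        rw [← hα]
        exact (le_sup_left : α.range ≤ _) ⟨_, rfl⟩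
      | mul x y hx hy => exact mul_mem (hx trivial) (hy trivial)
    · intro P _ f g hfg
      refine ⟨Monoid.PushoutI.lift (φ := φ) (famLift f g) (f.comp κ) ?_, ?_, ?_⟩
      · intro i
        cases i
        · rfl
        · exact MonoidHom.ext fun c => (hfg c).symm
      · intro a
        exact Monoid.PushoutI.lift_of (φ := φ) (famLift f g) (f.comp κ) _ (i := false) a
      · intro b
        exact Monoid.PushoutI.lift_of (φ := φ) (famLift f g) (f.comp κ) _ (i := true) b

theorem fpres_push {A B C Γ : Type} [Group A] [Group B] [Group C] [Group Γ] {α : A →* Γ}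
    {β : B →* Γ} {κ : C →* A} {ι : C →* B} (h : IsPush α β κ ι)
    (hA : Group.IsFinitelyPresented A) (hB : Group.IsFinitelyPresented B) (hC : Group.FG C) :
    Group.IsFinitelyPresented Γ := by
  classical
  let f : Monoid.Coprod A B →* Γ := Monoid.Coprod.lift α β
  have hf : Function.Surjective f := by
    rw [← MonoidHom.range_eq_top, eq_top_iff, ← h.gen]
    refine sup_le ?_ ?_
    · rintro _ ⟨a, rfl⟩
      exact ⟨Monoid.Coprod.inl a, Monoid.Coprod.lift_apply_inl α β a⟩
    · rintro _ ⟨b, rfl⟩
      exact ⟨Monoid.Coprod.inr b, Monoid.Coprod.lift_apply_inr α β b⟩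
  obtain ⟨T, hT⟩ := Group.fg_def.1 hC
  let rel : C → Monoid.Coprod A B := fun c =>
    Monoid.Coprod.inl (κ c) * (Monoid.Coprod.inr (ι c))⁻¹
  refine Group.IsFinitelyPresented.of_surjective f hf ⟨rel '' T, T.finite_toSet.image _, ?_⟩
  have hrel : ∀ c, f (rel c) = 1 := by
    intro c
    change f (Monoid.Coprod.inl (κ c) * (Monoid.Coprod.inr (ι c))⁻¹) = 1
    rw [map_mul, map_inv]
    change Monoid.Coprod.lift α β (Monoid.Coprod.inl (κ c)) *
      (Monoid.Coprod.lift α β (Monoid.Coprod.inr (ι c)))⁻¹ = 1
    rw [Monoid.Coprod.lift_apply_inl, Monoid.Coprod.lift_apply_inr, h.comm, mul_inv_cancel]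
  apply le_antisymm
  · apply Subgroup.normalClosure_le_normal
    rintro _ ⟨c, -, rfl⟩
    exact hrel c
  · intro x hx
    let N := Subgroup.normalClosure (rel '' (T : Set C))
    let q : Monoid.Coprod A B →* Monoid.Coprod A B ⧸ N := QuotientGroup.mk' N
    have hq : ∀ c, (q.comp (Monoid.Coprod.inl : A →* Monoid.Coprod A B)) (κ c) =
        (q.comp (Monoid.Coprod.inr : B →* Monoid.Coprod A B)) (ι c) := by
      intro c
      have h1 : c ∈ Subgroup.closure (T : Set C) := by
        rw [hT]
        exact Subgroup.mem_top c
      have h2 : Subgroup.closure (T : Set C) ≤ MonoidHom.eqLocus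
          ((q.comp (Monoid.Coprod.inl : A →* Monoid.Coprod A B)).comp κ)
          ((q.comp (Monoid.Coprod.inr : B →* Monoid.Coprod A B)).comp ι) := by
        rw [Subgroup.closure_le]
        intro c hc
        have h3 : q (rel c) = 1 := by
          rw [← MonoidHom.mem_ker]
          change rel c ∈ (QuotientGroup.mk' N).ker
          rw [QuotientGroup.ker_mk']
          exact Subgroup.subset_normalClosure ⟨c, hc, rfl⟩
        have h4 : q (Monoid.Coprod.inl (κ c)) * (q (Monoid.Coprod.inr (ι c)))⁻¹ = 1 := by
          rw [← map_inv, ← map_mul]
          exact h3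
        exact mul_inv_eq_one.1 h4
      exact h2 h1
    obtain ⟨F, hF1, hF2⟩ := h.univ _ _ _ hq
    have hFq : F.comp f = q := by
      apply Monoid.Coprod.hom_ext
      · ext a
        change F (Monoid.Coprod.lift α β (Monoid.Coprod.inl a)) = q (Monoid.Coprod.inl a)
        rw [Monoid.Coprod.lift_apply_inl]
        exact hF1 a
      · ext b
        change F (Monoid.Coprod.lift α β (Monoid.Coprod.inr b)) = q (Monoid.Coprod.inr b)
        rw [Monoid.Coprod.lift_apply_inr]
        exact hF2 b
    have h5 : q x = 1 := by
      rw [← hFq, MonoidHom.comp_apply, MonoidHom.mem_ker.1 hx, map_one]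
    have h6 : x ∈ (QuotientGroup.mk' N).ker := h5
    rwa [QuotientGroup.ker_mk'] at h6

end Pool.Agent.SDec
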