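import Pool.Agent.SDec.Small
import Pool.Agent.SDec.Defs

/-!
# Rule systems from partial recursive functions

The stack machine of `Turing.PartrecToTM2` for a fixed code as a finite deterministic system of affine rules
on `ℤ^5`: coordinate 0 is the control state (a residue), the other four coordinates are the stacks in base 5.
-/

set_option autoImplicit false

namespace Pool.Agent.SDec

open Turing Turing.TM2 Turing.TM2.Stmt Turing.PartrecToTM2 Function Relation

/-- digits -/
def dig : Option Γ' → ℕ
  | none => 0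
  | some Γ'.consₗ => 1
  | some Γ'.cons => 2
  | some Γ'.bit0 => 3
  | some Γ'.bit1 => 4

theorem dig_lt (o : Option Γ') : dig o < 5 := by
  rcases o with _ | _ | _ | _ | _ <;> simp [dig]

theorem dig_inj {o o' : Option Γ'} (h : dig o = dig o') : o = o' := by
  rcases o with _ | _ | _ | _ | _ <;> rcases o' with _ | _ | _ | _ | _ <;> simp_all [dig]

/-- the number of a stack -/
def encN : List Γ' → ℕ
  | [] => 0
  | g :: l => dig (some g) + 5 * encN l

theorem encN_eq (l : List Γ') : encN l = dig l.head? + 5 * encN l.tail := by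
  cases l <;> simp [encN, dig]

/-- statements of the machine -/
abbrev St := TM2.Stmt (fun _ : K' => Γ') Λ' (Option Γ')

/-- small-step configurations -/
abbrev Cf := SCfg K' Γ' Λ' (Option Γ')

/-- the coordinate of a stack -/
def idx : K' → Fin 5
  | K'.main => 1
  | K'.rev => 2
  | K'.aux => 3
  | K'.stack => 4

/-- the stack that a statement looks at -/
def key : St → K'
  | push k _ _ => k
  | peek k _ _ => k
  | pop k _ _ => k
  | _ => K'.main

section
variable (P : Finset (St × Option Γ'))

open Classical in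
/-- number of a control state -/
noncomputable def code (p : St × Option Γ') : ℕ :=
  if h : p ∈ P then (P.equivFin ⟨p, h⟩ : ℕ) else P.card

theorem code_lt (p : St × Option Γ') : code P p < P.card + 1 := by
  unfold code
  split
  · exact lt_of_lt_of_le (Fin.is_lt _) (Nat.le_succ _)
  · exact Nat.lt_succ_self _

theorem code_inj {p p' : St × Option Γ'} (hp : p ∈ P) (h : code P p = code P p') : p = p' := by
  unfold code at h
  rw [dif_pos hp] at h
  split at h
  · have h1 := P.equivFin.injective (Fin.ext h)
    exact congrArg Subtype.val h1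
  · exact absurd h (ne_of_lt (Fin.is_lt _))

/-- the vector of a configuration -/
noncomputable def vec (x : Cf) : Fin 5 → ℤ :=
  ![code P (x.q, x.s), encN (x.S K'.main), encN (x.S K'.rev), encN (x.S K'.aux),
    encN (x.S K'.stack)]

/-- the control state after a statement, with top symbol `o` -/
def post : St → Option Γ' → Option Γ' → St × Option Γ'
  | push _ _ q, s, _ => (q, s)
  | peek _ f q, s, o => (q, f s o)
  | pop _ f q, s, o => (q, f s o)
  | load a q, s, _ => (q, a s)
  | branch p q₁ q₂, s, _ => (cond (p s) q₁ q₂, s)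
  | goto l, s, _ => (tr (l s), s)
  | Stmt.halt, s, _ => (Stmt.halt, s)

/-- the new constant of the stack coordinate -/
def cst : St → Option Γ' → Option Γ' → ℕ
  | push _ f _, s, o => dig (some (f s)) + 5 * dig o
  | pop _ _ _, _, _ => 0
  | _, _, o => dig o

/-- the new factor of the stack coordinate -/
def fac : St → Option Γ' → ℕ
  | push _ _ _, _ => 25
  | pop _ _ _, some _ => 1
  | _, _ => 5

theorem fac_pos (q : St) (o : Option Γ') : 0 < fac q o := by
  rcases q with ⟨k, f, q⟩ | ⟨k, f, q⟩ | ⟨k, f, q⟩ | ⟨a, q⟩ | ⟨p, q₁, q₂⟩ | l | _ <;>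
    rcases o with _ | o <;> simp [fac]

/-- the rule of a control state and a top symbol -/
noncomputable def mkRule (q : St) (s o : Option Γ') : Rule where
  u j := if j = 0 then (code P (q, s) : ℤ) else if j = idx (key q) then (dig o : ℤ) else 0
  m j := if j = 0 then ((P.card + 1 : ℕ) : ℤ) else if j = idx (key q) then 5 else 1
  u' j := if j = 0 then (code P (post q s o) : ℤ) else
    if j = idx (key q) then (cst q s o : ℤ) else 0
  a j := if j = 0 then ((P.card + 1 : ℕ) : ℤ) else if j = idx (key q) then (fac q o : ℤ) else 1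
  mpos j := by split_ifs <;> positivity
  apos j := by
    have := fac_pos q o
    split_ifs <;> positivity

theorem idx_ne (k : K') : idx k ≠ 0 := by cases k <;> simp [idx]

theorem vec_idx (x : Cf) (k : K') : vec P x (idx k) = encN (x.S k) := by
  cases k <;> rfl

theorem fin5_cases (j : Fin 5) : j = 0 ∨ ∃ k, j = idx k := by
  fin_cases j
  · exact Or.inl rfl
  · exact Or.inr ⟨K'.main, rfl⟩
  · exact Or.inr ⟨K'.rev, rfl⟩
  · exact Or.inr ⟨K'.aux, rfl⟩
  · exact Or.inr ⟨K'.stack, rfl⟩

theorem idx_inj {k k' : K'} (h : idx k = idx k') : k = k' := by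
  cases k <;> cases k' <;> simp [idx] at h <;> rfl

theorem nx_spec {x y : Cf} (h : Nx tr x y) :
    (y.q, y.s) = post x.q x.s (x.S (key x.q)).head? ∧
    (∀ k, k ≠ key x.q → y.S k = x.S k) ∧
    encN (y.S (key x.q)) = cst x.q x.s (x.S (key x.q)).head? +
      fac x.q (x.S (key x.q)).head? * encN (x.S (key x.q)).tail := by
  rcases x with ⟨q, s, S⟩
  rcases q with ⟨k, f, q⟩ | ⟨k, f, q⟩ | ⟨k, f, q⟩ | ⟨a, q⟩ | ⟨p, q₁, q₂⟩ | l | _
  · cases h
    refine ⟨rfl, fun k' hk' => update_of_ne hk' _ _, ?_⟩
    simp only [key, cst, fac, update_self, encN]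
    rw [encN_eq (S k)]
    ring
  · cases h
    refine ⟨rfl, fun k' hk' => rfl, ?_⟩
    simp only [key, cst, fac]
    rw [encN_eq (S k)]
  · cases h
    refine ⟨rfl, fun k' hk' => update_of_ne hk' _ _, ?_⟩
    simp only [key, cst, update_self]
    rcases S k with _ | ⟨g, l⟩
    · simp [encN]
    · simp [fac]
  · cases h
    refine ⟨rfl, fun k' hk' => rfl, ?_⟩
    simp only [key, cst, fac]
    rw [encN_eq (S _)]
  · cases h
    refine ⟨rfl, fun k' hk' => rfl, ?_⟩
    simp only [key, cst, fac]
    rw [encN_eq (S _)]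
  · cases h
    refine ⟨rfl, fun k' hk' => rfl, ?_⟩
    simp only [key, cst, fac]
    rw [encN_eq (S _)]
  · cases h

theorem rel_of_nx {x y : Cf} (h : Nx tr x y) :
    (mkRule P x.q x.s (x.S (key x.q)).head?).Rel (vec P x) (vec P y) := by
  obtain ⟨h1, h2, h3⟩ := nx_spec h
  refine ⟨fun j => if j = 0 then 0 else if j = idx (key x.q) then
    (encN (x.S (key x.q)).tail : ℤ) else vec P x j, ?_, ?_⟩
  · funext j
    rcases fin5_cases j with rfl | ⟨k, rfl⟩
    · simp [mkRule, vec]
    · simp only [mkRule, Pi.add_apply, Pi.mul_apply, idx_ne, if_false, vec_idx]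
      by_cases hk : k = key x.q
      · subst hk
        rw [if_pos rfl, if_pos rfl, if_pos rfl, encN_eq (x.S (key x.q))]
        push_cast
        ring
      · have hk' : idx k ≠ idx (key x.q) := fun e => hk (idx_inj e)
        rw [if_neg hk', if_neg hk', if_neg hk']
        ring
  · funext j
    rcases fin5_cases j with rfl | ⟨k, rfl⟩
    · simp [mkRule, vec, ← h1]
    · simp only [mkRule, Pi.add_apply, Pi.mul_apply, idx_ne, if_false, vec_idx]
      by_cases hk : k = key x.q
      · subst hk
        rw [if_pos rfl, if_pos rfl, if_pos rfl, h3]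
        push_cast
        ring
      · have hk' : idx k ≠ idx (key x.q) := fun e => hk (idx_inj e)
        rw [if_neg hk', if_neg hk', if_neg hk', h2 k hk]
        ring

/-- the rule is determined by the vector -/
theorem rule_unique {q q' : St} {s s' o o' : Option Γ'} {z z' : Fin 5 → ℤ}
    (hq : (q, s) ∈ P)
    (h : (mkRule P q s o).u + (mkRule P q s o).m * z =
      (mkRule P q' s' o').u + (mkRule P q' s' o').m * z') : q = q' ∧ s = s' ∧ o = o' := by
  have h0 := congrFun h 0
  simp only [mkRule, Pi.add_apply, Pi.mul_apply, if_true] at h0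
  have h1 : code P (q, s) = code P (q', s') := by
    have e1 := code_lt P (q, s)
    have e2 := code_lt P (q', s')
    have h2 := congrArg (fun t : ℤ => t % ((P.card + 1 : ℕ) : ℤ)) h0
    simp only [Int.add_mul_emod_self_left] at h2
    rw [Int.emod_eq_of_lt (by positivity) (by exact_mod_cast e1),
      Int.emod_eq_of_lt (by positivity) (by exact_mod_cast e2)] at h2
    exact_mod_cast h2
  have h2 := code_inj P hq h1
  rw [Prod.mk.injEq] at h2
  obtain ⟨rfl, rfl⟩ := h2
  refine ⟨rfl, rfl, ?_⟩
  have h3 := congrFun h (idx (key q))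
  simp only [mkRule, Pi.add_apply, Pi.mul_apply, idx_ne, if_false, if_true] at h3
  apply dig_inj
  have e1 := dig_lt o
  have e2 := dig_lt o'
  omega

theorem rule_not_tgt {q : St} {s o : Option Γ'} {z : Fin 5 → ℤ} {x : Cf}
    (hq : (q, s) ∈ P) (hqh : q ≠ Stmt.halt) (hx : x.q = Stmt.halt) :
    (mkRule P q s o).u + (mkRule P q s o).m * z ≠ vec P x := by
  intro h
  have h0 := congrFun h 0
  simp only [mkRule, Pi.add_apply, Pi.mul_apply, if_true] at h0
  have h0' : ((code P (q, s) : ℤ)) + ((P.card + 1 : ℕ) : ℤ) * z 0 = (code P (x.q, x.s) : ℤ) := h0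
  have h1 : code P (q, s) = code P (x.q, x.s) := by
    have e1 := code_lt P (q, s)
    have e2 := code_lt P (x.q, x.s)
    have h2 := congrArg (fun t : ℤ => t % ((P.card + 1 : ℕ) : ℤ)) h0'
    simp only [Int.add_mul_emod_self_left] at h2
    rw [Int.emod_eq_of_lt (by positivity) (by exact_mod_cast e1),
      Int.emod_eq_of_lt (by positivity) (by exact_mod_cast e2)] at h2
    exact_mod_cast h2
  have h2 := code_inj P hq h1
  rw [Prod.mk.injEq] at h2
  exact hqh (h2.1.trans hx)

end

end Pool.Agent.SDec
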