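import Pool.Agent.SDec.Exist

/-!
# Rule systems with exact acceptance on a line

For a recursively enumerable relation `K s e` there is a rule system which accepts `c0 + (inp e) e₁ + i e₂`, `i` an
arbitrary integer, if and only if `i = cod s` for some `s` with `K s e`.
One control state reads the base 5 digits of coordinate 2 and pushes them on coordinate 1 until an end marker, which becomes
the digit 0; what is below a digit 0 is never changed.
-/

set_option autoImplicit false

namespace Pool.Agent.SDec

open Turing Turing.TM2 Turing.TM2.Stmt Turing.PartrecToTM2 Function Relation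

/-- the number of a stack above garbage `z` -/
def encG (z : ℤ) : List Γ' → ℤ
  | [] => 5 * z
  | g :: l => dig (some g) + 5 * encG z l

/-- the number below the top digit -/
def tlG (z : ℤ) : List Γ' → ℤ
  | [] => z
  | _ :: l => encG z l

theorem encG_eq (z : ℤ) (l : List Γ') : encG z l = dig l.head? + 5 * tlG z l := by
  cases l <;> simp [encG, tlG, dig]

theorem encG_zero (l : List Γ') : encG 0 l = encN l := by
  induction l with
  | nil => simp [encG, encN]
  | cons g l ih =>
    simp only [encG, encN, ih]
    push_cast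
    ring

theorem dig_some_pos (g : Γ') : 0 < dig (some g) := by
  cases g <;> simp [dig]

theorem encG_eq_zero {z : ℤ} {l : List Γ'} (h : encG z l = 0) : z = 0 := by
  cases l with
  | nil => simpa [encG] using h
  | cons g l =>
    exfalso
    simp only [encG] at h
    have h1 := dig_some_pos g
    have h2 := dig_lt (some g)
    omega

theorem nx_specG {x y : Cf} (h : Nx tr x y) (w : ℤ) :
    encG w (y.S (key x.q)) = cst x.q x.s (x.S (key x.q)).head? +
      fac x.q (x.S (key x.q)).head? * tlG w (x.S (key x.q)) := by
  rcases x with ⟨q, s, S⟩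
  rcases q with ⟨k, f, q⟩ | ⟨k, f, q⟩ | ⟨k, f, q⟩ | ⟨a, q⟩ | ⟨p, q₁, q₂⟩ | l | _
  · cases h
    simp only [key, cst, fac, update_self, encG]
    rw [encG_eq w (S k)]
    push_cast
    ring
  · cases h
    simp only [key, cst, fac]
    rw [encG_eq w (S k)]
    push_cast
    ring
  · cases h
    simp only [key, cst, update_self]
    rcases S k with _ | ⟨g, l⟩
    · simp [encG, fac, tlG]
    · simp [fac, tlG]
  · cases h
    simp only [key, cst, fac]
    rw [encG_eq w (S _)]
    push_cast
    ring
  · cases h
    simp only [key, cst, fac]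
    rw [encG_eq w (S _)]
    push_cast
    ring
  · cases h
    simp only [key, cst, fac]
    rw [encG_eq w (S _)]
    push_cast
    ring
  · cases h

section
variable (P : Finset (St × Option Γ'))

/-- the vector of a configuration with garbage -/
noncomputable def vecG (w : K' → ℤ) (x : Cf) : Fin 5 → ℤ :=
  ![code P (x.q, x.s), encG (w K'.main) (x.S K'.main), encG (w K'.rev) (x.S K'.rev),
    encG (w K'.aux) (x.S K'.aux), encG (w K'.stack) (x.S K'.stack)]

theorem vecG_idx (w : K' → ℤ) (x : Cf) (k : K') : vecG P w x (idx k) = encG (w k) (x.S k) := by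
  cases k <;> rfl

theorem vecG_zero (x : Cf) : vecG P (fun _ => 0) x = vec P x := by
  unfold vecG vec
  simp only [encG_zero]

theorem relG_of_nx (w : K' → ℤ) {x y : Cf} (h : Nx tr x y) :
    (mkRule P x.q x.s (x.S (key x.q)).head?).Rel (vecG P w x) (vecG P w y) := by
  obtain ⟨h1, h2, -⟩ := nx_spec h
  have h3 := nx_specG h (w (key x.q))
  refine ⟨fun j => if j = 0 then 0 else if j = idx (key x.q) then
    tlG (w (key x.q)) (x.S (key x.q)) else vecG P w x j, ?_, ?_⟩
  · funext j
    rcases fin5_cases j with rfl | ⟨k, rfl⟩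
    · simp [mkRule, vecG]
    · simp only [mkRule, Pi.add_apply, Pi.mul_apply, idx_ne, if_false, vecG_idx]
      by_cases hk : k = key x.q
      · subst hk
        rw [if_pos rfl, if_pos rfl, if_pos rfl, encG_eq]
      · have hk' : idx k ≠ idx (key x.q) := fun e => hk (idx_inj e)
        rw [if_neg hk', if_neg hk', if_neg hk']
        ring
  · funext j
    rcases fin5_cases j with rfl | ⟨k, rfl⟩
    · simp [mkRule, vecG, ← h1]
    · simp only [mkRule, Pi.add_apply, Pi.mul_apply, idx_ne, if_false, vecG_idx]
      by_cases hk : k = key x.q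
      · subst hk
        rw [if_pos rfl, if_pos rfl, if_pos rfl, h3]
      · have hk' : idx k ≠ idx (key x.q) := fun e => hk (idx_inj e)
        rw [if_neg hk', if_neg hk', if_neg hk', h2 k hk]
        ring

theorem code_lt' {p : St × Option Γ'} (hp : p ∈ P) : code P p < P.card := by
  unfold code
  rw [dif_pos hp]
  exact Fin.is_lt _

end

/-! ### strings -/

/-- symbols of bits -/
def sym : Bool → Γ'
  | false => Γ'.bit0
  | true => Γ'.bit1

/-- the number of a string, least significant bit first, leading bit not written -/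
def val : List Bool → ℕ
  | [] => 1
  | b :: l => 2 * val l + b.toNat

theorem val_pos (l : List Bool) : 0 < val l := by
  induction l with
  | nil => simp [val]
  | cons b l ih => simp only [val]; omega

theorem val_inj : ∀ l l' : List Bool, val l = val l' → l = l' := by
  intro l
  induction l with
  | nil =>
    intro l' h
    cases l' with
    | nil => rfl
    | cons b l' =>
      exfalso
      simp only [val] at h
      have := val_pos l'
      omega
  | cons b l ih =>
    intro l' h
    cases l' with
    | nil =>
      exfalso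
      simp only [val] at h
      have := val_pos l
      omega
    | cons b' l' =>
      simp only [val] at h
      have h1 : b = b' := by
        cases b <;> cases b' <;> simp only [Bool.toNat_false, Bool.toNat_true] at h
        · rfl
        · omega
        · omega
        · rfl
      subst h1
      have h2 : val l = val l' := by omega
      rw [ih l' h2]

theorem val_surj (n : ℕ) : ∃ l, val l = n + 1 := by
  induction n using Nat.strong_induction_on with
  | _ n ih =>
    rcases Nat.eq_zero_or_pos n with h | h
    · exact ⟨[], by simp [val, h]⟩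
    · obtain ⟨l, hl⟩ := ih ((n + 1) / 2 - 1) (by omega)
      refine ⟨decide ((n + 1) % 2 = 1) :: l, ?_⟩
      simp only [val, hl]
      by_cases h2 : (n + 1) % 2 = 1
      · rw [decide_eq_true h2, Bool.toNat_true]
        omega
      · rw [decide_eq_false h2, Bool.toNat_false]
        omega

theorem trNat_val (l : List Bool) : trNat (val l) = l.map sym ++ [Γ'.bit1] := by
  induction l with
  | nil => rfl
  | cons b l ih =>
    cases b
    · simp only [val, Bool.toNat_false, add_zero, List.map_cons, List.cons_append, sym]
      rw [trNat_bit0 _ (val_pos l).ne', ih]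
    · simp only [val, Bool.toNat_true, List.map_cons, List.cons_append, sym]
      rw [trNat_bit1, ih]

/-- the number of a string in coordinate 2, with garbage `z` below the end marker -/
def codG (z : ℤ) : List Bool → ℤ
  | [] => 1 + 5 * z
  | b :: l => dig (some (sym b)) + 5 * codG z l

theorem codG_inj : ∀ l l' : List Bool, codG 0 l = codG 0 l' → l = l' := by
  intro l
  induction l with
  | nil =>
    intro l' h
    cases l' with
    | nil => rfl
    | cons b l' =>
      exfalso
      cases b <;> simp only [codG, sym, dig] at h <;> omega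
  | cons b l ih =>
    intro l' h
    cases l' with
    | nil =>
      exfalso
      cases b <;> simp only [codG, sym, dig] at h <;> omega
    | cons b' l' =>
      have h1 : b = b' ∧ codG 0 l = codG 0 l' := by
        cases b <;> cases b' <;> simp only [codG, sym, dig] at h <;>
          first | (refine ⟨rfl, ?_⟩; omega) | (exfalso; omega)
      rw [h1.1, ih l' h1.2]

/-- the string of a number -/
noncomputable def str (s : ℕ) : List Bool := (val_surj s).choose

theorem val_str (s : ℕ) : val (str s) = s + 1 := (val_surj s).choose_spec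

/-- the integer of a number -/
noncomputable def cod (s : ℕ) : ℤ := codG 0 (str s).reverse

theorem cod_inj : Function.Injective cod := by
  intro s s' h
  have h1 := codG_inj _ _ h
  have h2 := List.reverse_injective h1
  have h3 := val_str s
  rw [h2, val_str] at h3
  omega

/-! ### reader rules -/

section
variable (N q0 : ℕ)

/-- reading a bit -/
def readR (b : Bool) : Rule where
  u j := if j = 0 then (N : ℤ) else if j = 2 then (dig (some (sym b)) : ℤ) else 0
  m j := if j = 0 then ((N + 1 : ℕ) : ℤ) else if j = 2 then 5 else 1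
  u' j := if j = 0 then (N : ℤ) else if j = 1 then (dig (some (sym b)) : ℤ) else 0
  a j := if j = 0 then ((N + 1 : ℕ) : ℤ) else if j = 1 then 5 else 1
  mpos j := by split_ifs <;> positivity
  apos j := by split_ifs <;> positivity

/-- reading the end marker -/
def endR : Rule where
  u j := if j = 0 then (N : ℤ) else if j = 2 then 1 else 0
  m j := if j = 0 then ((N + 1 : ℕ) : ℤ) else if j = 2 then 5 else 1
  u' j := if j = 0 then (q0 : ℤ) else 0
  a j := if j = 0 then ((N + 1 : ℕ) : ℤ) else if j = 2 then 5 else 1
  mpos j := by split_ifs <;> positivity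
  apos j := by split_ifs <;> positivity

/-- reader configurations -/
def rdv (m : List Γ') (i : ℤ) : Fin 5 → ℤ := ![N, encN m, i, 0, 0]

theorem readR_rel (b : Bool) (m : List Γ') (z : ℤ) :
    (readR N b).Rel (rdv N m (dig (some (sym b)) + 5 * z)) (rdv N (sym b :: m) z) := by
  refine ⟨![0, encN m, z, 0, 0], ?_, ?_⟩
  · funext j
    fin_cases j <;> simp [readR, rdv]
  · funext j
    fin_cases j <;> simp [readR, rdv, encN]

theorem readR_inv (b : Bool) (m : List Γ') (i : ℤ) (v : Fin 5 → ℤ)
    (h : (readR N b).Rel (rdv N m i) v) :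
    ∃ z, i = dig (some (sym b)) + 5 * z ∧ v = rdv N (sym b :: m) z := by
  obtain ⟨z, h1, h2⟩ := h
  have e0 := congrFun h1 0
  have e1 := congrFun h1 1
  have e2 := congrFun h1 2
  have e3 := congrFun h1 3
  have e4 := congrFun h1 4
  simp [readR, rdv] at e0 e1 e2 e3 e4
  refine ⟨z 2, e2, ?_⟩
  rw [h2]
  have hN : ((N : ℤ) + 1) ≠ 0 := by positivity
  have z0 : z 0 = 0 := by
    rcases e0 with h | h
    · exact absurd h hN
    · exact h
  funext j
  fin_cases j
  · simp [readR, rdv, z0]
  · simp [readR, rdv, encN, ← e1]
  · simp [readR, rdv]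
  · simp [readR, rdv, ← e3]
  · simp [readR, rdv, ← e4]

end

section
variable (P : Finset (St × Option Γ'))

/-- the configuration after the reading phase -/
noncomputable def afterR (c : ToPartrec.Code) (m : List Γ') : Cf :=
  ⟨tr (trNormal c Cont'.halt), none, K'.elim m [] [] []⟩

/-- garbage in coordinate 2 -/
def gar (z : ℤ) : K' → ℤ
  | K'.rev => z
  | _ => 0

theorem vecG_afterR (c : ToPartrec.Code) (m : List Γ') (z : ℤ) :
    vecG P (gar z) (afterR c m) =
      ![(code P (tr (trNormal c Cont'.halt), none) : ℤ), encN m, 5 * z, 0, 0] := by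
  unfold vecG afterR gar
  funext j
  fin_cases j <;> simp [encG, encG_zero]

theorem endR_rel (c : ToPartrec.Code) (m : List Γ') (z : ℤ) :
    (endR P.card (code P (tr (trNormal c Cont'.halt), none))).Rel (rdv P.card m (1 + 5 * z))
      (vecG P (gar z) (afterR c m)) := by
  rw [vecG_afterR]
  refine ⟨![0, encN m, z, 0, 0], ?_, ?_⟩
  · funext j
    fin_cases j <;> simp [endR, rdv]
  · funext j
    fin_cases j <;> simp [endR]

theorem endR_inv (c : ToPartrec.Code) (m : List Γ') (i : ℤ) (v : Fin 5 → ℤ)
    (h : (endR P.card (code P (tr (trNormal c Cont'.halt), none))).Rel (rdv P.card m i) v) :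
    ∃ z, i = 1 + 5 * z ∧ v = vecG P (gar z) (afterR c m) := by
  obtain ⟨z, h1, h2⟩ := h
  have e0 := congrFun h1 0
  have e1 := congrFun h1 1
  have e2 := congrFun h1 2
  have e3 := congrFun h1 3
  have e4 := congrFun h1 4
  simp [endR, rdv] at e0 e1 e2 e3 e4
  refine ⟨z 2, e2, ?_⟩
  rw [h2, vecG_afterR]
  have hN : ((P.card : ℤ) + 1) ≠ 0 := by positivity
  have z0 : z 0 = 0 := by
    rcases e0 with h | h
    · exact absurd h hN
    · exact h
  funext j
  fin_cases j
  · simp [endR, z0]
  · simp [endR, ← e1]
  · simp [endR]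
  · simp [endR, ← e3]
  · simp [endR, ← e4]

end

theorem exists_code2 (K : ℕ → ℕ → Prop) (hK : REPred fun p : ℕ × ℕ => K p.1 p.2) :
    ∃ c : ToPartrec.Code, ∀ s e, (K s e ↔ (c.eval [s + 1, e]).Dom) ∧
      (c.eval [s + 1, e] ≠ Part.none → c.eval [s + 1, e] = Part.some [0]) := by
  classical
  have h0 : Partrec fun p : ℕ × ℕ => Part.assert (K p.1 p.2) fun _ => Part.some () := hK
  have h1 : Partrec fun p : ℕ × ℕ =>
      (Part.assert (K (p.1 - 1) p.2) fun _ => Part.some ()).map fun _ => 0 := by
    have h2 : Computable fun p : ℕ × ℕ => (p.1 - 1, p.2) :=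
      (Primrec.pair (Primrec.nat_sub.comp Primrec.fst (Primrec.const 1)) Primrec.snd).to_comp
    exact (h0.comp h2).map ((Computable.const 0).comp Computable.snd).to₂
  have h2 : Partrec₂ fun a b : ℕ =>
      (Part.assert (K (a - 1) b) fun _ => Part.some ()).map fun _ => 0 := h1
  have h3 := Nat.Partrec'.part_iff₂.2 h2
  obtain ⟨c, hc⟩ := ToPartrec.Code.exists_code h3
  refine ⟨c, fun s e => ?_⟩
  have h4 := hc ((s + 1) ::ᵥ e ::ᵥ List.Vector.nil)
  have h5 : c.eval [s + 1, e] =
      pure <$> (Part.assert (K s e) fun _ => Part.some ()).map fun _ => 0 := h4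
  rw [h5]
  by_cases hn : K s e
  · have h6 : (Part.assert (K s e) fun _ => Part.some ()) = Part.some () := by
      rw [Part.assert_pos hn]
    rw [h6]
    simp [hn]
  · have h6 : (Part.assert (K s e) fun _ => Part.some ()) = Part.none := by
      rw [Part.assert_neg hn]
    rw [h6]
    simp [hn]

theorem afterR_mem (c : ToPartrec.Code) (m : List Γ') : (afterR c m).q ∈ stm c := by
  refine (mem_stm c _).2 ⟨trNormal c Cont'.halt, ?_, stmts₁_self⟩
  exact (tr_supports c Cont'.halt).1

theorem reach_of_dom2 (c : ToPartrec.Code) (v : List ℕ)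
    (hc : c.eval v ≠ Part.none → c.eval v = Part.some [0]) (hd : (c.eval v).Dom) :
    ReflTransGen (Nx tr) (afterR c (trList v)) fin0 := by
  have he := PartrecToTM2.tr_eval c v
  have h1 : c.eval v = Part.some [0] := by
    apply hc
    intro h0
    rw [h0] at hd
    exact hd
  rw [h1] at he
  have h2 : PartrecToTM2.halt [0] ∈
      StateTransition.eval (TM2.step tr) (PartrecToTM2.init c v) := by
    rw [he]
    exact (Part.mem_map_iff _).2 ⟨[0], Part.mem_some _, rfl⟩
  exact reach_of_reaches tr (StateTransition.mem_eval.1 h2).1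

theorem dom_of_reach2 (c : ToPartrec.Code) (v : List ℕ) (x : Cf) (hx : x.q = Stmt.halt)
    (h : ReflTransGen (Nx tr) (afterR c (trList v)) x) : (c.eval v).Dom := by
  have he := PartrecToTM2.tr_eval c v
  obtain ⟨N, hN⟩ := halts_of_reach tr h hx
  have h1 := dom_of_halts tr N _ _ _ hN
  have h2 : StateTransition.Reaches (TM2.step tr) (PartrecToTM2.init c v)
      (stepAux (tr (trNormal c Cont'.halt)) none (K'.elim (trList v) [] [] [])) :=
    ReflTransGen.single rfl
  rw [← StateTransition.reaches_eval h2, he] at h1
  exact h1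

/-- the bottom of the main stack before the reading phase -/
def m0 (e : ℕ) : List Γ' := Γ'.bit1 :: Γ'.cons :: trList [e]

theorem main_stack (l : List Bool) (e : ℕ) :
    l.reverse.map sym ++ m0 e = trList [val l.reverse, e] := by
  have h : trList [val l.reverse, e] = trNat (val l.reverse) ++ Γ'.cons :: trList [e] := rfl
  rw [h, trNat_val, List.append_assoc]
  rfl

theorem rules_exist2 (K : ℕ → ℕ → Prop) (hK : REPred fun p : ℕ × ℕ => K p.1 p.2) :
    ∃ (R : ℕ) (ru : Fin R → Rule) (c0 tgt : Fin 5 → ℤ) (e' : ℕ → ℕ), Primrec e' ∧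
      (∀ i i' z z', (ru i).u + (ru i).m * z = (ru i').u + (ru i').m * z' → i = i') ∧
      (∀ i z, (ru i).u + (ru i).m * z ≠ tgt) ∧
      ∀ (e : ℕ) (i : ℤ), (ReflTransGen (Step ru)
        (c0 + Pi.single 1 (e' e : ℤ) + Pi.single 2 i) tgt ↔ ∃ s, i = cod s ∧ K s e) := by
  classical
  obtain ⟨c, hc⟩ := exists_code2 K hK
  let P : Finset (St × Option Γ') := insert Stmt.halt (stm c) ×ˢ Finset.univ
  have hP : ∀ q s, q ∈ stm c → (q, s) ∈ P := fun q s hq =>
    Finset.mem_product.2 ⟨Finset.mem_insert_of_mem hq, Finset.mem_univ _⟩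
  have hPh : ∀ s, ((Stmt.halt : St), s) ∈ P := fun s =>
    Finset.mem_product.2 ⟨Finset.mem_insert_self _ _, Finset.mem_univ _⟩
  let q0 : ℕ := code P (tr (trNormal c Cont'.halt), none)
  let I := {x : St × Option Γ' × Option Γ' // x.1 ∈ stm c ∧ x.1 ≠ Stmt.halt}
  have hfin : Finite I := by
    refine Set.Finite.to_subtype (Set.Finite.subset
      (Finset.finite_toSet (stm c ×ˢ (Finset.univ : Finset (Option Γ' × Option Γ')))) ?_)
    rintro ⟨q, s, o⟩ hx
    exact Finset.mem_coe.2 (Finset.mem_product.2 ⟨hx.1, Finset.mem_univ _⟩)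
  let J := I ⊕ Option Bool
  have : Fintype J := Fintype.ofFinite J
  let E : J ≃ Fin (Fintype.card J) := Fintype.equivFin J
  let rj : J → Rule := fun x => match x with
    | Sum.inl x => mkRule P x.1.1 x.1.2.1 x.1.2.2
    | Sum.inr (some b) => readR P.card b
    | Sum.inr none => endR P.card q0
  let ru : Fin (Fintype.card J) → Rule := fun i => rj (E.symm i)
  -- residues of coordinate 0
  have res1 : ∀ (x : I) (z : Fin 5 → ℤ), ((rj (Sum.inl x)).u + (rj (Sum.inl x)).m * z) 0 %
      ((P.card + 1 : ℕ) : ℤ) = code P (x.1.1, x.1.2.1) := by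
    intro x z
    simp only [rj, mkRule, Pi.add_apply, Pi.mul_apply, if_true]
    rw [Int.add_mul_emod_self_left, Int.emod_eq_of_lt (by positivity)
      (by exact_mod_cast code_lt P (x.1.1, x.1.2.1))]
  have res2 : ∀ (o : Option Bool) (z : Fin 5 → ℤ),
      ((rj (Sum.inr o)).u + (rj (Sum.inr o)).m * z) 0 % ((P.card + 1 : ℕ) : ℤ) = P.card := by
    intro o z
    rcases o with _ | b
    · simp only [rj, endR, Pi.add_apply, Pi.mul_apply, if_true]
      rw [Int.add_mul_emod_self_left, Int.emod_eq_of_lt (by positivity) (by push_cast; omega)]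
    · simp only [rj, readR, Pi.add_apply, Pi.mul_apply, if_true]
      rw [Int.add_mul_emod_self_left, Int.emod_eq_of_lt (by positivity) (by push_cast; omega)]
  have lt1 : ∀ x : I, code P (x.1.1, x.1.2.1) < P.card := fun x =>
    code_lt' P (hP _ _ x.2.1)
  have hdetJ : ∀ (x x' : J) (z z' : Fin 5 → ℤ),
      (rj x).u + (rj x).m * z = (rj x').u + (rj x').m * z' → x = x' := by
    intro x x' z z' h
    rcases x with x | o <;> rcases x' with x' | o'
    · have h1 := rule_unique P (hP _ _ x.2.1) h
      congr 1
      apply Subtype.ext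
      exact Prod.ext h1.1 (Prod.ext h1.2.1 h1.2.2)
    · exfalso
      have h1 := res1 x z
      rw [h, res2] at h1
      have h2 := lt1 x
      omega
    · exfalso
      have h1 := res1 x' z'
      rw [← h, res2] at h1
      have h2 := lt1 x'
      omega
    · congr 1
      have h2 := congrFun h 2
      rcases o with _ | b <;> rcases o' with _ | b'
      · rfl
      · exfalso
        cases b' <;> simp [rj, endR, readR, sym, dig] at h2 <;> omega
      · exfalso
        cases b <;> simp [rj, endR, readR, sym, dig] at h2 <;> omega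
      · cases b <;> cases b' <;> simp [rj, readR, sym, dig] at h2 <;>
          first | rfl | (exfalso; omega)
  have hdet : ∀ i i' z z', (ru i).u + (ru i).m * z = (ru i').u + (ru i').m * z' → i = i' := by
    intro i i' z z' h
    exact E.symm.injective (hdetJ _ _ z z' h)
  have hdet2 : ∀ v v' v'', Step ru v v' → Step ru v v'' → v' = v'' := by
    rintro v v' v'' ⟨i, z, h1, h2⟩ ⟨i', z', h3, h4⟩
    have h5 : i = i' := hdet i i' z z' (h1.symm.trans h3)
    subst h5
    have h6 : z = z' := by
      funext j
      have h7 := congrFun (h1.symm.trans h3) j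
      simp only [Pi.add_apply, Pi.mul_apply] at h7
      have h8 := (ru i).mpos j
      have h9 : (ru i).m j * z j = (ru i).m j * z' j := by linarith
      exact mul_left_cancel₀ h8.ne' h9
    rw [h2, h4, h6]
  have htgt : ∀ i z, (ru i).u + (ru i).m * z ≠ vec P fin0 := by
    intro i z
    change (rj (E.symm i)).u + (rj (E.symm i)).m * z ≠ vec P fin0
    rcases E.symm i with x | o
    · exact rule_not_tgt P (hP _ _ x.2.1) x.2.2 rfl
    · intro h
      have h1 := res2 o z
      rw [h] at h1
      have h2 := code_lt' P (hPh none)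
      have h3 : vec P fin0 0 = (code P (Stmt.halt, none) : ℤ) := rfl
      rw [h3, Int.emod_eq_of_lt (by positivity) (by push_cast; omega)] at h1
      omega
  have hstepG : ∀ (w : K' → ℤ) (x y : Cf), x.q ∈ stm c → Nx tr x y →
      Step ru (vecG P w x) (vecG P w y) := by
    intro w x y hx h
    have hh : x.q ≠ Stmt.halt := by
      rcases x with ⟨q, s, S⟩
      rintro rfl
      cases h
    refine ⟨E (Sum.inl ⟨(x.q, x.s, (x.S (key x.q)).head?), hx, hh⟩), ?_⟩
    simp only [ru, Equiv.symm_apply_apply, rj]
    exact relG_of_nx P w h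
  have hread : ∀ (b : Bool) (m : List Γ') (z : ℤ),
      Step ru (rdv P.card m (dig (some (sym b)) + 5 * z)) (rdv P.card (sym b :: m) z) := by
    intro b m z
    refine ⟨E (Sum.inr (some b)), ?_⟩
    simp only [ru, Equiv.symm_apply_apply, rj]
    exact readR_rel P.card b m z
  have hend : ∀ (m : List Γ') (z : ℤ),
      Step ru (rdv P.card m (1 + 5 * z)) (vecG P (gar z) (afterR c m)) := by
    intro m z
    refine ⟨E (Sum.inr none), ?_⟩
    simp only [ru, Equiv.symm_apply_apply, rj]
    exact endR_rel P c m z
  -- a step of a reader configuration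
  have hrinv : ∀ (m : List Γ') (i : ℤ) (v : Fin 5 → ℤ), Step ru (rdv P.card m i) v →
      (∃ b z, i = dig (some (sym b)) + 5 * z ∧ v = rdv P.card (sym b :: m) z) ∨
      ∃ z, i = 1 + 5 * z ∧ v = vecG P (gar z) (afterR c m) := by
    rintro m i v ⟨i0, h⟩
    change (rj (E.symm i0)).Rel _ _ at h
    rcases hE : E.symm i0 with x | _ | b
    · exfalso
      rw [hE] at h
      obtain ⟨z, h1, -⟩ := h
      have h2 := res1 x z
      rw [← h1] at h2
      have h3 : rdv P.card m i 0 = (P.card : ℤ) := rfl
      rw [h3, Int.emod_eq_of_lt (by positivity) (by push_cast; omega)] at h2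
      have h4 := lt1 x
      omega
    · rw [hE] at h
      exact Or.inr (endR_inv P c m i v h)
    · rw [hE] at h
      obtain ⟨z, h1, h2⟩ := readR_inv P.card b m i v h
      exact Or.inl ⟨b, z, h1, h2⟩
  -- reading phase
  have hphase : ∀ (v : Fin 5 → ℤ), ReflTransGen (Step ru) v (vec P fin0) →
      ∀ (m : List Γ') (i : ℤ), v = rdv P.card m i → ∃ (l : List Bool) (z : ℤ), i = codG z l ∧
        ReflTransGen (Step ru) (vecG P (gar z) (afterR c (l.reverse.map sym ++ m)))
          (vec P fin0) := by
    intro v hv
    induction hv using ReflTransGen.head_induction_on with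
    | refl =>
      intro m i h
      exfalso
      have h1 := congrFun h 0
      have h2 : vec P fin0 0 = (code P (Stmt.halt, none) : ℤ) := rfl
      have h3 : rdv P.card m i 0 = (P.card : ℤ) := rfl
      rw [h2, h3] at h1
      have h4 := code_lt' P (hPh none)
      omega
    | head hs ht ih =>
      intro m i h
      rw [h] at hs
      rcases hrinv m i _ hs with ⟨b, z, h1, h2⟩ | ⟨z, h1, h2⟩
      · obtain ⟨l, w, h3, h4⟩ := ih (sym b :: m) z h2
        refine ⟨b :: l, w, ?_, ?_⟩
        · rw [codG, ← h3, h1]
        · have e1 : (b :: l).reverse.map sym ++ m = l.reverse.map sym ++ sym b :: m := by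
            simp
          rw [e1]
          exact h4
      · refine ⟨[], z, ?_, ?_⟩
        · rw [codG, h1]
        · have e1 : ([] : List Bool).reverse.map sym ++ m = m := by simp
          rw [e1, ← h2]
          exact ht
  have hphase' : ∀ (l : List Bool) (m : List Γ'), ReflTransGen (Step ru)
      (rdv P.card m (codG 0 l)) (vecG P (gar 0) (afterR c (l.reverse.map sym ++ m))) := by
    intro l
    induction l with
    | nil =>
      intro m
      have e1 : ([] : List Bool).reverse.map sym ++ m = m := by simp
      rw [e1, codG]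
      exact ReflTransGen.single (hend m 0)
    | cons b l ih =>
      intro m
      have e1 : (b :: l).reverse.map sym ++ m = l.reverse.map sym ++ sym b :: m := by
        simp
      rw [e1, codG]
      exact ReflTransGen.head (hread b m _) (ih (sym b :: m))
  refine ⟨Fintype.card J, ru, ![(P.card : ℤ), 14, 0, 0, 0], vec P fin0,
    fun e => 25 * inp e, Primrec.nat_mul.comp (Primrec.const 25) inp_primrec, hdet, htgt, ?_⟩
  intro e i
  have hstart : (![(P.card : ℤ), 14, 0, 0, 0] : Fin 5 → ℤ) +
      Pi.single 1 ((25 * inp e : ℕ) : ℤ) + Pi.single 2 i = rdv P.card (m0 e) i := by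
    have h1 : (encN (m0 e) : ℤ) = 14 + 25 * (inp e : ℤ) := by
      have h2 : encN (m0 e) = 4 + 5 * (2 + 5 * inp e) := rfl
      rw [h2]
      push_cast
      ring
    funext j
    rw [Pi.add_apply, Pi.add_apply]
    fin_cases j <;> simp [rdv, h1]
  rw [hstart]
  have hg0 : gar 0 = fun _ => (0 : ℤ) := by
    funext k
    cases k <;> rfl
  constructor
  · intro h
    obtain ⟨l, z, h1, h2⟩ := hphase _ h (m0 e) i rfl
    rw [main_stack] at h2
    have key : ∀ v, ReflTransGen (Step ru)
        (vecG P (gar z) (afterR c (trList [val l.reverse, e]))) v →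
        ∃ x : Cf, x.q ∈ stm c ∧
          ReflTransGen (Nx tr) (afterR c (trList [val l.reverse, e])) x ∧
          v = vecG P (gar z) x := by
      intro v hv
      induction hv with
      | refl => exact ⟨_, afterR_mem c _, ReflTransGen.refl, rfl⟩
      | tail _ hs ih =>
        obtain ⟨x, hx, hr, rfl⟩ := ih
        rcases hn : nxt tr x with _ | y
        · exfalso
          have hxh : x.q = Stmt.halt := by
            rcases x with ⟨q, s, S⟩
            rcases q with ⟨k, f, q⟩ | ⟨k, f, q⟩ | ⟨k, f, q⟩ | ⟨a, q⟩ | ⟨p, q₁, q₂⟩ | l' | _ <;>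
              first | rfl | (simp [nxt] at hn)
          obtain ⟨i1, z1, h3, _⟩ := hs
          change vecG P (gar z) x = (rj (E.symm i1)).u + (rj (E.symm i1)).m * z1 at h3
          have h5 := code_lt' P (hPh x.s)
          have h6 : vecG P (gar z) x 0 = (code P (Stmt.halt, x.s) : ℤ) := by
            rw [← hxh]
            rfl
          rcases hE : E.symm i1 with x1 | o
          · rw [hE] at h3
            have h4 := res1 x1 z1
            rw [← h3, h6, Int.emod_eq_of_lt (by positivity) (by push_cast; omega)] at h4
            have h7 : code P (Stmt.halt, x.s) = code P (x1.1.1, x1.1.2.1) := by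
              exact_mod_cast h4
            have h8 := code_inj P (hPh x.s) h7
            exact x1.2.2 (congrArg Prod.fst h8).symm
          · rw [hE] at h3
            have h4 := res2 o z1
            rw [← h3, h6, Int.emod_eq_of_lt (by positivity) (by push_cast; omega)] at h4
            omega
        · refine ⟨y, nx_closed c hn hx, hr.tail hn, ?_⟩
          exact hdet2 _ _ _ hs (hstepG (gar z) x y hx hn)
    obtain ⟨x, hx, hr, hv⟩ := key _ h2
    have hz : z = 0 := by
      have h3 := congrFun hv 2
      have h4 : vecG P (gar z) x 2 = encG z (x.S K'.rev) := rfl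
      have h5 : vec P fin0 2 = 0 := by
        have : vec P fin0 2 = (encN ([] : List Γ') : ℤ) := rfl
        rw [this]
        simp [encN]
      rw [h4, h5] at h3
      exact encG_eq_zero h3.symm
    have hxh : x.q = Stmt.halt := by
      have h3 := congrFun hv 0
      have h4 : code P (x.q, x.s) = code P (Stmt.halt, none) := by
        have h5 : ((code P (Stmt.halt, none) : ℕ) : ℤ) = (code P (x.q, x.s) : ℕ) := h3
        exact_mod_cast h5.symm
      exact congrArg Prod.fst (code_inj P (hP _ _ hx) h4)
    have hd := dom_of_reach2 c _ x hxh hr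
    have hval := val_pos l.reverse
    obtain ⟨s, hs⟩ : ∃ s, val l.reverse = s + 1 := ⟨val l.reverse - 1, by omega⟩
    rw [hs] at hd
    refine ⟨s, ?_, (hc s e).1.2 hd⟩
    rw [h1, hz]
    unfold cod
    congr 1
    apply List.reverse_injective
    rw [List.reverse_reverse]
    apply val_inj
    rw [val_str, hs]
  · rintro ⟨s, rfl, hs⟩
    have hd := (hc s e).1.1 hs
    have h1 := hphase' (str s).reverse (m0 e)
    rw [main_stack, List.reverse_reverse, val_str, hg0] at h1
    have h2 := reach_of_dom2 c [s + 1, e] (hc s e).2 hd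
    refine h1.trans ?_
    have : ∀ x : Cf, ReflTransGen (Nx tr) x fin0 → x.q ∈ stm c →
        ReflTransGen (Step ru) (vecG P (fun _ => 0) x) (vec P fin0) := by
      intro x hx
      induction hx using ReflTransGen.head_induction_on with
      | refl =>
        intro _
        rw [vecG_zero]
      | head h _ ih =>
        intro hq
        exact ReflTransGen.head (hstepG _ _ _ hq h) (ih (nx_closed c h hq))
    exact this _ h2 (afterR_mem c _)

end Pool.Agent.SDec
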