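import Mathlib

/-!
# Small-step semantics of stack machines

A configuration is a statement, an internal state and the stacks.
-/

namespace Pool.Agent.SDec

open Turing Turing.TM2 Turing.TM2.Stmt Function Relation

section
variable {K : Type} [DecidableEq K] {Γ : Type} {Λ : Type} {σ : Type}

/-- configurations -/
structure SCfg (K Γ Λ σ : Type) where
  q : Stmt (fun _ : K => Γ) Λ σ
  s : σ
  S : K → List Γ

/-- one step; `none` for the halting statement -/
def nxt (M : Λ → Stmt (fun _ : K => Γ) Λ σ) : SCfg K Γ Λ σ → Option (SCfg K Γ Λ σ)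
  | ⟨push k f q, s, S⟩ => some ⟨q, s, update S k (f s :: S k)⟩
  | ⟨peek k f q, s, S⟩ => some ⟨q, f s (S k).head?, S⟩
  | ⟨pop k f q, s, S⟩ => some ⟨q, f s (S k).head?, update S k (S k).tail⟩
  | ⟨load a q, s, S⟩ => some ⟨q, a s, S⟩
  | ⟨branch p q₁ q₂, s, S⟩ => some ⟨cond (p s) q₁ q₂, s, S⟩
  | ⟨goto l, s, S⟩ => some ⟨M (l s), s, S⟩
  | ⟨halt, _, _⟩ => none

variable (M : Λ → Stmt (fun _ : K => Γ) Λ σ)

/-- the relation of one step -/
def Nx (a b : SCfg K Γ Λ σ) : Prop := nxt M a = some b

theorem Nx_det {a b c : SCfg K Γ Λ σ} (h : Nx M a b) (h' : Nx M a c) : b = c := by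
  unfold Nx at h h'
  rw [h] at h'
  exact Option.some.inj h'

/-- the translation of a configuration of the machine -/
def toS : TM2.Cfg (fun _ : K => Γ) Λ σ → SCfg K Γ Λ σ
  | ⟨some l, s, S⟩ => ⟨M l, s, S⟩
  | ⟨none, s, S⟩ => ⟨halt, s, S⟩

theorem aux_reach (q : Stmt (fun _ : K => Γ) Λ σ) : ∀ (s : σ) (S : K → List Γ),
    ReflTransGen (Nx M) ⟨q, s, S⟩ (toS M (stepAux q s S)) := by
  induction q with
  | push k f q ih => intro s S; exact ReflTransGen.head rfl (ih _ _)
  | peek k f q ih => intro s S; exact ReflTransGen.head rfl (ih _ _)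
  | pop k f q ih => intro s S; exact ReflTransGen.head rfl (ih _ _)
  | load a q ih => intro s S; exact ReflTransGen.head rfl (ih _ _)
  | branch p q₁ q₂ ih₁ ih₂ =>
    intro s S
    rw [stepAux]
    rcases hp : p s with _ | _
    · refine ReflTransGen.head (b := ⟨q₂, s, S⟩) ?_ (ih₂ _ _)
      simp [Nx, nxt, hp]
    · refine ReflTransGen.head (b := ⟨q₁, s, S⟩) ?_ (ih₁ _ _)
      simp [Nx, nxt, hp]
  | goto l => intro s S; exact ReflTransGen.single rfl
  | halt => intro s S; exact ReflTransGen.refl

theorem reach_of_reaches {a b : TM2.Cfg (fun _ : K => Γ) Λ σ}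
    (h : StateTransition.Reaches (TM2.step M) a b) :
    ReflTransGen (Nx M) (toS M a) (toS M b) := by
  induction h with
  | refl => exact ReflTransGen.refl
  | tail _ h ih =>
    refine ih.trans ?_
    rename_i b c _
    rcases b with ⟨l, s, S⟩
    rcases l with _ | l
    · simp [TM2.step] at h
    · simp only [TM2.step, Option.mem_def, Option.some.injEq] at h
      rw [← h]
      exact aux_reach M _ _ _

/-- a run of the small-step machine of length `n` ending in a halting statement -/
inductive Halts : ℕ → SCfg K Γ Λ σ → Prop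
  | zero (s : σ) (S : K → List Γ) : Halts 0 ⟨halt, s, S⟩
  | succ {n : ℕ} {a b : SCfg K Γ Λ σ} (h : Nx M a b) (hb : Halts n b) : Halts (n + 1) a

theorem halts_of_reach {a b : SCfg K Γ Λ σ} (h : ReflTransGen (Nx M) a b) (hb : b.q = halt) :
    ∃ n, Halts M n a := by
  induction h using ReflTransGen.head_induction_on with
  | refl =>
    rcases b with ⟨q, s, S⟩
    subst hb
    exact ⟨0, Halts.zero s S⟩
  | head h _ ih =>
    obtain ⟨n, hn⟩ := ih
    exact ⟨n + 1, Halts.succ h hn⟩

theorem dom_of_halts : ∀ (n : ℕ) (q : Stmt (fun _ : K => Γ) Λ σ) (s : σ) (S : K → List Γ),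
    Halts M n ⟨q, s, S⟩ → (StateTransition.eval (TM2.step M) (stepAux q s S)).Dom := by
  intro n
  induction n with
  | zero =>
    intro q s S h
    cases h
    refine Part.dom_iff_mem.2 ⟨⟨none, s, S⟩, ?_⟩
    rw [StateTransition.mem_eval]
    exact ⟨ReflTransGen.refl, rfl⟩
  | succ n ih =>
    intro q s S h
    cases h with
    | succ h hb =>
      rcases q with ⟨k, f, q⟩ | ⟨k, f, q⟩ | ⟨k, f, q⟩ | ⟨a, q⟩ | ⟨p, q₁, q₂⟩ | l | _
      · cases h; exact ih q _ _ hb
      · cases h; exact ih q _ _ hb
      · cases h; exact ih q _ _ hb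
      · cases h; exact ih q _ _ hb
      · cases h
        rw [stepAux]
        rcases hp : p s with _ | _
        · rw [hp] at hb; exact ih _ _ _ hb
        · rw [hp] at hb; exact ih _ _ _ hb
      · cases h
        have h1 := ih _ _ _ hb
        rw [stepAux]
        have h2 : StateTransition.Reaches (TM2.step M) ⟨some (l s), s, S⟩
            (stepAux (M (l s)) s S) := ReflTransGen.single rfl
        rw [StateTransition.reaches_eval h2]
        exact h1
      · cases h

end

end Pool.Agent.SDec
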