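import Pool.Agent.SDec.Pres
import Pool.Agent.SDec.Defs

/-!
# Presentations of the two toggles
-/

set_option autoImplicit false

namespace Pool.Agent.SDec

/-- the commutator word of `w` and `x_j` -/
def cw (w : Word) (j : ℕ) : Word := w ++ ((j, true) :: (winv w ++ [(j, false)]))

section
variable {P : Type} [Group P]

theorem ev_cw (f : ℕ → P) (w : Word) (j : ℕ) :
    ev f (cw w j) = ev f w * f j * (ev f w)⁻¹ * (f j)⁻¹ := by
  unfold cw
  rw [ev_append, ev_cons, ev_append, ev_inv, ev_cons, ev_nil]
  simp [mul_assoc]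

theorem ev_cw_one (f : ℕ → P) (w : Word) (j : ℕ) :
    ev f (cw w j) = 1 ↔ ev f w * f j = f j * ev f w := by
  rw [ev_cw, mul_inv_eq_one, mul_inv_eq_iff_eq_mul]

end

/-- relators of the first toggle -/
def rel1 (pD pG : Pres) (w : Word) : List Word :=
  pD.2 ++ (pG.2.map (shift pD.1) ++ (List.range pG.1).map fun j => cw w (pD.1 + j))

/-- presentation of the first toggle -/
def pres1 (pD pG : Pres) (w : Word) : Pres := (pD.1 + pG.1, rel1 pD pG w)

/-- presentation of the second toggle -/
def pres2 (pD pG : Pres) (w : Word) : Pres :=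
  (pD.1 + pG.1 + 1, rel1 pD pG w ++
    (List.range pG.1).map fun j => cw [(pD.1 + pG.1, true)] (pD.1 + j))

theorem pres_commute {G P : Type} [Group G] [Group P] {p : Pres} {g : ℕ → G} (h : IsPres G p g)
    (β : G →* P) (x : P) (hx : ∀ j, j < p.1 → x * β (g j) = β (g j) * x) (y : G) :
    x * β y = β y * x := by
  have h1 : ∀ y ∈ Subgroup.closure (Set.range g), Commute x (β y) := by
    intro y hy
    induction hy using Subgroup.closure_induction with
    | mem y hy =>
      obtain ⟨j, rfl⟩ := hy
      by_cases hj : j < p.1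
      · exact hx j hj
      · rw [h.big j (not_lt.1 hj), map_one]
        exact Commute.one_right x
    | one => rw [map_one]; exact Commute.one_right x
    | mul a b _ _ ha hb => rw [map_mul]; exact ha.mul_right hb
    | inv a _ ha => rw [map_inv]; exact ha.inv_right
  exact h1 y (by rw [h.gen]; exact Subgroup.mem_top y)

theorem pres_hom_ext {G P : Type} [Group G] [Group P] {p : Pres} {g : ℕ → G} (h : IsPres G p g)
    (F F' : G →* P) (hF : ∀ i, i < p.1 → F (g i) = F' (g i)) (x : G) : F x = F' x := by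
  have h1 : Subgroup.closure (Set.range g) ≤ F.eqLocus F' := by
    rw [Subgroup.closure_le]
    rintro _ ⟨i, rfl⟩
    by_cases hi : i < p.1
    · exact hF i hi
    · change F (g i) = F' (g i)
      rw [h.big i (not_lt.1 hi), map_one, map_one]
  exact h1 (by rw [h.gen]; exact Subgroup.mem_top x)

/-- maps of the parts, given a group generated by images of `x_0, x_1, …` satisfying the relators -/
theorem parts {D G Γ : Type} [Group D] [Group G] [Group Γ] {pD pG : Pres} {gD : ℕ → D} {gG : ℕ → G}
    (hD : IsPres D pD gD) (hG : IsPres G pG gG) (cD : Clean pD) (cG : Clean pG) {w : Word}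
    (o : ℕ → Γ) (ho : ∀ r ∈ rel1 pD pG w, ev o r = 1) :
    ∃ (α : D →* Γ) (β : G →* Γ), (∀ i, i < pD.1 → α (gD i) = o i) ∧
      (∀ i, i < pG.1 → β (gG i) = o (pD.1 + i)) := by
  classical
  obtain ⟨α, hα⟩ := hD.univ Γ (fun i => if i < pD.1 then o i else 1) (by
    intro i hi
    rw [if_neg (not_lt.2 hi)]) (by
    intro r hr
    have h1 := ho r (List.mem_append_left _ hr)
    rw [← h1]
    apply ev_congr
    intro l hl
    rw [if_pos (cD r hr l hl)])
  obtain ⟨β, hβ⟩ := hG.univ Γ (fun i => if i < pG.1 then o (pD.1 + i) else 1) (by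
    intro i hi
    rw [if_neg (not_lt.2 hi)]) (by
    intro r hr
    have h1 := ho (shift pD.1 r) (List.mem_append_right _ (List.mem_append_left _
      (List.mem_map.2 ⟨r, hr, rfl⟩)))
    rw [ev_shift] at h1
    rw [← h1]
    apply ev_congr
    intro l hl
    rw [if_pos (cG r hr l hl)])
  refine ⟨α, β, fun i hi => ?_, fun i hi => ?_⟩
  · rw [hα, if_pos hi]
  · rw [hβ, if_pos hi]

theorem ev_parts {D Γ : Type} [Group D] [Group Γ] {pD : Pres} {gD : ℕ → D}
    (α : D →* Γ) (o : ℕ → Γ) (hα : ∀ i, i < pD.1 → α (gD i) = o i) {w : Word}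
    (hw : ∀ l ∈ w, l.1 < pD.1) : α (ev gD w) = ev o w := by
  rw [ev_map]
  apply ev_congr
  intro l hl
  exact hα l.1 (hw l hl)

/-- the combined assignment -/
def comb {P : Type} [Group P] (n m : ℕ) (a b : ℕ → P) (c : P) : ℕ → P := fun i =>
  if i < n then a i else if i < n + m then b (i - n) else if i = n + m then c else 1

theorem comb_a {P : Type} [Group P] {n m : ℕ} {a b : ℕ → P} {c : P} {i : ℕ} (hi : i < n) :
    comb n m a b c i = a i := if_pos hi

theorem comb_b {P : Type} [Group P] {n m : ℕ} {a b : ℕ → P} {c : P} {i : ℕ} (hi : i < m) :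
    comb n m a b c (n + i) = b i := by
  unfold comb
  rw [if_neg (by omega), if_pos (by omega)]
  congr 1
  omega

theorem comb_c {P : Type} [Group P] {n m : ℕ} {a b : ℕ → P} {c : P} :
    comb n m a b c (n + m) = c := by
  unfold comb
  rw [if_neg (by omega), if_neg (by omega), if_pos rfl]

theorem comb_d {P : Type} [Group P] {n m : ℕ} {a b : ℕ → P} {c : P} {i : ℕ} (hi : n + m < i) :
    comb n m a b c i = 1 := by
  unfold comb
  rw [if_neg (by omega), if_neg (by omega), if_neg (by omega)]

theorem comb_rel {D G P : Type} [Group D] [Group G] [Group P] {pD pG : Pres} {gD : ℕ → D}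
    {gG : ℕ → G} (hD : IsPres D pD gD) (hG : IsPres G pG gG) (cD : Clean pD) (cG : Clean pG)
    {w : Word} (hw : ∀ l ∈ w, l.1 < pD.1) (f : D →* P) (h : G →* P) (c : P)
    (hfh : ∀ g, f (ev gD w) * h g = h g * f (ev gD w)) :
    ∀ r ∈ rel1 pD pG w, ev (comb pD.1 pG.1 (fun i => f (gD i)) (fun i => h (gG i)) c) r = 1 := by
  intro r hr
  rcases List.mem_append.1 hr with hr | hr
  · have h1 := hD.rel r hr
    have h2 : f (ev gD r) = 1 := by rw [h1, map_one]
    rw [← h2, ev_map]
    apply ev_congr
    intro l hl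
    rw [comb_a (cD r hr l hl)]
  · rcases List.mem_append.1 hr with hr | hr
    · obtain ⟨r', hr', rfl⟩ := List.mem_map.1 hr
      have h1 := hG.rel r' hr'
      have h2 : h (ev gG r') = 1 := by rw [h1, map_one]
      rw [← h2, ev_map, ev_shift]
      apply ev_congr
      intro l hl
      rw [comb_b (cG r' hr' l hl)]
    · obtain ⟨j, hj, rfl⟩ := List.mem_map.1 hr
      have hj' : j < pG.1 := List.mem_range.1 hj
      rw [ev_cw_one, comb_b hj']
      have h3 : ev (comb pD.1 pG.1 (fun i => f (gD i)) (fun i => h (gG i)) c) w = f (ev gD w) := by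
        rw [ev_map]
        apply ev_congr
        intro l hl
        rw [comb_a (hw l hl)]
      rw [h3]
      exact hfh _

theorem tog1_gp {D G : Type} [Group D] [Group G] {pD pG : Pres} {gD : ℕ → D} {gG : ℕ → G}
    (hD : IsPres D pD gD) (hG : IsPres G pG gG) (cD : Clean pD) (cG : Clean pG) {w : Word}
    (hw : ∀ l ∈ w, l.1 < pD.1) :
    ∃ (α : D →* Gp (pres1 pD pG w)) (β : G →* Gp (pres1 pD pG w)), Tog1 (ev gD w) α β := by
  classical
  have hp := isPres_gp (pres1 pD pG w)
  set o : ℕ → Gp (pres1 pD pG w) := fun i => PresentedGroup.of i with ho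
  obtain ⟨α, β, hα, hβ⟩ := parts hD hG cD cG (w := w) o hp.rel
  refine ⟨α, β, ?_, ?_, ?_⟩
  · rw [eq_top_iff, ← hp.gen, Subgroup.closure_le]
    rintro _ ⟨i, rfl⟩
    by_cases h1 : i < pD.1
    · have h2 := hα i h1
      exact (le_sup_left : α.range ≤ _) ⟨_, h2⟩
    · by_cases h2 : i < pD.1 + pG.1
      · have h3 := hβ (i - pD.1) (by omega)
        have h4 : pD.1 + (i - pD.1) = i := by omega
        rw [h4] at h3
        exact (le_sup_right : β.range ≤ _) ⟨_, h3⟩
      · have h3 := hp.big i (not_lt.1 h2)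
        have h4 : o i = 1 := h3
        change o i ∈ α.range ⊔ β.range
        rw [h4]
        exact one_mem _
  · refine pres_commute hG β _ ?_
    intro j hj
    rw [ev_parts α o hα hw, hβ j hj, ← ev_cw_one]
    exact hp.rel _ (List.mem_append_right _ (List.mem_append_right _
      (List.mem_map.2 ⟨j, List.mem_range.2 hj, rfl⟩)))
  · intro P _ f h hfh
    obtain ⟨F, hF⟩ := hp.univ P (comb pD.1 pG.1 (fun i => f (gD i)) (fun i => h (gG i)) 1) (by
      intro i hi
      have hi' : pD.1 + pG.1 ≤ i := hi
      rcases eq_or_lt_of_le hi' with h1 | h1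
      · rw [← h1, comb_c]
      · exact comb_d h1) (comb_rel hD hG cD cG hw f h 1 hfh)
    refine ⟨F, ?_, ?_⟩
    · intro d
      refine pres_hom_ext hD (F.comp α) f ?_ d
      intro i hi
      rw [MonoidHom.comp_apply, hα i hi]
      have := hF i
      rw [comb_a hi] at this
      exact this
    · intro x
      refine pres_hom_ext hG (F.comp β) h ?_ x
      intro i hi
      rw [MonoidHom.comp_apply, hβ i hi]
      have := hF (pD.1 + i)
      rw [comb_b hi] at this
      exact this

theorem tog2_gp {D G : Type} [Group D] [Group G] {pD pG : Pres} {gD : ℕ → D} {gG : ℕ → G}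
    (hD : IsPres D pD gD) (hG : IsPres G pG gG) (cD : Clean pD) (cG : Clean pG) {w : Word}
    (hw : ∀ l ∈ w, l.1 < pD.1) :
    ∃ (α : D →* Gp (pres2 pD pG w)) (y : Gp (pres2 pD pG w)) (β : G →* Gp (pres2 pD pG w)),
      Tog2 (ev gD w) α y β := by
  classical
  have hp := isPres_gp (pres2 pD pG w)
  set o : ℕ → Gp (pres2 pD pG w) := fun i => PresentedGroup.of i with ho
  obtain ⟨α, β, hα, hβ⟩ := parts hD hG cD cG (w := w) o
    (fun r hr => hp.rel r (List.mem_append_left _ hr))
  refine ⟨α, o (pD.1 + pG.1), β, ?_, ?_, ?_, ?_⟩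
  · rw [eq_top_iff, ← hp.gen, Subgroup.closure_le]
    rintro _ ⟨i, rfl⟩
    by_cases h1 : i < pD.1
    · have h2 := hα i h1
      exact (le_sup_left : α.range ⊔ β.range ≤ _) ((le_sup_left : α.range ≤ _) ⟨_, h2⟩)
    · by_cases h2 : i < pD.1 + pG.1
      · have h3 := hβ (i - pD.1) (by omega)
        have h4 : pD.1 + (i - pD.1) = i := by omega
        rw [h4] at h3
        exact (le_sup_left : α.range ⊔ β.range ≤ _) ((le_sup_right : β.range ≤ _) ⟨_, h3⟩)
      · by_cases h3 : i = pD.1 + pG.1
        · rw [h3]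
          exact (le_sup_right : Subgroup.zpowers (o (pD.1 + pG.1)) ≤ _)
            (Subgroup.mem_zpowers _)
        · have h4 : o i = 1 := hp.big i (by
            change pD.1 + pG.1 + 1 ≤ i
            omega)
          change o i ∈ α.range ⊔ β.range ⊔ _
          rw [h4]
          exact one_mem _
  · refine pres_commute hG β _ ?_
    intro j hj
    rw [ev_parts α o hα hw, hβ j hj, ← ev_cw_one]
    exact hp.rel _ (List.mem_append_left _ (List.mem_append_right _ (List.mem_append_right _
      (List.mem_map.2 ⟨j, List.mem_range.2 hj, rfl⟩))))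
  · refine pres_commute hG β _ ?_
    intro j hj
    rw [hβ j hj]
    have h1 := hp.rel (cw [(pD.1 + pG.1, true)] (pD.1 + j)) (List.mem_append_right _
      (List.mem_map.2 ⟨j, List.mem_range.2 hj, rfl⟩))
    have h2 := (ev_cw_one o [(pD.1 + pG.1, true)] (pD.1 + j)).1 h1
    rw [ev_single] at h2
    exact h2
  · intro P _ f c h hfh hch
    have hrel := comb_rel hD hG cD cG hw f h c hfh
    obtain ⟨F, hF⟩ := hp.univ P (comb pD.1 pG.1 (fun i => f (gD i)) (fun i => h (gG i)) c) (by
      intro i hi
      have hi' : pD.1 + pG.1 + 1 ≤ i := hi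
      exact comb_d (by omega)) (by
      intro r hr
      rcases List.mem_append.1 hr with hr | hr
      · exact hrel r hr
      · obtain ⟨j, hj, rfl⟩ := List.mem_map.1 hr
        have hj' : j < pG.1 := List.mem_range.1 hj
        rw [ev_cw_one, ev_single, comb_c, comb_b hj']
        exact hch _)
    refine ⟨F, ?_, ?_, ?_⟩
    · intro d
      refine pres_hom_ext hD (F.comp α) f ?_ d
      intro i hi
      rw [MonoidHom.comp_apply, hα i hi]
      have := hF i
      rw [comb_a hi] at this
      exact this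
    · have := hF (pD.1 + pG.1)
      rw [comb_c] at this
      exact this
    · intro x
      refine pres_hom_ext hG (F.comp β) h ?_ x
      intro i hi
      rw [MonoidHom.comp_apply, hβ i hi]
      have := hF (pD.1 + i)
      rw [comb_b hi] at this
      exact this

end Pool.Agent.SDec
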