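import Pool.Agent.SDec.Main3
import Pool.Agent.SDec.Logic

/-!
# One group of type (FF) for all limit computable functions
-/

set_option autoImplicit false

namespace Pool.Agent.SDec

open Pool.Agent.Hhelper49.Srr Pool.Agent.Hhelper49.Srf Pool.Agent.SFP

/-- the set which is enumerated by the machine of a recursively enumerable relation -/
def KA (A : ℕ → Prop) (k : ℕ) : Prop := ∃ p, pcode p = k ∧ A p

theorem ka_re (A : ℕ → Prop) (h : REPred A) : REPred (KA A) :=
  re_image pcode pcode_computable pcode_inj _ h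

/-- the accepted members of the progression -/
theorem acc_prog2 (A : ℕ → Prop) (e n : ℕ) (hn : ∀ i, A (Nat.pair e i) ↔ i < n) (l : ℤ) :
    (∃ δ : List Bool, (offs e : ℤ) + l * stp e = enc3 δ ∧ KA A (num δ)) ↔
      l ∈ Set.range fun i : Fin n => (enc3 (List.replicate i false) : ℤ) := by
  have hlen : (pre e).length = e + 1 := by simp [pre]
  constructor
  · rintro ⟨δ, h1, p, h2, h3⟩
    have h4 : (enc3 (pre e) : ℤ) + 3 ^ (pre e).length * l = enc3 δ := by
      rw [← h1, hlen]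
      unfold offs stp
      push_cast
      ring
    obtain ⟨ε, h5, h6⟩ := enc3_prefix _ _ _ h4
    have h7 := num_inj h2
    rw [h5] at h7
    obtain ⟨h8, h9⟩ := wrd_prefix _ _ _ _ h7.symm
    have h10 : A (Nat.pair e p.unpair.2) := by
      rw [h8, Nat.pair_unpair]
      exact h3
    refine ⟨⟨p.unpair.2, (hn _).1 h10⟩, ?_⟩
    rw [h6, h9]
  · rintro ⟨i, rfl⟩
    refine ⟨wrd e i, ?_, Nat.pair e i, ?_, ?_⟩
    · unfold wrd
      rw [enc3_append, hlen]
      unfold offs stp
      push_cast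
      ring
    · simp [pcode]
    · exact (hn _).2 i.2

theorem exists_dhat2 (Eul : ∀ (M : Type) [Group M], ℤ → Prop) (hE : EulLike Eul) (A₁ A₂ : ℕ → Prop)
    (h₁ : REPred A₁) (h₂ : REPred A₂) :
    ∃ (D : Type) (_ : Group D) (x y z x' y' z' f f' : D), Nice D ∧ ∀ e k₁ k₂ : ℕ,
      (∀ i, A₁ (Nat.pair e i) ↔ i < k₁) → (∀ i, A₂ (Nat.pair e i) ↔ i < k₂) →
      ∃ (M : Type) (_ : Group M) (μ : M →* D), Eul M ((k₁ : ℤ) - k₂ - 1) ∧
        Function.Injective μ ∧
        μ.range = Subgroup.closure (gens x y z x' y' z' f f' (stp e) (offs e)) ∧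
        Group.IsFinitelyPresented M := by
  obtain ⟨D1, iD1, X1, Y1, Z1, hD1, H1⟩ := mind (KA A₁) (ka_re A₁ h₁)
  obtain ⟨D2, iD2, X2, Y2, Z2, hD2, H2⟩ := mind (KA A₂) (ka_re A₂ h₂)
  have hD2' : Nice (D2 × FreeGroup (Fin 2)) := by
    have := hD2.fp
    refine ⟨?_, Pool.Agent.SFP.prod_fpres D2 (FreeGroup (Fin 2))⟩
    apply Pool.Agent.Hhelper49.Qiv.typeFF_of_freeRes
    have h1 := prod_freeRes D2 (typeFP_of_typeFF D2 hD2.ff) 1 1
    exact h1.2 (freeRes_of_typeFF D2 hD2.ff)
  obtain ⟨D, iD, α, β, S, hA, hP⟩ := push2 D1 (D2 × FreeGroup (Fin 2)) (FreeGroup (Fin 0))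
    (triv0 D1) (triv0 _) (triv0_inj _) (triv0_inj _)
  have hDN : Nice D := ⟨amal_ff hA hD1.ff hD2'.ff (nice_free 0).ff,
    fpres_push hP hD1.fp hD2'.fp (fg_of_fpres _ (nice_free 0).fp)⟩
  refine ⟨D, iD, α X1, α Y1, α Z1, β (X2, 1), β (Y2, 1), β (Z2, 1), β (1, FreeGroup.of 0),
    β (1, FreeGroup.of 1), hDN, ?_⟩
  intro e k₁ k₂ hk₁ hk₂
  have hs : (0 : ℤ) < stp e := by
    unfold stp
    positivity
  have q1 : {l : ℤ | Acc (KA A₁) ((offs e : ℤ) + l * stp e)} =
      Set.range fun i : Fin k₁ => (enc3 (List.replicate i false) : ℤ) := by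
    ext l
    exact acc_prog2 A₁ e k₁ hk₁ l
  have q2 : {l : ℤ | Acc (KA A₂) ((offs e : ℤ) + l * stp e)} =
      Set.range fun i : Fin k₂ => (enc3 (List.replicate i false) : ℤ) := by
    ext l
    exact acc_prog2 A₂ e k₂ hk₂ l
  obtain ⟨M1, iM1, a1, b1, k1, S1, μ1, A1, I1, R1, P1⟩ := H1 (stp e) (offs e) k₁ _ hs
    (prog_inj _) q1
  obtain ⟨M2, iM2, a2, b2, k2, S2, μ2, A2, I2, R2, P2⟩ := H2 (stp e) (offs e) k₂ _ hs
    (prog_inj _) q2
  have E1 := hE.amal A1 (hE.free 2) (hE.prod 1 (hE.free k₁)) (hE.free k₁)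
  have E2 := hE.amal A2 (hE.free 2) (hE.prod 1 (hE.free k₂)) (hE.free k₂)
  have E3 := hE.prod 2 E2
  obtain ⟨M, iM, a, b, T, hAM, hPM⟩ := push2 M1 (M2 × FreeGroup (Fin 2)) (FreeGroup (Fin 0))
    (triv0 M1) (triv0 _) (triv0_inj _) (triv0_inj _)
  have E4 := hE.amal hAM E1 E3 (hE.free 0)
  let ψ : M2 × FreeGroup (Fin 2) →* D2 × FreeGroup (Fin 2) :=
    MonoidHom.prodMap μ2 (MonoidHom.id _)
  obtain ⟨μ, m1, m2⟩ := hPM.univ D (α.comp μ1) (β.comp ψ) (by
    intro c
    have hc : c = 1 := Subsingleton.elim _ _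
    rw [hc]
    simp)
  have m2' : ∀ p, μ (b p) = β (μ2 p.1, p.2) := m2
  have m1' : ∀ w, μ (a w) = α (μ1 w) := m1
  have hfp : Group.IsFinitelyPresented M := fpres_push hPM P1
    (Pool.Agent.SFP.prod_fpres M2 (FreeGroup (Fin 2))) (fg_of_fpres _ (nice_free 0).fp)
  refine ⟨M, iM, μ, ?_, ?_, ?_, hfp⟩
  · convert E4 using 1
    push_cast
    ring
  · refine sub_amal hA hPM.comm hPM.gen μ μ1 ψ m1 m2 I1 ?_ ?_
    · rintro w ⟨c, hc⟩
      have hc1 : c = 1 := Subsingleton.elim _ _
      rw [hc1, map_one] at hc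
      have h1 : w = 1 := I1 (hc.symm.trans (map_one μ1).symm)
      rw [h1]
      exact Subgroup.one_mem _
    · rintro ⟨w1, w2⟩ ⟨c, hc⟩
      have hc1 : c = 1 := Subsingleton.elim _ _
      rw [hc1, map_one] at hc
      have h1 : μ2 w1 = 1 := (congrArg Prod.fst hc).symm
      have h2 : w2 = 1 := (congrArg Prod.snd hc).symm
      have h3 : w1 = 1 := I2 (h1.trans (map_one μ2).symm)
      rw [h3, h2]
      exact Subgroup.one_mem _
  · have e1 : μ.comp a = α.comp μ1 := MonoidHom.ext m1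
    have e2 : μ.comp b = β.comp ψ := MonoidHom.ext m2
    rw [range_sup_map hPM.gen μ, e1, e2, MonoidHom.range_comp, R1, MonoidHom.map_closure]
    have hp : ∀ k : ℕ, ((X2, (1 : FreeGroup (Fin 2))) : D2 × FreeGroup (Fin 2)) ^ k = (X2 ^ k, 1) := by
      intro k
      rw [Prod.pow_mk, one_pow]
    have g1 : β (X2, 1) ^ stp e = β (X2 ^ stp e, 1) := by rw [← map_pow, hp]
    have g2 : (β (X2, 1) ^ offs e)⁻¹ * β (Y2, 1) * β (X2, 1) ^ offs e =
        β ((X2 ^ offs e)⁻¹ * Y2 * X2 ^ offs e, 1) := by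
      rw [← map_pow, hp, ← map_inv, ← map_mul, ← map_mul]
      simp
    have g3 : α X1 ^ stp e = α (X1 ^ stp e) := (map_pow _ _ _).symm
    have g4 : (α X1 ^ offs e)⁻¹ * α Y1 * α X1 ^ offs e =
        α ((X1 ^ offs e)⁻¹ * Y1 * X1 ^ offs e) := by
      rw [map_mul, map_mul, map_inv, map_pow]
    unfold gens
    rw [g1, g2, g3, g4]
    apply le_antisymm
    · refine sup_le ?_ ?_
      · rw [Subgroup.closure_le]
        rintro _ ⟨w, hw, rfl⟩
        apply Subgroup.subset_closure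
        rcases hw with rfl | rfl | rfl
        · exact Or.inl rfl
        · right; left
          rw [zpow_natCast]
        · right; right; left
          rw [zpow_natCast]
      · rintro _ ⟨⟨w1, w2⟩, rfl⟩
        have h1 : ((w1, w2) : M2 × FreeGroup (Fin 2)) = (w1, 1) * (1, w2) := by simp
        rw [h1, (β.comp ψ).map_mul]
        refine Subgroup.mul_mem _ ?_ ?_
        · have h2 : μ2 w1 ∈ μ2.range := ⟨w1, rfl⟩
          rw [R2] at h2
          have h3 : (β.comp (MonoidHom.inl D2 (FreeGroup (Fin 2)))) (μ2 w1) ∈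
              (Subgroup.closure {Z2, X2 ^ (stp e : ℤ), (X2 ^ (offs e : ℤ))⁻¹ * Y2 *
                X2 ^ (offs e : ℤ)}).map (β.comp (MonoidHom.inl D2 (FreeGroup (Fin 2)))) :=
            ⟨_, h2, rfl⟩
          rw [MonoidHom.map_closure] at h3
          have h4 : β (ψ (w1, 1)) = (β.comp (MonoidHom.inl D2 (FreeGroup (Fin 2)))) (μ2 w1) := rfl
          change β (ψ (w1, 1)) ∈ _
          rw [h4]
          refine (Subgroup.closure_le _).2 ?_ h3
          rintro _ ⟨w, hw, rfl⟩
          apply Subgroup.subset_closure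
          rcases hw with rfl | rfl | rfl
          · right; right; right; left
            rfl
          · right; right; right; right; left
            rw [zpow_natCast]
            rfl
          · right; right; right; right; right; left
            rw [zpow_natCast]
            rfl
        · change β (ψ (1, w2)) ∈ _
          refine free_mem (β.comp (ψ.comp (MonoidHom.inr _ _))) _ ?_ w2
          intro i
          apply Subgroup.subset_closure
          fin_cases i
          · right; right; right; right; right; right; left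
            change β (μ2 1, FreeGroup.of 0) = _
            rw [map_one]
          · right; right; right; right; right; right; right
            change β (μ2 1, FreeGroup.of 1) = _
            rw [map_one]
    · rw [Subgroup.closure_le]
      have hr2 : ∀ w ∈ μ2.range, β (w, 1) ∈ (β.comp ψ).range := by
        rintro _ ⟨w, rfl⟩
        exact ⟨(w, 1), rfl⟩
      rintro v (rfl | rfl | rfl | rfl | rfl | rfl | rfl | rfl)
      · exact le_sup_left (α := Subgroup D) (Subgroup.subset_closure ⟨_, Or.inl rfl, rfl⟩)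
      · refine le_sup_left (α := Subgroup D) (Subgroup.subset_closure ⟨X1 ^ (stp e : ℤ), Or.inr (Or.inl rfl), ?_⟩)
        rw [zpow_natCast]
      · refine le_sup_left (α := Subgroup D) (Subgroup.subset_closure ⟨(X1 ^ (offs e : ℤ))⁻¹ * Y1 *
          X1 ^ (offs e : ℤ), Or.inr (Or.inr rfl), ?_⟩)
        rw [zpow_natCast]
      · refine le_sup_right (α := Subgroup D) (hr2 _ ?_)
        rw [R2]
        exact Subgroup.subset_closure (Or.inl rfl)
      · refine le_sup_right (α := Subgroup D) (hr2 _ ?_)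
        rw [R2, ← zpow_natCast]
        exact Subgroup.subset_closure (Or.inr (Or.inl rfl))
      · refine le_sup_right (α := Subgroup D) (hr2 _ ?_)
        rw [R2, ← zpow_natCast]
        exact Subgroup.subset_closure (Or.inr (Or.inr rfl))
      · exact le_sup_right (α := Subgroup D) ⟨(1, FreeGroup.of 0), by
          change β (μ2 1, FreeGroup.of 0) = _
          rw [map_one]⟩
      · exact le_sup_right (α := Subgroup D) ⟨(1, FreeGroup.of 1), by
          change β (μ2 1, FreeGroup.of 1) = _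
          rw [map_one]⟩

theorem fixed_hard2 (G : Type) [Group G] (hG : Group.IsFinitelyPresented G) (hF : TypeFP G)
    (A₁ A₂ : ℕ → Prop) (h₁ : REPred A₁) (h₂ : REPred A₂) :
    ∃ (p : Pres) (W : ℕ → List Word), TypeFF (Gp p) ∧
      (∃ j : G →* Gp p, Function.Injective j) ∧ Primrec W ∧ ∀ e k₁ k₂ : ℕ,
        (∀ i, A₁ (Nat.pair e i) ↔ i < k₁) → (∀ i, A₂ (Nat.pair e i) ↔ i < k₂) →
        Group.IsFinitelyPresented (subW p (W e)) ∧ TypeFP (subW p (W e)) ∧
        ∀ m, FreeRes m (subW p (W e)) ↔ FreeRes (m * ((k₁ : ℤ) - k₂ - 1).natAbs) G := by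
  obtain ⟨D, iD, x, y, z, x', y', z', a, a', hD, hM⟩ := exists_dhat2 Eul eulLike A₁ A₂ h₁ h₂
  obtain ⟨c, hc⟩ := eul_of_ff D hD.ff
  have E := eul_prodFree hc 1
  obtain ⟨u1, u2⟩ := eul_prod E hF
  let U := G × (D × FreeGroup (Fin 1))
  have uF : TypeFF U := by
    rw [typeFF_iff]
    refine (u2 1).2 ?_
    have h0 : 1 * (c * (1 - ((1 : ℕ) : ℤ))).natAbs = 0 := by simp
    rw [h0]
    exact freeRes_zero G
  have hDp := hD.fp
  have uP : Group.IsFinitelyPresented U := by
    have := hG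
    have h1 : Group.IsFinitelyPresented (D × FreeGroup (Fin 1)) :=
      Pool.Agent.SFP.prod_fpres D (FreeGroup (Fin 1))
    exact Pool.Agent.SFP.prod_fpres G (D × FreeGroup (Fin 1))
  obtain ⟨p, g, cp, hp⟩ := exists_clean U uP
  obtain ⟨φ, hφ⟩ := iso_gp2 hp
  let ι : D →* U := (MonoidHom.inr G (D × FreeGroup (Fin 1))).comp (MonoidHom.inl D _)
  have hι : Function.Injective ι := by
    intro s t hst
    exact congrArg (fun q : U => q.2.1) hst
  obtain ⟨wx, -, ex⟩ := exists_word hp (ι x)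
  obtain ⟨wy, -, ey⟩ := exists_word hp (ι y)
  obtain ⟨wz, -, ez⟩ := exists_word hp (ι z)
  obtain ⟨wx', -, ex'⟩ := exists_word hp (ι x')
  obtain ⟨wy', -, ey'⟩ := exists_word hp (ι y')
  obtain ⟨wz', -, ez'⟩ := exists_word hp (ι z')
  obtain ⟨wa, -, ea⟩ := exists_word hp (ι a)
  obtain ⟨wa', -, ea'⟩ := exists_word hp (ι a')
  obtain ⟨pG, gG, cG, hpG⟩ := exists_clean G hG
  choose wG hwG eG using fun i => exists_word hp (MonoidHom.inl G (D × FreeGroup (Fin 1)) (gG i))
  let LG : List Word := (List.range pG.1).map wG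
  have hLG : Subgroup.closure (ev g '' {w | w ∈ LG}) =
      (MonoidHom.inl G (D × FreeGroup (Fin 1))).range := by
    apply le_antisymm
    · rw [Subgroup.closure_le]
      rintro _ ⟨w, hw, rfl⟩
      obtain ⟨i, -, rfl⟩ := List.mem_map.1 hw
      exact ⟨gG i, (eG i).symm⟩
    · rw [MonoidHom.range_eq_map, ← hpG.gen, MonoidHom.map_closure, Subgroup.closure_le]
      rintro _ ⟨_, ⟨i, rfl⟩, rfl⟩
      by_cases hi : i < pG.1
      · rw [← eG i]
        exact Subgroup.subset_closure ⟨wG i, List.mem_map.2 ⟨i, List.mem_range.2 hi, rfl⟩, rfl⟩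
      · rw [hpG.big i (not_lt.1 hi), map_one]
        exact Subgroup.one_mem _
  let V : ℕ → List Word := fun e => gword wx wy wz wx' wy' wz' wa wa' (stp e) (offs e)
  have hV : Primrec V := gword_primrec wx wy wz wx' wy' wz' wa wa' stp_primrec offs_primrec
  refine ⟨p, fun e => LG ++ V e, typeFF_congr3 φ.symm uF,
    ⟨(φ.symm : U →* Gp p).comp (MonoidHom.inl G _), ?_⟩,
    Primrec.list_append.comp (Primrec.const _) hV, fun e k₁ k₂ hk₁ hk₂ => ?_⟩
  · exact φ.symm.injective.comp fun s t h => congrArg Prod.fst h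
  obtain ⟨M, iM, μ, hE, hμ, hr, hMp⟩ := hM e k₁ k₂ hk₁ hk₂
  let ν : G × M →* U := MonoidHom.prodMap (MonoidHom.id G) ((MonoidHom.inl D _).comp μ)
  have hν : Function.Injective ν := by
    rintro ⟨s1, s2⟩ ⟨t1, t2⟩ hst
    have e1 : s1 = t1 := congrArg Prod.fst hst
    have e2 : μ s2 = μ t2 := congrArg (fun q : U => q.2.1) hst
    rw [e1, hμ e2]
  have hset : ev g '' {w | w ∈ V e} = ι '' gens x y z x' y' z' a a' (stp e) (offs e) := by
    change ev g '' {w | w ∈ gword wx wy wz wx' wy' wz' wa wa' (stp e) (offs e)} = _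
    rw [ev_gword, ex, ey, ez, ex', ey', ez', ea, ea']
    unfold gens
    simp only [Set.image_insert_eq, Set.image_singleton, map_mul, map_inv, map_pow]
  have hrν : ν.range = Subgroup.closure (ev g '' {w | w ∈ LG ++ V e}) := by
    have h1 : {w | w ∈ LG ++ V e} = {w | w ∈ LG} ∪ {w | w ∈ V e} := by
      ext w
      simp
    rw [h1, Set.image_union, Subgroup.closure_union, hLG, hset, ← MonoidHom.map_closure, ← hr,
      ← MonoidHom.range_comp]
    apply le_antisymm
    · rintro _ ⟨⟨s, t⟩, rfl⟩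
      have h2 : ((s, t) : G × M) = (s, 1) * (1, t) := by simp
      rw [h2, map_mul]
      refine Subgroup.mul_mem _ (Subgroup.mem_sup_left ⟨s, ?_⟩) (Subgroup.mem_sup_right ⟨t, ?_⟩)
      · exact Prod.ext rfl (Prod.ext (map_one μ).symm rfl)
      · exact Prod.ext rfl rfl
    · refine sup_le ?_ ?_
      · rintro _ ⟨s, rfl⟩
        exact ⟨(s, 1), Prod.ext rfl (Prod.ext (map_one μ) rfl)⟩
      · rintro _ ⟨t, rfl⟩
        exact ⟨(1, t), rfl⟩
  have hmap : (subW p (LG ++ V e)).map (φ : Gp p →* U) = ν.range := by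
    rw [hrν]
    unfold subW
    rw [MonoidHom.map_closure]
    congr 1
    ext u
    constructor
    · rintro ⟨_, ⟨w, hw, rfl⟩, rfl⟩
      exact ⟨w, hw, (hφ w).symm⟩
    · rintro ⟨w, hw, rfl⟩
      exact ⟨_, ⟨w, hw, rfl⟩, hφ w⟩
  obtain ⟨ε⟩ := sub_equiv φ ν hν _ hmap
  obtain ⟨v1, v2⟩ := eul_prod hE hF
  have vP : Group.IsFinitelyPresented (G × M) := by
    have := hG
    exact Pool.Agent.SFP.prod_fpres G M
  refine ⟨fpres_congr ε vP, typeFP_congr ε v1, fun m => ?_⟩
  exact (freeRes_congr3 ε m).symm.trans (v2 m)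

/-- the two universal relations -/
def UA (b : Bool) (p : ℕ) : Prop :=
  KU (Nat.pair (bif b then p.unpair.1.unpair.1.unpair.1 else p.unpair.1.unpair.1.unpair.2)
    (Nat.pair p.unpair.1.unpair.2 p.unpair.2))

theorem ua_re (b : Bool) : REPred (UA b) := by
  have h1 : Primrec fun p : ℕ => p.unpair.1.unpair.1 :=
    Primrec.fst.comp (Primrec.unpair.comp (Primrec.fst.comp Primrec.unpair))
  have h2 : Primrec fun p : ℕ => p.unpair.1.unpair.2 :=
    Primrec.snd.comp (Primrec.unpair.comp (Primrec.fst.comp Primrec.unpair))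
  have h3 : Primrec fun p : ℕ => (Nat.pair p.unpair.1.unpair.2 p.unpair.2) :=
    Primrec₂.natPair.comp h2 (Primrec.snd.comp Primrec.unpair)
  have h4 : Primrec fun p : ℕ =>
      (bif b then p.unpair.1.unpair.1.unpair.1 else p.unpair.1.unpair.1.unpair.2) := by
    cases b
    · exact Primrec.snd.comp (Primrec.unpair.comp h1)
    · exact Primrec.fst.comp (Primrec.unpair.comp h1)
  exact KU_re.comp (Primrec₂.natPair.comp h4 h3).to_comp

/-- a code of a recursively enumerable set -/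
theorem re_code (P : ℕ → Prop) (h : REPred P) : ∃ a : ℕ, ∀ n, KU (Nat.pair a n) ↔ P n := by
  obtain ⟨c, hc⟩ := Nat.Partrec.Code.exists_code.1 h
  refine ⟨Encodable.encode c, fun n => ?_⟩
  unfold KU
  rw [Nat.unpair_pair]
  have h4 : Denumerable.ofNat Nat.Partrec.Code (Encodable.encode c) = c :=
    Denumerable.ofNat_encode c
  change (Nat.Partrec.Code.eval (Denumerable.ofNat Nat.Partrec.Code (Encodable.encode c)) n).Dom ↔ _
  rw [h4, hc]
  simp only [Encodable.decode_nat, Part.coe_some, Part.bind_some, Part.map_Dom]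
  exact ⟨fun h => h.1, fun h => ⟨h, trivial⟩⟩

/-- one group of type (FF) for all limit computable functions -/
theorem lim_univ (G : Type) [Group G] (hG : Group.IsFinitelyPresented G) (hF : TypeFP G) :
    ∃ p : Pres, TypeFF (Gp p) ∧ (∃ j : G →* Gp p, Function.Injective j) ∧
      ∀ c : ℕ → ℕ, LimComp c → ∃ W : ℕ → List Word, Primrec W ∧ ∀ e,
        Group.IsFinitelyPresented (subW p (W e)) ∧ TypeFP (subW p (W e)) ∧
        ∀ m, FreeRes m (subW p (W e)) ↔ FreeRes (m * c e) G := by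
  obtain ⟨p, W, hp, hj, hW, h⟩ := fixed_hard2 G hG hF (UA true) (UA false) (ua_re true)
    (ua_re false)
  refine ⟨p, hp, hj, fun c hc => ?_⟩
  obtain ⟨n₁, n₂, h₁, h₂, h₃⟩ := lim_diff c hc
  obtain ⟨a₁, ha₁⟩ := re_code _ h₁
  obtain ⟨a₂, ha₂⟩ := re_code _ h₂
  refine ⟨fun e => W (Nat.pair (Nat.pair a₁ a₂) e),
    hW.comp (Primrec₂.natPair.comp (Primrec.const _) Primrec.id), fun e => ?_⟩
  obtain ⟨k1, k2, k3⟩ := h (Nat.pair (Nat.pair a₁ a₂) e) (n₁ e) (n₂ e) (fun i => by
      unfold UA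
      simp only [Nat.unpair_pair, cond_true]
      rw [ha₁]
      simp) (fun i => by
      unfold UA
      simp only [Nat.unpair_pair, cond_false]
      rw [ha₂]
      simp)
  refine ⟨k1, k2, fun m => ?_⟩
  rw [k3 m, h₃, Int.natAbs_natCast]

end Pool.Agent.SDec
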